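import Pool.Agent.Lib.MP_7b99f3_ag.Tie

/-!
All clusters of the same size have the same winding numbers, once the tie lemma holds.
-/

namespace Pool.Agent.Lib.MP_7b99f3_ag

open Topology

variable {k n m : ℕ} {D : Datum k n}

/-- centres equidistant from three points -/
def Zs (x : Fin k → ℂ) : Set ℂ := {p | ∃ i j l, i ≠ j ∧ j ≠ l ∧ i ≠ l ∧
  ‖x i - p‖ = ‖x j - p‖ ∧ ‖x j - p‖ = ‖x l - p‖}

theorem countable_Zs {x : Fin k → ℂ} (hx : Function.Injective x) : (Zs x).Countable := by
  have h1 : Zs x ⊆ ⋃ (t : Fin k × Fin k × Fin k), {p | t.1 ≠ t.2.1 ∧ t.2.1 ≠ t.2.2 ∧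
      t.1 ≠ t.2.2 ∧ ‖x t.1 - p‖ = ‖x t.2.1 - p‖ ∧ ‖x t.2.1 - p‖ = ‖x t.2.2 - p‖} := by
    rintro p ⟨i, j, l, h⟩
    exact Set.mem_iUnion.mpr ⟨(i, j, l), h⟩
  refine Set.Countable.mono h1 (Set.countable_iUnion fun t => ?_)
  refine Set.Subsingleton.countable ?_
  rintro p ⟨h1, h2, h3, h4, h5⟩ q ⟨_, _, _, h4', h5'⟩
  by_contra hne
  have hd : ∀ (u v : ℂ), dist u v = ‖u - v‖ := fun u v => dist_eq_norm u v
  rcases EuclideanGeometry.eq_of_dist_eq_of_dist_eq_of_finrank_eq_two (V := ℂ) (P := ℂ)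
    Complex.finrank_real_complex (c₁ := p) (c₂ := q) (p₁ := x t.1) (p₂ := x t.2.1)
    (p := x t.2.2) (r₁ := ‖x t.2.1 - p‖) (r₂ := ‖x t.2.1 - q‖) hne
    (fun e => h1 (hx e)) (by rw [hd, h4]) (by rw [hd]) (by rw [hd, h5]) (by rw [hd, h4'])
    (by rw [hd]) (by rw [hd, h5']) with h | h
  · exact h3 (hx h).symm
  · exact h2 (hx h).symm

/-- `S` consists of `m` points nearest to `p` -/
def WN (x : Fin k → ℂ) (p : ℂ) (m : ℕ) (S : Finset (Fin k)) : Prop :=
  S.card = m ∧ ∀ i ∈ S, ∀ j ∉ S, ‖x i - p‖ ≤ ‖x j - p‖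

theorem exists_WN (x : Fin k → ℂ) (p : ℂ) {m : ℕ} (hm : m ≤ k) : ∃ S, WN x p m S := by
  set σ := Tuple.sort (fun i => ‖x i - p‖) with hσ
  have hmono := Tuple.monotone_sort (fun i => ‖x i - p‖)
  rw [← hσ] at hmono
  refine ⟨(cl k m).map σ.toEmbedding, by rw [Finset.card_map, card_cl hm], fun i hi j hj => ?_⟩
  rw [Finset.mem_map_equiv, mem_cl] at hi hj
  have h1 : σ.symm i ≤ σ.symm j := by
    rw [Fin.le_def]; omega
  have h2 := hmono h1
  simpa using h2

theorem WN_eventually (hm0 : 0 < m) (hmk : m < k) (hTie : Tie D m) {x : Fin k → ℂ} {κ : ℂ}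
    {μ : Fin n → ℂ} (h : St D x κ μ) {p : ℂ} (hp : p ∉ Zs x) {S : Finset (Fin k)}
    (hS : WN x p m S) : ∀ᶠ p' in 𝓝 p, ∀ S', WN x p' m S' → WI D x κ μ S' = WI D x κ μ S := by
  obtain ⟨hcard, hle⟩ := hS
  have hSne : S.Nonempty := Finset.card_pos.mp (by omega)
  have hScne : Sᶜ.Nonempty := Finset.card_pos.mp (by
    rw [Finset.card_compl, Fintype.card_fin]; omega)
  obtain ⟨a, ha, hamax⟩ := Finset.exists_max_image S (fun i => ‖x i - p‖) hSne
  obtain ⟨b, hb, hbmin⟩ := Finset.exists_min_image Sᶜ (fun i => ‖x i - p‖) hScne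
  rw [Finset.mem_compl] at hb
  have hc : ∀ w, ContinuousAt (fun q : ℂ => ‖x w - q‖) p := by
    intro w; fun_prop
  have hev : ∀ᶠ q in 𝓝 p, ∀ u v, ‖x u - p‖ < ‖x v - p‖ → ‖x u - q‖ < ‖x v - q‖ := by
    rw [Filter.eventually_all]
    intro u
    rw [Filter.eventually_all]
    intro v
    by_cases h : ‖x u - p‖ < ‖x v - p‖
    · filter_upwards [(hc u).eventually_lt (hc v) h] with q hq _ using hq
    · exact Filter.Eventually.of_forall fun ε h' => absurd h' h
  filter_upwards [hev] with q hq S' hS'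
  obtain ⟨hcard', hle'⟩ := hS'
  rcases (hle a ha b hb).lt_or_eq with hlt | heq
  · -- no tie
    have : S' = S := by
      by_contra hne
      have h1 : ¬ S ⊆ S' := fun h2 =>
        hne (Finset.eq_of_subset_of_card_le h2 (by omega)).symm
      have h1' : ¬ S' ⊆ S := fun h2 =>
        hne (Finset.eq_of_subset_of_card_le h2 (by omega))
      obtain ⟨i, hi, hi'⟩ := Finset.not_subset.mp h1
      obtain ⟨j, hj, hj'⟩ := Finset.not_subset.mp h1'
      have h2 := hle' j hj i hi'
      have h3 := hq i j (by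
        have e1 := hamax i hi
        have e2 := hbmin j (Finset.mem_compl.mpr hj')
        linarith)
      linarith
    rw [this]
  · -- a tie
    have hab : a ≠ b := by rintro rfl; exact hb ha
    have hthird : ∀ i, i ≠ a → i ≠ b → ‖x i - p‖ ≠ ‖x a - p‖ := by
      intro i hia hib he
      exact hp ⟨i, a, b, hia, hab, hib, he, heq⟩
    set J := S.erase a with hJ
    have hJcard : J.card + 1 = m := by
      rw [hJ, Finset.card_erase_of_mem ha]; omega
    have hS : S = insert a J := (Finset.insert_erase ha).symm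
    have hJb : b ∉ J := fun e => hb (Finset.mem_of_mem_erase e)
    have hJa : a ∉ J := Finset.notMem_erase a S
    have hin : ∀ j ∈ J, ‖x j - p‖ < ‖x a - p‖ := by
      intro j hj
      rcases (hamax j (Finset.mem_of_mem_erase hj)).lt_or_eq with h1 | h1
      · exact h1
      · exact absurd h1 (hthird j (Finset.ne_of_mem_erase hj) (fun e => hJb (e ▸ hj)))
    have hout : ∀ j ∉ J, j ≠ a → j ≠ b → ‖x a - p‖ < ‖x j - p‖ := by
      intro j hj hja hjb
      have hjS : j ∉ S := fun e => hj (Finset.mem_erase.mpr ⟨hja, e⟩)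
      rcases (hbmin j (Finset.mem_compl.mpr hjS)).lt_or_eq with h1 | h1
      · rw [heq]; exact h1
      · exact absurd (h1.symm.trans heq.symm) (hthird j hja hjb)
    have htie : TieAt x p ‖x a - p‖ J a b := ⟨hJa, hJb, hab, hin, rfl, heq.symm, hout⟩
    have hJS' : J ⊆ S' := by
      intro i hi
      by_contra hi'
      obtain ⟨j, hj, hj'⟩ := Finset.exists_mem_notMem_of_card_lt_card
        (s := J) (t := S') (by omega)
      have h1 := hle' j hj i hi'
      have h2 := hq i j (by
        by_cases hja : j = a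
        · rw [hja]; exact hin i hi
        · by_cases hjb : j = b
          · rw [hjb, ← heq]; exact hin i hi
          · exact (hin i hi).trans (hout j hj' hja hjb))
      linarith
    have hS'ab : ∀ j ∈ S', j ∉ J → j = a ∨ j = b := by
      intro j hj hjJ
      by_contra hcon
      rw [not_or] at hcon
      have hcard2 : (insert b (insert a J)).card = m + 1 := by
        rw [Finset.card_insert_of_notMem, Finset.card_insert_of_notMem hJa]
        · omega
        · rw [Finset.mem_insert, not_or]; exact ⟨hab.symm, hJb⟩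
      obtain ⟨i, hi, hi'⟩ := Finset.exists_mem_notMem_of_card_lt_card
        (s := S') (t := insert b (insert a J)) (by omega)
      have h1 := hle' j hj i hi'
      have h2 := hq i j (by
        rcases Finset.mem_insert.mp hi with rfl | hi
        · rw [← heq]; exact hout j hjJ hcon.1 hcon.2
        · rcases Finset.mem_insert.mp hi with rfl | hi
          · exact hout j hjJ hcon.1 hcon.2
          · exact absurd (hJS' hi) hi')
      linarith
    obtain ⟨c, hc, hc'⟩ := Finset.exists_mem_notMem_of_card_lt_card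
        (s := J) (t := S') (by omega)
    have hS'eq : S' = insert c J := by
      refine (Finset.eq_of_subset_of_card_le ?_ ?_).symm
      · intro i hi
        rcases Finset.mem_insert.mp hi with rfl | hi
        · exact hc
        · exact hJS' hi
      · rw [Finset.card_insert_of_notMem hc']; omega
    rcases hS'ab c hc hc' with rfl | rfl
    · rw [hS'eq, hS]
    · rw [hS'eq, hS]
      exact (hTie x κ μ h p _ J a c htie hJcard).symm

theorem exists_notMem_Zs {x : Fin k → ℂ} (hx : Function.Injective x) {p : ℂ} {I : Finset (Fin k)}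
    (hs : SepAt x p I) : ∃ q, q ∉ Zs x ∧ SepAt x q I := by
  have h1 : ∀ᶠ q in 𝓝 p, SepAt x q I :=
    SepAt.eventually (x := fun _ => x) (p := fun q => q) continuousAt_const continuousAt_id hs
  have h2 : Dense (Zs x)ᶜ := (countable_Zs hx).dense_compl ℝ
  obtain ⟨U, hU, hUo, hpU⟩ := eventually_nhds_iff.mp h1
  obtain ⟨q, hq, hq'⟩ := h2.exists_mem_open hUo ⟨p, hpU⟩
  exact ⟨q, hq, hU q hq'⟩

theorem conn (hm0 : 0 < m) (hmk : m < k)
    (hTie : Tie D m) {x : Fin k → ℂ} {κ : ℂ} {μ : Fin n → ℂ} (h : St D x κ μ)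
    {I I' : Finset (Fin k)} (hI : I.card = m) (hI' : I'.card = m) {p p' : ℂ}
    (hs : SepAt x p I) (hs' : SepAt x p' I') : WI D x κ μ I = WI D x κ μ I' := by
  obtain ⟨q, hq, hsq⟩ := exists_notMem_Zs h.inj hs
  obtain ⟨q', hq', hsq'⟩ := exists_notMem_Zs h.inj hs'
  choose S hS using fun q => exists_WN x q hmk.le
  have hconn : PreconnectedSpace ((Zs x)ᶜ : Set ℂ) := by
    rw [← isPreconnected_iff_preconnectedSpace]
    refine IsConnected.isPreconnected (IsPathConnected.isConnected
      ((countable_Zs h.inj).isPathConnected_compl_of_one_lt_rank ?_))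
    rw [Complex.rank_real_complex]
    exact Nat.one_lt_ofNat
  have hloc : IsLocallyConstant fun q : ((Zs x)ᶜ : Set ℂ) => WI D x κ μ (S q) := by
    rw [IsLocallyConstant.iff_eventually_eq]
    rintro ⟨r, hr⟩
    have h1 := WN_eventually hm0 hmk hTie h hr (hS r)
    have h2 : Filter.Tendsto (Subtype.val : ((Zs x)ᶜ : Set ℂ) → ℂ) (𝓝 ⟨r, hr⟩) (𝓝 r) :=
      continuous_subtype_val.continuousAt
    replace h2 := h2.eventually h1
    filter_upwards [h2] with r' hr'
    exact hr' _ (hS r')
  have heq : ∀ {q : ℂ} {I : Finset (Fin k)}, I.card = m → SepAt x q I → S q = I := by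
    intro q I hI hs
    by_contra hne
    have h1 : ¬ S q ⊆ I := fun h2 =>
      hne (Finset.eq_of_subset_of_card_le h2 (by have := (hS q).1; omega))
    have h1' : ¬ I ⊆ S q := fun h2 =>
      hne (Finset.eq_of_subset_of_card_le h2 (by have := (hS q).1; omega)).symm
    obtain ⟨i, hi, hi'⟩ := Finset.not_subset.mp h1
    obtain ⟨j, hj, hj'⟩ := Finset.not_subset.mp h1'
    have h2 := (hS q).2 i hi j hj'
    have h3 := hs.lt hj hi'
    linarith
  have := hloc.apply_eq_of_preconnectedSpace ⟨q, hq⟩ ⟨q', hq'⟩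
  simp only at this
  rwa [heq hI hsq, heq hI' hsq'] at this

/-- every configuration has a separable cluster of any given size -/
theorem exists_sep {x : Fin k → ℂ} (hx : Function.Injective x) {m : ℕ} (hm : m ≤ k) :
    ∃ S : Finset (Fin k), S.card = m ∧ ∃ p, SepAt x p S := by
  -- a centre without any tie
  have hcount : ∀ t : Fin k × Fin k, t.1 ≠ t.2 → ∃ v : ℂ, v ≠ 0 ∧
      ∀ p, ‖x t.1 - p‖ = ‖x t.2 - p‖ → (star v * (p - (x t.1 + x t.2) / 2)).re = 0 := by
    intro t ht
    refine ⟨x t.2 - x t.1, sub_ne_zero.mpr fun e => ht (hx e).symm, fun p hp => ?_⟩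
    have h1 : ‖x t.1 - p‖ ^ 2 = ‖x t.2 - p‖ ^ 2 := by rw [hp]
    simp only [Complex.sq_norm, Complex.normSq_apply, Complex.sub_re, Complex.sub_im] at h1
    simp only [Complex.star_def, Complex.mul_re, Complex.conj_re, Complex.conj_im,
      Complex.sub_re, Complex.sub_im, Complex.add_re, Complex.add_im, Complex.div_ofNat_re,
      Complex.div_ofNat_im]
    linarith
  -- choose a direction and a base point: a line meeting each bisector at most once
  have hdir : ∃ w : ℂ, ∀ t : Fin k × Fin k, t.1 ≠ t.2 →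
      (star (x t.2 - x t.1) * w).re ≠ 0 := by
    -- the bad directions form countably many real lines; use w = 1 + i s
    have hbad : {s : ℝ | ∃ t : Fin k × Fin k, t.1 ≠ t.2 ∧
        (star (x t.2 - x t.1) * (1 + s * Complex.I)).re = 0}.Countable := by
      have h1 : {s : ℝ | ∃ t : Fin k × Fin k, t.1 ≠ t.2 ∧
        (star (x t.2 - x t.1) * (1 + s * Complex.I)).re = 0} ⊆
        ⋃ t : Fin k × Fin k, {s : ℝ | t.1 ≠ t.2 ∧
        (star (x t.2 - x t.1) * (1 + s * Complex.I)).re = 0} := by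
        rintro s ⟨t, ht⟩
        exact Set.mem_iUnion.mpr ⟨t, ht⟩
      refine Set.Countable.mono h1 (Set.countable_iUnion fun t => Set.Subsingleton.countable ?_)
      rintro s ⟨ht, hs⟩ s' ⟨_, hs'⟩
      simp only [Complex.star_def, Complex.mul_re, Complex.conj_re, Complex.conj_im,
        Complex.sub_re, Complex.sub_im, Complex.add_re, Complex.add_im, Complex.one_re,
        Complex.one_im, Complex.mul_im, Complex.I_re, Complex.I_im, Complex.ofReal_re,
        Complex.ofReal_im] at hs hs'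
      ring_nf at hs hs'
      by_contra hne
      have e1 : ((x t.2).im - (x t.1).im) * (s - s') = 0 := by linarith
      rcases mul_eq_zero.mp e1 with e2 | e2
      · rw [show (x t.2).im = (x t.1).im by linarith] at hs
        have e3 : (x t.2).re = (x t.1).re := by linarith
        exact ht (hx (Complex.ext e3.symm (by linarith)))
      · exact hne (by linarith)
    obtain ⟨s, hs⟩ := (hbad.dense_compl ℝ).nonempty
    refine ⟨1 + s * Complex.I, fun t ht h0 => hs ⟨t, ht, h0⟩⟩
  obtain ⟨w, hw⟩ := hdir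
  have hbad : {s : ℝ | ∃ t : Fin k × Fin k, t.1 ≠ t.2 ∧
      ‖x t.1 - s * w‖ = ‖x t.2 - s * w‖}.Countable := by
    have h1 : {s : ℝ | ∃ t : Fin k × Fin k, t.1 ≠ t.2 ∧
      ‖x t.1 - s * w‖ = ‖x t.2 - s * w‖} ⊆
      ⋃ t : Fin k × Fin k, {s : ℝ | t.1 ≠ t.2 ∧ ‖x t.1 - s * w‖ = ‖x t.2 - s * w‖} := by
      rintro s ⟨t, ht⟩
      exact Set.mem_iUnion.mpr ⟨t, ht⟩
    refine Set.Countable.mono h1 (Set.countable_iUnion fun t => Set.Subsingleton.countable ?_)
    rintro s ⟨ht, hs⟩ s' ⟨_, hs'⟩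
    have h2 : ‖x t.1 - s * w‖ ^ 2 = ‖x t.2 - s * w‖ ^ 2 := by rw [hs]
    have h3 : ‖x t.1 - s' * w‖ ^ 2 = ‖x t.2 - s' * w‖ ^ 2 := by rw [hs']
    have h4 := hw t ht
    by_contra hne
    apply h4
    simp only [Complex.sq_norm, Complex.normSq_apply, Complex.sub_re, Complex.sub_im,
      Complex.mul_re, Complex.mul_im, Complex.ofReal_re, Complex.ofReal_im] at h2 h3
    simp only [Complex.star_def, Complex.mul_re, Complex.conj_re, Complex.conj_im,
        Complex.sub_re, Complex.sub_im]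
    have h5 : (s - s') * (((x t.2).re - (x t.1).re) * w.re + ((x t.2).im - (x t.1).im) * w.im)
        = 0 := by linarith
    rcases mul_eq_zero.mp h5 with e | e
    · exact absurd (by linarith) hne
    · linarith
  obtain ⟨s, hs⟩ := (hbad.dense_compl ℝ).nonempty
  obtain ⟨S, hS1, hS2⟩ := exists_WN x (s * w) hm
  refine ⟨S, hS1, s * w, sepAt_of_lt fun i hi j hj => ?_⟩
  rcases (hS2 i hi j hj).lt_or_eq with h1 | h1
  · exact h1
  · exact absurd ⟨(i, j), fun e => hj (by simp only at e; rwa [← e]), h1⟩ hs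

end Pool.Agent.Lib.MP_7b99f3_ag
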