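import Pool.Agent.Lib.MP_7b99f3_ag.StepE

/-!
The map on normalised configurations is constant.
-/

namespace Pool.Agent.Lib.MP_7b99f3_ag

open Topology Filter

variable {k n : ℕ} {D : Datum k n}

theorem RT_chain (hk : 3 ≤ k) (hn : 2 ≤ n) (hV2 : Van D 2) (hVk : Van D (k - 1)) (T : ℂ)
    (c : Fin n) {x y : Fin k → ℂ} (hx : Function.Injective x) (hy : Function.Injective y)
    (hxy : ∀ i j, y i ≠ x j) (m : ℕ) (hm : m ≤ k) :
    RT D T c (fun i : Fin k => if (i : ℕ) < m then y i else x i) = RT D T c x := by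
  have hinj : ∀ m : ℕ, Function.Injective
      (fun i : Fin k => if (i : ℕ) < m then y i else x i) := by
    intro m i j hij
    simp only at hij
    split_ifs at hij with h1 h2 h2
    · exact hy hij
    · exact absurd hij (hxy _ _)
    · exact absurd hij.symm (hxy _ _)
    · exact hx hij
  induction m with
  | zero => simp
  | succ m ih =>
    rw [← ih (by omega)]
    have h1 : (fun i : Fin k => if (i : ℕ) < m + 1 then y i else x i) =
        Function.update (fun i : Fin k => if (i : ℕ) < m then y i else x i) ⟨m, by omega⟩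
          (y ⟨m, by omega⟩) := by
      funext i
      by_cases hi : i = ⟨m, by omega⟩
      · subst hi
        rw [Function.update_self, if_pos (by simp)]
      · rw [Function.update_of_ne hi]
        have : (i : ℕ) ≠ m := fun e => hi (Fin.ext e)
        by_cases h2 : (i : ℕ) < m
        · rw [if_pos h2, if_pos (by omega)]
        · rw [if_neg h2, if_neg (by omega)]
    rw [h1]
    refine RT_move hk hn hV2 hVk T c (hinj m) _ fun a ha => ?_
    split_ifs with h2
    · exact fun e => ha (hy e)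
    · exact (hxy _ _).symm

theorem RT_const (hk : 3 ≤ k) (hn : 2 ≤ n) (hV2 : Van D 2) (hVk : Van D (k - 1)) (T : ℂ)
    (c : Fin n) {x x' : Fin k → ℂ} (hx : Function.Injective x) (hx' : Function.Injective x') :
    RT D T c x = RT D T c x' := by
  set B : ℝ := ∑ a, ‖x a‖ + ∑ a, ‖x' a‖ with hB
  have h0 : 0 ≤ ∑ a, ‖x a‖ := Finset.sum_nonneg fun _ _ => norm_nonneg _
  have h0' : 0 ≤ ∑ a, ‖x' a‖ := Finset.sum_nonneg fun _ _ => norm_nonneg _
  set y : Fin k → ℂ := fun i => ((B + 1 + (i : ℕ) : ℝ) : ℂ) with hy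
  have hyn : ∀ i, ‖y i‖ = B + 1 + (i : ℕ) := by
    intro i
    rw [hy, Complex.norm_real, Real.norm_eq_abs, abs_of_nonneg]
    positivity
  have hyi : Function.Injective y := by
    intro i j hij
    have h1 := hyn i
    rw [hij, hyn] at h1
    have : ((j : ℕ) : ℝ) = (i : ℕ) := by linarith
    exact Fin.ext (by exact_mod_cast this.symm)
  have hxy : ∀ i j, y i ≠ x j := by
    intro i j e
    have h1 := hyn i
    rw [e] at h1
    have h2 := Finset.single_le_sum (f := fun a => ‖x a‖) (fun _ _ => norm_nonneg _)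
      (Finset.mem_univ j)
    have h3 : (0 : ℝ) ≤ (i : ℕ) := Nat.cast_nonneg _
    linarith
  have hxy' : ∀ i j, y i ≠ x' j := by
    intro i j e
    have h1 := hyn i
    rw [e] at h1
    have h2 := Finset.single_le_sum (f := fun a => ‖x' a‖) (fun _ _ => norm_nonneg _)
      (Finset.mem_univ j)
    have h3 : (0 : ℝ) ≤ (i : ℕ) := Nat.cast_nonneg _
    linarith
  rw [← RT_chain hk hn hV2 hVk T c hx hyi hxy k le_rfl,
    ← RT_chain hk hn hV2 hVk T c hx' hyi hxy' k le_rfl]
  congr 1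
  funext i
  simp [i.2]

/-- each coordinate takes finitely many values -/
theorem G_finite (hk : 3 ≤ k) (hn : 2 ≤ n) (hV2 : Van D 2) (hVk : Van D (k - 1)) (c : Fin n) :
    ∃ V : Set ℂ, V.Finite ∧ ∀ (x : Fin k → ℂ) (κ : ℂ), Function.Injective x →
      κ ^ (k * (k - 1)) * vd x ^ 2 = 1 → D.G (nrm x κ) c ∈ V := by
  have hk2 : 2 ≤ k := by omega
  obtain ⟨κ₀, hκ₀⟩ := Lev.exists_kap hk2 (xs_injective (k := k))
  refine ⟨(fun i : ℕ => D.G (nrm (xs k) (zM k ^ i * κ₀)) c) '' (Finset.range (k * (k - 1))),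
    (Finset.finite_toSet _).image _, fun x κ hx hκ => ?_⟩
  set T := D.G (nrm x κ) c with hT
  have h1 : RT D T c x = 0 := by
    rw [RT_eq hk2 T c hκ]
    refine Finset.prod_eq_zero (i := 0) (Finset.mem_range.mpr
      (Nat.pos_of_ne_zero (M_ne hk2))) ?_
    rw [pow_zero, one_mul, ← hT, sub_self]
  rw [RT_const hk hn hV2 hVk T c hx xs_injective, RT_eq hk2 T c hκ₀,
    Finset.prod_eq_zero_iff] at h1
  obtain ⟨i, hi, h2⟩ := h1
  exact ⟨i, by simpa using hi, (sub_eq_zero.mp h2).symm⟩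

theorem const_of_finite {f : ℝ → ℂ} (hf : Continuous f) {V : Set ℂ} (hV : V.Finite)
    (h : ∀ t, f t ∈ V) (s t : ℝ) : f s = f t := by
  have h1 : (Set.range f).Subsingleton :=
    hV.countable.isTotallyDisconnected (Set.range f) (by rintro _ ⟨t, rfl⟩; exact h t)
      (isPreconnected_range hf)
  exact h1 ⟨s, rfl⟩ ⟨t, rfl⟩

theorem G_path (hk : 3 ≤ k) (hn : 2 ≤ n) (hV2 : Van D 2) (hVk : Van D (k - 1))
    {X : ℝ → Fin k → ℂ} {κ : ℝ → ℂ} (hX : Continuous X) (hκ : Continuous κ)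
    (hinj : ∀ t, Function.Injective (X t))
    (h : ∀ t, κ t ^ (k * (k - 1)) * vd (X t) ^ 2 = 1) (s t : ℝ) :
    D.G (nrm (X s) (κ s)) = D.G (nrm (X t) (κ t)) := by
  have hc : Continuous fun t => D.G (nrm (X t) (κ t)) :=
    D.continuousOn_G.comp_continuous (continuous_nrm hX hκ) fun t => isN_nrm (by omega) (h t)
  funext c
  obtain ⟨V, hV, hmem⟩ := G_finite hk hn hV2 hVk c
  exact const_of_finite (f := fun t => D.G (nrm (X t) (κ t)) c)
    ((continuous_apply c).comp hc) hV (fun t => hmem _ _ (hinj t) (h t)) s t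

theorem G_const (hk : 3 ≤ k) (hn : 2 ≤ n) (hV2 : Van D 2) (hVk : Van D (k - 1)) {κ₀ : ℂ}
    (hκ₀ : κ₀ ^ (k * (k - 1)) * vd (xs k) ^ 2 = 1) {x : Fin k → ℂ} {κ : ℂ}
    (hx : Function.Injective x) (hκ : κ ^ (k * (k - 1)) * vd x ^ 2 = 1) :
    D.G (nrm x κ) = D.G (nrm (xs k) κ₀) := by
  have hk2 : 2 ≤ k := by omega
  obtain ⟨X, h1, h2, rfl, h4⟩ := conf_path hx (xs_injective (k := k))
  obtain ⟨κ', c1, c2, rfl⟩ := exists_kap_lift hk2 h1 h2 hκ
  rw [G_path hk hn hV2 hVk h1 c1 h2 c2 0 1]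
  have h5 := c2 1
  rw [h4] at h5 ⊢
  refine half_twist_induction hk (P := fun κ => D.G (nrm (xs k) κ) = D.G (nrm (xs k) κ₀)) ?_ hκ₀
    rfl h5
  intro κ'' d1 d2 hP
  have hsep : SepAt (xs k) 0 (cl k 2) := fconf_sepAt inc_xs le_rfl (by omega)
  have h6 := G_path hk hn hV2 hVk (D := D)
    (X := fun t : ℝ => rot (xs k) 0 (cl k 2) (Real.pi * Complex.I * t)) (κ := κ'')
    (continuous_rot continuous_const continuous_const (by fun_prop) _) d1
    (fun t => rot_injective xs_injective hsep (by simp)) d2 0 1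
  have h7 : rot (xs k) 0 (cl k 2) (Real.pi * Complex.I * ((1 : ℝ) : ℂ)) =
      xs k ∘ Equiv.swap (⟨0, by omega⟩ : Fin k) ⟨1, by omega⟩ := by
    rw [Complex.ofReal_one, mul_one]; exact rot_xs_half (by omega)
  have h8 := d2 1
  rw [h7, vd_comp_perm_sq] at h8
  simp only [h7] at h6
  rw [nrm_comp_perm, D.symm _ _ (isN_nrm (by omega) h8), hP] at h6
  simpa [rot_zero] using h6

/-- The main theorem on data: rank at most `k - 3` forces constancy. -/
theorem Datum.const (hk : 5 ≤ k) (hn : 2 ≤ n) (hRk : D.Rk) {y y' : Fin k → ℂ} (hy : IsN y)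
    (hy' : IsN y') : D.G y = D.G y' := by
  have hk2 : 2 ≤ k := by omega
  obtain ⟨m, hm2, hmk, hV⟩ := stepBC (D := D) (by omega : 3 ≤ k) (by omega : 0 < n) hRk
  have hVk := van_pred (by omega : 3 ≤ k) (by omega : 0 < n) hm2 hmk hV
  have hV2 := van_two hk hn hVk
  obtain ⟨κ₀, hκ₀⟩ := Lev.exists_kap hk2 (xs_injective (k := k))
  have key : ∀ y : Fin k → ℂ, IsN y → D.G y = D.G (nrm (xs k) κ₀) := by
    intro y hy
    have h1 : nrm y 1 = y := by
      funext i
      simp [nrm, mean, hy.1]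
    rw [← G_const (by omega : 3 ≤ k) hn hV2 hVk hκ₀ hy.injective
      (by rw [one_pow, one_mul]; exact hy.2), h1]
  rw [key y hy, key y' hy']

end Pool.Agent.Lib.MP_7b99f3_ag
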