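import Mathlib

/-!
The integral over the unit box of the Jacobian determinant of a quasi-periodic map is the
determinant of the matrix of periods.
-/

set_option autoImplicit false

namespace Pool.Agent.Lib.MP_7b99f3_ag

open MeasureTheory Set Finset

namespace DetPeriods

/-- The derivative in the direction of the `j`-th coordinate. -/
noncomputable def pd {m : ℕ} (u : (Fin m → ℝ) → ℂ) (j : Fin m) (θ : Fin m → ℝ) : ℂ :=
  fderiv ℝ u θ (Pi.single j 1)

lemma continuous_pd {m : ℕ} {u : (Fin m → ℝ) → ℂ} (hu : ContDiff ℝ 1 u) (j : Fin m) :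
    Continuous (pd u j) := by
  have h := hu.continuous_fderiv (by norm_num)
  exact h.clm_apply continuous_const

lemma contDiff_pd {m : ℕ} {u : (Fin m → ℝ) → ℂ} (hu : ContDiff ℝ 2 u) (j : Fin m) :
    ContDiff ℝ 1 (pd u j) := by
  have h : ContDiff ℝ 1 (fderiv ℝ u) := hu.fderiv_right (by norm_num)
  exact h.clm_apply contDiff_const

lemma integral_pd_eq_zero {m : ℕ} {u : (Fin m → ℝ) → ℂ} (hu : ContDiff ℝ 1 u) (j : Fin m)
    (hper : ∀ θ, u (θ + Pi.single j 1) = u θ) :
    ∫ θ in Set.Icc (0 : Fin m → ℝ) 1, pd u j θ = 0 := by
  classical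
  obtain ⟨n, rfl⟩ : ∃ n, m = n + 1 := ⟨m - 1, by have := j.2; omega⟩
  have h := integral_divergence_of_hasFDerivAt_off_countable' (0 : Fin (n + 1) → ℝ) 1
    (by intro i; simp) (fun i => if i = j then u else fun _ => 0)
    (fun i => if i = j then fderiv ℝ u else fun _ => 0) ∅ Set.countable_empty
    (by
      intro i
      by_cases hi : i = j
      · simp only [hi, if_true]
        exact hu.continuous.continuousOn
      · simp only [hi, if_false]
        exact continuousOn_const)
    (by
      intro x _ i
      by_cases hi : i = j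
      · simp only [hi, if_true]
        exact (hu.differentiable (by norm_num) x).hasFDerivAt
      · simp only [hi, if_false]
        exact hasFDerivAt_const _ _)
    (by
      have : (fun x : Fin (n + 1) → ℝ => ∑ i : Fin (n + 1),
          (if i = j then fderiv ℝ u else fun _ => 0) x (Pi.single i 1)) = pd u j := by
        funext x
        rw [Finset.sum_eq_single j]
        · simp [pd]
        · intro b _ hb
          simp [hb]
        · simp
      rw [this]
      exact (continuous_pd hu j).continuousOn.integrableOn_compact isCompact_Icc)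
  have h1 : ∀ x : Fin (n + 1) → ℝ, ∑ i : Fin (n + 1),
      (if i = j then fderiv ℝ u else fun _ => 0) x (Pi.single i 1) = pd u j x := by
    intro x
    rw [Finset.sum_eq_single j]
    · simp [pd]
    · intro b _ hb
      simp [hb]
    · simp
  simp only [h1] at h
  rw [h]
  apply Finset.sum_eq_zero
  intro i _
  by_cases hi : i = j
  · subst hi
    simp only [if_true]
    rw [sub_eq_zero]
    apply setIntegral_congr_fun measurableSet_Icc
    intro x _
    simp only
    rw [← hper (i.insertNth ((0 : Fin (n + 1) → ℝ) i) x)]
    congr 1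
    ext k
    rcases eq_or_ne k i with rfl | hk
    · simp
    · obtain ⟨l, rfl⟩ := Fin.exists_succAbove_eq hk
      simp
  · simp [hi]

lemma pd_mul {m : ℕ} {u v : (Fin m → ℝ) → ℂ} (hu : ContDiff ℝ 1 u) (hv : ContDiff ℝ 1 v)
    (j : Fin m) (θ : Fin m → ℝ) :
    pd (fun x => u x * v x) j θ = pd u j θ * v θ + u θ * pd v j θ := by
  have h := ((hu.differentiable (by norm_num) θ).hasFDerivAt.mul
    (hv.differentiable (by norm_num) θ).hasFDerivAt).fderiv
  simp only [pd]
  show fderiv ℝ (u * v) θ _ = _
  rw [h]
  simp
  ring

lemma pd_prod {m : ℕ} {ι : Type} [DecidableEq ι] (s : Finset ι) (v : ι → (Fin m → ℝ) → ℂ)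
    (hv : ∀ i, ContDiff ℝ 1 (v i)) (j : Fin m) (θ : Fin m → ℝ) :
    pd (fun x => ∏ i ∈ s, v i x) j θ = ∑ q ∈ s, pd (v q) j θ * ∏ i ∈ s.erase q, v i θ := by
  induction s using Finset.induction_on with
  | empty =>
    simp [pd]
  | insert a s ha ih =>
    have h1 : (fun x => ∏ i ∈ insert a s, v i x) = fun x => v a x * ∏ i ∈ s, v i x := by
      funext x
      rw [Finset.prod_insert ha]
    rw [h1, pd_mul (hv a) (contDiff_prod fun i _ => hv i), ih, Finset.sum_insert ha,
      Finset.erase_insert ha, Finset.mul_sum]
    congr 1
    apply Finset.sum_congr rfl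
    intro q hq
    have hqa : q ≠ a := fun h => ha (h ▸ hq)
    rw [Finset.erase_insert_of_ne hqa.symm, Finset.prod_insert (by simp [ha])]
    ring

lemma pd_pd_symm {m : ℕ} {u : (Fin m → ℝ) → ℂ} (hu : ContDiff ℝ 2 u) (j k : Fin m)
    (θ : Fin m → ℝ) : pd (pd u j) k θ = pd (pd u k) j θ := by
  have hd : DifferentiableAt ℝ (fderiv ℝ u) θ :=
    (hu.fderiv_right (m := 1) (by norm_num)).differentiable (by norm_num) θ
  have h : ∀ j k : Fin m, pd (pd u j) k θ =
      fderiv ℝ (fderiv ℝ u) θ (Pi.single k 1) (Pi.single j 1) := by
    intro j k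
    have h1 : fderiv ℝ (fun x => fderiv ℝ u x (Pi.single j 1)) θ =
        (fderiv ℝ (fderiv ℝ u) θ).flip (Pi.single j 1) := by
      rw [fderiv_clm_apply hd (differentiableAt_const _)]
      simp
    simp only [pd]
    show fderiv ℝ (fun x => fderiv ℝ u x (Pi.single j 1)) θ (Pi.single k 1) = _
    rw [h1]
    rfl
  rw [h, h]
  have hs := (hu.contDiffAt (x := θ)).isSymmSndFDerivAt (by simp)
  exact hs _ _

lemma integral_det_periodic_row {m : ℕ} (h : Fin m → (Fin m → ℝ) → ℂ)
    (hh : ∀ i, ContDiff ℝ 2 (h i)) (p : Fin m)
    (hper : ∀ i j k θ, pd (h i) k (θ + Pi.single j 1) = pd (h i) k θ)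
    (hp : ∀ j θ, h p (θ + Pi.single j 1) = h p θ) :
    ∫ θ in Set.Icc (0 : Fin m → ℝ) 1, Matrix.det (Matrix.of fun i j => pd (h i) j θ) = 0 := by
  classical
  set w : Equiv.Perm (Fin m) → Fin m → (Fin m → ℝ) → ℂ :=
    fun σ i => if i = p then h p else pd (h i) (σ i) with hw
  have hwC : ∀ σ i, ContDiff ℝ 1 (w σ i) := by
    intro σ i
    simp only [hw]
    split_ifs
    · exact (hh p).of_le (by norm_num)
    · exact contDiff_pd (hh i) _
  have hwper : ∀ σ i j θ, w σ i (θ + Pi.single j 1) = w σ i θ := by
    intro σ i j θ
    simp only [hw]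
    split_ifs
    · exact hp j θ
    · exact hper i j _ θ
  have huC : ∀ σ, ContDiff ℝ 1 (fun x => ∏ i, w σ i x) := fun σ =>
    contDiff_prod fun i _ => hwC σ i
  -- the pointwise identity
  have key : ∀ θ, Matrix.det (Matrix.of fun i j => pd (h i) j θ) =
      ∑ σ : Equiv.Perm (Fin m), ((Equiv.Perm.sign σ : ℤ) : ℂ) *
        pd (fun x => ∏ i, w σ i x) (σ p) θ := by
    intro θ
    have h1 : ∀ σ : Equiv.Perm (Fin m), pd (fun x => ∏ i, w σ i x) (σ p) θ =
        ∏ i, pd (h i) (σ i) θ + ∑ q ∈ Finset.univ.erase p,
          pd (pd (h q) (σ q)) (σ p) θ * ∏ i ∈ Finset.univ.erase q, w σ i θ := by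
      intro σ
      rw [pd_prod _ _ (hwC σ), ← Finset.add_sum_erase _ _ (Finset.mem_univ p)]
      congr 1
      · rw [← Finset.mul_prod_erase _ _ (Finset.mem_univ p)]
        congr 1
        · simp [hw]
        · apply Finset.prod_congr rfl
          intro i hi
          have : i ≠ p := (Finset.mem_erase.1 hi).1
          simp [hw, this]
      · apply Finset.sum_congr rfl
        intro q hq
        have : q ≠ p := (Finset.mem_erase.1 hq).1
        simp [hw, this]
    have h2 : ∀ q ∈ Finset.univ.erase p, ∑ σ : Equiv.Perm (Fin m),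
        ((Equiv.Perm.sign σ : ℤ) : ℂ) *
          (pd (pd (h q) (σ q)) (σ p) θ * ∏ i ∈ Finset.univ.erase q, w σ i θ) = 0 := by
      intro q hq
      have hqp : q ≠ p := (Finset.mem_erase.1 hq).1
      have h3 : ∀ σ : Equiv.Perm (Fin m),
          ((Equiv.Perm.sign (σ * Equiv.swap p q) : ℤ) : ℂ) *
            (pd (pd (h q) ((σ * Equiv.swap p q) q)) ((σ * Equiv.swap p q) p) θ *
              ∏ i ∈ Finset.univ.erase q, w (σ * Equiv.swap p q) i θ) =
          -(((Equiv.Perm.sign σ : ℤ) : ℂ) *
            (pd (pd (h q) (σ q)) (σ p) θ * ∏ i ∈ Finset.univ.erase q, w σ i θ)) := by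
        intro σ
        have h4 : ∏ i ∈ Finset.univ.erase q, w (σ * Equiv.swap p q) i θ =
            ∏ i ∈ Finset.univ.erase q, w σ i θ := by
          apply Finset.prod_congr rfl
          intro i hi
          have hiq : i ≠ q := (Finset.mem_erase.1 hi).1
          by_cases hip : i = p
          · simp [hw, hip]
          · simp only [hw, hip, if_false, Equiv.Perm.mul_apply]
            rw [Equiv.swap_apply_of_ne_of_ne hip hiq]
        rw [h4]
        simp only [Equiv.Perm.mul_apply, Equiv.swap_apply_left, Equiv.swap_apply_right]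
        rw [pd_pd_symm (hh q) (σ p) (σ q) θ, map_mul, Equiv.Perm.sign_swap hqp.symm]
        simp
      have h5 := Equiv.sum_comp (Equiv.mulRight (Equiv.swap p q))
        (fun σ : Equiv.Perm (Fin m) => ((Equiv.Perm.sign σ : ℤ) : ℂ) *
          (pd (pd (h q) (σ q)) (σ p) θ * ∏ i ∈ Finset.univ.erase q, w σ i θ))
      simp only [Equiv.coe_mulRight] at h5
      simp only [h3] at h5
      rw [Finset.sum_neg_distrib] at h5
      exact self_eq_neg.1 h5.symm
    simp only [h1, mul_add, Finset.sum_add_distrib]
    rw [← Matrix.det_transpose, Matrix.det_apply']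
    have h6 : ∑ σ : Equiv.Perm (Fin m), ((Equiv.Perm.sign σ : ℤ) : ℂ) *
        ∑ q ∈ Finset.univ.erase p,
          pd (pd (h q) (σ q)) (σ p) θ * ∏ i ∈ Finset.univ.erase q, w σ i θ = 0 := by
      simp only [Finset.mul_sum]
      rw [Finset.sum_comm]
      exact Finset.sum_eq_zero h2
    rw [h6, add_zero]
    rfl
  simp only [key]
  rw [integral_finsetSum]
  · apply Finset.sum_eq_zero
    intro σ _
    rw [integral_const_mul, integral_pd_eq_zero (huC σ), mul_zero]
    intro θ
    apply Finset.prod_congr rfl
    intro i _
    exact hwper σ i _ θ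
  · intro σ _
    exact (continuous_const.mul (continuous_pd (huC σ) _)).continuousOn.integrableOn_compact
      isCompact_Icc

/-- The same with the family of functions and the family of their periods. -/
lemma integral_det_eq_replace {m : ℕ} (F : Fin m → (Fin m → ℝ) → ℂ)
    (hF : ∀ i, ContDiff ℝ 2 (F i)) (A : Matrix (Fin m) (Fin m) ℂ)
    (hA : ∀ θ j i, F i (θ + Pi.single j 1) = F i θ + A i j) (S : Finset (Fin m)) :
    ∫ θ in Set.Icc (0 : Fin m → ℝ) 1, Matrix.det (Matrix.of fun i j => pd (F i) j θ) =
    ∫ θ in Set.Icc (0 : Fin m → ℝ) 1,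
      Matrix.det (Matrix.of fun i j => if i ∈ S then A i j else pd (F i) j θ) := by
  classical
  -- the linear forms
  set L : Fin m → (Fin m → ℝ) → ℂ := fun i θ => ∑ j, A i j * (θ j : ℂ) with hL
  have hLC : ∀ i, ContDiff ℝ 2 (L i) := by
    intro i
    apply ContDiff.sum
    intro j _
    apply contDiff_const.mul
    exact Complex.ofRealCLM.contDiff.comp (contDiff_apply ℝ ℝ j)
  have hLpd : ∀ i j θ, pd (L i) j θ = A i j := by
    intro i j θ
    have h1 : HasFDerivAt (L i) (∑ k, A i k • (Complex.ofRealCLM.comp
        (ContinuousLinearMap.proj k : (Fin m → ℝ) →L[ℝ] ℝ))) θ := by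
      apply HasFDerivAt.fun_sum
      intro k _
      apply HasFDerivAt.const_mul
      exact (Complex.ofRealCLM.comp
        (ContinuousLinearMap.proj k : (Fin m → ℝ) →L[ℝ] ℝ)).hasFDerivAt
    simp only [pd]
    rw [h1.fderiv]
    simp only [_root_.sum_apply, _root_.smul_apply, ContinuousLinearMap.comp_apply,
      ContinuousLinearMap.proj_apply, Complex.ofRealCLM_apply, smul_eq_mul]
    rw [Finset.sum_eq_single j]
    · simp
    · intro b _ hb
      simp [Pi.single_eq_of_ne hb]
    · simp
  have hLper : ∀ θ j i, L i (θ + Pi.single j 1) = L i θ + A i j := by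
    intro θ j i
    simp only [hL, Pi.add_apply, Complex.ofReal_add, mul_add, Finset.sum_add_distrib]
    congr 1
    rw [Finset.sum_eq_single j]
    · simp
    · intro b _ hb
      simp [Pi.single_eq_of_ne hb]
    · simp
  have hpdper : ∀ (u : (Fin m → ℝ) → ℂ) (c : Fin m → ℂ),
      (∀ θ j, u (θ + Pi.single j 1) = u θ + c j) →
      ∀ j k θ, pd u k (θ + Pi.single j 1) = pd u k θ := by
    intro u c hu j k θ
    simp only [pd]
    have h1 : (fun x => u (x + Pi.single j 1)) = fun x => u x + c j := funext fun x => hu x j
    have h2 : fderiv ℝ (fun x => u (x + Pi.single j 1)) θ = fderiv ℝ u (θ + Pi.single j 1) :=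
      fderiv_comp_add_right _
    rw [← h2, h1, fderiv_add_const]
  induction S using Finset.induction_on with
  | empty => simp
  | insert p S hpS ih =>
    rw [ih]
    -- row `p` splits
    have hsplit : ∀ θ, Matrix.det (Matrix.of fun i j => if i ∈ S then A i j else pd (F i) j θ) =
        Matrix.det (Matrix.of fun i j => if i ∈ insert p S then A i j else pd (F i) j θ) +
        Matrix.det (Matrix.of fun i j => pd (fun x => if i = p then F p x - L p x else
          if i ∈ S then L i x else F i x) j θ) := by
      intro θ
      set M : Matrix (Fin m) (Fin m) ℂ := Matrix.of fun i j =>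
        if i ∈ S then A i j else pd (F i) j θ with hM
      have e1 : M = M.updateRow p ((fun j => A p j) + fun j => pd (F p) j θ - A p j) := by
        ext i j
        by_cases hi : i = p
        · subst hi
          simp [hM, hpS]
        · simp [Matrix.updateRow_ne hi]
      have e2 : (Matrix.of fun i j => if i ∈ insert p S then A i j else pd (F i) j θ) =
          M.updateRow p (fun j => A p j) := by
        ext i j
        by_cases hi : i = p
        · subst hi
          simp
        · simp [hM, hi]
      have e3 : (Matrix.of fun i j => pd (fun x => if i = p then F p x - L p x else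
          if i ∈ S then L i x else F i x) j θ) =
          M.updateRow p (fun j => pd (F p) j θ - A p j) := by
        ext i j
        by_cases hi : i = p
        · subst hi
          simp only [Matrix.of_apply, if_true, Matrix.updateRow_self]
          rw [← hLpd i j θ]
          simp only [pd]
          rw [fderiv_fun_sub ((hF i).differentiable (by norm_num) θ)
            ((hLC i).differentiable (by norm_num) θ)]
          rfl
        · simp only [Matrix.of_apply, hi, if_false, Matrix.updateRow_ne hi, hM]
          by_cases hiS : i ∈ S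
          · simp only [hiS, if_true]
            exact hLpd i j θ
          · simp only [hiS, if_false]
      rw [e2, e3, ← Matrix.det_updateRow_add, ← e1]
    have hCrow : ∀ i, ContDiff ℝ 2
        (fun x => if i = p then F p x - L p x else if i ∈ S then L i x else F i x) := by
      intro i
      by_cases h1 : i = p
      · simp only [h1, if_true]
        exact (hF p).sub (hLC p)
      · simp only [h1, if_false]
        by_cases h2 : i ∈ S
        · simp only [h2, if_true]
          exact hLC i
        · simp only [h2, if_false]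
          exact hF i
    have hzero : ∫ θ in Set.Icc (0 : Fin m → ℝ) 1, Matrix.det (Matrix.of fun i j =>
        pd (fun x => if i = p then F p x - L p x else if i ∈ S then L i x else F i x) j θ) = 0 := by
      apply integral_det_periodic_row
        (fun i x => if i = p then F p x - L p x else if i ∈ S then L i x else F i x) hCrow p
      · intro i j k θ
        apply hpdper _ (fun j => if i = p then 0 else A i j)
        intro θ j
        by_cases h1 : i = p
        · simp only [h1, if_true]
          rw [hA, hLper]; ring
        · simp only [h1, if_false]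
          by_cases h2 : i ∈ S
          · simp only [h2, if_true]
            rw [hLper]
          · simp only [h2, if_false]
            rw [hA]
      · intro j θ
        show (if p = p then F p (θ + Pi.single j 1) - L p (θ + Pi.single j 1) else _) =
          (if p = p then F p θ - L p θ else _)
        rw [if_pos rfl, if_pos rfl, hA, hLper]; ring
    simp only [hsplit]
    rw [integral_add, hzero, add_zero]
    · refine ContinuousOn.integrableOn_compact isCompact_Icc (Continuous.continuousOn ?_)
      apply Continuous.matrix_det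
      apply continuous_matrix
      intro i j
      simp only [Matrix.of_apply]
      by_cases h1 : i ∈ insert p S
      · simp only [h1, if_true]
        exact continuous_const
      · simp only [h1, if_false]
        exact continuous_pd ((hF i).of_le (by norm_num)) j
    · refine ContinuousOn.integrableOn_compact isCompact_Icc (Continuous.continuousOn ?_)
      apply Continuous.matrix_det
      apply continuous_matrix
      intro i j
      exact continuous_pd ((hCrow i).of_le (by norm_num)) j

end DetPeriods

open DetPeriods in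
/-- The integral over the unit box of the Jacobian determinant of a quasi-periodic map is the
determinant of its matrix of periods. -/
theorem integral_jacobian_eq_det {m : ℕ} (F : (Fin m → ℝ) → (Fin m → ℂ)) (hF : ContDiff ℝ 2 F)
    (A : Matrix (Fin m) (Fin m) ℂ) (hA : ∀ θ j i, F (θ + Pi.single j 1) i = F θ i + A i j) :
    ∫ θ in Set.Icc (0 : Fin m → ℝ) 1,
      Matrix.det (Matrix.of fun i j => fderiv ℝ F θ (Pi.single j 1) i) = A.det := by
  have hF' : ∀ i, ContDiff ℝ 2 (fun θ => F θ i) := fun i => contDiff_pi.1 hF i
  have h1 : ∀ θ i j, fderiv ℝ F θ (Pi.single j 1) i = pd (fun θ => F θ i) j θ := by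
    intro θ i j
    simp only [pd]
    rw [fderiv_pi fun i => (hF' i).differentiable (by norm_num) θ]
    rfl
  simp only [h1]
  rw [integral_det_eq_replace (fun i θ => F θ i) hF' A hA Finset.univ]
  have h2 : volume.real (Set.Icc (0 : Fin m → ℝ) 1) = 1 := by
    rw [Measure.real, Real.volume_Icc_pi_toReal (by intro i; simp)]
    simp
  simp only [Finset.mem_univ, if_true, setIntegral_const, h2, one_smul]
  rfl

end Pool.Agent.Lib.MP_7b99f3_ag
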