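import Mathlib

/-! Bloch's theorem, Schottky's theorem and the big Picard theorem for functions omitting
the values `0` and `1` on a punctured disc. -/

open Metric Set Filter Complex Topology

namespace Pool.Agent.Lib.MP_7b99f3_ag

/-- Holomorphic logarithms on balls with a prescribed value at the centre. -/
theorem pic_exists_log {g : ℂ → ℂ} {c : ℂ} {R : ℝ} (hR : 0 < R)
    (hg : DifferentiableOn ℂ g (ball c R)) (hne : ∀ z ∈ ball c R, g z ≠ 0) (v : ℂ)
    (hv : exp v = g c) :
    ∃ F : ℂ → ℂ, DifferentiableOn ℂ F (ball c R) ∧ F c = v ∧ ∀ z ∈ ball c R, exp (F z) = g z := by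
  have hd : DifferentiableOn ℂ (fun z => deriv g z / g z) (ball c R) :=
    (hg.deriv isOpen_ball).div hg hne
  obtain ⟨F, hFc, hF⟩ := (hd.isExactOn_ball).with_val_at c v
  refine ⟨F, fun z hz => (hF z hz).differentiableAt.differentiableWithinAt, hFc, ?_⟩
  have hgd : ∀ z ∈ ball c R, HasDerivAt g (deriv g z) z := fun z hz =>
    (hg.differentiableAt (isOpen_ball.mem_nhds hz)).hasDerivAt
  have hder : ∀ z ∈ ball c R, HasDerivAt (fun z => exp (F z) / g z) 0 z := by
    intro z hz
    have h1 := ((hF z hz).cexp).fun_div (hgd z hz) (hne z hz)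
    have h2 : exp (F z) * (deriv g z / g z) * g z - exp (F z) * deriv g z = 0 := by
      rw [mul_assoc, div_mul_cancel₀ _ (hne z hz), sub_self]
    rwa [h2, zero_div] at h1
  intro z hz
  have hc : c ∈ ball c R := mem_ball_self hR
  have hconst := isOpen_ball.is_const_of_deriv_eq_zero (convex_ball c R).isPreconnected
    (fun z hz => (hder z hz).differentiableAt.differentiableWithinAt)
    (fun z hz => (hder z hz).deriv) hz hc
  simp only [hFc, hv, div_self (hne c hc)] at hconst
  rwa [div_eq_one_iff_eq (hne z hz)] at hconst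

/-- A holomorphic function on a ball omitting `1` and `-1` is a cosine. -/
theorem pic_exists_cos {F : ℂ → ℂ} {c : ℂ} {R : ℝ} (hR : 0 < R)
    (hF : DifferentiableOn ℂ F (ball c R)) (h1 : ∀ z ∈ ball c R, F z ≠ 1)
    (h2 : ∀ z ∈ ball c R, F z ≠ -1) (v : ℂ) (hv : cos v = F c) :
    ∃ G : ℂ → ℂ, DifferentiableOn ℂ G (ball c R) ∧ G c = v ∧ ∀ z ∈ ball c R, cos (G z) = F z := by
  have hc : c ∈ ball c R := mem_ball_self hR
  have hne : ∀ z ∈ ball c R, 1 - F z ^ 2 ≠ 0 := by
    intro z hz h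
    have : (1 - F z) * (1 + F z) = 0 := by linear_combination h
    rcases mul_eq_zero.mp this with h' | h'
    · exact h1 z hz (by linear_combination -h')
    · exact h2 z hz (by linear_combination h')
  have hs : sin v ^ 2 = 1 - F c ^ 2 := by
    rw [← hv]
    have := sin_sq_add_cos_sq v
    linear_combination this
  have hs0 : sin v ≠ 0 := by
    intro h
    rw [h] at hs
    exact hne c hc (by rw [← hs]; ring)
  obtain ⟨L, hL, hLc, hLe⟩ := pic_exists_log hR
    (g := fun z => 1 - F z ^ 2) ((differentiableOn_const 1).sub (hF.pow 2)) hne (2 * log (sin v)) (by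
      rw [two_mul, exp_add, exp_log hs0, ← hs]; ring)
  let h : ℂ → ℂ := fun z => exp (L z / 2)
  have hhd : DifferentiableOn ℂ h (ball c R) := (hL.div_const 2).cexp
  have hh2 : ∀ z ∈ ball c R, h z ^ 2 = 1 - F z ^ 2 := by
    intro z hz
    have := hLe z hz
    rw [← this, pow_two, ← exp_add]
    congr 1
    ring
  have hhc : h c = sin v := by
    simp only [h, hLc]
    rw [mul_div_cancel_left₀ _ (two_ne_zero), exp_log hs0]
  have hprod : ∀ z ∈ ball c R, (F z + I * h z) * (F z - I * h z) = 1 := by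
    intro z hz
    have := hh2 z hz
    have hI := I_sq
    linear_combination this - (h z) ^ 2 * hI
  obtain ⟨K, hK, hKc, hKe⟩ := pic_exists_log hR (g := fun z => F z + I * h z)
    (hF.add (hhd.const_mul I)) (fun z hz h0 => by
      have := hprod z hz
      rw [h0, zero_mul] at this
      exact zero_ne_one this) (I * v) (by
      simp only [hhc, ← hv]
      rw [mul_comm, exp_mul_I, mul_comm (sin v)])
  refine ⟨fun z => -I * K z, hK.const_mul (-I), ?_, ?_⟩
  · simp only [hKc]
    linear_combination (-v) * I_sq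
  · intro z hz
    have e1 : exp (-I * K z * I) = F z + I * h z := by
      rw [← hKe z hz]
      congr 1
      linear_combination (-K z) * I_sq
    have e2 : exp (-(-I * K z) * I) = F z - I * h z := by
      have hne' : F z + I * h z ≠ 0 := by
        intro h0
        have := hprod z hz
        rw [h0, zero_mul] at this
        exact zero_ne_one this
      have : exp (-(-I * K z) * I) * (F z + I * h z) = 1 := by
        rw [← e1, ← exp_add]
        have : -(-I * K z) * I + -I * K z * I = 0 := by ring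
        rw [this, exp_zero]
      have h3 := hprod z hz
      have h4 : (exp (-(-I * K z) * I) - (F z - I * h z)) * (F z + I * h z) = 0 := by
        linear_combination this - h3
      exact sub_eq_zero.mp ((mul_eq_zero.mp h4).resolve_right hne')
    simp only [Complex.cos, e1, e2]
    ring

/-- Local form of Bloch's theorem. -/
theorem pic_bloch_aux {F : ℂ → ℂ} {z₀ : ℂ} {t : ℝ} (ht : 0 < t)
    (hF : DifferentiableOn ℂ F (ball z₀ t)) (hpos : 0 < ‖deriv F z₀‖)
    (hbd : ∀ z ∈ ball z₀ t, ‖deriv F z‖ ≤ 2 * ‖deriv F z₀‖) :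
    ball (F z₀) (‖deriv F z₀‖ * t / 32) ⊆ F '' ball z₀ t := by
  set a := ‖deriv F z₀‖ with ha
  have hz₀ : z₀ ∈ ball z₀ t := mem_ball_self ht
  have hFd : ∀ z ∈ ball z₀ t, HasDerivAt F (deriv F z) z := fun z hz =>
    (hF.differentiableAt (isOpen_ball.mem_nhds hz)).hasDerivAt
  have hmaps : MapsTo (deriv F) (ball z₀ t) (closedBall (deriv F z₀) (3 * a)) := by
    intro z hz
    rw [mem_closedBall, dist_eq_norm]
    calc ‖deriv F z - deriv F z₀‖ ≤ ‖deriv F z‖ + ‖deriv F z₀‖ := norm_sub_le _ _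
      _ ≤ 2 * a + a := add_le_add (hbd z hz) le_rfl
      _ = 3 * a := by ring
  have hschw : ∀ z ∈ ball z₀ t, ‖deriv F z - deriv F z₀‖ ≤ 3 * a / t * ‖z - z₀‖ := by
    intro z hz
    have := dist_le_div_mul_dist_of_mapsTo_ball (hF.deriv isOpen_ball) hmaps hz
    rwa [dist_eq_norm, dist_eq_norm] at this
  have ht8 : 0 < t / 8 := by positivity
  have hsub : closedBall z₀ (t / 8) ⊆ ball z₀ t := closedBall_subset_ball (by linarith)
  have hG : ∀ z ∈ closedBall z₀ (t / 8), ‖F z - F z₀ - deriv F z₀ * (z - z₀)‖ ≤ 3 * a / 8 * (t / 8) := by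
    intro z hz
    have hG' : ∀ w ∈ closedBall z₀ (t / 8),
        HasDerivAt (fun w => F w - deriv F z₀ * w) (deriv F w - deriv F z₀) w := by
      intro w hw
      have h1 := (hFd w (hsub hw)).fun_sub ((hasDerivAt_id' w).const_mul (deriv F z₀))
      rwa [mul_one] at h1
    have hb : ∀ w ∈ closedBall z₀ (t / 8), ‖deriv F w - deriv F z₀‖ ≤ 3 * a / 8 := by
      intro w hw
      refine (hschw w (hsub hw)).trans ?_
      have hw' : ‖w - z₀‖ ≤ t / 8 := by rwa [← dist_eq_norm]
      calc 3 * a / t * ‖w - z₀‖ ≤ 3 * a / t * (t / 8) :=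
            mul_le_mul_of_nonneg_left hw' (by positivity)
        _ = 3 * a / 8 := by field_simp
    have h2 := (convex_closedBall z₀ (t / 8)).norm_image_sub_le_of_norm_hasDerivWithin_le
      (fun w hw => (hG' w hw).hasDerivWithinAt) hb (mem_closedBall_self ht8.le) hz
    have h3 : F z - deriv F z₀ * z - (F z₀ - deriv F z₀ * z₀) = F z - F z₀ - deriv F z₀ * (z - z₀) := by
      ring
    rw [h3] at h2
    refine h2.trans ?_
    have hw' : ‖z - z₀‖ ≤ t / 8 := by rwa [← dist_eq_norm]
    exact mul_le_mul_of_nonneg_left hw' (by positivity)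
  have hsph : ∀ z ∈ sphere z₀ (t / 8), a * t / 16 ≤ ‖F z - F z₀‖ := by
    intro z hz
    have h1 := hG z (sphere_subset_closedBall hz)
    have h2 : ‖deriv F z₀ * (z - z₀)‖ = a * (t / 8) := by
      rw [norm_mul, ← dist_eq_norm, mem_sphere.mp hz]
    have h3 : ‖deriv F z₀ * (z - z₀)‖ ≤ ‖F z - F z₀‖ + ‖F z - F z₀ - deriv F z₀ * (z - z₀)‖ := by
      have : deriv F z₀ * (z - z₀) = (F z - F z₀) - (F z - F z₀ - deriv F z₀ * (z - z₀)) := by ring
      calc ‖deriv F z₀ * (z - z₀)‖ = ‖(F z - F z₀) - (F z - F z₀ - deriv F z₀ * (z - z₀))‖ := by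
            rw [← this]
        _ ≤ _ := norm_sub_le _ _
    rw [h2] at h3
    nlinarith [mul_pos hpos ht]
  have hdc : DiffContOnCl ℂ F (ball z₀ (t / 8)) :=
    (hF.mono hsub).diffContOnCl_ball le_rfl
  have hfr : ∃ᶠ z in 𝓝 z₀, F z ≠ F z₀ := by
    have h1 : ∀ᶠ z in 𝓝[≠] z₀, F z ≠ F z₀ :=
      (hFd z₀ hz₀).eventually_ne (norm_pos_iff.mp hpos)
    exact (h1.frequently).filter_mono nhdsWithin_le_nhds
  have hmain := hdc.ball_subset_image_closedBall ht8 hsph hfr
  have h32 : a * t / 16 / 2 = a * t / 32 := by ring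
  rw [h32] at hmain
  exact hmain.trans (image_mono hsub)

/-- Bloch's theorem: if the image of a ball of radius `R` contains no ball of radius `L`, then
the derivative at the centre is at most `64 L / R`. -/
theorem pic_bloch {F : ℂ → ℂ} {c : ℂ} {R L : ℝ} (hR : 0 < R)
    (hF : DifferentiableOn ℂ F (ball c R)) (himg : ∀ w, ¬ ball w L ⊆ F '' ball c R) :
    R * ‖deriv F c‖ ≤ 64 * L := by
  have key : ∀ R' : ℝ, 0 < R' → R' < R → R' * ‖deriv F c‖ ≤ 64 * L := by
    intro R' hR' hlt
    by_cases h0 : ‖deriv F c‖ = 0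
    · rw [h0, mul_zero]
      by_contra hcon
      push Not at hcon
      apply himg (F c)
      have : L ≤ 0 := by linarith
      rw [ball_eq_empty.mpr this]
      exact empty_subset _
    have hpos : 0 < ‖deriv F c‖ := lt_of_le_of_ne (norm_nonneg _) (Ne.symm h0)
    have hsub : closedBall c R' ⊆ ball c R := closedBall_subset_ball hlt
    have hcont : ContinuousOn (fun z => (R' - dist z c) * ‖deriv F z‖) (closedBall c R') := by
      apply ContinuousOn.mul
      · fun_prop
      · exact ((hF.deriv isOpen_ball).continuousOn.mono hsub).norm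
    obtain ⟨z₀, hz₀, hmax⟩ := (isCompact_closedBall c R').exists_isMaxOn
      ⟨c, mem_closedBall_self hR'.le⟩ hcont
    set M := (R' - dist z₀ c) * ‖deriv F z₀‖ with hM
    have hMc : R' * ‖deriv F c‖ ≤ M := by
      have := hmax (mem_closedBall_self hR'.le)
      simpa using this
    have hMpos : 0 < M := lt_of_lt_of_le (mul_pos hR' hpos) hMc
    have hd0 : 0 < R' - dist z₀ c := by
      by_contra hcon
      push Not at hcon
      have : M ≤ 0 := mul_nonpos_of_nonpos_of_nonneg hcon (norm_nonneg _)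
      linarith
    have hF0 : 0 < ‖deriv F z₀‖ := by
      by_contra hcon
      push Not at hcon
      have : M ≤ 0 := mul_nonpos_of_nonneg_of_nonpos hd0.le hcon
      linarith
    set t := (R' - dist z₀ c) / 2 with ht
    have htpos : 0 < t := by positivity
    have hsub2 : ball z₀ t ⊆ closedBall c R' := by
      intro z hz
      rw [mem_closedBall]
      have := dist_triangle z z₀ c
      have := mem_ball.mp hz
      linarith
    have hbd : ∀ z ∈ ball z₀ t, ‖deriv F z‖ ≤ 2 * ‖deriv F z₀‖ := by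
      intro z hz
      have h1 : (R' - dist z c) * ‖deriv F z‖ ≤ M := hmax (hsub2 hz)
      have h2 : t ≤ R' - dist z c := by
        have := dist_triangle z z₀ c
        have := mem_ball.mp hz
        linarith
      have h3 : t * ‖deriv F z‖ ≤ M := (mul_le_mul_of_nonneg_right h2 (norm_nonneg _)).trans h1
      have h4 : M = t * (2 * ‖deriv F z₀‖) := by rw [hM, ht]; ring
      rw [h4] at h3
      exact le_of_mul_le_mul_left h3 htpos
    have hball := pic_bloch_aux htpos (hF.mono (hsub2.trans hsub)) hF0 hbd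
    have hM64 : ‖deriv F z₀‖ * t / 32 = M / 64 := by rw [hM, ht]; ring
    rw [hM64] at hball
    have hle : M / 64 ≤ L := by
      by_contra hcon
      push Not at hcon
      exact himg (F z₀) ((ball_subset_ball hcon.le).trans
        (hball.trans (image_mono (hsub2.trans hsub))))
    linarith
  by_contra hcon
  push Not at hcon
  have hdpos : 0 < ‖deriv F c‖ := by
    by_contra h
    push Not at h
    have h0 : ‖deriv F c‖ = 0 := le_antisymm h (norm_nonneg _)
    have := key (R / 2) (by positivity) (by linarith)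
    rw [h0] at this hcon
    linarith
  -- choose R' close to R
  have hex : ∃ R' : ℝ, 0 < R' ∧ R' < R ∧ 64 * L < R' * ‖deriv F c‖ := by
    have h1 : 64 * L / ‖deriv F c‖ < R := by rwa [div_lt_iff₀ hdpos]
    obtain ⟨R', h2, h3⟩ := exists_between (max_lt h1 hR)
    refine ⟨R', (le_max_right _ _).trans_lt h2, h3, ?_⟩
    have := (le_max_left _ _).trans_lt h2
    rwa [div_lt_iff₀ hdpos] at this
  obtain ⟨R', h1, h2, h3⟩ := hex
  linarith [key R' h1 h2]

theorem pic_cos_add_int_mul_pi (x : ℂ) (n : ℤ) : cos (x + n * Real.pi) = (-1) ^ n * cos x :=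
  n.cast_negOnePow ℂ ▸ Complex.cos_antiperiodic.add_int_mul_eq n

/-- Every ball of radius `2` contains a point where `cos (π z)` is an integer. -/
theorem pic_net (w : ℂ) : ∃ z ∈ ball w 2, ∃ k : ℤ, cos (Real.pi * z) = k := by
  set x := w.re with hx
  set Y := |w.im| with hY
  have hY0 : 0 ≤ Y := abs_nonneg _
  have hch : 1 ≤ Real.cosh (Real.pi * Y) := Real.one_le_cosh _
  obtain ⟨n, hn1, hn2⟩ : ∃ n : ℕ, (n : ℝ) ≤ Real.cosh (Real.pi * Y) ∧ Real.cosh (Real.pi * Y) < n + 1 :=
    ⟨⌊Real.cosh (Real.pi * Y)⌋₊, Nat.floor_le (by linarith), Nat.lt_floor_add_one _⟩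
  have hn : 1 ≤ (n : ℝ) := by
    have : (0 : ℝ) < n := by linarith
    exact_mod_cast this
  obtain ⟨t, ht, htn⟩ : ∃ t ∈ Icc (0 : ℝ) Y, Real.cosh (Real.pi * t) = n := by
    have hcont : ContinuousOn (fun t : ℝ => Real.cosh (Real.pi * t)) (Icc 0 Y) := by fun_prop
    have := intermediate_value_Icc hY0 hcont
    exact this ⟨by simpa using hn, hn1⟩
  have hs : Y - t < 1 := by
    by_contra hcon
    push Not at hcon
    have h1 : Real.cosh (Real.pi * Y) = Real.cosh (Real.pi * t) * Real.cosh (Real.pi * (Y - t)) +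
        Real.sinh (Real.pi * t) * Real.sinh (Real.pi * (Y - t)) := by
      rw [← Real.cosh_add]
      congr 1
      ring
    have h2 : 0 ≤ Real.sinh (Real.pi * t) := Real.sinh_nonneg_iff.mpr (mul_nonneg Real.pi_pos.le ht.1)
    have h3 : 0 ≤ Real.sinh (Real.pi * (Y - t)) :=
      Real.sinh_nonneg_iff.mpr (mul_nonneg Real.pi_pos.le (by linarith))
    have h4 : 2 ≤ Real.cosh (Real.pi * (Y - t)) := by
      rw [Real.cosh_eq]
      have h5 := Real.add_one_le_exp (Real.pi * (Y - t))
      have h6 := Real.exp_pos (-(Real.pi * (Y - t)))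
      have h7 := Real.pi_gt_three
      have h8 : Real.pi ≤ Real.pi * (Y - t) := by nlinarith
      linarith
    have h9 := mul_nonneg h2 h3
    rw [htn] at h1
    nlinarith
  obtain ⟨σ, hσ, hσ1⟩ : ∃ σ : ℝ, w.im = σ * Y ∧ |σ| = 1 := by
    rcases abs_cases w.im with ⟨h, -⟩ | ⟨h, -⟩
    · exact ⟨1, by rw [hY, h, one_mul], by simp⟩
    · exact ⟨-1, by rw [hY, h]; ring, by simp⟩
  refine ⟨(round x : ℤ) + (σ * t : ℝ) * I, ?_, ?_⟩
  · rw [mem_ball, dist_eq_norm]
    have h1 : |(round x : ℝ) - x| ≤ 1 / 2 := by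
      rw [abs_sub_comm]
      exact abs_sub_round x
    have h2 : |σ * t - w.im| < 1 := by
      rw [hσ, ← mul_sub, abs_mul, hσ1, one_mul, abs_sub_comm, abs_of_nonneg (by linarith [ht.2])]
      exact hs
    refine (Complex.norm_le_abs_re_add_abs_im _).trans_lt ?_
    have e1 : (((round x : ℤ) : ℂ) + (σ * t : ℝ) * I - w).re = (round x : ℝ) - x := by
      simp [hx]
    have e2 : (((round x : ℤ) : ℂ) + (σ * t : ℝ) * I - w).im = σ * t - w.im := by
      simp
    rw [e1, e2]
    linarith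
  · refine ⟨(-1) ^ (round x).natAbs * n, ?_⟩
    have h1 : (Real.pi : ℂ) * ((round x : ℤ) + (σ * t : ℝ) * I) =
        ((Real.pi * (σ * t) : ℝ) : ℂ) * I + (round x : ℤ) * Real.pi := by
      push_cast
      ring
    rw [h1, pic_cos_add_int_mul_pi, Complex.cos_mul_I, ← Complex.ofReal_cosh]
    have h2 : Real.cosh (Real.pi * (σ * t)) = n := by
      rw [← htn]
      rcases eq_or_eq_neg_of_abs_eq hσ1 with h | h
      · rw [h, one_mul]
      · rw [h, show Real.pi * (-1 * t) = -(Real.pi * t) by ring, Real.cosh_neg]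
    rw [h2]
    push_cast
    congr 1
    rcases Int.even_or_odd (round x) with he | ho
    · rw [he.neg_one_zpow, (Int.natAbs_even.mpr he).neg_one_pow]
    · rw [ho.neg_one_zpow, (Int.natAbs_odd.mpr ho).neg_one_pow]

/-- Small solutions of `cos (π v) = w`. -/
theorem pic_small_arccos (w : ℂ) : ∃ v : ℂ, cos (Real.pi * v) = w ∧ ‖v‖ ≤ 1 + ‖w‖ := by
  obtain ⟨u, hu⟩ := Complex.cos_surjective w
  set k : ℤ := round (u.re / (2 * Real.pi)) with hk
  set u' : ℂ := u - k * (2 * Real.pi) with hu'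
  have hcos : cos u' = w := by
    rw [hu', Complex.cos_sub_int_mul_two_pi, hu]
  have hpi := Real.pi_pos
  have hre : |u'.re| ≤ Real.pi := by
    have h1 : u'.re = (u.re / (2 * Real.pi) - k) * (2 * Real.pi) := by
      have : u'.re = u.re - k * (2 * Real.pi) := by simp [hu']
      rw [this]
      field_simp
    rw [h1, abs_mul, abs_of_pos (by positivity : 0 < 2 * Real.pi)]
    have := abs_sub_round (u.re / (2 * Real.pi))
    rw [← hk] at this
    nlinarith
  have him : |u'.im| ≤ ‖w‖ := by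
    rw [← hcos]
    have h1 : |Real.sinh u'.im| ≤ ‖cos u'‖ := by
      have h2 : ‖exp (u' * I)‖ = Real.exp (-u'.im) := by
        rw [Complex.norm_exp]; simp
      have h3 : ‖exp (-u' * I)‖ = Real.exp (u'.im) := by
        rw [Complex.norm_exp]; simp
      have h4 : ‖cos u'‖ = ‖exp (u' * I) + exp (-u' * I)‖ / 2 := by
        rw [Complex.cos, norm_div]
        simp
      have h5 : |‖exp (u' * I)‖ - ‖exp (-u' * I)‖| ≤ ‖exp (u' * I) + exp (-u' * I)‖ := by
        have := abs_norm_sub_norm_le (exp (u' * I)) (-exp (-u' * I))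
        rwa [norm_neg, sub_neg_eq_add] at this
      rw [h4, Real.sinh_eq, abs_div, abs_sub_comm]
      rw [h2, h3] at h5
      rw [abs_of_pos (zero_lt_two : (0 : ℝ) < 2)]
      exact div_le_div_of_nonneg_right h5 (by norm_num)
    refine le_trans ?_ h1
    rw [Real.abs_sinh]
    exact Real.self_le_sinh_iff.mpr (abs_nonneg _)
  refine ⟨u' / Real.pi, ?_, ?_⟩
  · rw [mul_div_cancel₀]
    · exact hcos
    · exact_mod_cast hpi.ne'
  · rw [norm_div, Complex.norm_real, Real.norm_of_nonneg hpi.le, div_le_iff₀ hpi]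
    have h1 := Complex.norm_le_abs_re_add_abs_im u'
    have h2 : ‖w‖ ≤ ‖w‖ * Real.pi := by
      have := Real.pi_gt_three
      nlinarith [norm_nonneg w]
    nlinarith

theorem pic_norm_cos_le (z : ℂ) : ‖cos z‖ ≤ Real.exp ‖z‖ := by
  have h1 : ‖exp (z * I)‖ ≤ Real.exp ‖z‖ := by
    have := Complex.norm_exp_le_exp_norm (z * I)
    rwa [norm_mul, Complex.norm_I, mul_one] at this
  have h2 : ‖exp (-z * I)‖ ≤ Real.exp ‖z‖ := by
    have := Complex.norm_exp_le_exp_norm (-z * I)
    rwa [norm_mul, Complex.norm_I, mul_one, norm_neg] at this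
  rw [Complex.cos, norm_div]
  have h3 := norm_add_le (exp (z * I)) (exp (-z * I))
  have h4 : ‖(2 : ℂ)‖ = 2 := by simp
  rw [h4, div_le_iff₀ (by norm_num)]
  linarith

/-- The Schottky bound. -/
noncomputable def picS (M : ℝ) : ℝ := Real.exp (Real.pi * Real.exp (Real.pi * (131 + 2 * M)))

theorem picS_mono : Monotone picS := by
  intro a b hab
  unfold picS
  have := Real.pi_pos
  apply Real.exp_le_exp.mpr
  apply mul_le_mul_of_nonneg_left _ this.le
  apply Real.exp_le_exp.mpr
  apply mul_le_mul_of_nonneg_left _ this.le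
  linarith

/-- Schottky's theorem. -/
theorem pic_schottky {f : ℂ → ℂ} {c : ℂ} {R : ℝ} (hR : 0 < R)
    (hf : DifferentiableOn ℂ f (ball c R)) (h0 : ∀ z ∈ ball c R, f z ≠ 0)
    (h1 : ∀ z ∈ ball c R, f z ≠ 1) : ∀ z ∈ ball c (R / 2), ‖f z‖ ≤ picS ‖f c‖ := by
  have hc : c ∈ ball c R := mem_ball_self hR
  have hpi := Real.pi_pos
  have hpiC : (Real.pi : ℂ) ≠ 0 := by exact_mod_cast hpi.ne'
  -- first lift
  obtain ⟨v₁, hv₁, hv₁'⟩ := pic_small_arccos (2 * f c - 1)
  obtain ⟨G₁, hG₁, hG₁c, hG₁e⟩ := pic_exists_cos hR (F := fun z => 2 * f z - 1)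
    ((hf.const_mul 2).sub_const 1)
    (fun z hz h => h1 z hz (by linear_combination h / 2))
    (fun z hz h => h0 z hz (by linear_combination h / 2)) (Real.pi * v₁) hv₁
  have hF1 : ∀ z ∈ ball c R, ∀ k : ℤ, G₁ z / Real.pi ≠ k := by
    intro z hz k hk
    have h2 : G₁ z = k * Real.pi := by
      rw [← hk]; field_simp
    have h3 := hG₁e z hz
    rw [h2] at h3
    have h4 : cos ((k : ℂ) * Real.pi) = (-1) ^ k := by
      have := pic_cos_add_int_mul_pi 0 k
      simpa using this
    rw [h4] at h3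
    rcases Int.even_or_odd k with he | ho
    · rw [he.neg_one_zpow] at h3
      exact h1 z hz (by linear_combination -h3 / 2)
    · rw [ho.neg_one_zpow] at h3
      exact h0 z hz (by linear_combination -h3 / 2)
  -- second lift
  obtain ⟨v₂, hv₂, hv₂'⟩ := pic_small_arccos (G₁ c / Real.pi)
  obtain ⟨G₂, hG₂, hG₂c, hG₂e⟩ := pic_exists_cos hR (F := fun z => G₁ z / Real.pi)
    (hG₁.div_const _) (fun z hz h => hF1 z hz 1 (by simpa using h))
    (fun z hz h => hF1 z hz (-1) (by simpa using h)) (Real.pi * v₂) hv₂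
  -- the function g
  set g : ℂ → ℂ := fun z => G₂ z / Real.pi with hg
  have hgd : DifferentiableOn ℂ g (ball c R) := hG₂.div_const _
  have hgc : ‖g c‖ ≤ 3 + 2 * ‖f c‖ := by
    have e1 : g c = v₂ := by
      simp only [hg, hG₂c]
      field_simp
    have e2 : G₁ c / Real.pi = v₁ := by
      rw [hG₁c]; field_simp
    rw [e2] at hv₂'
    rw [e1]
    have h5 : ‖2 * f c - 1‖ ≤ 2 * ‖f c‖ + 1 := by
      refine (norm_sub_le _ _).trans ?_
      rw [norm_mul]; simp
    linarith
  have himg : ∀ w, ¬ ball w 2 ⊆ g '' ball c R := by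
    intro w hw
    obtain ⟨z, hz, k, hk⟩ := pic_net w
    obtain ⟨y, hy, hyz⟩ := hw hz
    have h5 : (Real.pi : ℂ) * z = G₂ y := by
      rw [← hyz]; simp only [hg]; field_simp
    rw [h5, hG₂e y hy] at hk
    exact hF1 y hy k hk
  have hder : ∀ z ∈ ball c (R / 2), ‖deriv g z‖ ≤ 256 / R := by
    intro z hz
    have hsub : ball z (R / 2) ⊆ ball c R := by
      intro y hy
      have := dist_triangle y z c
      have := mem_ball.mp hz
      have := mem_ball.mp hy
      rw [mem_ball]; linarith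
    have h5 := pic_bloch (L := 2) (half_pos hR) (hgd.mono hsub)
      (fun w hw => himg w (hw.trans (image_mono hsub)))
    rw [le_div_iff₀ hR]
    linarith
  intro z hz
  have hsub : ball c (R / 2) ⊆ ball c R := ball_subset_ball (by linarith)
  have hgz : ‖g z‖ ≤ 131 + 2 * ‖f c‖ := by
    have h5 := (convex_ball c (R / 2)).norm_image_sub_le_of_norm_deriv_le
      (fun y hy => hgd.differentiableAt (isOpen_ball.mem_nhds (hsub hy))) hder
      (mem_ball_self (half_pos hR)) hz
    have h6 : ‖z - c‖ ≤ R / 2 := by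
      rw [← dist_eq_norm]; exact (mem_ball.mp hz).le
    have h7 : 256 / R * ‖z - c‖ ≤ 128 := by
      calc 256 / R * ‖z - c‖ ≤ 256 / R * (R / 2) := mul_le_mul_of_nonneg_left h6 (by positivity)
        _ = 128 := by field_simp; norm_num
    have h8 : ‖g z‖ ≤ ‖g c‖ + ‖g z - g c‖ := by
      have : g z = g c + (g z - g c) := by ring
      calc ‖g z‖ = ‖g c + (g z - g c)‖ := by rw [← this]
        _ ≤ _ := norm_add_le _ _
    linarith
  have hG₂z : ‖G₂ z‖ = Real.pi * ‖g z‖ := by
    have : G₂ z = Real.pi * g z := by simp only [hg]; field_simp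
    rw [this, norm_mul, Complex.norm_real, Real.norm_of_nonneg hpi.le]
  have hG₁z : ‖G₁ z / Real.pi‖ ≤ Real.exp (Real.pi * (131 + 2 * ‖f c‖)) := by
    rw [← hG₂e z (hsub hz)]
    refine (pic_norm_cos_le _).trans (Real.exp_le_exp.mpr ?_)
    rw [hG₂z]
    exact mul_le_mul_of_nonneg_left hgz hpi.le
  have h9 : ‖2 * f z - 1‖ ≤ picS ‖f c‖ := by
    rw [← hG₁e z (hsub hz)]
    refine (pic_norm_cos_le _).trans (Real.exp_le_exp.mpr ?_)
    have h10 : ‖G₁ z‖ = Real.pi * ‖G₁ z / Real.pi‖ := by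
      rw [norm_div, Complex.norm_real, Real.norm_of_nonneg hpi.le]
      field_simp
    rw [h10]
    exact mul_le_mul_of_nonneg_left hG₁z hpi.le
  have h11 : 1 ≤ picS ‖f c‖ := by
    unfold picS
    apply Real.one_le_exp
    positivity
  have h12 : ‖f z‖ ≤ (‖2 * f z - 1‖ + 1) / 2 := by
    have : f z = ((2 * f z - 1) + 1) / 2 := by ring
    calc ‖f z‖ = ‖((2 * f z - 1) + 1) / 2‖ := by rw [← this]
      _ = ‖(2 * f z - 1) + 1‖ / 2 := by rw [norm_div]; simp
      _ ≤ (‖2 * f z - 1‖ + ‖(1 : ℂ)‖) / 2 := by gcongr; exact norm_add_le _ _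
      _ = _ := by simp
  linarith

/-- On small circles the supremum of a function omitting `0, 1` is controlled by any value. -/
theorem pic_circle {f : ℂ → ℂ} {r : ℝ} (hr : 0 < r)
    (hf : DifferentiableOn ℂ f (ball 0 r \ {0})) (h0 : ∀ z ∈ ball (0 : ℂ) r \ {0}, f z ≠ 0)
    (h1 : ∀ z ∈ ball (0 : ℂ) r \ {0}, f z ≠ 1) {z₀ z : ℂ} (hz₀ : z₀ ≠ 0)
    (hz₀r : ‖z₀‖ < r * Real.exp (-(2 * Real.pi))) (hz : ‖z‖ = ‖z₀‖) :
    ‖f z‖ ≤ picS ‖f z₀‖ := by
  have hn0 : 0 < ‖z₀‖ := norm_pos_iff.mpr hz₀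
  set R₀ := Real.log r - Real.log ‖z₀‖ with hR₀
  have hR₀pi : 2 * Real.pi < R₀ := by
    have h2 : Real.log ‖z₀‖ < Real.log r - 2 * Real.pi := by
      have h3 : Real.log ‖z₀‖ < Real.log (r * Real.exp (-(2 * Real.pi))) :=
        Real.log_lt_log hn0 hz₀r
      rw [Real.log_mul hr.ne' (Real.exp_pos _).ne', Real.log_exp] at h3
      linarith
    linarith
  have hpi := Real.pi_pos
  have hR₀0 : 0 < R₀ := by linarith
  have hmaps : MapsTo exp (ball (log z₀) R₀) (ball (0 : ℂ) r \ {0}) := by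
    intro w hw
    refine ⟨?_, Complex.exp_ne_zero w⟩
    rw [mem_ball_zero_iff, Complex.norm_exp]
    have h2 : |(w - log z₀).re| ≤ ‖w - log z₀‖ := Complex.abs_re_le_norm _
    have h3 : ‖w - log z₀‖ < R₀ := by rwa [← dist_eq_norm]
    have h4 : w.re - Real.log ‖z₀‖ ≤ ‖w - log z₀‖ := by
      refine le_trans ?_ h2
      rw [Complex.sub_re, Complex.log_re]
      exact le_abs_self _
    have h5 : w.re < Real.log r := by linarith
    calc Real.exp w.re < Real.exp (Real.log r) := Real.exp_lt_exp.mpr h5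
      _ = r := Real.exp_log hr
  set θ := arg (z / z₀) with hθ
  have hw : log z₀ + θ * I ∈ ball (log z₀) (R₀ / 2) := by
    rw [mem_ball, dist_eq_norm, add_sub_cancel_left, norm_mul, Complex.norm_I, mul_one,
      Complex.norm_real, Real.norm_eq_abs]
    have := Complex.abs_arg_le_pi (z / z₀)
    linarith
  have hexp : exp (log z₀ + θ * I) = z := by
    rw [Complex.exp_add, Complex.exp_log hz₀]
    have h2 : ‖z / z₀‖ = 1 := by rw [norm_div, hz, div_self hn0.ne']
    have h3 := Complex.norm_mul_exp_arg_mul_I (z / z₀)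
    rw [h2, Complex.ofReal_one, one_mul] at h3
    rw [hθ, h3]
    field_simp
  have h2 := pic_schottky (f := fun w => f (exp w)) hR₀0
    (hf.comp Complex.differentiable_exp.differentiableOn hmaps)
    (fun w hw => h0 _ (hmaps hw)) (fun w hw => h1 _ (hmaps hw)) _ hw
  simp only [hexp, Complex.exp_log hz₀] at h2
  exact h2

/-- Big Picard theorem for functions omitting `0` and `1` on a punctured disc. -/
theorem tendsto_of_omits_zero_one {f : ℂ → ℂ} {r : ℝ} (hr : 0 < r)
    (hf : DifferentiableOn ℂ f (Metric.ball 0 r \ {0}))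
    (h0 : ∀ z ∈ Metric.ball (0:ℂ) r \ {0}, f z ≠ 0)
    (h1 : ∀ z ∈ Metric.ball (0:ℂ) r \ {0}, f z ≠ 1) :
    (∃ L : ℂ, Filter.Tendsto f (nhdsWithin 0 {0}ᶜ) (nhds L)) ∨
      Filter.Tendsto f (nhdsWithin 0 {0}ᶜ) (Bornology.cobounded ℂ) := by
  by_cases hA : ∃ M : ℝ, ∀ ε > 0, ∃ z₀ : ℂ, z₀ ≠ 0 ∧ ‖z₀‖ < ε ∧ ‖f z₀‖ ≤ M
  · left
    obtain ⟨M, hM⟩ := hA
    have hr1 : 0 < r * Real.exp (-(2 * Real.pi)) := mul_pos hr (Real.exp_pos _)
    have hr1r : r * Real.exp (-(2 * Real.pi)) ≤ r := by
      have : Real.exp (-(2 * Real.pi)) ≤ 1 := by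
        rw [Real.exp_le_one_iff]
        have := Real.pi_pos
        linarith
      nlinarith
    obtain ⟨z₁, hz₁, hz₁r, hz₁M⟩ := hM _ hr1
    have hz₁n : 0 < ‖z₁‖ := norm_pos_iff.mpr hz₁
    have hbound : ∀ z : ℂ, z ≠ 0 → ‖z‖ < ‖z₁‖ → ‖f z‖ ≤ picS M := by
      intro z hz hzz₁
      obtain ⟨z₂, hz₂, hz₂z, hz₂M⟩ := hM ‖z‖ (norm_pos_iff.mpr hz)
      have hz₂n : 0 < ‖z₂‖ := norm_pos_iff.mpr hz₂
      set U : Set ℂ := {w | ‖z₂‖ < ‖w‖ ∧ ‖w‖ < ‖z₁‖} with hU
      have hUopen : IsOpen U :=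
        (isOpen_lt continuous_const continuous_norm).inter (isOpen_lt continuous_norm continuous_const)
      have hUcl : closure U ⊆ {w | ‖z₂‖ ≤ ‖w‖ ∧ ‖w‖ ≤ ‖z₁‖} := by
        apply closure_minimal
        · intro w hw
          exact ⟨hw.1.le, hw.2.le⟩
        · exact (isClosed_le continuous_const continuous_norm).inter
            (isClosed_le continuous_norm continuous_const)
      have hUb : Bornology.IsBounded U := by
        apply (isBounded_ball (x := (0 : ℂ)) (r := ‖z₁‖)).subset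
        intro w hw
        rw [mem_ball_zero_iff]
        exact hw.2
      have hUsub : closure U ⊆ ball 0 r \ {0} := by
        intro w hw
        have := hUcl hw
        refine ⟨?_, ?_⟩
        · rw [mem_ball_zero_iff]
          exact this.2.trans_lt (hz₁r.trans_le hr1r)
        · intro h
          rw [mem_singleton_iff] at h
          have h2 := this.1
          rw [h, norm_zero] at h2
          linarith
      have hdc : DiffContOnCl ℂ f U := (hf.mono hUsub).diffContOnCl
      refine norm_le_of_forall_mem_frontier_norm_le hUb hdc (C := picS M) ?_ (z := z)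
        (subset_closure ⟨hz₂z, hzz₁⟩)
      intro w hw
      have hwcl := hUcl hw.1
      have hwU : w ∉ U := by
        have := hw.2
        rwa [hUopen.interior_eq] at this
      have hor : ‖w‖ = ‖z₂‖ ∨ ‖w‖ = ‖z₁‖ := by
        by_contra hcon
        push Not at hcon
        exact hwU ⟨lt_of_le_of_ne hwcl.1 (Ne.symm hcon.1), lt_of_le_of_ne hwcl.2 hcon.2⟩
      rcases hor with h | h
      · exact (pic_circle hr hf h0 h1 hz₂ (hz₂z.trans (hzz₁.trans hz₁r)) h).trans (picS_mono hz₂M)
      · exact (pic_circle hr hf h0 h1 hz₁ hz₁r h).trans (picS_mono hz₁M)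
    refine ⟨_, tendsto_limUnder_of_differentiable_on_punctured_nhds_of_bounded_under ?_ ?_⟩
    · have : ball (0 : ℂ) r ∩ {0}ᶜ ∈ 𝓝[≠] (0 : ℂ) :=
        inter_mem (mem_nhdsWithin_of_mem_nhds (ball_mem_nhds 0 hr)) self_mem_nhdsWithin
      filter_upwards [this] with w hw
      have hopen : IsOpen (ball (0 : ℂ) r \ {0}) := isOpen_ball.sdiff isClosed_singleton
      exact hf.differentiableAt (hopen.mem_nhds hw)
    · refine ⟨picS M + ‖f 0‖, ?_⟩
      rw [eventually_map]
      have : ball (0 : ℂ) ‖z₁‖ ∩ {0}ᶜ ∈ 𝓝[≠] (0 : ℂ) :=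
        inter_mem (mem_nhdsWithin_of_mem_nhds (ball_mem_nhds 0 hz₁n)) self_mem_nhdsWithin
      filter_upwards [this] with w hw
      refine (norm_sub_le _ _).trans ?_
      have := hbound w hw.2 (mem_ball_zero_iff.mp hw.1)
      linarith
  · right
    push Not at hA
    rw [← tendsto_norm_atTop_iff_cobounded, Filter.tendsto_atTop]
    intro M
    obtain ⟨ε, hε, h⟩ := hA M
    have : ball (0 : ℂ) ε ∩ {0}ᶜ ∈ 𝓝[≠] (0 : ℂ) :=
      inter_mem (mem_nhdsWithin_of_mem_nhds (ball_mem_nhds 0 hε)) self_mem_nhdsWithin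
    filter_upwards [this] with w hw
    exact (h w hw.2 (mem_ball_zero_iff.mp hw.1)).le

end Pool.Agent.Lib.MP_7b99f3_ag
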