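import Pool.Agent.Lib.MP_7b99f3_ag.Level

/-!
Vanishing of the winding numbers of the clusters of size `m` and of size `k - 1`.
-/

namespace Pool.Agent.Lib.MP_7b99f3_ag

open Topology

variable {k n m : ℕ} {D : Datum k n}

theorem W_self (D : Datum k n) (x : Fin k → ℂ) (κ : ℂ) (μ : Fin n → ℂ) (p : ℂ)
    (I : Finset (Fin k)) (a : Fin n) : W D x κ μ p I a a = 0 := by
  unfold W
  split_ifs
  · simp only [sub_self]; exact wind_zero
  · rfl

theorem WI_self (D : Datum k n) (x : Fin k → ℂ) (κ : ℂ) (μ : Fin n → ℂ)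
    (I : Finset (Fin k)) (a : Fin n) : WI D x κ μ I a a = 0 := by
  unfold WI
  split_ifs
  · exact W_self _ _ _ _ _ _ _
  · rfl

/-- local constancy of the winding numbers along a path of states -/
theorem WI_local (hk : 2 ≤ k) (hn : 0 < n) {x : ℝ → Fin k → ℂ} {κ : ℝ → ℂ} {μ : ℝ → Fin n → ℂ}
    {I : Finset (Fin k)} (hx : Continuous x) (hκ : Continuous κ) (hμ : Continuous μ)
    (h : ∀ s, St D (x s) (κ s) (μ s)) {t₀ : ℝ} {p : ℂ} (hp : SepAt (x t₀) p I) :
    ∀ᶠ t in 𝓝 t₀, SepAt (x t) p I ∧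
      WI D (x t) (κ t) (μ t) I = WI D (x t₀) (κ t₀) (μ t₀) I := by
  have h1 := SepAt.eventually (x := x) (p := fun _ => p) hx.continuousAt continuousAt_const hp
  obtain ⟨δ, hδ, h2⟩ := Metric.eventually_nhds_iff.mp h1
  refine Metric.eventually_nhds_iff.mpr ⟨δ, hδ, fun t ht => ⟨h2 ht, ?_⟩⟩
  have h3 : ∀ u : ℝ, SepAt (x (t₀ + clamp u * (t - t₀))) p I := by
    intro u
    apply h2
    rw [Real.dist_eq] at *
    have : t₀ + clamp u * (t - t₀) - t₀ = clamp u * (t - t₀) := by ring
    rw [this, abs_mul, abs_of_nonneg (clamp_nonneg u)]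
    calc clamp u * |t - t₀| ≤ 1 * |t - t₀| :=
          mul_le_mul_of_nonneg_right (clamp_le_one u) (abs_nonneg _)
      _ < δ := by rwa [one_mul]
  have hcl : Continuous fun u : ℝ => t₀ + clamp u * (t - t₀) := by
    have := continuous_clamp
    fun_prop
  have h4 := W_transport hk hn (A := ℝ) (D := D) (x := fun u => x (t₀ + clamp u * (t - t₀)))
    (κ := fun u => κ (t₀ + clamp u * (t - t₀))) (μ := fun u => μ (t₀ + clamp u * (t - t₀)))
    (p := fun _ => p) (I := I) (hx.comp hcl) (hκ.comp hcl) (hμ.comp hcl) continuous_const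
    (fun u => h _) h3 0 1
  simp only [clamp_zero, clamp_one, zero_mul, add_zero, one_mul, add_sub_cancel] at h4
  rw [WI_eq hk hn (h t₀) hp, h4, WI_eq hk hn (h t)]
  have := h3 1
  simpa [clamp_one] using this

/-- the clusters of size `m` all have the same winding numbers -/
def Con (D : Datum k n) (m : ℕ) : Prop := ∀ (x : Fin k → ℂ) (κ : ℂ) (μ : Fin n → ℂ),
  St D x κ μ → ∀ (I I' : Finset (Fin k)), I.card = m → I'.card = m →
    (∃ p, SepAt x p I) → (∃ p, SepAt x p I') → WI D x κ μ I = WI D x κ μ I'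

/-- the clusters of size `m` have vanishing winding numbers -/
def Van (D : Datum k n) (m : ℕ) : Prop := ∀ (x : Fin k → ℂ) (κ : ℂ) (μ : Fin n → ℂ),
  St D x κ μ → ∀ (I : Finset (Fin k)), I.card = m → ∀ p, SepAt x p I → WI D x κ μ I = 0

theorem con_of_tie (hm0 : 0 < m) (hmk : m < k) (h : Tie D m) : Con D m := by
  rintro x κ μ hs I I' hI hI' ⟨p, hp⟩ ⟨p', hp'⟩
  exact conn hm0 hmk h hs hI hI' hp hp'

open Classical in
/-- a separable cluster of size `m` -/
noncomputable def sepSet (k m : ℕ) (x : Fin k → ℂ) : Finset (Fin k) :=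
  if h : ∃ S : Finset (Fin k), S.card = m ∧ ∃ p, SepAt x p S then h.choose else ∅

theorem sepSet_spec (hmk : m ≤ k) {x : Fin k → ℂ} (hx : Function.Injective x) :
    (sepSet k m x).card = m ∧ ∃ p, SepAt x p (sepSet k m x) := by
  unfold sepSet
  rw [dif_pos (exists_sep hx hmk)]
  exact (exists_sep hx hmk).choose_spec

theorem sep_xr {m : ℕ} : SepAt (xr k) 0 (cl k m) := by
  refine sepAt_of_lt fun i hi l hl => ?_
  rw [mem_cl] at hi hl
  rw [sub_zero, sub_zero, norm_xr, norm_xr]
  have : (i : ℕ) < (l : ℕ) := by omega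
  have : ((i : ℕ) : ℝ) < (l : ℕ) := by exact_mod_cast this
  linarith

/-- the level data attached to the clusters of size `m` -/
noncomputable def levC (hk : 2 ≤ k) (hn : 0 < n) (hmk : m ≤ k) (hC : Con D m) : Lev D k where
  Φ := id
  Q := fun x κ μ => WI D x κ μ (sepSet k m x)
  cont := continuousOn_id
  inj := fun _ h => h
  symm := by
    intro x hx σ
    refine ⟨σ, rfl, fun κ μ h => ?_⟩
    simp only [id] at h ⊢
    obtain ⟨h1, p, h2⟩ := sepSet_spec hmk (hx.comp σ.injective)
    rw [WI_perm hk hn h σ h2]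
    exact hC x κ μ h _ _ (by rw [Finset.card_map]; exact h1) (sepSet_spec hmk hx).1
      ⟨p, SepAt.comp_perm.mp h2⟩ (sepSet_spec hmk hx).2
  label := by
    intro x hx κ μ h τ a b
    obtain ⟨h1, p, h2⟩ := sepSet_spec hmk hx
    exact WI_label hk hn h τ h2 a b
  flat := by
    intro X κ μ hX hinj hκ hμ h
    simp only [id] at h ⊢
    have hloc : IsLocallyConstant fun t => WI D (X t) (κ t) (μ t) (sepSet k m (X t)) := by
      rw [IsLocallyConstant.iff_eventually_eq]
      intro t₀
      obtain ⟨h1, p, h2⟩ := sepSet_spec hmk (hinj t₀)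
      filter_upwards [WI_local hk hn hX hκ hμ h h2] with t ht
      rw [← ht.2]
      exact hC _ _ _ (h t) _ _ (sepSet_spec hmk (hinj t)).1 h1 (sepSet_spec hmk (hinj t)).2
        ⟨p, ht.1⟩
    exact hloc.apply_eq_of_preconnectedSpace 0 1

theorem rot_univ (x : Fin k → ℂ) (w : ℂ) :
    rot x 0 (cl k k) w = fun i => Complex.exp w * x i + 0 := by
  funext i
  unfold rot
  rw [if_pos (by rw [mem_cl]; exact i.2)]
  ring

theorem van_of_con (hk : 2 ≤ k) (hn : 0 < n) (hmk : m < k) (hC : Con D m) :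
    Van D m := by
  -- at the nested real configuration
  have hbase : ∀ κ μ, St D (xr k) κ μ → ∀ a b, WI D (xr k) κ μ (sepSet k m (xr k)) a b = 0 := by
    intro κ μ h a b
    by_cases hab : a = b
    · subst hab; exact WI_self _ _ _ _ _ _
    refine level_zero hk hn (levC hk hn hmk.le hC) (j := k) (m₁ := k) (m₂ := m) hk le_rfl
      ?_ ?_ h hab
    · intro κ' μ' c1 c2 c3 c d hcd
      have h0 : St D (xr k) (κ' 0) (μ' 0) := by
        have := c3 0
        simpa [levC, rot_zero] using this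
      have hu := lift_unique D hk hn (A := ℝ)
        (X := fun t : ℝ => rot (xr k) 0 (cl k k) (2 * Real.pi * Complex.I * t))
        (κ := κ') (κ' := fun t => κ' 0 / ec t) (μ := μ') (μ' := fun _ => μ' 0) c1
        (by
          refine continuous_const.div continuous_ec fun t => ec_ne_zero t) c2 continuous_const
        c3 (fun t => by
          simp only [rot_univ]
          exact h0.affine (by omega) (ec_ne_zero t) 0) 0 (by simp [ec_zero]) rfl
      have e : (fun t : ℝ => μ' (NN k n * t) c - μ' (NN k n * t) d) =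
          fun _ => μ' 0 c - μ' 0 d := by
        funext t
        rw [congrFun hu.2 (NN k n * t)]
      rw [e]
      exact wind_const (h0.ne hcd)
    · intro κ' μ' c1 c2 c3 c d hcd
      have h0 : St D (xr k) (κ' 0) (μ' 0) := by
        have := c3 0
        simpa [levC, rot_zero] using this
      have h1 := W_eq hk hn (D := D) (x := xr k) (κ := κ' 0) (μ := μ' 0) (p := 0)
        (I := cl k m) c1 c2 c3 rfl rfl c d
      rw [← h1, ← WI_eq hk hn h0 sep_xr]
      have := hC (xr k) _ _ h0 (cl k m) (sepSet k m (xr k)) (card_cl hmk.le)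
        (sepSet_spec hmk.le xr_injective).1 ⟨0, sep_xr⟩
        (sepSet_spec hmk.le xr_injective).2
      rw [this]
      rfl
  intro x κ μ h I hI p hp
  obtain ⟨X, h1, h2, h3, h4⟩ := conf_path h.inj (xr_injective (j := k))
  subst h3
  obtain ⟨κ', μ', c1, c2, c3, c4, c5⟩ := exists_lift D hk hn (A := ℝ) h1 h2 0 h
  have h5 := (levC hk hn hmk.le hC).flat X κ' μ' h1 h2 c1 c2 c3
  simp only [levC, id, c4, c5] at h5
  rw [hC (X 0) κ μ h I _ hI (sepSet_spec hmk.le (h2 0)).1 ⟨p, hp⟩
    (sepSet_spec hmk.le (h2 0)).2, h5]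
  have h6 := c3 1
  rw [h4] at h6 ⊢
  funext a b
  exact hbase _ _ h6 a b

/-- the far point added to a configuration -/
noncomputable def far (k : ℕ) (x : Fin (k - 1) → ℂ) : Fin k → ℂ := fun i =>
  if h : (i : ℕ) < k - 1 then x ⟨i, h⟩ else ((1 + 2 * ∑ l, ‖x l‖ : ℝ) : ℂ)

theorem norm_far_lt (x : Fin (k - 1) → ℂ) {i l : Fin k} (hi : (i : ℕ) < k - 1)
    (hl : ¬ (l : ℕ) < k - 1) : ‖far k x i‖ < ‖far k x l‖ := by
  unfold far
  rw [dif_pos hi, dif_neg hl, Complex.norm_real, Real.norm_eq_abs]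
  have h0 : 0 ≤ ∑ l, ‖x l‖ := Finset.sum_nonneg fun _ _ => norm_nonneg _
  have h1 : ‖x ⟨i, hi⟩‖ ≤ ∑ l, ‖x l‖ :=
    Finset.single_le_sum (f := fun l => ‖x l‖) (fun _ _ => norm_nonneg _) (Finset.mem_univ _)
  rw [abs_of_pos (by positivity)]
  linarith

theorem far_injective {x : Fin (k - 1) → ℂ} (hx : Function.Injective x) :
    Function.Injective (far k x) := by
  intro a b hab
  by_cases ha : (a : ℕ) < k - 1 <;> by_cases hb : (b : ℕ) < k - 1
  · unfold far at hab
    rw [dif_pos ha, dif_pos hb] at hab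
    have := hx hab
    rw [Fin.mk.injEq] at this
    exact Fin.ext this
  · have := norm_far_lt x ha hb
    rw [hab] at this
    exact absurd this (lt_irrefl _)
  · have := norm_far_lt x hb ha
    rw [hab] at this
    exact absurd this (lt_irrefl _)
  · have ha2 := a.2
    have hb2 := b.2
    exact Fin.ext (by omega)

theorem far_sep (x : Fin (k - 1) → ℂ) : SepAt (far k x) 0 (cl k (k - 1)) := by
  refine sepAt_of_lt fun i hi l hl => ?_
  rw [mem_cl] at hi hl
  rw [sub_zero, sub_zero]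
  exact norm_far_lt x hi hl

theorem continuous_far : Continuous (far k) := by
  unfold far
  rw [continuous_pi_iff]
  intro i
  split_ifs <;> fun_prop

/-- extension of a permutation of the first `k - 1` points -/
def extPerm (k : ℕ) (σ : Equiv.Perm (Fin (k - 1))) : Equiv.Perm (Fin k) where
  toFun := fun i => if h : (i : ℕ) < k - 1 then ⟨σ ⟨i, h⟩, by have := (σ ⟨i, h⟩).2; omega⟩ else i
  invFun := fun i => if h : (i : ℕ) < k - 1 then
    ⟨σ.symm ⟨i, h⟩, by have := (σ.symm ⟨i, h⟩).2; omega⟩ else i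
  left_inv := by
    intro i
    by_cases h : (i : ℕ) < k - 1
    · have h1 : ((σ ⟨i, h⟩ : Fin (k - 1)) : ℕ) < k - 1 := (σ ⟨i, h⟩).2
      simp [h, h1]
    · simp [h]
  right_inv := by
    intro i
    by_cases h : (i : ℕ) < k - 1
    · have h1 : ((σ.symm ⟨i, h⟩ : Fin (k - 1)) : ℕ) < k - 1 := (σ.symm ⟨i, h⟩).2
      simp [h, h1]
    · simp [h]

theorem extPerm_lt (σ : Equiv.Perm (Fin (k - 1))) (i : Fin k) :
    ((extPerm k σ i : Fin k) : ℕ) < k - 1 ↔ (i : ℕ) < k - 1 := by
  by_cases h : (i : ℕ) < k - 1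
  · have h1 : ((σ ⟨i, h⟩ : Fin (k - 1)) : ℕ) < k - 1 := (σ ⟨i, h⟩).2
    simp [extPerm, h, h1]
  · simp [extPerm, h]

theorem far_comp_perm (x : Fin (k - 1) → ℂ) (σ : Equiv.Perm (Fin (k - 1))) :
    far k (x ∘ σ) = far k x ∘ extPerm k σ := by
  funext i
  have hs : ∑ l, ‖x (σ l)‖ = ∑ l, ‖x l‖ := Equiv.sum_comp σ fun l => ‖x l‖
  by_cases h : (i : ℕ) < k - 1
  · have h1 : ((σ ⟨i, h⟩ : Fin (k - 1)) : ℕ) < k - 1 := (σ ⟨i, h⟩).2
    simp [far, extPerm, h, h1]
  · simp only [far, extPerm, h, hs, Function.comp_apply, Equiv.coe_fn_mk, dif_neg,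
      not_false_iff]

theorem cl_map_ext (σ : Equiv.Perm (Fin (k - 1))) :
    (cl k (k - 1)).map (extPerm k σ).toEmbedding = cl k (k - 1) := by
  ext i
  have h1 : i = extPerm k σ ((extPerm k σ).symm i) := by simp
  rw [h1, mem_map_perm, mem_cl, mem_cl, extPerm_lt]

theorem far_rot {m : ℕ} (hm : m ≤ k - 1) (x : Fin (k - 1) → ℂ) {w : ℂ} (hw : w.re = 0) :
    far k (rot x 0 (cl (k - 1) m) w) = rot (far k x) 0 (cl k m) w := by
  funext i
  have hs : ∀ l, ‖rot x 0 (cl (k - 1) m) w l‖ = ‖x l‖ := by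
    intro l
    have := norm_rot_I x 0 (cl (k - 1) m) hw l
    rwa [sub_zero, sub_zero] at this
  by_cases h : (i : ℕ) < k - 1
  · by_cases h2 : (i : ℕ) < m
    · simp [far, rot, mem_cl, h, h2]
    · simp [far, rot, mem_cl, h, h2]
  · have h2 : ¬ (i : ℕ) < m := by omega
    have h3 : rot (far k x) 0 (cl k m) w i = far k x i := by
      simp [rot, mem_cl, h2]
    rw [h3]
    unfold far
    rw [dif_neg h, dif_neg h]
    simp only [hs]

/-- the level data attached to the clusters of size `k - 1` -/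
noncomputable def levC' (hk : 2 ≤ k) (hn : 0 < n) : Lev D (k - 1) where
  Φ := far k
  Q := fun x κ μ => WI D x κ μ (cl k (k - 1))
  cont := continuous_far.continuousOn
  inj := fun _ h => far_injective h
  symm := by
    intro x hx σ
    refine ⟨extPerm k σ, far_comp_perm x σ, fun κ μ h => ?_⟩
    rw [WI_perm hk hn h (extPerm k σ) (p := 0) (by
      rw [SepAt.comp_perm, cl_map_ext]; exact far_sep x), cl_map_ext]
  label := by
    intro x hx κ μ h τ a b
    exact WI_label hk hn h τ (far_sep x) a b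
  flat := by
    intro X κ μ hX hinj hκ hμ h
    exact WI_path hk hn (continuous_far.comp hX) hκ hμ h (fun t => ⟨0, far_sep (X t)⟩) 0 1

theorem sep_far_xr {m : ℕ} (hm : m ≤ k - 1) : SepAt (far k (xr (k - 1))) 0 (cl k m) := by
  refine sepAt_of_lt fun i hi l hl => ?_
  rw [mem_cl] at hi hl
  rw [sub_zero, sub_zero]
  have hi2 : (i : ℕ) < k - 1 := by omega
  by_cases h : (l : ℕ) < k - 1
  · unfold far
    rw [dif_pos hi2, dif_pos h, norm_xr, norm_xr]
    have : (i : ℕ) < (l : ℕ) := by omega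
    have : ((i : ℕ) : ℝ) < (l : ℕ) := by exact_mod_cast this
    simpa using this
  · exact norm_far_lt _ hi2 h

theorem van_far (hk : 3 ≤ k) (hn : 0 < n) (hm2 : 2 ≤ m) (hmk : m < k) (hV : Van D m)
    {x : Fin (k - 1) → ℂ} (hx : Function.Injective x) {κ : ℂ} {μ : Fin n → ℂ}
    (h : St D (far k x) κ μ) : WI D (far k x) κ μ (cl k (k - 1)) = 0 := by
  have hk2 : 2 ≤ k := by omega
  have hbase : ∀ κ μ, St D (far k (xr (k - 1))) κ μ → ∀ a b,
      WI D (far k (xr (k - 1))) κ μ (cl k (k - 1)) a b = 0 := by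
    intro κ μ h a b
    by_cases hab : a = b
    · subst hab; exact WI_self _ _ _ _ _ _
    refine level_zero hk2 hn (levC' hk2 hn) (j := k - 1) (m₁ := m) (m₂ := k - 1) hm2 (by omega)
      ?_ ?_ h hab
    · intro κ' μ' c1 c2 c3 c d hcd
      have h0 : St D (far k (xr (k - 1))) (κ' 0) (μ' 0) := by
        have := c3 0
        simpa [levC', rot_zero] using this
      have h1 := W_eq hk2 hn (D := D) (x := far k (xr (k - 1))) (κ := κ' 0) (μ := μ' 0) (p := 0)
        (I := cl k m) c1 c2 (fun t => by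
          rw [← far_rot (by omega) _ (by simp)]; exact c3 t) rfl rfl c d
      rw [← h1, ← WI_eq hk2 hn h0 (sep_far_xr (by omega)),
        hV _ _ _ h0 _ (card_cl hmk.le) 0 (sep_far_xr (by omega))]
      rfl
    · intro κ' μ' c1 c2 c3 c d hcd
      have h0 : St D (far k (xr (k - 1))) (κ' 0) (μ' 0) := by
        have := c3 0
        simpa [levC', rot_zero] using this
      have h1 := W_eq hk2 hn (D := D) (x := far k (xr (k - 1))) (κ := κ' 0) (μ := μ' 0) (p := 0)
        (I := cl k (k - 1)) c1 c2 (fun t => by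
          rw [← far_rot le_rfl _ (by simp)]; exact c3 t) rfl rfl c d
      rw [← h1, ← WI_eq hk2 hn h0 (far_sep _)]
      rfl
  obtain ⟨X, h1, h2, h3, h4⟩ := conf_path hx (xr_injective (j := k - 1))
  subst h3
  obtain ⟨κ', μ', c1, c2, c3, c4, c5⟩ := exists_lift D hk2 hn (A := ℝ)
    (X := fun t => far k (X t)) (continuous_far.comp h1) (fun t => far_injective (h2 t)) 0 h
  have h5 := (levC' hk2 hn).flat X κ' μ' h1 h2 c1 c2 c3
  simp only [levC', c4, c5] at h5
  rw [h5]
  have h6 := c3 1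
  rw [h4] at h6 ⊢
  funext a b
  exact hbase _ _ h6 a b

theorem exists_perm_cl {m : ℕ} (hm : m ≤ k) {I : Finset (Fin k)} (hI : I.card = m) :
    ∃ σ : Equiv.Perm (Fin k), (cl k m).map σ.toEmbedding = I := by
  have hcard : (cl k m).card = I.card := by rw [card_cl hm, hI]
  set e := Finset.equivOfCardEq hcard with he
  refine ⟨e.extendSubtype, ?_⟩
  refine Finset.eq_of_subset_of_card_le ?_ (by rw [Finset.card_map, hcard])
  intro i hi
  rw [Finset.mem_map] at hi
  obtain ⟨l, hl, rfl⟩ := hi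
  exact e.extendSubtype_mem l hl

theorem van_pred (hk : 3 ≤ k) (hn : 0 < n) (hm2 : 2 ≤ m) (hmk : m < k) (hV : Van D m) :
    Van D (k - 1) := by
  have hk2 : 2 ≤ k := by omega
  intro x κ μ h I hI p hp
  obtain ⟨σ, hσ⟩ := exists_perm_cl (by omega) hI
  subst hσ
  have hp1 := SepAt.comp_perm.mpr hp
  rw [← WI_perm hk2 hn h σ hp1]
  have h1 := h.comp_perm (by omega) σ
  set y := x ∘ σ with hy
  -- translate
  have h2 := h1.affine (by omega) one_ne_zero (-p)
  have hp2 := hp1.affine one_ne_zero (-p)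
  rw [← WI_affine hk2 hn h1 one_ne_zero (-p) hp1]
  simp only [one_mul, div_one] at h2 hp2 ⊢
  rw [add_neg_cancel] at hp2
  set z : Fin k → ℂ := fun i => y i + -p with hz
  -- the target
  set z' : Fin (k - 1) → ℂ := fun i => z ⟨i, by omega⟩ with hz'
  have hz'inj : Function.Injective z' := by
    intro a b hab
    have := h2.inj hab
    rw [Fin.mk.injEq] at this
    exact Fin.ext this
  set l : Fin k := ⟨k - 1, by omega⟩ with hl
  set q : ℝ := 1 + 2 * ∑ l, ‖z' l‖ with hq
  have hs0 : 0 ≤ ∑ l, ‖z' l‖ := Finset.sum_nonneg fun _ _ => norm_nonneg _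
  have hq0 : 0 < q := by rw [hq]; positivity
  have hlt : ∀ i : Fin k, (i : ℕ) < k - 1 → ‖z i‖ < ‖z l‖ ∧ ‖z i‖ < q := by
    intro i hi
    constructor
    · have := hp2.lt (i := i) (j := l) (by rw [mem_cl]; exact hi) (by rw [mem_cl, hl]; simp)
      simpa using this
    · have h1 : ‖z' ⟨i, hi⟩‖ ≤ ∑ l, ‖z' l‖ :=
        Finset.single_le_sum (f := fun l => ‖z' l‖) (fun _ _ => norm_nonneg _) (Finset.mem_univ _)
      have h2 : z' ⟨i, hi⟩ = z i := rfl
      rw [h2] at h1
      rw [hq]; linarith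
  have hzl : z l ≠ 0 := by
    have := (hlt ⟨0, by omega⟩ (by simp; omega)).1
    exact norm_pos_iff.mp ((norm_nonneg _).trans_lt this)
  set X : ℝ → Fin k → ℂ := fun t i => if (i : ℕ) < k - 1 then z i else
    Complex.exp ((1 - clamp t) * Complex.log (z l) + clamp t * (Real.log q : ℝ)) with hX
  have hXc : Continuous X := by
    have := continuous_clamp
    rw [continuous_pi_iff]
    intro i
    simp only [hX]
    split_ifs <;> fun_prop
  have hX0 : X 0 = z := by
    funext i
    simp only [hX, clamp_zero]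
    split_ifs with h
    · rfl
    · have hi2 := i.2
      have : i = l := Fin.ext (by rw [hl]; simp; omega)
      rw [this]
      simp [Complex.exp_log hzl]
  have hX1 : X 1 = far k z' := by
    funext i
    simp only [hX, clamp_one, far]
    split_ifs with h
    · rfl
    · have h3 : Complex.exp ((Real.log q : ℝ) : ℂ) = (q : ℂ) := by
        rw [← Complex.ofReal_exp, Real.exp_log hq0]
      rw [Complex.ofReal_one, sub_self, zero_mul, one_mul, zero_add, h3]
  have hXlt : ∀ t, ∀ i l' : Fin k, (i : ℕ) < k - 1 → ¬ (l' : ℕ) < k - 1 →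
      ‖X t i‖ < ‖X t l'‖ := by
    intro t i l' hi hl'
    obtain ⟨h3, h4⟩ := hlt i hi
    simp only [hX, hi, hl', if_true, if_false]
    rw [Complex.norm_exp]
    have hre : ((1 - (clamp t : ℂ)) * Complex.log (z l) + clamp t * (Real.log q : ℝ)).re =
        (1 - clamp t) * Real.log ‖z l‖ + clamp t * Real.log q := by
      rw [← Complex.ofReal_one, ← Complex.ofReal_sub, Complex.add_re, Complex.re_ofReal_mul,
        Complex.re_ofReal_mul, Complex.log_re, Complex.ofReal_re]
    rw [hre]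
    rcases (norm_nonneg (z i)).eq_or_lt with h5 | h5
    · rw [← h5]; exact Real.exp_pos _
    · rw [← Real.log_lt_iff_lt_exp h5]
      have h6 : Real.log ‖z i‖ < Real.log ‖z l‖ := Real.log_lt_log h5 h3
      have h7 : Real.log ‖z i‖ < Real.log q := Real.log_lt_log h5 h4
      have h8 := clamp_nonneg t
      have h9 := clamp_le_one t
      rcases h8.eq_or_lt with h10 | h10
      · rw [← h10]; simpa using h6
      · nlinarith
  have hsepX : ∀ t, SepAt (X t) 0 (cl k (k - 1)) := by
    intro t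
    refine sepAt_of_lt fun i hi l' hl' => ?_
    rw [mem_cl] at hi hl'
    rw [sub_zero, sub_zero]
    exact hXlt t i l' hi hl'
  have hXi : ∀ t, Function.Injective (X t) := by
    intro t a b hab
    by_cases ha : (a : ℕ) < k - 1 <;> by_cases hb : (b : ℕ) < k - 1
    · simp only [hX, ha, hb, if_true] at hab
      exact h2.inj hab
    · have := hXlt t a b ha hb
      rw [hab] at this
      exact absurd this (lt_irrefl _)
    · have := hXlt t b a hb ha
      rw [hab] at this
      exact absurd this (lt_irrefl _)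
    · have ha2 := a.2
      have hb2 := b.2
      exact Fin.ext (by omega)
  obtain ⟨κ', μ', c1, c2, c3, c4, c5⟩ := exists_lift D hk2 hn (A := ℝ) hXc hXi 0
    (κ₀ := κ) (μ₀ := μ) (by rw [hX0]; exact h2)
  have h5 := WI_path hk2 hn hXc c1 c2 c3 (I := cl k (k - 1)) (fun t => ⟨0, hsepX t⟩) 0 1
  rw [hX0, c4, c5] at h5
  rw [h5]
  have h6 := c3 1
  rw [hX1] at h6 ⊢
  exact van_far hk hn hm2 hmk hV hz'inj h6

end Pool.Agent.Lib.MP_7b99f3_ag
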