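import Pool.Agent.Lib.MP_7b99f3_ag.Hol
import Pool.Agent.Lib.MP_7b99f3_ag.StepC
import Pool.Agent.Lib.MP_7b99f3_ag.Picard

/-!
Extension of the roots over a puncture, from the big Picard theorem.
-/

namespace Pool.Agent.Lib.MP_7b99f3_ag

open Topology Filter

/-- the punctured disc -/
def PD (r : ℝ) : Set ℂ := Metric.ball 0 r \ {0}

theorem PD_mem_nhds {r : ℝ} (hr : 0 < r) : PD r ∈ 𝓝[≠] (0 : ℂ) :=
  sdiff_mem_nhdsWithin_compl (Metric.ball_mem_nhds 0 hr) {0}

theorem isOpen_PD (r : ℝ) : IsOpen (PD r) := Metric.isOpen_ball.sdiff isClosed_singleton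

theorem PD_ne {r : ℝ} {z : ℂ} (hz : z ∈ PD r) : z ≠ 0 := fun h => hz.2 h

/-- an exponential cannot tend to zero at a puncture -/
theorem not_tendsto_zero {H : ℂ → ℂ} {r : ℝ} (hr : 0 < r) (hH : DifferentiableOn ℂ H (PD r)) :
    ¬ Tendsto (fun z => Complex.exp (H z)) (𝓝[≠] 0) (𝓝 0) := by
  intro hlim
  have hpd := PD_mem_nhds hr
  -- roots of the function, extended by zero
  set G : ℕ → ℂ → ℂ := fun m z => if z = 0 then 0 else Complex.exp (H z / m) with hG
  have hGd : ∀ m : ℕ, ∀ᶠ z in 𝓝[≠] (0 : ℂ), DifferentiableAt ℂ (G m) z := by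
    intro m
    filter_upwards [hpd] with z hz
    have h1 : DifferentiableAt ℂ (fun z => Complex.exp (H z / m)) z :=
      (((hH z hz).differentiableAt ((isOpen_PD r).mem_nhds hz)).div_const _).cexp
    refine h1.congr_of_eventuallyEq ?_
    filter_upwards [(isOpen_PD r).mem_nhds hz] with y hy
    simp only [hG, if_neg (PD_ne hy)]
  have hGc : ∀ m : ℕ, 0 < m → ContinuousAt (G m) 0 := by
    intro m hm
    have hm' : (0 : ℝ) < m := by exact_mod_cast hm
    have h0 : G m 0 = 0 := by simp [hG]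
    rw [continuousAt_iff_punctured_nhds, h0]
    rw [tendsto_zero_iff_norm_tendsto_zero]
    have h1 : Tendsto (fun z => ‖Complex.exp (H z)‖ ^ ((m : ℝ)⁻¹)) (𝓝[≠] 0) (𝓝 0) := by
      have h2 := (tendsto_zero_iff_norm_tendsto_zero.mp hlim)
      have h3 : ContinuousAt (fun x : ℝ => x ^ ((m : ℝ)⁻¹)) 0 :=
        Real.continuousAt_rpow_const _ _ (Or.inr (by positivity))
      have h4 := h3.tendsto.comp h2
      rw [Real.zero_rpow (by positivity)] at h4
      exact h4
    refine h1.congr' ?_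
    filter_upwards [hpd] with z hz
    simp only [hG, if_neg (PD_ne hz)]
    rw [Complex.norm_exp, Complex.norm_exp, ← Real.exp_mul]
    congr 1
    rw [← Complex.ofReal_natCast, Complex.div_ofReal_re]
    rfl
  have hGa : ∀ m : ℕ, 0 < m → AnalyticAt ℂ (G m) 0 := fun m hm =>
    Complex.analyticAt_of_differentiable_on_punctured_nhds_of_continuousAt (hGd m) (hGc m hm)
  have hpow : ∀ m : ℕ, 0 < m → G 1 = G m ^ m := by
    intro m hm
    have hm' : (m : ℂ) ≠ 0 := by exact_mod_cast hm.ne'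
    funext z
    simp only [hG, Pi.pow_apply]
    split_ifs with h
    · rw [zero_pow hm.ne']
    · rw [← Complex.exp_nat_mul]
      congr 1
      field_simp
      simp
  have hfin : analyticOrderAt (G 1) 0 ≠ ⊤ := by
    intro htop
    rw [analyticOrderAt_eq_top] at htop
    have h1 : ∀ᶠ z in 𝓝[≠] (0 : ℂ), G 1 z = 0 := htop.filter_mono nhdsWithin_le_nhds
    obtain ⟨z, hz1, hz2⟩ := (h1.and hpd).exists
    simp only [hG, if_neg (PD_ne hz2)] at hz1
    exact Complex.exp_ne_zero _ hz1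
  obtain ⟨d, hd⟩ := ENat.ne_top_iff_exists.mp hfin
  have h1 : analyticOrderAt (G (d + 1)) 0 ≠ 0 :=
    (hGa (d + 1) (by omega)).analyticOrderAt_ne_zero.mpr (by simp [hG])
  have h2 : analyticOrderAt (G 1) 0 = (d + 1) • analyticOrderAt (G (d + 1)) 0 := by
    rw [hpow (d + 1) (by omega), analyticOrderAt_pow (hGa (d + 1) (by omega))]
  rw [← hd] at h2
  have h3 : (1 : ℕ∞) ≤ analyticOrderAt (G (d + 1)) 0 := Order.one_le_iff_pos.mpr
    (pos_iff_ne_zero.mpr h1)
  have h4 : ((d + 1 : ℕ) : ℕ∞) ≤ (d + 1) • analyticOrderAt (G (d + 1)) 0 := by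
    calc ((d + 1 : ℕ) : ℕ∞) = (d + 1) • (1 : ℕ∞) := by simp
      _ ≤ _ := nsmul_le_nsmul_right h3 _
  rw [← h2] at h4
  have h5 : d + 1 ≤ d := by exact_mod_cast h4
  omega

/-- an exponential omitting the value one has a nonzero limit at a puncture -/
theorem exists_limit {H : ℂ → ℂ} {r : ℝ} (hr : 0 < r) (hH : DifferentiableOn ℂ H (PD r))
    (h1 : ∀ z ∈ PD r, Complex.exp (H z) ≠ 1) :
    ∃ L : ℂ, L ≠ 0 ∧ Tendsto (fun z => Complex.exp (H z)) (𝓝[≠] 0) (𝓝 L) := by
  rcases tendsto_of_omits_zero_one (f := fun z => Complex.exp (H z)) hr hH.cexp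
    (fun z _ => Complex.exp_ne_zero _) h1 with ⟨L, hL⟩ | hinf
  · refine ⟨L, ?_, hL⟩
    rintro rfl
    exact not_tendsto_zero hr hH hL
  · exfalso
    refine not_tendsto_zero hr hH.neg ?_
    have h2 := tendsto_inv₀_cobounded.comp hinf
    refine h2.congr fun z => ?_
    simp [Complex.exp_neg]

section abstract

variable {n : ℕ} {r : ℝ} {M : Fin n → ℂ → ℂ} {H : Fin n → Fin n → ℂ → ℂ}

/-- existence of a nonzero limit for a ratio of two differences -/
def RL (M : Fin n → ℂ → ℂ) (a b c d : Fin n) : Prop :=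
  ∃ L : ℂ, L ≠ 0 ∧ Tendsto (fun z => (M a z - M b z) / (M c z - M d z)) (𝓝[≠] 0) (𝓝 L)

theorem RL.trans (hr : 0 < r) (hN : ∀ z ∈ PD r, IsN fun a => M a z) {a b c d e f : Fin n}
    (hcd : c ≠ d) (h1 : RL M a b c d) (h2 : RL M c d e f) : RL M a b e f := by
  obtain ⟨L, hL, h1⟩ := h1
  obtain ⟨L', hL', h2⟩ := h2
  refine ⟨L * L', mul_ne_zero hL hL', (h1.mul h2).congr' ?_⟩
  filter_upwards [PD_mem_nhds hr] with z hz
  have h3 : M c z - M d z ≠ 0 := sub_ne_zero.mpr fun e => hcd ((hN z hz).injective e)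
  field_simp

theorem RL.swap (hr : 0 < r) (hN : ∀ z ∈ PD r, IsN fun a => M a z) {a b : Fin n}
    (hab : a ≠ b) : RL M a b b a := by
  refine ⟨-1, by norm_num, tendsto_const_nhds.congr' ?_⟩
  filter_upwards [PD_mem_nhds hr] with z hz
  have h3 : M b z - M a z ≠ 0 := sub_ne_zero.mpr fun e => hab ((hN z hz).injective e).symm
  field_simp
  ring

theorem RL.base (hr : 0 < r)
    (hH : ∀ a b, a ≠ b → DifferentiableOn ℂ (H a b) (PD r))
    (hHe : ∀ a b, a ≠ b → ∀ z ∈ PD r, Complex.exp (H a b z) = M a z - M b z)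
    (hN : ∀ z ∈ PD r, IsN fun a => M a z) {a b c : Fin n} (hab : a ≠ b) (hcb : c ≠ b) :
    RL M a b c b := by
  by_cases hac : a = c
  · subst hac
    refine ⟨1, one_ne_zero, tendsto_const_nhds.congr' ?_⟩
    filter_upwards [PD_mem_nhds hr] with z hz
    have h3 : M a z - M b z ≠ 0 := sub_ne_zero.mpr fun e => hab ((hN z hz).injective e)
    field_simp
  · obtain ⟨L, hL, h⟩ := exists_limit hr ((hH a b hab).sub (hH c b hcb)) (fun z hz h1 => by
      simp only [Pi.sub_apply] at h1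
      rw [Complex.exp_sub, hHe a b hab z hz, hHe c b hcb z hz] at h1
      have h3 : M c z - M b z ≠ 0 := sub_ne_zero.mpr fun e => hcb ((hN z hz).injective e)
      rw [div_eq_one_iff_eq h3] at h1
      exact hac ((hN z hz).injective (by simpa using h1)))
    refine ⟨L, hL, h.congr' ?_⟩
    filter_upwards [PD_mem_nhds hr] with z hz
    simp only [Pi.sub_apply]
    rw [Complex.exp_sub, hHe a b hab z hz, hHe c b hcb z hz]

theorem RL.all (hr : 0 < r)
    (hH : ∀ a b, a ≠ b → DifferentiableOn ℂ (H a b) (PD r))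
    (hHe : ∀ a b, a ≠ b → ∀ z ∈ PD r, Complex.exp (H a b z) = M a z - M b z)
    (hN : ∀ z ∈ PD r, IsN fun a => M a z) {a b c d : Fin n} (hab : a ≠ b) (hcd : c ≠ d) :
    RL M a b c d := by
  by_cases hcb : c = b
  · subst hcb
    exact RL.trans hr hN hcd.symm (RL.base hr hH hHe hN hab hcd.symm)
      (RL.swap hr hN hcd.symm)
  · have e1 := RL.base hr hH hHe hN hab hcb
    have e2 := RL.swap hr hN (M := M) hcb
    have e3 := RL.base hr hH hHe hN (a := b) (b := c) (c := d) (Ne.symm hcb) hcd.symm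
    have e4 := RL.swap hr hN (M := M) hcd.symm
    exact ((e1.trans hr hN hcb e2).trans hr hN (Ne.symm hcb) e3).trans hr hN hcd.symm e4

theorem ext_abstract (hn : 2 ≤ n) (hr : 0 < r) (hM : ∀ a, DifferentiableOn ℂ (M a) (PD r))
    (hH : ∀ a b, a ≠ b → DifferentiableOn ℂ (H a b) (PD r))
    (hHe : ∀ a b, a ≠ b → ∀ z ∈ PD r, Complex.exp (H a b z) = M a z - M b z)
    (hN : ∀ z ∈ PD r, IsN fun a => M a z) :
    ∃ μ : Fin n → ℂ, Function.Injective μ ∧ ∀ a, Tendsto (M a) (𝓝[≠] 0) (𝓝 (μ a)) := by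
  have hpd := PD_mem_nhds hr
  set i0 : Fin n := ⟨0, by omega⟩ with hi0
  set i1 : Fin n := ⟨1, by omega⟩ with hi1
  have h01 : i1 ≠ i0 := by simp [hi0, hi1]
  have hne : ∀ z ∈ PD r, ∀ a b, a ≠ b → M a z - M b z ≠ 0 := fun z hz a b hab =>
    sub_ne_zero.mpr fun e => hab ((hN z hz).injective e)
  have hR : ∀ a b : Fin n, ∃ L : ℂ, L ≠ 0 ∧ (a ≠ b → Tendsto (fun z => (M a z - M b z) /
      (M i1 z - M i0 z)) (𝓝[≠] 0) (𝓝 L)) := by
    intro a b
    by_cases hab : a = b
    · exact ⟨1, one_ne_zero, fun h => absurd hab h⟩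
    · obtain ⟨L, hL, h⟩ := RL.all hr hH hHe hN hab h01
      exact ⟨L, hL, fun _ => h⟩
  choose L hL0 hL using hR
  set K := n * (n - 1) with hK
  have hK0 : 0 < K := Nat.mul_pos (by omega) (by omega)
  -- the product of all ratios
  set P : ℂ → ℂ := fun z => ∏ j, ∏ i, if i = j then 1 else (M j z - M i z) / (M i1 z - M i0 z)
    with hP
  set P0 : ℂ := ∏ j, ∏ i, if i = j then 1 else L j i with hP0
  have hPlim : Tendsto P (𝓝[≠] 0) (𝓝 P0) := by
    refine tendsto_finsetProd _ fun j _ => tendsto_finsetProd _ fun i _ => ?_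
    by_cases h : i = j
    · simp only [h, if_true]; exact tendsto_const_nhds
    · simp only [h, if_false]; exact hL j i (Ne.symm h)
  have hP00 : P0 ≠ 0 := by
    refine Finset.prod_ne_zero_iff.mpr fun j _ => Finset.prod_ne_zero_iff.mpr fun i _ => ?_
    split_ifs
    · exact one_ne_zero
    · exact hL0 _ _
  have hPeq : ∀ z ∈ PD r, (M i1 z - M i0 z) ^ K * P z = (-1) ^ (n * (n - 1) / 2) := by
    intro z hz
    have h1 := od_eq fun a => M a z
    rw [(hN z hz).2, mul_one] at h1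
    rw [← h1]
    unfold od
    have h2 : ∀ j i : Fin n, (if i = j then (1 : ℂ) else M j z - M i z) =
        (if i = j then 1 else M i1 z - M i0 z) *
          (if i = j then 1 else (M j z - M i z) / (M i1 z - M i0 z)) := by
      intro j i
      split_ifs
      · simp
      · rw [mul_div_cancel₀]
        exact hne z hz _ _ h01
    simp_rw [h2, Finset.prod_mul_distrib]
    congr 1
    have h3 : ∀ j : Fin n, (∏ i, if i = j then (1 : ℂ) else M i1 z - M i0 z) =
        (M i1 z - M i0 z) ^ (n - 1) := by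
      intro j
      rw [← Finset.mul_prod_erase Finset.univ _ (Finset.mem_univ j), if_pos rfl, one_mul,
        Finset.prod_congr rfl (g := fun _ => M i1 z - M i0 z) (fun i hi => by
          rw [if_neg (Finset.ne_of_mem_erase hi)]), Finset.prod_const,
        Finset.card_erase_of_mem (Finset.mem_univ j), Finset.card_univ, Fintype.card_fin]
    simp_rw [h3]
    rw [Finset.prod_const, Finset.card_univ, Fintype.card_fin, ← pow_mul, hK, mul_comm]
  have hpowlim : Tendsto (fun z => (M i1 z - M i0 z) ^ K) (𝓝[≠] 0)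
      (𝓝 ((-1) ^ (n * (n - 1) / 2) / P0)) := by
    have h1 : Tendsto (fun z => (-1 : ℂ) ^ (n * (n - 1) / 2) / P z) (𝓝[≠] 0)
        (𝓝 ((-1) ^ (n * (n - 1) / 2) / P0)) := tendsto_const_nhds.div hPlim hP00
    refine h1.congr' ?_
    filter_upwards [hpd] with z hz
    have h2 := hPeq z hz
    have h3 : P z ≠ 0 := by
      intro h0
      rw [h0, mul_zero] at h2
      exact pow_ne_zero _ (by norm_num : (-1 : ℂ) ≠ 0) h2.symm
    rw [← h2]
    field_simp
  -- boundedness and removability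
  have hbd : ∃ L01 : ℂ, Tendsto (fun z => M i1 z - M i0 z) (𝓝[≠] 0) (𝓝 L01) := by
    have hdd : ∀ᶠ z in 𝓝[≠] (0 : ℂ), DifferentiableAt ℂ (fun z => M i1 z - M i0 z) z := by
      filter_upwards [hpd] with z hz
      exact ((hM i1 z hz).differentiableAt ((isOpen_PD r).mem_nhds hz)).sub
        ((hM i0 z hz).differentiableAt ((isOpen_PD r).mem_nhds hz))
    refine ⟨_, Complex.tendsto_limUnder_of_differentiable_on_punctured_nhds_of_bounded_under
      hdd ?_⟩
    set C : ℝ := ‖(-1 : ℂ) ^ (n * (n - 1) / 2) / P0‖ + 1 with hC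
    have hlt : ∀ᶠ z in 𝓝[≠] (0 : ℂ), ‖(M i1 z - M i0 z) ^ K‖ < C :=
      hpowlim.norm.eventually_lt_const (by rw [hC]; linarith)
    refine isBoundedUnder_of_eventually_le (a := (1 + C) + ‖M i1 0 - M i0 0‖) ?_
    filter_upwards [hlt] with z hz
    refine (norm_sub_le _ _).trans ?_
    have h1 : ‖M i1 z - M i0 z‖ ≤ 1 + C := by
      rw [norm_pow] at hz
      have hC0 : 0 ≤ C := by positivity
      rcases le_total ‖M i1 z - M i0 z‖ 1 with h2 | h2
      · linarith
      · have h3 : ‖M i1 z - M i0 z‖ ≤ ‖M i1 z - M i0 z‖ ^ K :=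
          le_self_pow₀ h2 hK0.ne'
        linarith
    linarith
  obtain ⟨L01, hL01⟩ := hbd
  have hL010 : L01 ≠ 0 := by
    rintro rfl
    have h1 := (hL01.pow K)
    have h2 := tendsto_nhds_unique h1 hpowlim
    rw [zero_pow hK0.ne'] at h2
    exact (div_ne_zero (pow_ne_zero _ (by norm_num)) hP00) h2.symm
  -- all differences
  set Lf : Fin n → Fin n → ℂ := fun a b => if a = b then 0 else L01 * L a b with hLf
  have hdiff : ∀ a b, Tendsto (fun z => M a z - M b z) (𝓝[≠] 0) (𝓝 (Lf a b)) := by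
    intro a b
    by_cases hab : a = b
    · subst hab; simp [hLf]
    · simp only [hLf, hab, if_false]
      refine (hL01.mul (hL a b hab)).congr' ?_
      filter_upwards [hpd] with z hz
      have := hne z hz _ _ h01
      field_simp
  have hn0 : (n : ℂ) ≠ 0 := by
    have : n ≠ 0 := by omega
    exact_mod_cast this
  have hlim : ∀ a, Tendsto (M a) (𝓝[≠] 0) (𝓝 ((∑ b, Lf a b) / n)) := by
    intro a
    have h1 : Tendsto (fun z => (∑ b, (M a z - M b z)) / n) (𝓝[≠] 0) (𝓝 ((∑ b, Lf a b) / n)) :=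
      (tendsto_finsetSum _ fun b _ => hdiff a b).div_const _
    refine h1.congr' ?_
    filter_upwards [hpd] with z hz
    have h2 := (hN z hz).1
    rw [Finset.sum_sub_distrib, h2, sub_zero, Finset.sum_const, Finset.card_univ,
      Fintype.card_fin, nsmul_eq_mul]
    field_simp
  refine ⟨fun a => (∑ b, Lf a b) / n, fun a b hab => ?_, hlim⟩
  by_contra hne'
  have h1 := (hlim a).sub (hlim b)
  have h2 := tendsto_nhds_unique h1 (hdiff a b)
  simp only at hab
  rw [hab, sub_self] at h2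
  simp only [hLf, hne', if_false] at h2
  exact mul_ne_zero hL010 (hL0 a b) h2.symm

end abstract

end Pool.Agent.Lib.MP_7b99f3_ag
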