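import Pool.Agent.Lib.MP_7b99f3_ag.Ext

/-!
Extension of the roots when a cluster without winding collapses.
-/

namespace Pool.Agent.Lib.MP_7b99f3_ag

open Topology Filter

variable {k n : ℕ} {D : Datum k n}

/-- left half-plane -/
def HP (δ : ℝ) : Set ℂ := {w | w.re < δ}

theorem isOpen_HP (δ : ℝ) : IsOpen (HP δ) := isOpen_lt Complex.continuous_re continuous_const

theorem convex_HP (δ : ℝ) : Convex ℝ (HP δ) := convex_halfSpace_re_lt δ

theorem HP_shift {δ : ℝ} {w : ℂ} (hw : w ∈ HP δ) {s : ℂ} (hs : s.re = 0) : w + s ∈ HP δ := by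
  unfold HP at *
  simp only [Set.mem_ofPred_eq, Complex.add_re, hs, add_zero] at *
  exact hw

theorem periodic_int {E : Type*} {δ : ℝ} {u : ℂ → E}
    (hp : ∀ w ∈ HP δ, u (w + 2 * Real.pi * Complex.I) = u w) (m : ℤ) {w : ℂ} (hw : w ∈ HP δ) :
    u (w + m * (2 * Real.pi * Complex.I)) = u w := by
  have hre : ∀ m : ℤ, ((m : ℂ) * (2 * Real.pi * Complex.I)).re = 0 := by
    intro m
    rw [show (m : ℂ) = ((m : ℝ) : ℂ) by push_cast; rfl, Complex.re_ofReal_mul]
    simp
  induction m using Int.induction_on with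
  | zero => simp
  | succ m ih =>
    have h1 := hp (w + (m : ℤ) * (2 * Real.pi * Complex.I)) (HP_shift hw (hre m))
    rw [ih] at h1
    rw [← h1]
    congr 1
    push_cast
    ring
  | pred m ih =>
    have h1 := hp (w + ((-(m : ℤ) - 1 : ℤ) : ℂ) * (2 * Real.pi * Complex.I))
      (HP_shift hw (hre _))
    rw [← h1, ← ih]
    congr 1
    push_cast
    ring

theorem log_exp_shift (w : ℂ) : ∃ m : ℤ, Complex.log (Complex.exp w) =
    w + m * (2 * Real.pi * Complex.I) := Complex.log_exp_exists w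

theorem descend_eq {E : Type*} {δ : ℝ} {u : ℂ → E}
    (hp : ∀ w ∈ HP δ, u (w + 2 * Real.pi * Complex.I) = u w) {w : ℂ} (hw : w ∈ HP δ) :
    u (Complex.log (Complex.exp w)) = u w := by
  obtain ⟨m, hm⟩ := log_exp_shift w
  rw [hm, periodic_int hp m hw]

theorem log_mem_HP {δ : ℝ} {z : ℂ} (hz : z ∈ PD (Real.exp δ)) : Complex.log z ∈ HP δ := by
  have h0 : 0 < ‖z‖ := norm_pos_iff.mpr (PD_ne hz)
  have h1 : ‖z‖ < Real.exp δ := by simpa using hz.1
  simp only [HP, Set.mem_ofPred_eq, Complex.log_re]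
  rwa [Real.log_lt_iff_lt_exp h0]

theorem descend_diff {δ : ℝ} {u : ℂ → ℂ} (hu : DifferentiableOn ℂ u (HP δ))
    (hp : ∀ w ∈ HP δ, u (w + 2 * Real.pi * Complex.I) = u w) :
    DifferentiableOn ℂ (fun z => u (Complex.log z)) (PD (Real.exp δ)) := by
  intro z hz
  apply DifferentiableAt.differentiableWithinAt
  have hlog := log_mem_HP hz
  by_cases hsl : z ∈ Complex.slitPlane
  · exact ((hu _ hlog).differentiableAt ((isOpen_HP δ).mem_nhds hlog)).comp z
      (Complex.differentiableAt_log hsl)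
  · -- use the opposite branch
    have hnz := PD_ne hz
    have hneg : -z ∈ Complex.slitPlane := by
      rw [Complex.mem_slitPlane_iff, not_or, not_lt, not_not] at hsl
      rw [Complex.mem_slitPlane_iff]
      left
      have h2 : z.re ≠ 0 := fun h => hnz (Complex.ext h hsl.2)
      have h3 := lt_of_le_of_ne hsl.1 h2
      simpa using h3
    have hnegPD : -z ∈ PD (Real.exp δ) := by
      refine ⟨?_, ?_⟩
      · have := hz.1
        simpa using this
      · simpa using hnz
    have hl2 : Complex.log (-z) + Real.pi * Complex.I ∈ HP δ :=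
      HP_shift (log_mem_HP hnegPD) (by simp)
    have h1 : DifferentiableAt ℂ (fun y => u (Complex.log (-y) + Real.pi * Complex.I)) z := by
      have h2 : DifferentiableAt ℂ (fun y : ℂ => Complex.log (-y) + Real.pi * Complex.I) z :=
        ((Complex.differentiableAt_log hneg).comp z differentiableAt_id.neg).add_const _
      exact DifferentiableAt.comp z ((hu _ hl2).differentiableAt ((isOpen_HP δ).mem_nhds hl2)) h2
    refine h1.congr_of_eventuallyEq ?_
    filter_upwards [(isOpen_PD _).mem_nhds hz] with y hy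
    have hyn := PD_ne hy
    have hyneg : -y ∈ PD (Real.exp δ) := by
      refine ⟨?_, ?_⟩
      · have := hy.1
        simpa using this
      · simpa using hyn
    have hmem : Complex.log (-y) + Real.pi * Complex.I ∈ HP δ :=
      HP_shift (log_mem_HP hyneg) (by simp)
    have h3 : Complex.exp (Complex.log (-y) + Real.pi * Complex.I) = y := by
      rw [Complex.exp_add, Complex.exp_log (neg_ne_zero.mpr hyn), Complex.exp_pi_mul_I]
      ring
    have h4 := descend_eq hp hmem
    rw [h3] at h4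
    exact h4

theorem rot_injective' {x : Fin k → ℂ} {p : ℂ} {I : Finset (Fin k)} (hx : Function.Injective x)
    {w : ℂ} (hw : ∀ i ∈ I, ∀ j ∉ I, Real.exp w.re * ‖x i - p‖ < ‖x j - p‖) :
    Function.Injective (rot x p I w) := by
  have key : ∀ i ∈ I, ∀ j ∉ I, rot x p I w i ≠ rot x p I w j := by
    intro i hi j hj he
    simp only [rot, hi, hj, if_true, if_false] at he
    have h3 : ‖x j - p‖ = ‖Complex.exp w * (x i - p)‖ := by rw [← he]; congr 1; ring
    rw [norm_mul, Complex.norm_exp] at h3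
    have h5 := hw i hi j hj
    linarith
  intro i j hij
  by_cases hi : i ∈ I <;> by_cases hj : j ∈ I
  · simp only [rot, hi, hj, if_true] at hij
    have h3 : Complex.exp w * (x i - p) = Complex.exp w * (x j - p) := by
      linear_combination hij
    have h4 := mul_left_cancel₀ (Complex.exp_ne_zero w) h3
    exact hx (by linear_combination h4)
  · exact absurd hij (key i hi j hj)
  · exact absurd hij.symm (key j hj i hi)
  · simp only [rot, hi, hj, if_false] at hij
    exact hx hij

theorem exists_slack {x : Fin k → ℂ} {p : ℂ} {I : Finset (Fin k)} (hs : SepAt x p I) :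
    ∃ δ : ℝ, 0 < δ ∧ ∀ w ∈ HP δ, ∀ i ∈ I, ∀ j ∉ I, Real.exp w.re * ‖x i - p‖ < ‖x j - p‖ := by
  have h1 : ∀ᶠ δ : ℝ in 𝓝 0, ∀ i j, i ∈ I → j ∉ I → Real.exp δ * ‖x i - p‖ < ‖x j - p‖ := by
    rw [Filter.eventually_all]
    intro i
    rw [Filter.eventually_all]
    intro j
    by_cases h : i ∈ I ∧ j ∉ I
    · have hc : ContinuousAt (fun δ : ℝ => Real.exp δ * ‖x i - p‖) 0 := by fun_prop
      have h2 := hc.eventually_lt (g := fun _ => ‖x j - p‖) continuousAt_const (by
        simpa using hs.lt h.1 h.2)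
      filter_upwards [h2] with δ hδ _ _ using hδ
    · exact Filter.Eventually.of_forall fun δ h1 h2 => absurd ⟨h1, h2⟩ h
  obtain ⟨δ, h0, _, h2⟩ := exists_small h1
  refine ⟨δ, h0, fun w hw i hi j hj => ?_⟩
  refine lt_of_le_of_lt ?_ (h2 i j hi hj)
  exact mul_le_mul_of_nonneg_right (Real.exp_le_exp.mpr (le_of_lt hw)) (norm_nonneg _)

theorem contDiff_rot (x : Fin k → ℂ) (p : ℂ) (I : Finset (Fin k)) :
    ContDiff ℂ 2 (rot x p I) := by
  rw [contDiff_pi]
  intro i
  unfold rot
  split_ifs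
  · exact contDiff_const.add (Complex.contDiff_exp.mul contDiff_const)
  · exact contDiff_const

/-- the filter of the left end of the plane -/
noncomputable def LE : Filter ℂ := comap Complex.re atBot

theorem HP_mem_LE (δ : ℝ) : HP δ ∈ LE :=
  preimage_mem_comap (Iio_mem_atBot δ)

/-- Extension of the roots: if the cluster `I` has no winding, the roots have distinct limits when
the cluster shrinks. -/
theorem ext_state (hk : 2 ≤ k) (hn : 2 ≤ n) {x : Fin k → ℂ} {κ : ℂ} {μ : Fin n → ℂ} {p : ℂ}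
    {I : Finset (Fin k)} (h : St D x κ μ) (hs : SepAt x p I) (hW : WI D x κ μ I = 0) :
    ∃ δ : ℝ, 0 < δ ∧ ∃ (κ' : ℂ → ℂ) (μ' : ℂ → Fin n → ℂ), ContinuousOn κ' (HP δ) ∧
      ContinuousOn μ' (HP δ) ∧ (∀ w ∈ HP δ, St D (rot x p I w) (κ' w) (μ' w)) ∧ κ' 0 = κ ∧
      μ' 0 = μ ∧ ∃ μi : Fin n → ℂ, Function.Injective μi ∧ Tendsto μ' LE (𝓝 μi) := by
  have hn0 : 0 < n := by omega
  obtain ⟨δ, hδ, hsl⟩ := exists_slack hs
  have h0 : (0 : ℂ) ∈ HP δ := by simpa [HP] using hδ
  have hinj : ∀ w ∈ HP δ, Function.Injective (rot x p I w) := fun w hw =>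
    rot_injective' h.inj (hsl w hw)
  obtain ⟨κ', μ', c1, c2, c3, c4, c5⟩ := exists_lift_on (D := D) hk hn0 (isOpen_HP δ)
    (convex_HP δ) (X := rot x p I) (contDiff_rot x p I).continuous.continuousOn hinj h0
    (by rw [rot_zero]; exact h)
  refine ⟨δ, hδ, κ', μ', c1, c2, c3, c4, c5, ?_⟩
  have hNpos : 0 < NN k n := NN_pos hk
  have hNc : ((NN k n : ℕ) : ℂ) ≠ 0 := by exact_mod_cast hNpos.ne'
  have hNr : (0 : ℝ) < (NN k n : ℝ) := by exact_mod_cast hNpos
  set c : ℂ := 2 * Real.pi * Complex.I with hc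
  have hcre : c.re = 0 := by simp [hc]
  have hcN : ((NN k n : ℂ) * c).re = 0 := by
    rw [show ((NN k n : ℕ) : ℂ) = ((NN k n : ℝ) : ℂ) by push_cast; rfl, Complex.re_ofReal_mul,
      hcre, mul_zero]
  -- periodicity of the roots
  have hpc : PreconnectedSpace (HP δ) :=
    isPreconnected_iff_preconnectedSpace.mp (convex_HP δ).isPreconnected
  have hμper : ∀ w ∈ HP δ, μ' (w + NN k n * c) = μ' w := by
    intro w hw
    set τ : HP δ → HP δ := fun a => ⟨a.1 + c, HP_shift a.2 hcre⟩ with hτ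
    have hτc : Continuous τ := by
      rw [hτ]
      exact Continuous.subtype_mk (by fun_prop) _
    have h1 := (shift_NN hk hn0 (A := HP δ) (X := fun a => rot x p I a.1)
      (κ := fun a => κ' a.1) (μ := fun a => μ' a.1) (continuousOn_iff_continuous_domRestrict.mp c1)
      (continuousOn_iff_continuous_domRestrict.mp c2) (fun a => c3 a.1 a.2) hτc
      (fun a => rot_two_pi x p I a.1) ⟨w, hw⟩).2
    have h2 : ∀ m : ℕ, (τ^[m] ⟨w, hw⟩).1 = w + m * c := by
      intro m
      induction m with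
      | zero => simp
      | succ m ih =>
        rw [Function.iterate_succ_apply']
        simp only [hτ] at ih ⊢
        rw [ih]; push_cast; ring
    rw [h2] at h1
    exact h1
  -- logarithms
  have hlog : ∀ a b : Fin n, ∃ l : ℂ → ℂ, a ≠ b → ContinuousOn l (HP δ) ∧
      ∀ w ∈ HP δ, Complex.exp (l w) = μ' w a - μ' w b := by
    intro a b
    by_cases hab : a = b
    · exact ⟨0, fun h => absurd hab h⟩
    · obtain ⟨l, hl⟩ := exists_log_on (isOpen_HP δ) (convex_HP δ) ⟨0, h0⟩
        (u := fun w => μ' w a - μ' w b)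
        (((continuous_apply a).comp_continuousOn c2).sub
          ((continuous_apply b).comp_continuousOn c2)) (fun w hw => (c3 w hw).ne hab)
      exact ⟨l, fun _ => hl⟩
  choose l hl using hlog
  have hlper : ∀ a b, a ≠ b → ∀ w ∈ HP δ, l a b (w + NN k n * c) = l a b w := by
    intro a b hab w hw
    obtain ⟨hlc, hle⟩ := hl a b hab
    have h1 := exp_eq_exp_const (A := HP δ) (l := fun a' => l a b (a'.1 + NN k n * c))
      (l' := fun a' => l a b a'.1)
      (hlc.comp_continuous (by fun_prop) (fun a' => HP_shift a'.2 hcN))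
      (hlc.comp_continuous continuous_subtype_val (fun a' => a'.2)) (fun a' => by
        rw [hle _ (HP_shift a'.2 hcN), hle _ a'.2, hμper _ a'.2]) ⟨w, hw⟩ ⟨0, h0⟩
    simp only [zero_add] at h1
    have hmem : ∀ t : ℝ, c * t ∈ HP δ := by
      intro t
      simp only [HP, Set.mem_ofPred_eq, Complex.re_mul_ofReal, hcre, zero_mul]
      exact hδ
    have hWeq := W_eq hk hn0 (D := D) (x := x) (κ := κ) (μ := μ) (p := p) (I := I)
      (κ' := fun t : ℝ => κ' (c * t)) (μ' := fun t : ℝ => μ' (c * t))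
      (c1.comp_continuous (by fun_prop) hmem) (c2.comp_continuous (by fun_prop) hmem)
      (fun t => c3 _ (hmem t)) (by simp [c4]) (by simp [c5]) a b
    rw [WI_eq hk hn0 h hs] at hW
    have hW0 : W D x κ μ p I a b = 0 := by rw [hW]; rfl
    rw [hW0] at hWeq
    have hmemN : ∀ t : ℝ, c * ((NN k n * t : ℝ) : ℂ) ∈ HP δ := fun t => hmem _
    have hspec := wind_spec (u := fun t : ℝ => μ' (c * ((NN k n * t : ℝ) : ℂ)) a -
        μ' (c * ((NN k n * t : ℝ) : ℂ)) b)
      (l := fun t : ℝ => l a b (c * ((NN k n * t : ℝ) : ℂ)))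
      (hlc.comp_continuous (by fun_prop) hmemN) (fun t => hle _ (hmemN t)) (by
        have h2 := hμper 0 h0
        simp only [mul_zero, mul_one, Complex.ofReal_zero]
        rw [zero_add] at h2
        have h3 : c * ((NN k n : ℝ) : ℂ) = NN k n * c := by push_cast; ring
        rw [h3, h2])
    rw [← hWeq] at hspec
    have h3 : c * (((NN k n : ℝ) * 1 : ℝ) : ℂ) = NN k n * c := by push_cast; ring
    have h4 : c * (((NN k n : ℝ) * 0 : ℝ) : ℂ) = 0 := by push_cast; ring
    rw [h3, h4] at hspec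
    rw [hspec] at h1
    simp only [Int.cast_zero, mul_zero] at h1
    exact sub_eq_zero.mp h1
  -- rescaled functions
  set δ' : ℝ := δ / NN k n with hδ'
  have hscale : ∀ w ∈ HP δ', (NN k n : ℂ) * w ∈ HP δ := by
    intro w hw
    simp only [HP, Set.mem_ofPred_eq] at hw ⊢
    rw [show ((NN k n : ℕ) : ℂ) = ((NN k n : ℝ) : ℂ) by push_cast; rfl, Complex.re_ofReal_mul]
    rw [hδ', lt_div_iff₀ hNr] at hw
    linarith
  have hμd : ∀ w ∈ HP δ, DifferentiableAt ℂ μ' w := fun w hw =>
    (contDiffAt_mu hk (isOpen_HP δ) c1 c2 c3 hw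
      (contDiff_rot x p I).contDiffAt).differentiableAt (by norm_num)
  have hμda : ∀ a, ∀ w ∈ HP δ, DifferentiableAt ℂ (fun w => μ' w a) w := fun a w hw =>
    differentiableAt_pi.mp (hμd w hw) a
  have hld : ∀ a b, a ≠ b → ∀ w ∈ HP δ, DifferentiableAt ℂ (l a b) w := by
    intro a b hab w hw
    have h1 := contDiffAt_mu hk (isOpen_HP δ) c1 c2 c3 hw (contDiff_rot x p I).contDiffAt
    exact (contDiffAt_log (isOpen_HP δ) (hl a b hab).1 (hl a b hab).2 hw
      ((contDiffAt_pi.mp h1 a).sub (contDiffAt_pi.mp h1 b))).differentiableAt (by norm_num)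
  have hMper : ∀ a, ∀ w ∈ HP δ', μ' (NN k n * (w + 2 * Real.pi * Complex.I)) a =
      μ' (NN k n * w) a := by
    intro a w hw
    rw [mul_add, hμper _ (hscale w hw)]
  have hHper : ∀ a b, a ≠ b → ∀ w ∈ HP δ', l a b (NN k n * (w + 2 * Real.pi * Complex.I)) =
      l a b (NN k n * w) := by
    intro a b hab w hw
    rw [mul_add, hlper a b hab _ (hscale w hw)]
  set r : ℝ := Real.exp δ' with hr
  have hr0 : 0 < r := Real.exp_pos _
  set M : Fin n → ℂ → ℂ := fun a z => μ' (NN k n * Complex.log z) a with hM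
  set H : Fin n → Fin n → ℂ → ℂ := fun a b z => l a b (NN k n * Complex.log z) with hH
  have hMd : ∀ a, DifferentiableOn ℂ (M a) (PD r) := by
    intro a
    refine descend_diff (u := fun w => μ' (NN k n * w) a) ?_ (hMper a)
    intro w hw
    refine DifferentiableAt.differentiableWithinAt ?_
    exact DifferentiableAt.comp (f := fun w : ℂ => (NN k n : ℂ) * w) w (hμda a _ (hscale w hw))
      (by fun_prop)
  have hHd : ∀ a b, a ≠ b → DifferentiableOn ℂ (H a b) (PD r) := by
    intro a b hab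
    refine descend_diff (u := fun w => l a b (NN k n * w)) ?_ (hHper a b hab)
    intro w hw
    refine DifferentiableAt.differentiableWithinAt ?_
    exact DifferentiableAt.comp (f := fun w : ℂ => (NN k n : ℂ) * w) w
      (hld a b hab _ (hscale w hw)) (by fun_prop)
  obtain ⟨μi, hμi, hlim⟩ := ext_abstract hn hr0 hMd hHd
    (fun a b hab z hz => (hl a b hab).2 _ (hscale _ (log_mem_HP hz)))
    (fun z hz => (c3 _ (hscale _ (log_mem_HP hz))).isN)
  refine ⟨μi, hμi, ?_⟩
  rw [tendsto_pi_nhds]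
  intro a
  have h1 : Tendsto (fun w : ℂ => Complex.exp (w / NN k n)) LE (𝓝[≠] 0) := by
    refine tendsto_nhdsWithin_iff.mpr ⟨?_, Eventually.of_forall fun w => Complex.exp_ne_zero _⟩
    refine Complex.tendsto_exp_comap_re_atBot.comp ?_
    unfold LE
    rw [tendsto_comap_iff]
    have h2 : (Complex.re ∘ fun w : ℂ => w / NN k n) = fun w : ℂ => w.re / NN k n := by
      funext w
      simp only [Function.comp_apply]
      rw [show ((NN k n : ℕ) : ℂ) = ((NN k n : ℝ) : ℂ) by push_cast; rfl, Complex.div_ofReal_re]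
    rw [h2]
    exact tendsto_comap.atBot_div_const hNr
  refine ((hlim a).comp h1).congr' ?_
  filter_upwards [HP_mem_LE δ] with w hw
  simp only [Function.comp_apply, hM]
  have hw' : w / NN k n ∈ HP δ' := by
    simp only [HP, Set.mem_ofPred_eq] at hw ⊢
    rw [show ((NN k n : ℕ) : ℂ) = ((NN k n : ℝ) : ℂ) by push_cast; rfl, Complex.div_ofReal_re]
    exact div_lt_div_of_pos_right hw hNr
  have h3 := descend_eq (u := fun w => μ' (NN k n * w) a) (hMper a) hw'
  rw [h3, mul_div_cancel₀ w hNc]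

end Pool.Agent.Lib.MP_7b99f3_ag
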