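import Pool.Agent.Lib.MP_7b99f3_ag.Lam

/-!
Flags of nested concentric clusters, and transport of linear relations between winding numbers.
-/

namespace Pool.Agent.Lib.MP_7b99f3_ag

open Topology

variable {k n : ℕ} {D : Datum k n}

/-- the first `m` points -/
def cl (k m : ℕ) : Finset (Fin k) := Finset.univ.filter fun i => (i : ℕ) < m

theorem mem_cl {m : ℕ} {i : Fin k} : i ∈ cl k m ↔ (i : ℕ) < m := by simp [cl]

theorem card_cl {m : ℕ} (hm : m ≤ k) : (cl k m).card = m := by
  unfold cl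
  rw [Fin.card_filter_val_lt]
  omega

/-- configuration in logarithmic coordinates around the point `p` -/
noncomputable def fconf (k : ℕ) (p : ℂ) (a : ℕ → ℂ) : Fin k → ℂ := fun i =>
  if (i : ℕ) = 0 then p - Complex.exp (a 1) else p + Complex.exp (a i)

/-- increasing real parts -/
def Inc (k : ℕ) (a : ℕ → ℂ) : Prop := ∀ i j : ℕ, 1 ≤ i → i < j → j < k → (a i).re < (a j).re

theorem norm_fconf (k : ℕ) (p : ℂ) (a : ℕ → ℂ) (i : Fin k) :
    ‖fconf k p a i - p‖ = Real.exp (a (max 1 (i : ℕ))).re := by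
  unfold fconf
  by_cases h : (i : ℕ) = 0
  · simp [h, Complex.norm_exp]
  · have : max 1 (i : ℕ) = i := by omega
    simp [h, Complex.norm_exp, this]

theorem fconf_injective {p : ℂ} {a : ℕ → ℂ} (ha : Inc k a) :
    Function.Injective (fconf k p a) := by
  have key : ∀ i j : Fin k, (i : ℕ) < j → fconf k p a i ≠ fconf k p a j := by
    intro i j hij h
    have h1 := norm_fconf k p a i
    have h2 := norm_fconf k p a j
    rw [h, h2] at h1
    have h3 := Real.exp_injective h1
    have hj := j.2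
    by_cases h4 : max 1 (i : ℕ) = max 1 (j : ℕ)
    · have hi0 : (i : ℕ) = 0 := by omega
      have hj1 : (j : ℕ) = 1 := by omega
      simp only [fconf, hi0, hj1, if_true, if_neg one_ne_zero] at h
      have h5 : Complex.exp (a 1) = 0 := by linear_combination (-1/2 : ℂ) * h
      exact Complex.exp_ne_zero _ h5
    · have := ha (max 1 (i : ℕ)) (max 1 (j : ℕ)) (by omega) (by omega) (by omega)
      linarith
  intro i j h
  by_contra hne
  rcases lt_or_gt_of_ne (fun e => hne (Fin.ext e)) with h1 | h1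
  · exact key i j h1 h
  · exact key j i h1 h.symm

theorem fconf_sepAt {p : ℂ} {a : ℕ → ℂ} (ha : Inc k a) {m : ℕ} (hm : 2 ≤ m) (hmk : m < k) :
    SepAt (fconf k p a) p (cl k m) := by
  refine ⟨Real.exp (((a (m - 1)).re + (a m).re) / 2), fun i hi => ?_, fun i hi => ?_⟩
  · rw [mem_cl] at hi
    rw [norm_fconf, Real.exp_lt_exp]
    have h1 := ha (m - 1) m (by omega) (by omega) (by omega)
    rcases Nat.lt_or_ge (max 1 (i : ℕ)) (m - 1) with h2 | h2
    · have := ha (max 1 (i : ℕ)) (m - 1) (by omega) h2 (by omega)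
      linarith
    · have : max 1 (i : ℕ) = m - 1 := by omega
      rw [this]; linarith
  · rw [mem_cl, not_lt] at hi
    rw [norm_fconf, Real.exp_lt_exp]
    have h1 := ha (m - 1) m (by omega) (by omega) (by omega)
    have hi2 := i.2
    rcases Nat.lt_or_ge m (max 1 (i : ℕ)) with h2 | h2
    · have := ha m (max 1 (i : ℕ)) (by omega) h2 (by omega)
      linarith
    · have : max 1 (i : ℕ) = m := by omega
      rw [this]; linarith

/-- a linear relation between the winding numbers of the nested clusters -/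
def FlagRel (D : Datum k n) (ξ : Fin (k - 2) → ℂ) (x : Fin k → ℂ) (κ : ℂ) : Prop :=
  ∀ μ, St D x κ μ → ∀ a b, ∑ j : Fin (k - 2), ξ j * (WI D x κ μ (cl k (j + 2)) a b : ℂ) = 0

theorem flag_transport (hk : 2 ≤ k) (hn : 0 < n) {ξ : Fin (k - 2) → ℂ} {X : ℝ → Fin k → ℂ}
    (hX : Continuous X) (hinj : ∀ t, Function.Injective (X t))
    (hs : ∀ t, ∀ m, 2 ≤ m → m < k → ∃ p, SepAt (X t) p (cl k m)) {κ : ℝ → ℂ}
    (hκ : Continuous κ) (h : ∀ t, κ t ^ (k * (k - 1)) * vd (X t) ^ 2 = 1)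
    (hrel : FlagRel D ξ (X 1) (κ 1)) : FlagRel D ξ (X 0) (κ 0) := by
  intro μ hμ a b
  obtain ⟨κ', μ', c1, c2, c3, c4, c5⟩ := exists_lift D hk hn (A := ℝ) hX hinj 0 hμ
  have hκκ : κ' = κ := kap_unique hk c1 hκ (fun t => (c3 t).kap) h 0 c4
  subst hκκ
  rw [← hrel (μ' 1) (c3 1) a b]
  refine Finset.sum_congr rfl fun j _ => ?_
  have := WI_path hk hn hX c1 c2 c3 (I := cl k (j + 2))
    (fun t => hs t _ (by omega) (by have := j.2; omega)) 0 1
  rw [← c5, this]

theorem exists_kap_lift (hk : 2 ≤ k) {X : ℝ → Fin k → ℂ}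
    (hX : Continuous X) (hinj : ∀ t, Function.Injective (X t)) {κ₀ : ℂ}
    (h₀ : κ₀ ^ (k * (k - 1)) * vd (X 0) ^ 2 = 1) :
    ∃ κ : ℝ → ℂ, Continuous κ ∧ (∀ t, κ t ^ (k * (k - 1)) * vd (X t) ^ 2 = 1) ∧ κ 0 = κ₀ := by
  have hM0 : k * (k - 1) ≠ 0 := by
    have h1 : 0 < k := by omega
    have h2 : 0 < k - 1 := by omega
    exact (Nat.mul_pos h1 h2).ne'
  have hvd : ∀ a, vd (X a) ≠ 0 := fun a => vd_ne_zero_iff.mpr (hinj a)
  have hc : Continuous fun a => (vd (X a) ^ 2)⁻¹ :=
    ((continuous_vd.comp hX).pow 2).inv₀ fun a => pow_ne_zero _ (hvd a)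
  have hcov := isCoveringMapOn_npow (𝕜 := ℂ) (k * (k - 1)) (by exact_mod_cast hM0)
  obtain ⟨κ, ⟨hκ0, hκ⟩, -⟩ := hcov.existsUnique_continuousMap_lifts
    (⟨fun a => (vd (X a) ^ 2)⁻¹, hc⟩ : C(ℝ, ℂ)) (a₀ := (0 : ℝ)) (e₀ := κ₀)
    (eq_inv_of_mul_eq_one_left h₀)
    (fun a => by simpa using hvd a)
  refine ⟨κ, κ.continuous, fun a => ?_, hκ0⟩
  have := congrFun hκ a
  simp only [Function.comp_apply, ContinuousMap.coe_mk] at this
  rw [this, inv_mul_cancel₀ (pow_ne_zero _ (hvd a))]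

theorem flag_transport_all (hk : 2 ≤ k) (hn : 0 < n) {ξ : Fin (k - 2) → ℂ} {X : ℝ → Fin k → ℂ}
    (hX : Continuous X) (hinj : ∀ t, Function.Injective (X t))
    (hs : ∀ t, ∀ m, 2 ≤ m → m < k → ∃ p, SepAt (X t) p (cl k m))
    (hrel : ∀ κ, FlagRel D ξ (X 1) κ) (κ : ℂ) : FlagRel D ξ (X 0) κ := by
  intro μ hμ a b
  obtain ⟨κ', c1, c2, c3⟩ := exists_kap_lift hk hX hinj hμ.kap
  subst c3
  exact flag_transport hk hn hX hinj hs c1 c2 (hrel _) μ hμ a b

theorem norm_rot_I (x : Fin k → ℂ) (p : ℂ) (I : Finset (Fin k)) {w : ℂ} (hw : w.re = 0)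
    (i : Fin k) : ‖rot x p I w i - p‖ = ‖x i - p‖ := by
  unfold rot
  split_ifs
  · rw [add_sub_cancel_left, norm_mul, Complex.norm_exp, hw]; simp
  · rfl

theorem sepAt_rot_I {x : Fin k → ℂ} {p : ℂ} {I J : Finset (Fin k)} {w : ℂ} (hw : w.re = 0)
    (h : SepAt x p J) : SepAt (rot x p I w) p J := by
  obtain ⟨r, h1, h2⟩ := h
  exact ⟨r, fun i hi => by rw [norm_rot_I x p I hw]; exact h1 i hi,
    fun i hi => by rw [norm_rot_I x p I hw]; exact h2 i hi⟩

/-- the standard flagged configuration -/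
noncomputable def xs (k : ℕ) : Fin k → ℂ := fconf k 0 fun i => i

theorem inc_xs : Inc k fun i => (i : ℂ) := by
  intro i j _ hij _
  simpa using hij

theorem xs_injective : Function.Injective (xs k) := fconf_injective inc_xs

theorem cl_map_swap (hk : 2 ≤ k) {m : ℕ} (hm : 2 ≤ m) :
    (cl k m).map (Equiv.swap (⟨0, by omega⟩ : Fin k) ⟨1, by omega⟩).toEmbedding = cl k m := by
  ext i
  set σ := Equiv.swap (⟨0, by omega⟩ : Fin k) ⟨1, by omega⟩ with hσ
  have h1 : i = σ (σ i) := by simp [hσ]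
  rw [h1, mem_map_perm, mem_cl, mem_cl, ← h1]
  have h2 : σ i = i ∨ ((i : ℕ) < 2 ∧ (σ i : ℕ) < 2) := by
    rw [hσ]
    unfold Equiv.swap
    simp only [Equiv.coe_fn_mk, Equiv.swapCore]
    split_ifs with h3 h4
    · right; rw [h3]; simp
    · right; rw [h4]; simp
    · left; rfl
  rcases h2 with h2 | ⟨h2, h3⟩
  · rw [h2]
  · constructor <;> intro _ <;> omega

/-- half twist of the two innermost points at the standard configuration -/
theorem rot_xs_half (hk : 2 ≤ k) : rot (xs k) 0 (cl k 2) (Real.pi * Complex.I) =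
    xs k ∘ Equiv.swap (⟨0, by omega⟩ : Fin k) ⟨1, by omega⟩ := by
  funext i
  simp only [rot, Function.comp_apply, zero_add, sub_zero, Complex.exp_pi_mul_I]
  by_cases h0 : i = (⟨0, by omega⟩ : Fin k)
  · subst h0
    rw [if_pos (by simp [mem_cl]), Equiv.swap_apply_left]
    simp [xs, fconf]
  · by_cases h1 : i = (⟨1, by omega⟩ : Fin k)
    · subst h1
      rw [if_pos (by simp [mem_cl]), Equiv.swap_apply_right]
      simp [xs, fconf]
    · rw [Equiv.swap_apply_of_ne_of_ne h0 h1, if_neg]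
      rw [mem_cl]
      intro h2
      apply h1
      have h3 : (i : ℕ) ≠ 0 := fun e => h0 (Fin.ext e)
      ext
      simp
      omega

/-- from one scale factor to all of them -/
theorem half_twist_induction (hk : 3 ≤ k) {P : ℂ → Prop}
    (hstep : ∀ κ : ℝ → ℂ, Continuous κ →
      (∀ t : ℝ, κ t ^ (k * (k - 1)) *
        vd (rot (xs k) 0 (cl k 2) (Real.pi * Complex.I * t)) ^ 2 = 1) → P (κ 1) → P (κ 0))
    {κ₀ : ℂ} (h₀ : κ₀ ^ (k * (k - 1)) * vd (xs k) ^ 2 = 1) (hP : P κ₀) {κ : ℂ}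
    (hκ : κ ^ (k * (k - 1)) * vd (xs k) ^ 2 = 1) : P κ := by
  have hM0 : k * (k - 1) ≠ 0 := by
    have h1 : 0 < k := by omega
    have h2 : 0 < k - 1 := by omega
    exact (Nat.mul_pos h1 h2).ne'
  have hMc : ((k * (k - 1) : ℕ) : ℂ) = (k : ℂ) * (k - 1) := by
    rw [Nat.cast_mul, Nat.cast_sub (by omega)]; simp
  set ζ := Complex.exp (2 * Real.pi * Complex.I / ((k * (k - 1) : ℕ) : ℂ)) with hζ
  have hprim : IsPrimitiveRoot ζ (k * (k - 1)) := Complex.isPrimitiveRoot_exp _ hM0
  have hsep : SepAt (xs k) 0 (cl k 2) := fconf_sepAt inc_xs le_rfl (by omega)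
  have hre : ∀ t : ℝ, (Real.pi * Complex.I * t : ℂ).re ≤ 0 := fun t => by simp
  have hvd : vd (xs k) ^ 2 ≠ 0 := pow_ne_zero _ (vd_ne_zero_iff.mpr xs_injective)
  -- one step
  have hone : ∀ κ : ℂ, κ ^ (k * (k - 1)) * vd (xs k) ^ 2 = 1 → P κ → P (κ * ζ) := by
    intro κ₁ h1 hP1
    obtain ⟨κ', c1, c2, c3⟩ := exists_kap_lift (k := k) (by omega)
      (X := fun t : ℝ => rot (xs k) 0 (cl k 2) (Real.pi * Complex.I * t)) (κ₀ := κ₁ * ζ)
      (continuous_rot continuous_const continuous_const (by fun_prop) _)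
      (fun t => rot_injective xs_injective hsep (hre t))
      (by simp only [Complex.ofReal_zero, mul_zero, rot_zero]
          rw [mul_pow, hprim.pow_eq_one, mul_one]; exact h1)
    have h2 := kap_rot (by omega) hsep (w := fun t : ℝ => (Real.pi * Complex.I * t : ℂ))
      (by fun_prop) hre c1 c2 0 1
    have h3 := lam_shift xs_injective (rot_xs_half (by omega : 2 ≤ k)) 0
    rw [zero_add] at h3
    simp only [Complex.ofReal_zero, mul_zero, Complex.ofReal_one, mul_one] at h2
    rw [h3, c3, card_cl (by omega)] at h2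
    have h4 : κ' 1 = κ₁ := by
      rw [h2, mul_assoc, hζ, ← Complex.exp_add]
      have : (2 * Real.pi * Complex.I / ((k * (k - 1) : ℕ) : ℂ) +
        -(lam (xs k) 0 (cl k 2) 0 + ((2 : ℕ) : ℂ) * (((2 : ℕ) : ℂ) - 1) * (Real.pi * Complex.I) -
          lam (xs k) 0 (cl k 2) 0) / (k * (k - 1))) = 0 := by
        rw [hMc]
        push_cast
        ring
      rw [this, Complex.exp_zero, mul_one]
    have h5 := hstep κ' c1 c2 (by rw [h4]; exact hP1)
    rwa [c3] at h5
  have hall : ∀ j : ℕ, P (κ₀ * ζ ^ j) := by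
    intro j
    induction j with
    | zero => simpa using hP
    | succ j ih =>
      have := hone (κ₀ * ζ ^ j) (by
        rw [mul_pow, ← pow_mul ζ, mul_comm j, pow_mul ζ, hprim.pow_eq_one, one_pow, mul_one]
        exact h₀) ih
      rwa [pow_succ, ← mul_assoc]
  have hκ0 : κ₀ ≠ 0 := by
    rintro rfl
    rw [zero_pow hM0, zero_mul] at h₀
    exact zero_ne_one h₀
  have h6 : (κ / κ₀) ^ (k * (k - 1)) = 1 := by
    rw [div_pow, div_eq_one_iff_eq (pow_ne_zero _ hκ0)]
    rw [← h₀] at hκ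
    exact mul_right_cancel₀ hvd hκ
  have : NeZero (k * (k - 1)) := ⟨hM0⟩
  obtain ⟨j, -, hj⟩ := hprim.eq_pow_of_pow_eq_one h6
  have h7 : κ = κ₀ * ζ ^ j := by rw [hj]; field_simp
  rw [h7]
  exact hall j

theorem flagRel_all (hk : 3 ≤ k) (hn : 0 < n) {ξ : Fin (k - 2) → ℂ} {κ₀ : ℂ}
    (h₀ : κ₀ ^ (k * (k - 1)) * vd (xs k) ^ 2 = 1) (hrel : FlagRel D ξ (xs k) κ₀) (κ : ℂ) :
    FlagRel D ξ (xs k) κ := by
  intro μ hμ
  refine half_twist_induction hk (P := fun κ => FlagRel D ξ (xs k) κ) ?_ h₀ hrel hμ.kap μ hμ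
  intro κ' c1 c2 hP
  have hsep : SepAt (xs k) 0 (cl k 2) := fconf_sepAt inc_xs le_rfl (by omega)
  have h1 := flag_transport (by omega) hn (ξ := ξ) (D := D)
    (X := fun t : ℝ => rot (xs k) 0 (cl k 2) (Real.pi * Complex.I * t))
    (continuous_rot continuous_const continuous_const (by fun_prop) _)
    (fun t => rot_injective xs_injective hsep (by simp))
    (fun t m hm hmk => ⟨0, sepAt_rot_I (by simp) (fconf_sepAt inc_xs hm hmk)⟩) c1 c2 ?_
  · simpa [rot_zero] using h1
  · have h2 : rot (xs k) 0 (cl k 2) (Real.pi * Complex.I * ((1 : ℝ) : ℂ)) =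
        xs k ∘ Equiv.swap (⟨0, by omega⟩ : Fin k) ⟨1, by omega⟩ := by
      rw [Complex.ofReal_one, mul_one]; exact rot_xs_half (by omega)
    rw [h2]
    intro μ' hμ' a b
    have h3 : St D (xs k) (κ' 1) μ' := by
      have := hμ'.comp_perm (by omega) (Equiv.swap (⟨0, by omega⟩ : Fin k) ⟨1, by omega⟩)
      have h4 : (xs k ∘ Equiv.swap (⟨0, by omega⟩ : Fin k) ⟨1, by omega⟩) ∘
          Equiv.swap (⟨0, by omega⟩ : Fin k) ⟨1, by omega⟩ = xs k := by
        funext i; simp
      rwa [h4] at this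
    rw [← hP μ' h3 a b]
    refine Finset.sum_congr rfl fun j _ => ?_
    have hj := j.2
    rw [WI_perm (by omega) hn h3 (Equiv.swap (⟨0, by omega⟩ : Fin k) ⟨1, by omega⟩) (p := 0)
      (by
        rw [SepAt.comp_perm, cl_map_swap (by omega) (by omega)]
        exact fconf_sepAt inc_xs (by omega) (by omega)),
      cl_map_swap (by omega) (by omega)]

/-- the flag relation at a sorted configuration -/
theorem flagRel_sorted (hk : 3 ≤ k) (hn : 0 < n) {ξ : Fin (k - 2) → ℂ}
    (hrel : ∀ κ, FlagRel D ξ (xs k) κ) {x : Fin k → ℂ} (hx : Function.Injective x) {p : ℂ}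
    (hs : ∀ i j : Fin k, i < j → ‖x i - p‖ < ‖x j - p‖) (κ : ℂ) : FlagRel D ξ x κ := by
  set i0 : Fin k := ⟨0, by omega⟩ with hi0
  set i1 : Fin k := ⟨1, by omega⟩ with hi1
  set v : ℂ := (x i1 - x i0) / 2 with hv
  have hv0 : v ≠ 0 := by
    rw [hv]
    refine div_ne_zero (sub_ne_zero.mpr ?_) two_ne_zero
    intro h
    have := hx h
    simp [hi0, hi1] at this
  -- the recentred configuration
  set a : ℕ → ℂ := fun i => if h : i < k then
    (if i ≤ 1 then Complex.log v else Complex.log (x ⟨i, h⟩ - p)) else 0 with ha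
  have hvn : ‖v‖ ≤ ‖x i1 - p‖ := by
    have h1 := hs i0 i1 (by simp [hi0, hi1])
    have h2 : v = ((x i1 - p) - (x i0 - p)) / 2 := by rw [hv]; ring
    rw [h2, norm_div]
    have h3 := norm_sub_le (x i1 - p) (x i0 - p)
    simp only [Complex.norm_ofNat]
    linarith
  have hpos : ∀ i : Fin k, 1 ≤ (i : ℕ) → 0 < ‖x i - p‖ := by
    intro i hi
    exact (norm_nonneg _).trans_lt (hs i0 i (by rw [Fin.lt_def]; exact hi))
  have hinc : Inc k a := by
    intro i j hi hij hj
    have hik : i < k := by omega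
    simp only [ha, hik, hj, dif_pos]
    have hj1 : ¬ j ≤ 1 := by omega
    rw [if_neg hj1]
    split_ifs with h2
    · have h3 : i = 1 := by omega
      rw [Complex.log_re, Complex.log_re]
      refine Real.log_lt_log (norm_pos_iff.mpr hv0) (hvn.trans_lt ?_)
      exact hs i1 ⟨j, hj⟩ (by rw [Fin.lt_def, hi1]; simp; omega)
    · rw [Complex.log_re, Complex.log_re]
      exact Real.log_lt_log (hpos ⟨i, hik⟩ hi) (hs _ _ (by rw [Fin.lt_def]; exact hij))
  have hx1 : ∀ i : Fin k, 2 ≤ (i : ℕ) → fconf k p a i = x i := by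
    intro i hi
    have h0 : (i : ℕ) ≠ 0 := by omega
    have h1 : ¬ (i : ℕ) ≤ 1 := by omega
    simp only [fconf, h0, if_false, ha, i.2, dif_pos, h1]
    rw [Complex.exp_log (norm_pos_iff.mp (hpos i (by omega)))]
    ring
  have hx2 : fconf k p a i0 = p - v := by
    have h3 : (1 : ℕ) < k := by omega
    simp only [fconf, hi0, if_true, ha, h3, dif_pos, le_refl]
    rw [Complex.exp_log hv0]
  have hx3 : fconf k p a i1 = p + v := by
    have h3 : (1 : ℕ) < k := by omega
    simp only [fconf, hi1, one_ne_zero, if_false, ha, h3, dif_pos, le_refl, if_true]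
    rw [Complex.exp_log hv0]
  -- second path
  have hrel2 : ∀ κ, FlagRel D ξ (fconf k p a) κ := by
    intro κ
    set b : ℝ → ℕ → ℂ := fun t i => (1 - clamp t) * a i + clamp t * i with hb
    have hbinc : ∀ t, Inc k (b t) := by
      intro t i j hi hij hj
      have h1 := hinc i j hi hij hj
      have h2 := clamp_nonneg t
      have h3 := clamp_le_one t
      have h4 : (i : ℝ) < j := by exact_mod_cast hij
      have h5 : ∀ l : ℕ, (b t l).re = (1 - clamp t) * (a l).re + clamp t * l := by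
        intro l; simp [hb]
      rw [h5, h5]
      rcases h2.eq_or_lt with h6 | h6
      · rw [← h6]; simpa using h1
      · have h7 : clamp t * i < clamp t * j := mul_lt_mul_of_pos_left h4 h6
        have h8 : (1 - clamp t) * (a i).re ≤ (1 - clamp t) * (a j).re :=
          mul_le_mul_of_nonneg_left h1.le (by linarith)
        linarith
    have hc := continuous_clamp
    have h1 := flag_transport_all (by omega) hn (ξ := ξ) (D := D)
      (X := fun t : ℝ => fconf k ((1 - clamp t) * p) (b t)) ?_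
      (fun t => fconf_injective (hbinc t))
      (fun t m hm hmk => ⟨_, fconf_sepAt (hbinc t) hm hmk⟩) ?_ κ
    · simpa [clamp_zero, hb] using h1
    · rw [continuous_pi_iff]
      intro i
      simp only [fconf, hb]
      split_ifs <;> fun_prop
    · simpa [clamp_one, hb, xs] using hrel
  -- first path
  set c : ℂ := (x i0 + x i1) / 2 - p with hcdef
  set X : ℝ → Fin k → ℂ := fun t i => if (i : ℕ) ≤ 1 then x i - clamp t * c else x i with hX
  have hX0 : X 0 = x := by
    funext i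
    simp only [hX, clamp_zero]
    split_ifs <;> simp
  have hX1 : X 1 = fconf k p a := by
    funext i
    simp only [hX, clamp_one]
    split_ifs with h
    · rcases Nat.le_one_iff_eq_zero_or_eq_one.mp h with h1 | h1
      · have : i = i0 := Fin.ext h1
        rw [this, hx2, hcdef, hv]; push_cast; ring
      · have : i = i1 := Fin.ext h1
        rw [this, hx3, hcdef, hv]; push_cast; ring
    · exact (hx1 i (by omega)).symm
  have hle : ∀ t, ∀ i : Fin k, (i : ℕ) ≤ 1 → ‖X t i - p‖ ≤ ‖x i1 - p‖ := by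
    intro t i hi
    have h2 := clamp_nonneg t
    have h3 := clamp_le_one t
    have h01 := hs i0 i1 (by simp [hi0, hi1])
    have hgen : ∀ u w : ℂ, ‖u‖ ≤ ‖x i1 - p‖ → ‖w‖ ≤ ‖x i1 - p‖ →
        ‖(1 - (clamp t : ℂ)) * u + clamp t * w‖ ≤ ‖x i1 - p‖ := by
      intro u w hu hw
      refine (norm_add_le _ _).trans ?_
      rw [norm_mul, norm_mul]
      have e1 : ‖(1 - (clamp t : ℂ))‖ = 1 - clamp t := by
        rw [← Complex.ofReal_one, ← Complex.ofReal_sub, Complex.norm_real, Real.norm_eq_abs,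
          abs_of_nonneg (by linarith)]
      have e2 : ‖(clamp t : ℂ)‖ = clamp t := by
        rw [Complex.norm_real, Real.norm_eq_abs, abs_of_nonneg h2]
      rw [e1, e2]
      nlinarith [mul_le_mul_of_nonneg_left hu (sub_nonneg.mpr h3),
        mul_le_mul_of_nonneg_left hw h2]
    simp only [hX, hi, if_true]
    rcases Nat.le_one_iff_eq_zero_or_eq_one.mp hi with h1 | h1
    · have h4 : i = i0 := Fin.ext h1
      have h5 : x i - clamp t * c - p = (1 - (clamp t : ℂ)) * (x i0 - p) + clamp t * (-v) := by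
        rw [h4, hcdef, hv]; ring
      rw [h5]
      exact hgen _ _ h01.le (by rw [norm_neg]; exact hvn)
    · have h4 : i = i1 := Fin.ext h1
      have h5 : x i - clamp t * c - p = (1 - (clamp t : ℂ)) * (x i1 - p) + clamp t * v := by
        rw [h4, hcdef, hv]; ring
      rw [h5]
      exact hgen _ _ le_rfl hvn
  have hX2 : ∀ t, ∀ i : Fin k, ¬ (i : ℕ) ≤ 1 → X t i = x i := by
    intro t i hi
    simp only [hX, hi, if_false]
  have h1 := flag_transport_all (by omega) hn (ξ := ξ) (D := D) (X := X) ?_ ?_ ?_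
    (by rw [hX1]; exact hrel2) κ
  · rwa [hX0] at h1
  · have hc := continuous_clamp
    rw [continuous_pi_iff]
    intro i
    simp only [hX]
    split_ifs <;> fun_prop
  · intro t i j hij
    have hne : ∀ i j : Fin k, (i : ℕ) ≤ 1 → ¬ (j : ℕ) ≤ 1 → X t i ≠ X t j := by
      intro i j hi hj h
      have e1 := hle t i hi
      rw [h, hX2 t j hj] at e1
      have e2 := hs i1 j (by rw [Fin.lt_def, hi1]; simp; omega)
      linarith
    by_cases hi : (i : ℕ) ≤ 1 <;> by_cases hj : (j : ℕ) ≤ 1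
    · simp only [hX, hi, hj, if_true] at hij
      exact hx (by linear_combination hij)
    · exact absurd hij (hne i j hi hj)
    · exact absurd hij.symm (hne j i hj hi)
    · rw [hX2 t i hi, hX2 t j hj] at hij
      exact hx hij
  · intro t m hm hmk
    have hlt := hs ⟨m - 1, by omega⟩ ⟨m, hmk⟩ (by rw [Fin.lt_def]; simp; omega)
    refine ⟨p, (‖x ⟨m - 1, by omega⟩ - p‖ + ‖x ⟨m, hmk⟩ - p‖) / 2, fun i hi => ?_,
      fun i hi => ?_⟩
    · rw [mem_cl] at hi
      by_cases h1 : (i : ℕ) ≤ 1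
      · have e1 := hle t i h1
        have e2 : ‖x i1 - p‖ ≤ ‖x ⟨m - 1, by omega⟩ - p‖ := by
          rcases Nat.lt_or_ge 1 (m - 1) with h3 | h3
          · exact (hs i1 ⟨m - 1, by omega⟩ (by rw [Fin.lt_def, hi1]; exact h3)).le
          · have : i1 = ⟨m - 1, by omega⟩ := by
              rw [hi1]; ext; simp; omega
            rw [this]
        linarith
      · rw [hX2 t i h1]
        have e2 : ‖x i - p‖ ≤ ‖x ⟨m - 1, by omega⟩ - p‖ := by
          rcases Nat.lt_or_ge i (m - 1) with h3 | h3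
          · exact (hs i ⟨m - 1, by omega⟩ (by rw [Fin.lt_def]; exact h3)).le
          · have : i = ⟨m - 1, by omega⟩ := by
              ext; simp; omega
            rw [this]
        linarith
    · rw [mem_cl, not_lt] at hi
      rw [hX2 t i (by omega)]
      have e2 : ‖x ⟨m, hmk⟩ - p‖ ≤ ‖x i - p‖ := by
        rcases Nat.lt_or_ge m i with h3 | h3
        · exact (hs ⟨m, hmk⟩ i (by rw [Fin.lt_def]; exact h3)).le
        · have : i = ⟨m, hmk⟩ := by
            ext; simp; omega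
          rw [this]
      linarith

/-- the flag relation for a flag centred at a generic point -/
theorem flag_rel (hk : 3 ≤ k) (hn : 0 < n) {ξ : Fin (k - 2) → ℂ}
    (hrel : ∀ κ, FlagRel D ξ (xs k) κ) {x : Fin k → ℂ} {κ : ℂ} {μ : Fin n → ℂ}
    (h : St D x κ μ) {p : ℂ} (σ : Equiv.Perm (Fin k))
    (hs : ∀ i j : Fin k, i < j → ‖x (σ i) - p‖ < ‖x (σ j) - p‖) (a b : Fin n) :
    ∑ j : Fin (k - 2), ξ j * (WI D x κ μ ((cl k (j + 2)).map σ.toEmbedding) a b : ℂ) = 0 := by
  have h1 := flagRel_sorted hk hn hrel (x := x ∘ σ) (h.inj.comp σ.injective) hs κ μ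
    (h.comp_perm (by omega) σ) a b
  rw [← h1]
  refine Finset.sum_congr rfl fun j _ => ?_
  have hj := j.2
  have hlt := hs ⟨j + 1, by omega⟩ ⟨j + 2, by omega⟩ (by rw [Fin.lt_def]; simp)
  rw [WI_perm (by omega) hn h σ (p := p)]
  refine ⟨(‖x (σ ⟨j + 1, by omega⟩) - p‖ + ‖x (σ ⟨j + 2, by omega⟩) - p‖) / 2, fun i hi => ?_,
      fun i hi => ?_⟩
  · rw [mem_cl] at hi
    have e2 : ‖x (σ i) - p‖ ≤ ‖x (σ ⟨j + 1, by omega⟩) - p‖ := by
      rcases Nat.lt_or_ge i (j + 1) with h3 | h3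
      · exact (hs i ⟨j + 1, by omega⟩ (by rw [Fin.lt_def]; exact h3)).le
      · have : i = ⟨j + 1, by omega⟩ := by
          ext; simp; omega
        rw [this]
    simp only [Function.comp_apply]
    linarith
  · rw [mem_cl, not_lt] at hi
    have e2 : ‖x (σ ⟨j + 2, by omega⟩) - p‖ ≤ ‖x (σ i) - p‖ := by
      rcases Nat.lt_or_ge (j + 2) i with h3 | h3
      · exact (hs ⟨j + 2, by omega⟩ i (by rw [Fin.lt_def]; exact h3)).le
      · have : (⟨j + 2, by omega⟩ : Fin k) = i := by
          ext; simp; omega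
        exact (congrArg (fun l => ‖x (σ l) - p‖) this).le
    simp only [Function.comp_apply]
    linarith

end Pool.Agent.Lib.MP_7b99f3_ag
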