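import Pool.Agent.Lib.MP_7b99f3_ag.State

/-!
Lifts over open convex sets, and their holomorphy.
-/

namespace Pool.Agent.Lib.MP_7b99f3_ag

open Topology

variable {k n : ℕ} {D : Datum k n}

/-- logarithms on open convex sets -/
theorem exists_log_on {E : Type*} [NormedAddCommGroup E] [NormedSpace ℝ E] {V : Set E}
    (hVo : IsOpen V) (hVc : Convex ℝ V) (hVn : V.Nonempty) {u : E → ℂ} (hu : ContinuousOn u V)
    (hne : ∀ a ∈ V, u a ≠ 0) :
    ∃ l : E → ℂ, ContinuousOn l V ∧ ∀ a ∈ V, Complex.exp (l a) = u a := by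
  have h1 : ContractibleSpace V := hVc.contractibleSpace hVn
  have h2 : LocallyPathConnectedSpace V := hVo.locallyPathConnectedSpace
  obtain ⟨l, hl, hle⟩ := exists_log (A := V) (u := fun a => u a)
    (continuousOn_iff_continuous_domRestrict.mp hu) (fun a => hne a a.2)
  classical
  refine ⟨fun a => if h : a ∈ V then l ⟨a, h⟩ else 0, ?_, fun a ha => ?_⟩
  · rw [continuousOn_iff_continuous_domRestrict]
    refine hl.congr fun a => ?_
    simp
  · simp only [ha, dif_pos]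
    exact hle ⟨a, ha⟩

/-- lifts on open convex sets -/
theorem exists_lift_on (hk : 2 ≤ k) (hn : 0 < n) {E : Type*} [NormedAddCommGroup E]
    [NormedSpace ℝ E] {V : Set E} (hVo : IsOpen V) (hVc : Convex ℝ V) {X : E → Fin k → ℂ}
    (hX : ContinuousOn X V) (hinj : ∀ a ∈ V, Function.Injective (X a)) {a₀ : E} (ha₀ : a₀ ∈ V)
    {κ₀ : ℂ} {μ₀ : Fin n → ℂ} (h₀ : St D (X a₀) κ₀ μ₀) :
    ∃ (κ : E → ℂ) (μ : E → Fin n → ℂ), ContinuousOn κ V ∧ ContinuousOn μ V ∧
      (∀ a ∈ V, St D (X a) (κ a) (μ a)) ∧ κ a₀ = κ₀ ∧ μ a₀ = μ₀ := by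
  have h1 : ContractibleSpace V := hVc.contractibleSpace ⟨a₀, ha₀⟩
  have h2 : LocallyPathConnectedSpace V := hVo.locallyPathConnectedSpace
  obtain ⟨κ, μ, c1, c2, c3, c4, c5⟩ := exists_lift D hk hn (A := V) (X := fun a => X a)
    (continuousOn_iff_continuous_domRestrict.mp hX) (fun a => hinj a a.2) ⟨a₀, ha₀⟩ h₀
  classical
  refine ⟨fun a => if h : a ∈ V then κ ⟨a, h⟩ else 0, fun a => if h : a ∈ V then μ ⟨a, h⟩ else 0,
    ?_, ?_, fun a ha => ?_, ?_, ?_⟩
  · rw [continuousOn_iff_continuous_domRestrict]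
    refine c1.congr fun a => ?_
    simp
  · rw [continuousOn_iff_continuous_domRestrict]
    refine c2.congr fun a => ?_
    simp
  · simp only [ha, dif_pos]
    exact c3 ⟨a, ha⟩
  · simp only [ha₀, dif_pos]; exact c4
  · simp only [ha₀, dif_pos]; exact c5

theorem contDiffAt_of_comp {V E F : Type*} [NormedAddCommGroup V] [NormedSpace ℂ V]
    [NormedAddCommGroup E] [NormedSpace ℂ E] [CompleteSpace E] [NormedAddCommGroup F]
    [NormedSpace ℂ F] {f : E → F} {f' : E ≃L[ℂ] F} {g : V → E} {a : V} (hg : ContinuousAt g a)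
    (hf : ContDiffAt ℂ 2 f (g a)) (hf' : HasFDerivAt f (f' : E →L[ℂ] F) (g a))
    (hfg : ContDiffAt ℂ 2 (fun v => f (g v)) a) : ContDiffAt ℂ 2 g a := by
  have hstr := hf.hasStrictFDerivAt' hf' (by norm_num)
  have h1 : ∀ᶠ v in 𝓝 a, hstr.localInverse f f' (g a) (f (g v)) = g v :=
    hg.eventually hstr.eventually_left_inverse
  have h2 : ContDiffAt ℂ 2 (hstr.localInverse f f' (g a)) (f (g a)) :=
    hf.to_localInverse hf' (by norm_num)
  have h3 : ContDiffAt ℂ 2 (fun v => hstr.localInverse f f' (g a) (f (g v))) a :=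
    ContDiffAt.comp a h2 hfg
  exact h3.congr_of_eventuallyEq (h1.mono fun v hv => hv.symm)

/-- the one-dimensional version -/
theorem contDiffAt_of_comp_one {V : Type*} [NormedAddCommGroup V] [NormedSpace ℂ V]
    {f : ℂ → ℂ} {f' : ℂ} (hf'0 : f' ≠ 0) {g : V → ℂ} {a : V} (hg : ContinuousAt g a)
    (hf : ContDiffAt ℂ 2 f (g a)) (hf' : HasDerivAt f f' (g a))
    (hfg : ContDiffAt ℂ 2 (fun v => f (g v)) a) : ContDiffAt ℂ 2 g a := by
  refine contDiffAt_of_comp (f' := ContinuousLinearEquiv.unitsEquivAut ℂ (Units.mk0 f' hf'0)) hg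
    hf ?_ hfg
  refine hf'.hasFDerivAt.congr_fderiv ?_
  ext
  simp

theorem contDiffAt_vd {x : Fin k → ℂ} : ContDiffAt ℂ 2 (vd (k := k)) x := by
  unfold vd
  refine ContDiff.contDiffAt ?_
  refine contDiff_prod fun i _ => contDiff_prod fun j _ => ?_
  exact (contDiff_apply ℂ ℂ j).sub (contDiff_apply ℂ ℂ i)

theorem contDiffAt_nrm {E : Type*} [NormedAddCommGroup E] [NormedSpace ℂ E]
    {X : E → Fin k → ℂ} {κ : E → ℂ} {a : E} (hX : ContDiffAt ℂ 2 X a)
    (hκ : ContDiffAt ℂ 2 κ a) : ContDiffAt ℂ 2 (fun b => nrm (X b) (κ b)) a := by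
  unfold nrm mean
  rw [contDiffAt_pi] at hX ⊢
  intro i
  refine hκ.mul ((hX i).sub ?_)
  exact (ContDiffAt.sum fun j _ => hX j).div_const _

section

variable {E : Type*} [NormedAddCommGroup E] [NormedSpace ℂ E] {V : Set E}
  {X : E → Fin k → ℂ} {κ : E → ℂ} {μ : E → Fin n → ℂ}

theorem contDiffAt_kap (hk : 2 ≤ k) (hVo : IsOpen V) (hκ : ContinuousOn κ V)
    (h : ∀ a ∈ V, κ a ^ (k * (k - 1)) * vd (X a) ^ 2 = 1) {a : E} (ha : a ∈ V)
    (hX : ContDiffAt ℂ 2 X a) : ContDiffAt ℂ 2 κ a := by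
  have hM0 : k * (k - 1) ≠ 0 := by
    have h1 : 0 < k := by omega
    have h2 : 0 < k - 1 := by omega
    exact (Nat.mul_pos h1 h2).ne'
  have hκ0 : κ a ≠ 0 := by
    intro h0
    have := h a ha
    rw [h0, zero_pow hM0, zero_mul] at this
    exact zero_ne_one this
  have hvd : ∀ b ∈ V, vd (X b) ^ 2 ≠ 0 := by
    intro b hb h0
    have := h b hb
    rw [h0, mul_zero] at this
    exact zero_ne_one this
  have hVn : V ∈ 𝓝 a := hVo.mem_nhds ha
  refine contDiffAt_of_comp_one (f := fun z => z ^ (k * (k - 1)))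
    (f' := ((k * (k - 1) : ℕ) : ℂ) * κ a ^ (k * (k - 1) - 1)) ?_ (hκ.continuousAt hVn)
    (contDiff_id.pow _).contDiffAt (hasDerivAt_pow _ _) ?_
  · exact mul_ne_zero (by exact_mod_cast hM0) (pow_ne_zero _ hκ0)
  · have h1 : ContDiffAt ℂ 2 (fun b => (vd (X b) ^ 2)⁻¹) a :=
      ((contDiffAt_vd.comp a hX).pow 2).inv (hvd a ha)
    refine h1.congr_of_eventuallyEq ?_
    filter_upwards [hVn] with b hb
    exact eq_inv_of_mul_eq_one_left (h b hb)

theorem contDiffAt_G (hk : 0 < k) (hVo : IsOpen V) (h : ∀ a ∈ V, St D (X a) (κ a) (μ a)) {a : E}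
    (ha : a ∈ V) (hX : ContDiffAt ℂ 2 X a) (hκ : ContDiffAt ℂ 2 κ a) :
    ContDiffAt ℂ 2 (fun b => D.G (nrm (X b) (κ b))) a := by
  obtain ⟨F, hF, hG⟩ := D.hol _ (isN_nrm hk (h a ha).kap)
  have hVn : V ∈ 𝓝 a := hVo.mem_nhds ha
  have h1 : ContDiffAt ℂ 2 (fun b => F (nrm (X b) (κ b))) a :=
    ContDiffAt.comp a hF.contDiffAt (contDiffAt_nrm hX hκ)
  refine h1.congr_of_eventuallyEq ?_
  have h2 : Filter.Tendsto (fun b => nrm (X b) (κ b)) (𝓝 a)
      (𝓝[{y | IsN y}] (nrm (X a) (κ a))) := by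
    rw [tendsto_nhdsWithin_iff]
    refine ⟨(contDiffAt_nrm hX hκ).continuousAt, ?_⟩
    filter_upwards [hVn] with b hb
    exact isN_nrm hk (h b hb).kap
  exact h2.eventually hG

theorem contDiffAt_mu (hk : 2 ≤ k) (hVo : IsOpen V) (hκ : ContinuousOn κ V)
    (hμ : ContinuousOn μ V) (h : ∀ a ∈ V, St D (X a) (κ a) (μ a)) {a : E} (ha : a ∈ V)
    (hX : ContDiffAt ℂ 2 X a) : ContDiffAt ℂ 2 μ a := by
  have hVn : V ∈ 𝓝 a := hVo.mem_nhds ha
  have hκ2 := contDiffAt_kap hk hVo hκ (fun b hb => (h b hb).kap) ha hX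
  have hG := contDiffAt_G (D := D) (by omega) hVo h ha hX hκ2
  have hinj := (h a ha).isN.injective
  refine contDiffAt_of_comp (f := vieta) (f' := vietaEquiv hinj) (hμ.continuousAt hVn)
    (contDiff_vieta.contDiffAt.of_le (by exact_mod_cast le_top))
    (hasStrictFDerivAt_vieta' hinj).hasFDerivAt ?_
  refine hG.congr_of_eventuallyEq ?_
  filter_upwards [hVn] with b hb
  exact (h b hb).eq

theorem contDiffAt_log {u l : E → ℂ} (hVo : IsOpen V) (hl : ContinuousOn l V)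
    (he : ∀ a ∈ V, Complex.exp (l a) = u a) {a : E} (ha : a ∈ V) (hu : ContDiffAt ℂ 2 u a) :
    ContDiffAt ℂ 2 l a := by
  have hVn : V ∈ 𝓝 a := hVo.mem_nhds ha
  refine contDiffAt_of_comp_one (f := Complex.exp) (Complex.exp_ne_zero (l a))
    (hl.continuousAt hVn) Complex.contDiff_exp.contDiffAt (Complex.hasDerivAt_exp _) ?_
  refine hu.congr_of_eventuallyEq ?_
  filter_upwards [hVn] with b hb
  exact he b hb

/-- a direction killed by the derivative of the image is killed by the derivative of the roots -/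
theorem fderiv_mu_eq_zero (hVo : IsOpen V)
    (h : ∀ a ∈ V, St D (X a) (κ a) (μ a)) {a : E} (ha : a ∈ V)
    (hμ : DifferentiableAt ℂ μ a) {v : E}
    (hv : fderiv ℂ (fun b => D.G (nrm (X b) (κ b))) a v = 0) : fderiv ℂ μ a v = 0 := by
  have hVn : V ∈ 𝓝 a := hVo.mem_nhds ha
  have hinj := (h a ha).isN.injective
  have h1 : (fun b => D.G (nrm (X b) (κ b))) =ᶠ[𝓝 a] fun b => vieta (μ b) := by
    filter_upwards [hVn] with b hb
    exact (h b hb).eq.symm
  rw [h1.fderiv_eq] at hv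
  have h2 : fderiv ℂ (fun b => vieta (μ b)) a =
      (fderiv ℂ (vieta (n := n)) (μ a)).comp (fderiv ℂ μ a) :=
    ((hasStrictFDerivAt_vieta (μ a)).hasFDerivAt.comp a hμ.hasFDerivAt).fderiv
  rw [h2, ContinuousLinearMap.comp_apply] at hv
  exact fderiv_vieta_injective hinj (by rw [hv, map_zero])

theorem fderiv_log_eq_zero {u l : E → ℂ} (hVo : IsOpen V)
    (he : ∀ a ∈ V, Complex.exp (l a) = u a) {a : E} (ha : a ∈ V) (hl : DifferentiableAt ℂ l a)
    {v : E} (hv : fderiv ℂ u a v = 0) : fderiv ℂ l a v = 0 := by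
  have hVn : V ∈ 𝓝 a := hVo.mem_nhds ha
  have h1 : u =ᶠ[𝓝 a] fun b => Complex.exp (l b) := by
    filter_upwards [hVn] with b hb
    exact (he b hb).symm
  rw [h1.fderiv_eq, (hl.hasFDerivAt.cexp).fderiv] at hv
  simp only [smul_apply, smul_eq_mul] at hv
  exact (mul_eq_zero.mp hv).resolve_left (Complex.exp_ne_zero _)

end

end Pool.Agent.Lib.MP_7b99f3_ag
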