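import Pool.Agent.Lib.MP_7b99f3_ag.Sep

/-!
The scale factor along rotations of a cluster.
-/

namespace Pool.Agent.Lib.MP_7b99f3_ag

open Topology

variable {k n : ℕ} {D : Datum k n}

/-- all ordered differences -/
noncomputable def od (x : Fin k → ℂ) : ℂ := ∏ j, ∏ i, if i = j then 1 else x j - x i

theorem od_eq (x : Fin k → ℂ) : od x = (-1) ^ (k * (k - 1) / 2) * vd x ^ 2 := by
  rw [← prod_prod_ne_eq]
  unfold od
  refine Finset.prod_congr rfl fun j _ => ?_
  rw [← Finset.mul_prod_erase Finset.univ _ (Finset.mem_univ j)]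
  simp only [if_true, one_mul]
  refine Finset.prod_congr rfl fun i hi => ?_
  rw [if_neg (Finset.ne_of_mem_erase hi)]

/-- the logarithm of the squared Vandermonde product along the rotations of a cluster -/
noncomputable def lam (x : Fin k → ℂ) (p : ℂ) (I : Finset (Fin k)) (w : ℂ) : ℂ :=
  (I.card : ℂ) * ((I.card : ℂ) - 1) * w +
    2 * ∑ i ∈ I, ∑ j ∈ Iᶜ, Complex.log (1 - Complex.exp w * ((x i - p) / (x j - p)))

theorem norm_q_lt {x : Fin k → ℂ} {p : ℂ} {I : Finset (Fin k)} (hs : SepAt x p I) {w : ℂ}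
    (hw : w.re ≤ 0) {i j : Fin k} (hi : i ∈ I) (hj : j ∉ I) :
    ‖Complex.exp w * ((x i - p) / (x j - p))‖ < 1 := by
  obtain ⟨r, h1, h2⟩ := hs
  have h3 := h1 i hi
  have h4 := h2 j hj
  have h5 : 0 < ‖x j - p‖ := (norm_nonneg _).trans_lt (h3.trans h4)
  rw [norm_mul, norm_div, Complex.norm_exp]
  have h6 : Real.exp w.re ≤ 1 := Real.exp_le_one_iff.mpr hw
  have h7 : ‖x i - p‖ / ‖x j - p‖ < 1 := by rw [div_lt_one h5]; linarith
  calc Real.exp w.re * (‖x i - p‖ / ‖x j - p‖) ≤ 1 * (‖x i - p‖ / ‖x j - p‖) :=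
        mul_le_mul_of_nonneg_right h6 (by positivity)
    _ < 1 := by rwa [one_mul]

theorem one_sub_mem_slitPlane {z : ℂ} (hz : ‖z‖ < 1) : 1 - z ∈ Complex.slitPlane := by
  left
  simp only [Complex.sub_re, Complex.one_re]
  have := Complex.re_le_norm z
  linarith

theorem ne_center {x : Fin k → ℂ} {p : ℂ} {I : Finset (Fin k)} (hs : SepAt x p I)
    {i j : Fin k} (hi : i ∈ I) (hj : j ∉ I) : x j - p ≠ 0 := by
  obtain ⟨r, h1, h2⟩ := hs
  have h5 : 0 < ‖x j - p‖ := (norm_nonneg _).trans_lt ((h1 i hi).trans (h2 j hj))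
  exact norm_pos_iff.mp h5

theorem od_rot {x : Fin k → ℂ} {p : ℂ} {I : Finset (Fin k)} (hs : SepAt x p I) {w : ℂ}
    (hw : w.re ≤ 0) : od (rot x p I w) = od x * Complex.exp (lam x p I w - lam x p I 0) := by
  -- exponents
  set L : Fin k → Fin k → ℂ → ℂ := fun i j w =>
    Complex.log (1 - Complex.exp w * ((x i - p) / (x j - p))) with hL
  have key : ∀ i ∈ I, ∀ j ∉ I, p + Complex.exp w * (x i - p) - x j =
      (x i - x j) * Complex.exp (L i j w - L i j 0) := by
    intro i hi j hj
    have h0 := ne_center hs hi hj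
    have h1 : Complex.exp (L i j w) = 1 - Complex.exp w * ((x i - p) / (x j - p)) :=
      Complex.exp_log (Complex.slitPlane_ne_zero (one_sub_mem_slitPlane (norm_q_lt hs hw hi hj)))
    have h2 : Complex.exp (L i j 0) = 1 - Complex.exp 0 * ((x i - p) / (x j - p)) :=
      Complex.exp_log (Complex.slitPlane_ne_zero
        (one_sub_mem_slitPlane (norm_q_lt hs (by simp) hi hj)))
    have h3 : (1 - Complex.exp 0 * ((x i - p) / (x j - p))) ≠ 0 :=
      Complex.slitPlane_ne_zero (one_sub_mem_slitPlane (norm_q_lt hs (by simp) hi hj))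
    rw [Complex.exp_sub, h1, h2]
    rw [Complex.exp_zero, one_mul] at h3 ⊢
    have h4 : x j - p - (x i - p) ≠ 0 := by
      intro h5
      apply h3
      field_simp
      linear_combination h5
    have h6 : (1 - (x i - p) / (x j - p)) = (x j - p - (x i - p)) / (x j - p) := by
      field_simp
    rw [h6]
    field_simp
    ring
  have hsplit : ∀ y : Fin k → ℂ, od y =
      (∏ j ∈ I, ((∏ i ∈ I, if i = j then 1 else y j - y i) * ∏ i ∈ Iᶜ, (y j - y i))) *
      (∏ j ∈ Iᶜ, ((∏ i ∈ I, (y j - y i)) * ∏ i ∈ Iᶜ, if i = j then 1 else y j - y i)) := by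
    intro y
    unfold od
    rw [← Finset.prod_mul_prod_compl I]
    congr 1
    · refine Finset.prod_congr rfl fun j hj => ?_
      rw [← Finset.prod_mul_prod_compl I]
      congr 1
      refine Finset.prod_congr rfl fun i hi => ?_
      rw [if_neg]
      rintro rfl
      exact (Finset.mem_compl.mp hi) hj
    · refine Finset.prod_congr rfl fun j hj => ?_
      rw [← Finset.prod_mul_prod_compl I]
      congr 1
      refine Finset.prod_congr rfl fun i hi => ?_
      rw [if_neg]
      rintro rfl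
      exact (Finset.mem_compl.mp hj) hi
  have e1 : ∀ j ∈ I, (∏ i ∈ I, if i = j then 1 else rot x p I w j - rot x p I w i) =
      (∏ i ∈ I, if i = j then 1 else x j - x i) * Complex.exp (((I.card : ℂ) - 1) * w) := by
    intro j hj
    have h1 : ∀ i ∈ I, (if i = j then (1 : ℂ) else rot x p I w j - rot x p I w i) =
        (if i = j then 1 else x j - x i) * Complex.exp (if i = j then 0 else w) := by
      intro i hi
      by_cases hij : i = j
      · simp [hij]
      · simp only [hij, if_false, rot, hi, hj, if_true]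
        ring
    rw [Finset.prod_congr rfl h1, Finset.prod_mul_distrib, ← Complex.exp_sum]
    congr 2
    rw [← Finset.add_sum_erase I _ hj]
    simp only [if_true, zero_add]
    rw [Finset.sum_congr rfl (g := fun _ => w) (fun i hi => by
      rw [if_neg (Finset.ne_of_mem_erase hi)])]
    rw [Finset.sum_const, Finset.card_erase_of_mem hj, nsmul_eq_mul]
    have : 1 ≤ I.card := Finset.card_pos.mpr ⟨j, hj⟩
    rw [Nat.cast_sub this]
    simp
  have e2 : ∀ j ∈ I, (∏ i ∈ Iᶜ, (rot x p I w j - rot x p I w i)) =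
      (∏ i ∈ Iᶜ, (x j - x i)) * Complex.exp (∑ i ∈ Iᶜ, (L j i w - L j i 0)) := by
    intro j hj
    rw [Complex.exp_sum, ← Finset.prod_mul_distrib]
    refine Finset.prod_congr rfl fun i hi => ?_
    have hi' := Finset.mem_compl.mp hi
    simp only [rot, hj, hi', if_true, if_false]
    exact key j hj i hi'
  have e3 : ∀ j ∈ Iᶜ, (∏ i ∈ I, (rot x p I w j - rot x p I w i)) =
      (∏ i ∈ I, (x j - x i)) * Complex.exp (∑ i ∈ I, (L i j w - L i j 0)) := by
    intro j hj
    rw [Complex.exp_sum, ← Finset.prod_mul_distrib]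
    refine Finset.prod_congr rfl fun i hi => ?_
    have hj' := Finset.mem_compl.mp hj
    simp only [rot, hi, hj', if_true, if_false]
    have := key i hi j hj'
    linear_combination -this
  have e4 : ∀ j ∈ Iᶜ, (∏ i ∈ Iᶜ, if i = j then 1 else rot x p I w j - rot x p I w i) =
      (∏ i ∈ Iᶜ, if i = j then 1 else x j - x i) := by
    intro j hj
    refine Finset.prod_congr rfl fun i hi => ?_
    have hj' := Finset.mem_compl.mp hj
    have hi' := Finset.mem_compl.mp hi
    simp only [rot, hi', hj', if_false]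
  rw [hsplit, hsplit x]
  rw [Finset.prod_congr rfl (fun j hj => by rw [e1 j hj, e2 j hj]),
    Finset.prod_congr (s₁ := Iᶜ) rfl (fun j hj => by rw [e3 j hj, e4 j hj])]
  simp only [Finset.prod_mul_distrib, ← Complex.exp_sum]
  have hexp : Complex.exp (lam x p I w - lam x p I 0) =
      Complex.exp (∑ j ∈ I, ((I.card : ℂ) - 1) * w) *
        Complex.exp (∑ j ∈ I, ∑ i ∈ Iᶜ, (L j i w - L j i 0)) *
        Complex.exp (∑ j ∈ Iᶜ, ∑ i ∈ I, (L i j w - L i j 0)) := by
    rw [← Complex.exp_add, ← Complex.exp_add]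
    congr 1
    rw [Finset.sum_comm (s := Iᶜ) (t := I)]
    simp only [lam, Finset.sum_sub_distrib, Finset.sum_const, nsmul_eq_mul, hL]
    ring
  rw [hexp]
  ring

theorem vd_rot {x : Fin k → ℂ} {p : ℂ} {I : Finset (Fin k)} (hs : SepAt x p I) {w : ℂ}
    (hw : w.re ≤ 0) :
    vd (rot x p I w) ^ 2 = vd x ^ 2 * Complex.exp (lam x p I w - lam x p I 0) := by
  have h1 := od_rot hs hw
  rw [od_eq, od_eq] at h1
  have h2 : ((-1 : ℂ)) ^ (k * (k - 1) / 2) ≠ 0 := pow_ne_zero _ (by norm_num)
  apply mul_left_cancel₀ h2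
  rw [h1]
  ring

theorem continuous_lam {A : Type*} [TopologicalSpace A] {x : Fin k → ℂ} {p : ℂ}
    {I : Finset (Fin k)} (hs : SepAt x p I) {w : A → ℂ} (hw : Continuous w)
    (hre : ∀ a, (w a).re ≤ 0) : Continuous fun a => lam x p I (w a) := by
  unfold lam
  refine (continuous_const.mul hw).add (continuous_const.mul ?_)
  refine continuous_finsetSum _ fun i hi => continuous_finsetSum _ fun j hj => ?_
  refine Continuous.clog (by fun_prop) fun a => ?_
  exact one_sub_mem_slitPlane (norm_q_lt hs (hre a) hi (Finset.mem_compl.mp hj))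

/-- the scale factor along rotations of a cluster -/
theorem kap_rot (hk : 2 ≤ k) {A : Type*} [TopologicalSpace A] [PreconnectedSpace A]
    {x : Fin k → ℂ} {p : ℂ} {I : Finset (Fin k)} (hs : SepAt x p I) {w : A → ℂ}
    (hw : Continuous w) (hre : ∀ a, (w a).re ≤ 0) {κ : A → ℂ} (hκ : Continuous κ)
    (h : ∀ a, κ a ^ (k * (k - 1)) * vd (rot x p I (w a)) ^ 2 = 1) (a b : A) :
    κ b = κ a * Complex.exp (-(lam x p I (w b) - lam x p I (w a)) / (k * (k - 1))) := by
  have hM0 : ((k : ℂ) * (k - 1)) ≠ 0 := by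
    have h1 : (k : ℂ) ≠ 0 := by
      have : k ≠ 0 := by omega
      exact_mod_cast this
    have h2 : (k : ℂ) - 1 ≠ 0 := by
      rw [sub_ne_zero]
      have : k ≠ 1 := by omega
      exact_mod_cast this
    exact mul_ne_zero h1 h2
  have hMc : ((k * (k - 1) : ℕ) : ℂ) = (k : ℂ) * (k - 1) := by
    rw [Nat.cast_mul, Nat.cast_sub (by omega)]; simp
  have hl := continuous_lam hs hw hre
  have h1 := kap_unique hk (X := fun c => rot x p I (w c)) hκ
    (κ' := fun c => κ a * Complex.exp (-(lam x p I (w c) - lam x p I (w a)) / (k * (k - 1))))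
    (by fun_prop) h (fun c => ?_) a (by simp)
  · exact congrFun h1 b
  · rw [mul_pow, ← Complex.exp_nat_mul, hMc]
    have h2 : (k : ℂ) * (k - 1) * (-(lam x p I (w c) - lam x p I (w a)) / (k * (k - 1))) =
        -(lam x p I (w c) - lam x p I (w a)) := by
      rw [mul_div_assoc', mul_div_cancel_left₀ _ hM0]
    rw [h2, vd_rot hs (hre c), ← h a, vd_rot hs (hre a)]
    have h3 : Complex.exp (-(lam x p I (w c) - lam x p I (w a))) *
        Complex.exp (lam x p I (w c) - lam x p I 0) =
        Complex.exp (lam x p I (w a) - lam x p I 0) := by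
      rw [← Complex.exp_add]; congr 1; ring
    linear_combination κ a ^ (k * (k - 1)) * vd x ^ 2 * h3

theorem lam_shift {x : Fin k → ℂ} (hx : Function.Injective x) {p : ℂ} {I : Finset (Fin k)}
    {s : ℂ} {σ : Equiv.Perm (Fin k)} (h : rot x p I s = x ∘ σ) (w : ℂ) :
    lam x p I (w + s) = lam x p I w + (I.card : ℂ) * ((I.card : ℂ) - 1) * s := by
  have h1 : ∀ i ∉ I, σ i = i := by
    intro i hi
    have := congrFun h i
    simp only [rot, hi, if_false, Function.comp_apply] at this
    exact (hx this).symm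
  have h2 : ∀ i, σ i ∈ I ↔ i ∈ I := by
    intro i
    constructor
    · intro h3
      by_contra hi
      rw [h1 i hi] at h3
      exact hi h3
    · intro hi
      by_contra h3
      have h4 := h1 _ h3
      have h5 := σ.injective h4
      rw [h5] at h3
      exact h3 hi
  have h3 : ∀ i ∈ I, Complex.exp s * (x i - p) = x (σ i) - p := by
    intro i hi
    have := congrFun h i
    simp only [rot, hi, if_true, Function.comp_apply] at this
    rw [← this]; ring
  unfold lam
  have h4 : ∑ i ∈ I, ∑ j ∈ Iᶜ, Complex.log (1 - Complex.exp (w + s) * ((x i - p) / (x j - p))) =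
      ∑ i ∈ I, ∑ j ∈ Iᶜ, Complex.log (1 - Complex.exp w * ((x i - p) / (x j - p))) := by
    have h5 : ∑ i ∈ I, ∑ j ∈ Iᶜ, Complex.log (1 - Complex.exp (w + s) * ((x i - p) / (x j - p)))
        = ∑ i ∈ I, ∑ j ∈ Iᶜ, Complex.log (1 - Complex.exp w * ((x (σ i) - p) / (x j - p))) := by
      refine Finset.sum_congr rfl fun i hi => Finset.sum_congr rfl fun j _ => ?_
      congr 2
      rw [Complex.exp_add, ← h3 i hi]
      ring
    rw [h5]
    refine Finset.sum_bijective σ σ.bijective (fun i => (h2 i).symm) (fun i _ => rfl)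
  rw [h4]
  ring

end Pool.Agent.Lib.MP_7b99f3_ag
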