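import Pool.Agent.Lib.MP_7b99f3_ag.PairWind

/-!
The function attached to a level set of flat integer data on states, and its vanishing criterion.
-/

namespace Pool.Agent.Lib.MP_7b99f3_ag

open Topology

variable {k n j : ℕ} {D : Datum k n}

/-- flat integer data on the states over a family of configurations -/
structure Lev (D : Datum k n) (j : ℕ) where
  Φ : (Fin j → ℂ) → (Fin k → ℂ)
  Q : (Fin k → ℂ) → ℂ → (Fin n → ℂ) → Fin n → Fin n → ℤ
  cont : ContinuousOn Φ {x | Function.Injective x}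
  inj : ∀ x, Function.Injective x → Function.Injective (Φ x)
  symm : ∀ x, Function.Injective x → ∀ σ : Equiv.Perm (Fin j), ∃ σ' : Equiv.Perm (Fin k),
    Φ (x ∘ σ) = Φ x ∘ σ' ∧ ∀ κ μ, St D (Φ x) κ μ → Q (Φ x ∘ σ') κ μ = Q (Φ x) κ μ
  label : ∀ x, Function.Injective x → ∀ κ μ, St D (Φ x) κ μ → ∀ (τ : Equiv.Perm (Fin n)) a b,
    Q (Φ x) κ (μ ∘ τ) a b = Q (Φ x) κ μ (τ a) (τ b)
  flat : ∀ (X : ℝ → Fin j → ℂ) (κ : ℝ → ℂ) (μ : ℝ → Fin n → ℂ), Continuous X →
    (∀ t, Function.Injective (X t)) → Continuous κ → Continuous μ →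
    (∀ t, St D (Φ (X t)) (κ t) (μ t)) → Q (Φ (X 0)) (κ 0) (μ 0) = Q (Φ (X 1)) (κ 1) (μ 1)

namespace Lev

variable (L : Lev D j) (ρ : ℤ)

/-- product of the differences over the level set -/
noncomputable def lev (x : Fin k → ℂ) (κ : ℂ) (μ : Fin n → ℂ) : ℂ :=
  ∏ a, ∏ b, if a ≠ b ∧ L.Q x κ μ a b = ρ then μ a - μ b else 1

theorem lev_label {x : Fin j → ℂ} (hx : Function.Injective x) {κ : ℂ} {μ : Fin n → ℂ}
    (h : St D (L.Φ x) κ μ) (τ : Equiv.Perm (Fin n)) :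
    L.lev ρ (L.Φ x) κ (μ ∘ τ) = L.lev ρ (L.Φ x) κ μ := by
  unfold lev
  conv_rhs => rw [← Equiv.prod_comp τ]
  refine Finset.prod_congr rfl fun a _ => ?_
  conv_rhs => rw [← Equiv.prod_comp τ]
  refine Finset.prod_congr rfl fun b _ => ?_
  rw [L.label x hx κ μ h]
  have : a ≠ b ↔ τ a ≠ τ b := by simp
  simp only [this, Function.comp_apply]

theorem lev_ne {x : Fin k → ℂ} {κ : ℂ} {μ : Fin n → ℂ}
    (h : St D x κ μ) : L.lev ρ x κ μ ≠ 0 := by
  unfold lev
  refine Finset.prod_ne_zero_iff.mpr fun a _ => Finset.prod_ne_zero_iff.mpr fun b _ => ?_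
  split_ifs with h1
  · exact h.ne h1.1
  · exact one_ne_zero

open Classical in
/-- the same, for an arbitrary ordering of the roots -/
noncomputable def phi (x : Fin j → ℂ) (κ : ℂ) : ℂ :=
  if h : ∃ μ, St D (L.Φ x) κ μ then L.lev ρ (L.Φ x) κ h.choose else 1

theorem phi_eq {x : Fin j → ℂ} (hx : Function.Injective x) {κ : ℂ} {μ : Fin n → ℂ}
    (h : St D (L.Φ x) κ μ) : L.phi ρ x κ = L.lev ρ (L.Φ x) κ μ := by
  have hex : ∃ μ, St D (L.Φ x) κ μ := ⟨μ, h⟩
  unfold phi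
  rw [dif_pos hex]
  obtain ⟨τ, hτ⟩ := h.eq_perm hex.choose_spec
  rw [hτ, L.lev_label ρ hx h]

/-- the symmetric function attached to a level set -/
noncomputable def UU (x : Fin j → ℂ) : ℂ :=
  ((Polynomial.nthRoots (k * (k - 1)) ((vd (L.Φ x) ^ 2)⁻¹)).map (L.phi ρ x)).prod

theorem UU_eq {x : Fin j → ℂ} {κ : ℂ}
    (h : κ ^ (k * (k - 1)) * vd (L.Φ x) ^ 2 = 1) {ζ : ℂ} (hζ : IsPrimitiveRoot ζ (k * (k - 1))) :
    L.UU ρ x = ∏ i ∈ Finset.range (k * (k - 1)), L.phi ρ x (ζ ^ i * κ) := by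
  unfold UU
  rw [hζ.nthRoots_eq (eq_inv_of_mul_eq_one_left h), Multiset.map_map]
  rfl

theorem exists_state (hk : 2 ≤ k) {x : Fin k → ℂ} (hx : Function.Injective x) {κ : ℂ}
    (h : κ ^ (k * (k - 1)) * vd x ^ 2 = 1) : ∃ μ, St D x κ μ := by
  obtain ⟨μ, hμ, hμ2⟩ := D.lift (nrm x κ) (isN_nrm (by omega) h)
  exact ⟨μ, hx, h, hμ, hμ2⟩

theorem exists_kap (hk : 2 ≤ k) {x : Fin k → ℂ} (hx : Function.Injective x) :
    ∃ κ : ℂ, κ ^ (k * (k - 1)) * vd x ^ 2 = 1 := by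
  have hM0 : 0 < k * (k - 1) := by
    have h1 : 0 < k := by omega
    have h2 : 0 < k - 1 := by omega
    exact Nat.mul_pos h1 h2
  obtain ⟨κ, hκ⟩ := IsAlgClosed.exists_pow_nat_eq ((vd x ^ 2)⁻¹) hM0
  exact ⟨κ, by rw [hκ, inv_mul_cancel₀ (pow_ne_zero _ (vd_ne_zero_iff.mpr hx))]⟩

theorem Φ_continuous {A : Type*} [TopologicalSpace A] {X : A → Fin j → ℂ} (hX : Continuous X)
    (hinj : ∀ a, Function.Injective (X a)) : Continuous fun a => L.Φ (X a) :=
  L.cont.comp_continuous hX hinj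

theorem UU_lift (hk : 2 ≤ k) (hn : 0 < n) {A : Type*} [TopologicalSpace A]
    [SimplyConnectedSpace A] [LocallyPathConnectedSpace A] {X : A → Fin j → ℂ}
    (hX : Continuous X) (hinj : ∀ a, Function.Injective (X a)) (a₀ : A) {κ₀ : ℂ}
    {μ₀ : Fin n → ℂ} (h₀ : St D (L.Φ (X a₀)) κ₀ μ₀) :
    ∃ (κ : ℕ → A → ℂ) (μ : ℕ → A → Fin n → ℂ), (∀ i, Continuous (κ i)) ∧
      (∀ i, Continuous (μ i)) ∧ (∀ i a, St D (L.Φ (X a)) (κ i a) (μ i a)) ∧
      κ 0 a₀ = κ₀ ∧ μ 0 a₀ = μ₀ ∧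
      ∀ a, L.UU ρ (X a) = ∏ i ∈ Finset.range (k * (k - 1)), ∏ c, ∏ d,
        if c ≠ d ∧ L.Q (L.Φ (X a₀)) (κ i a₀) (μ i a₀) c d = ρ then μ i a c - μ i a d else 1 := by
  have hM0 : k * (k - 1) ≠ 0 := by
    have h1 : 0 < k := by omega
    have h2 : 0 < k - 1 := by omega
    exact (Nat.mul_pos h1 h2).ne'
  have hprim := Complex.isPrimitiveRoot_exp (k * (k - 1)) hM0
  set ζ := Complex.exp (2 * Real.pi * Complex.I / ((k * (k - 1) : ℕ) : ℂ)) with hζ
  have hbase : ∀ i : ℕ, ∃ μ₁, St D (L.Φ (X a₀)) (ζ ^ i * κ₀) μ₁ ∧ (i = 0 → μ₁ = μ₀) := by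
    intro i
    rcases Nat.eq_zero_or_pos i with rfl | hi
    · exact ⟨μ₀, by simpa using h₀, fun _ => rfl⟩
    · obtain ⟨μ₁, h1⟩ := exists_state (D := D) hk h₀.inj (κ := ζ ^ i * κ₀) (by
        rw [mul_pow, ← pow_mul, mul_comm i, pow_mul, hprim.pow_eq_one, one_pow, one_mul]
        exact h₀.kap)
      exact ⟨μ₁, h1, fun e => by omega⟩
  choose μb hμb hμb0 using hbase
  have hΦ := L.Φ_continuous hX hinj
  have hΦi : ∀ a, Function.Injective (L.Φ (X a)) := fun a => L.inj _ (hinj a)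
  choose κ μ c1 c2 c3 c4 c5 using fun i => exists_lift D hk hn hΦ hΦi a₀ (hμb i)
  refine ⟨κ, μ, c1, c2, c3, by rw [c4]; simp, by rw [c5, hμb0 0 rfl], fun a => ?_⟩
  have hκi : ∀ i, κ i = fun a => ζ ^ i * κ 0 a := by
    intro i
    refine kap_unique hk (X := fun a => L.Φ (X a)) (c1 i) (continuous_const.mul (c1 0))
      (fun a => (c3 i a).kap) (fun a => ?_) a₀ ?_
    · rw [mul_pow, ← pow_mul, mul_comm i, pow_mul, hprim.pow_eq_one, one_pow, one_mul]
      exact (c3 0 a).kap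
    · rw [c4, c4]; simp
  rw [L.UU_eq ρ (c3 0 a).kap hprim]
  refine Finset.prod_congr rfl fun i _ => ?_
  have h1 : ζ ^ i * κ 0 a = κ i a := (congrFun (hκi i) a).symm
  rw [h1, L.phi_eq ρ (hinj a) (c3 i a)]
  unfold lev
  have hQ : L.Q (L.Φ (X a₀)) (κ i a₀) (μ i a₀) = L.Q (L.Φ (X a)) (κ i a) (μ i a) := by
    set γ := (PathConnectedSpace.somePath a₀ a).extend with hγ
    have hγc : Continuous γ := (PathConnectedSpace.somePath a₀ a).continuous_extend
    have h2 := L.flat (fun t => X (γ t)) (fun t => κ i (γ t)) (fun t => μ i (γ t))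
      (hX.comp hγc) (fun t => hinj _) ((c1 i).comp hγc) ((c2 i).comp hγc) (fun t => c3 i _)
    simpa [hγ] using h2
  rw [hQ]

theorem UU_continuousAt (hk : 2 ≤ k) (hn : 0 < n) {x : Fin j → ℂ} (hx : Function.Injective x) :
    ContinuousAt (L.UU ρ) x := by
  have hopen : IsOpen {x : Fin j → ℂ | Function.Injective x} := by
    have : {x : Fin j → ℂ | Function.Injective x} = {x | vd x ≠ 0} := by
      ext x; exact vd_ne_zero_iff.symm
    rw [this]
    exact isOpen_ne_fun continuous_vd continuous_const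
  obtain ⟨ε, hε, hball⟩ := Metric.isOpen_iff.mp hopen x hx
  have hconv : Convex ℝ (Metric.ball x ε) := convex_ball x ε
  have h1 : ContractibleSpace (Metric.ball x ε) :=
    hconv.contractibleSpace ⟨x, Metric.mem_ball_self hε⟩
  have h2 : LocallyPathConnectedSpace (Metric.ball x ε) :=
    Metric.isOpen_ball.locallyPathConnectedSpace
  set a₀ : Metric.ball x ε := ⟨x, Metric.mem_ball_self hε⟩ with ha₀
  obtain ⟨κ₀, hκ₀⟩ := exists_kap hk (L.inj x hx)
  obtain ⟨μ₀, hμ₀⟩ := exists_state (D := D) hk (L.inj x hx) hκ₀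
  obtain ⟨κ, μ, c1, c2, c3, -, -, c4⟩ := L.UU_lift ρ hk hn (A := Metric.ball x ε)
    (X := Subtype.val) continuous_subtype_val (fun a => hball a.2) a₀ hμ₀
  have h3 : Continuous fun a : Metric.ball x ε => L.UU ρ a := by
    simp_rw [c4]
    refine continuous_finsetProd _ fun i _ => continuous_finsetProd _ fun c _ =>
      continuous_finsetProd _ fun d _ => ?_
    have := c2 i
    split_ifs <;> fun_prop
  have h4 : ContinuousOn (L.UU ρ) (Metric.ball x ε) := by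
    rw [continuousOn_iff_continuous_domRestrict]
    exact h3
  exact h4.continuousAt (Metric.ball_mem_nhds x hε)

theorem symFun_UU (hk : 2 ≤ k) (hn : 0 < n) : SymFun (L.UU ρ) where
  cont := fun _ hx => (L.UU_continuousAt ρ hk hn hx).continuousWithinAt
  ne := by
    intro x hx
    unfold UU
    refine Multiset.prod_ne_zero ?_
    intro h0
    rw [Multiset.mem_map] at h0
    obtain ⟨κ, _, h1⟩ := h0
    unfold phi at h1
    split_ifs at h1 with h2
    · exact L.lev_ne ρ h2.choose_spec h1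
    · exact one_ne_zero h1
  symm := by
    intro x hx σ
    obtain ⟨σ', h1, h2⟩ := L.symm x hx σ
    unfold UU
    rw [h1, vd_comp_perm_sq]
    congr 1
    refine Multiset.map_congr rfl fun κ _ => ?_
    by_cases h3 : ∃ μ, St D (L.Φ x) κ μ
    · obtain ⟨μ, hμ⟩ := h3
      have h4 : St D (L.Φ (x ∘ σ)) κ μ := by
        rw [h1]; exact hμ.comp_perm (by omega) σ'
      rw [L.phi_eq ρ (hx.comp σ.injective) h4, L.phi_eq ρ hx hμ, h1]
      unfold lev
      rw [h2 κ μ hμ]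
    · have h4 : ¬ ∃ μ, St D (L.Φ (x ∘ σ)) κ μ := by
        rintro ⟨μ, hμ⟩
        apply h3
        rw [h1] at hμ
        refine ⟨μ, ?_⟩
        have := hμ.comp_perm (by omega) σ'.symm
        have e : (L.Φ x ∘ σ') ∘ σ'.symm = L.Φ x := by funext i; simp
        rwa [e] at this
      unfold phi
      rw [dif_neg h3, dif_neg h4]

end Lev

theorem wind_prod3 {n : ℕ} (S : Finset ℕ) (f : ℕ → Fin n → Fin n → ℝ → ℂ)
    (hc : ∀ i a b, Continuous (f i a b)) (h0 : ∀ i a b t, f i a b t ≠ 0)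
    (h1 : ∀ i a b, f i a b 0 = f i a b 1) :
    wind (fun t => ∏ i ∈ S, ∏ a, ∏ b, f i a b t) = ∑ i ∈ S, ∑ a, ∑ b, wind (f i a b) := by
  rw [wind_prod (u := fun i t => ∏ a, ∏ b, f i a b t) S
    (fun i _ => continuous_finsetProd _ fun a _ => continuous_finsetProd _ fun b _ => hc i a b)
    (fun i _ t => Finset.prod_ne_zero_iff.mpr fun a _ =>
      Finset.prod_ne_zero_iff.mpr fun b _ => h0 i a b t)
    (fun i _ => Finset.prod_congr rfl fun a _ => Finset.prod_congr rfl fun b _ => h1 i a b)]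
  refine Finset.sum_congr rfl fun i _ => ?_
  rw [wind_prod (u := fun a t => ∏ b, f i a b t) Finset.univ
    (fun a _ => continuous_finsetProd _ fun b _ => hc i a b)
    (fun a _ t => Finset.prod_ne_zero_iff.mpr fun b _ => h0 i a b t)
    (fun a _ => Finset.prod_congr rfl fun b _ => h1 i a b)]
  refine Finset.sum_congr rfl fun a _ => ?_
  rw [wind_prod (u := fun b t => f i a b t) Finset.univ
    (fun b _ => hc i a b)
    (fun b _ t => h0 i a b t)
    (fun b _ => h1 i a b)]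

theorem rot_xr (j : ℕ) (I : Finset (Fin j)) (t : ℝ) :
    rot (xr j) 0 I (2 * Real.pi * Complex.I * t) =
      fun i => xr j i * ec (if i ∈ I then t else 0) := by
  funext i
  unfold rot
  split_ifs with h
  · simp only [zero_add, sub_zero]; unfold ec; ring
  · rw [ec_zero, mul_one]

theorem rot_xr_injective (j : ℕ) (I : Finset (Fin j)) (t : ℝ) :
    Function.Injective (rot (xr j) 0 I (2 * Real.pi * Complex.I * t)) := by
  rw [rot_xr]; exact torus_injective _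

/-- the vanishing criterion -/
theorem level_zero (hk : 2 ≤ k) (hn : 0 < n) (L : Lev D j) {m₁ m₂ : ℕ} (hm₁ : 2 ≤ m₁)
    (hm₁j : m₁ ≤ j)
    (h1 : ∀ (κ : ℝ → ℂ) (μ : ℝ → Fin n → ℂ), Continuous κ → Continuous μ →
      (∀ t : ℝ, St D (L.Φ (rot (xr j) 0 (cl j m₁) (2 * Real.pi * Complex.I * t))) (κ t) (μ t)) →
      ∀ a b, a ≠ b → wind (fun t => μ (NN k n * t) a - μ (NN k n * t) b) = 0)
    (h2 : ∀ (κ : ℝ → ℂ) (μ : ℝ → Fin n → ℂ), Continuous κ → Continuous μ →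
      (∀ t : ℝ, St D (L.Φ (rot (xr j) 0 (cl j m₂) (2 * Real.pi * Complex.I * t))) (κ t) (μ t)) →
      ∀ a b, a ≠ b → wind (fun t => μ (NN k n * t) a - μ (NN k n * t) b) =
        L.Q (L.Φ (xr j)) (κ 0) (μ 0) a b)
    {κ : ℂ} {μ : Fin n → ℂ} (h : St D (L.Φ (xr j)) κ μ) {a b : Fin n} (hab : a ≠ b) :
    L.Q (L.Φ (xr j)) κ μ a b = 0 := by
  set ρ := L.Q (L.Φ (xr j)) κ μ a b with hρ
  have hNpos : 0 < NN k n := NN_pos hk
  -- winding numbers of the level function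
  have key : ∀ m : ℕ, ∃ (κ' : ℕ → ℝ → ℂ) (μ' : ℕ → ℝ → Fin n → ℂ),
      (∀ i, Continuous (κ' i)) ∧ (∀ i, Continuous (μ' i)) ∧
      (∀ i, ∀ t : ℝ, St D (L.Φ (rot (xr j) 0 (cl j m) (2 * Real.pi * Complex.I * t)))
        (κ' i t) (μ' i t)) ∧ κ' 0 0 = κ ∧ μ' 0 0 = μ ∧
      (NN k n : ℤ) * wind (fun t : ℝ => L.UU ρ (rot (xr j) 0 (cl j m)
        (2 * Real.pi * Complex.I * t))) =
      ∑ i ∈ Finset.range (k * (k - 1)), ∑ c, ∑ d,
        if c ≠ d ∧ L.Q (L.Φ (xr j)) (κ' i 0) (μ' i 0) c d = ρ then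
          wind (fun t => μ' i (NN k n * t) c - μ' i (NN k n * t) d) else 0 := by
    intro m
    have hXc : Continuous fun t : ℝ => rot (xr j) 0 (cl j m) (2 * Real.pi * Complex.I * t) :=
      continuous_rot continuous_const continuous_const (by fun_prop) _
    have hXi := rot_xr_injective j (cl j m)
    have hX0 : rot (xr j) 0 (cl j m) (2 * Real.pi * Complex.I * ((0 : ℝ) : ℂ)) = xr j := by
      simp [rot_zero]
    obtain ⟨κ', μ', c1, c2, c3, c4, c5, c6⟩ := L.UU_lift ρ hk hn (A := ℝ) hXc hXi 0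
      (κ₀ := κ) (μ₀ := μ) (by rw [hX0]; exact h)
    refine ⟨κ', μ', c1, c2, c3, c4, c5, ?_⟩
    have hUc : Continuous fun t : ℝ => L.UU ρ (rot (xr j) 0 (cl j m)
        (2 * Real.pi * Complex.I * t)) :=
      (L.symFun_UU ρ hk hn).cont.comp_continuous hXc hXi
    rw [← wind_nfold hUc (fun t => (L.symFun_UU ρ hk hn).ne _ (hXi t))
      (fun t => by rw [rot_loop]) (NN k n)]
    have hper : ∀ i, μ' i (NN k n) = μ' i 0 := by
      intro i
      have h3 := (shift_NN hk hn (c1 i) (c2 i) (c3 i) (τ := fun s : ℝ => s + 1) (by fun_prop)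
        (fun t => by rw [rot_loop]) 0).2
      rw [iterate_add_one, zero_add] at h3
      exact h3
    have e1 : (fun t : ℝ => L.UU ρ (rot (xr j) 0 (cl j m)
        (2 * Real.pi * Complex.I * ((NN k n * t : ℝ) : ℂ)))) = fun t =>
        ∏ i ∈ Finset.range (k * (k - 1)), ∏ c, ∏ d,
        (fun i c d t => if c ≠ d ∧ L.Q (L.Φ (xr j)) (κ' i 0) (μ' i 0) c d = ρ then
          μ' i (NN k n * t) c - μ' i (NN k n * t) d else 1) i c d t := by
      funext t
      rw [c6, hX0]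
    rw [e1, wind_prod3 (Finset.range (k * (k - 1))) (fun i c d t =>
        if c ≠ d ∧ L.Q (L.Φ (xr j)) (κ' i 0) (μ' i 0) c d = ρ then
          μ' i (NN k n * t) c - μ' i (NN k n * t) d else 1) ?_ ?_ ?_]
    · refine Finset.sum_congr rfl fun i _ => Finset.sum_congr rfl fun c _ =>
        Finset.sum_congr rfl fun d _ => ?_
      split_ifs
      · rfl
      · exact wind_const one_ne_zero
    · intro i c d
      have := c2 i
      split_ifs <;> fun_prop
    · intro i c d t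
      split_ifs with h3
      · exact (c3 i _).ne h3.1
      · exact one_ne_zero
    · intro i c d
      simp only [mul_zero, mul_one, hper]
  obtain ⟨κ₁, μ₁, a1, a2, a3, a4, a5, a6⟩ := key m₁
  obtain ⟨κ₂, μ₂, b1, b2, b3, b4, b5, b6⟩ := key m₂
  have hz1 : wind (fun t : ℝ => L.UU ρ (rot (xr j) 0 (cl j m₁)
        (2 * Real.pi * Complex.I * t))) = 0 := by
    have h3 : ∑ i ∈ Finset.range (k * (k - 1)), ∑ c, ∑ d,
        (if c ≠ d ∧ L.Q (L.Φ (xr j)) (κ₁ i 0) (μ₁ i 0) c d = ρ then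
          wind (fun t => μ₁ i (NN k n * t) c - μ₁ i (NN k n * t) d) else 0) = 0 := by
      refine Finset.sum_eq_zero fun i _ => Finset.sum_eq_zero fun c _ =>
        Finset.sum_eq_zero fun d _ => ?_
      split_ifs with h4
      · exact h1 _ _ (a1 i) (a2 i) (a3 i) c d h4.1
      · rfl
    rw [h3] at a6
    rcases mul_eq_zero.mp a6 with h4 | h4
    · exact absurd h4 (by exact_mod_cast hNpos.ne')
    · exact h4
  have hz2 := lemmaU (L.symFun_UU ρ hk hn) hm₁ hm₁j hz1 (m₂ := m₂)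
  rw [hz2, mul_zero] at b6
  have h5 : ∑ i ∈ Finset.range (k * (k - 1)), ∑ c, ∑ d,
        (if c ≠ d ∧ L.Q (L.Φ (xr j)) (κ₂ i 0) (μ₂ i 0) c d = ρ then
          wind (fun t => μ₂ i (NN k n * t) c - μ₂ i (NN k n * t) d) else 0) =
      ρ * ∑ i ∈ Finset.range (k * (k - 1)), ∑ c, ∑ d,
        (if c ≠ d ∧ L.Q (L.Φ (xr j)) (κ₂ i 0) (μ₂ i 0) c d = ρ then (1 : ℤ) else 0) := by
    simp only [Finset.mul_sum]
    refine Finset.sum_congr rfl fun i _ => Finset.sum_congr rfl fun c _ =>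
        Finset.sum_congr rfl fun d _ => ?_
    split_ifs with h4
    · have h6 : L.Φ (rot (xr j) 0 (cl j m₂) (2 * Real.pi * Complex.I * ((0 : ℝ) : ℂ))) =
          L.Φ (xr j) := by simp [rot_zero]
      rw [h2 _ _ (b1 i) (b2 i) (b3 i) c d h4.1, h4.2, mul_one]
    · rw [mul_zero]
  rw [h5] at b6
  rcases mul_eq_zero.mp b6.symm with h6 | h6
  · exact h6
  · exfalso
    have hM0 : 0 < k * (k - 1) := by
      have h1 : 0 < k := by omega
      have h2 : 0 < k - 1 := by omega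
      exact Nat.mul_pos h1 h2
    have h7 : (1 : ℤ) ≤ ∑ i ∈ Finset.range (k * (k - 1)), ∑ c, ∑ d,
        (if c ≠ d ∧ L.Q (L.Φ (xr j)) (κ₂ i 0) (μ₂ i 0) c d = ρ then (1 : ℤ) else 0) := by
      calc (1 : ℤ) = (if a ≠ b ∧ L.Q (L.Φ (xr j)) (κ₂ 0 0) (μ₂ 0 0) a b = ρ then
            (1 : ℤ) else 0) := by
            rw [if_pos]; rw [b4, b5]; exact ⟨hab, hρ.symm⟩
        _ ≤ ∑ d, (if a ≠ d ∧ L.Q (L.Φ (xr j)) (κ₂ 0 0) (μ₂ 0 0) a d = ρ then
            (1 : ℤ) else 0) := Finset.single_le_sum (f := fun d =>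
              if a ≠ d ∧ L.Q (L.Φ (xr j)) (κ₂ 0 0) (μ₂ 0 0) a d = ρ then (1 : ℤ) else 0)
              (fun d _ => by split_ifs <;> norm_num) (Finset.mem_univ b)
        _ ≤ ∑ c, ∑ d, (if c ≠ d ∧ L.Q (L.Φ (xr j)) (κ₂ 0 0) (μ₂ 0 0) c d = ρ then
            (1 : ℤ) else 0) := Finset.single_le_sum (f := fun c => ∑ d,
              if c ≠ d ∧ L.Q (L.Φ (xr j)) (κ₂ 0 0) (μ₂ 0 0) c d = ρ then (1 : ℤ) else 0)
              (fun c _ => Finset.sum_nonneg fun d _ => by split_ifs <;> norm_num)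
              (Finset.mem_univ a)
        _ ≤ _ := Finset.single_le_sum (f := fun i => ∑ c, ∑ d,
              if c ≠ d ∧ L.Q (L.Φ (xr j)) (κ₂ i 0) (μ₂ i 0) c d = ρ then (1 : ℤ) else 0)
              (fun c _ => Finset.sum_nonneg fun d _ => Finset.sum_nonneg fun e _ => by
                split_ifs <;> norm_num) (Finset.mem_range.mpr hM0)
    rw [h6] at h7
    norm_num at h7

end Pool.Agent.Lib.MP_7b99f3_ag
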