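import Pool.Agent.Lib.MP_7b99f3_ag.Vieta

/-!
Lifting: continuous (holomorphic) families of configurations lift to families of states.
-/

namespace Pool.Agent.Lib.MP_7b99f3_ag

open Polynomial Topology

/-- normalised configuration: sum zero and discriminant one -/
def IsN {n : ℕ} (y : Fin n → ℂ) : Prop := ∑ i, y i = 0 ∧ vd y ^ 2 = 1

/-- the centre of mass of a configuration -/
noncomputable def mean {k : ℕ} (x : Fin k → ℂ) : ℂ := (∑ i, x i) / k

/-- centred and rescaled configuration -/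
noncomputable def nrm {k : ℕ} (x : Fin k → ℂ) (κ : ℂ) : Fin k → ℂ := fun i => κ * (x i - mean x)

theorem vd_affine {k : ℕ} (x : Fin k → ℂ) (κ c : ℂ) :
    vd (fun i => κ * (x i - c)) = κ ^ (k * (k - 1) / 2) * vd x := by
  unfold vd
  have h1 : ∀ i : Fin k, ∏ j ∈ Finset.Ioi i, (κ * (x j - c) - κ * (x i - c)) =
      κ ^ (k - 1 - (i : ℕ)) * ∏ j ∈ Finset.Ioi i, (x j - x i) := by
    intro i
    have : ∀ j, κ * (x j - c) - κ * (x i - c) = κ * (x j - x i) := by intro j; ring
    simp_rw [this]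
    rw [Finset.prod_mul_distrib]
    simp
  simp_rw [h1]
  rw [Finset.prod_mul_distrib, Finset.prod_pow_eq_pow_sum]
  congr 2
  have h5 : ∑ i : Fin k, (k - 1 - (i : ℕ)) = ∑ i ∈ Finset.range k, (k - 1 - i) :=
    Finset.sum_range (fun i => k - 1 - i) |>.symm
  rw [h5, Finset.sum_range_reflect (fun i => i) k, Finset.sum_range_id]

theorem two_mul_half (k : ℕ) : k * (k - 1) / 2 * 2 = k * (k - 1) :=
  Nat.div_mul_cancel (Nat.even_mul_pred_self k).two_dvd

theorem isN_nrm {k : ℕ} (hk : 0 < k) {x : Fin k → ℂ} {κ : ℂ}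
    (h : κ ^ (k * (k - 1)) * vd x ^ 2 = 1) : IsN (nrm x κ) := by
  constructor
  · unfold nrm mean
    rw [← Finset.mul_sum, Finset.sum_sub_distrib]
    have : (k : ℂ) ≠ 0 := by exact_mod_cast hk.ne'
    simp
    right
    field_simp
    ring
  · unfold nrm
    rw [vd_affine, mul_pow, ← pow_mul, two_mul_half]
    exact h

theorem vd_comp_perm_sq {k : ℕ} (x : Fin k → ℂ) (σ : Equiv.Perm (Fin k)) :
    vd (x ∘ σ) ^ 2 = vd x ^ 2 := by
  rcases Nat.eq_zero_or_pos k with h | h
  · subst h; simp [vd]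
  · rw [← discr_monicPoly_vieta h, ← discr_monicPoly_vieta h, vieta_comp_perm]

theorem IsN.comp_perm {n : ℕ} {y : Fin n → ℂ} (h : IsN y) (σ : Equiv.Perm (Fin n)) :
    IsN (y ∘ σ) := by
  refine ⟨?_, ?_⟩
  · rw [← h.1]; exact Equiv.sum_comp σ y
  · rw [vd_comp_perm_sq]; exact h.2

theorem IsN.injective {n : ℕ} {y : Fin n → ℂ} (h : IsN y) : Function.Injective y := by
  rw [← vd_ne_zero_iff]
  intro h0
  have := h.2
  rw [h0] at this
  simp at this

theorem mean_comp_perm {k : ℕ} (x : Fin k → ℂ) (σ : Equiv.Perm (Fin k)) :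
    mean (x ∘ σ) = mean x := by
  unfold mean
  congr 1
  exact Equiv.sum_comp σ x

theorem nrm_comp_perm {k : ℕ} (x : Fin k → ℂ) (κ : ℂ) (σ : Equiv.Perm (Fin k)) :
    nrm (x ∘ σ) κ = nrm x κ ∘ σ := by
  funext i
  simp [nrm, mean_comp_perm]

/-- The data of the composite map read on ordered normalised configurations. -/
structure Datum (k n : ℕ) where
  /-- the map, from normalised `k`-configurations to coefficient vectors -/
  G : (Fin k → ℂ) → (Fin n → ℂ)
  symm : ∀ (y : Fin k → ℂ) (σ : Equiv.Perm (Fin k)), IsN y → G (y ∘ σ) = G y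
  lift : ∀ y, IsN y → ∃ μ : Fin n → ℂ, IsN μ ∧ vieta μ = G y
  hol : ∀ y, IsN y → ∃ F : (Fin k → ℂ) → (Fin n → ℂ), AnalyticAt ℂ F y ∧
    ∀ᶠ y' in 𝓝[{y | IsN y}] y, G y' = F y'

/-- A state over the configuration `x`: a scaling factor and an ordering of the roots of the
image. -/
structure St {k n : ℕ} (D : Datum k n) (x : Fin k → ℂ) (κ : ℂ) (μ : Fin n → ℂ) : Prop where
  inj : Function.Injective x
  kap : κ ^ (k * (k - 1)) * vd x ^ 2 = 1
  isN : IsN μ
  eq : vieta μ = D.G (nrm x κ)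


theorem differentiableAt_of_comp {V E F : Type*} [NormedAddCommGroup V] [NormedSpace ℂ V]
    [NormedAddCommGroup E] [NormedSpace ℂ E] [CompleteSpace E] [NormedAddCommGroup F]
    [NormedSpace ℂ F] {f : E → F} {f' : E ≃L[ℂ] F} {g : V → E} {a : V} (hg : ContinuousAt g a)
    (hf : HasStrictFDerivAt f (f' : E →L[ℂ] F) (g a))
    (hfg : DifferentiableAt ℂ (fun v => f (g v)) a) : DifferentiableAt ℂ g a := by
  have h1 : ∀ᶠ v in 𝓝 a, hf.localInverse f f' (g a) (f (g v)) = g v :=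
    hg.eventually hf.eventually_left_inverse
  have h2 : DifferentiableAt ℂ (hf.localInverse f f' (g a)) (f (g a)) :=
    hf.to_localInverse.hasFDerivAt.differentiableAt
  have h3 : DifferentiableAt ℂ (fun v => hf.localInverse f f' (g a) (f (g v))) a :=
    DifferentiableAt.comp a h2 hfg
  exact h3.congr_of_eventuallyEq (h1.mono fun v hv => hv.symm)

section lifts

variable {k n : ℕ} (D : Datum k n)

theorem Datum.continuousOn_G : ContinuousOn D.G {y | IsN y} := by
  intro y hy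
  obtain ⟨F, hF, hG⟩ := D.hol y hy
  have h1 : ContinuousWithinAt F {y | IsN y} y := hF.continuousAt.continuousWithinAt
  exact h1.congr_of_eventuallyEq hG (hG.self_of_nhdsWithin hy)

theorem continuous_mean {k : ℕ} : Continuous (mean (k := k)) := by
  unfold mean; fun_prop

theorem continuous_vd {k : ℕ} : Continuous (vd (k := k)) := by
  unfold vd; fun_prop

theorem continuous_nrm {A : Type*} [TopologicalSpace A] {X : A → Fin k → ℂ} {κ : A → ℂ}
    (hX : Continuous X) (hκ : Continuous κ) : Continuous fun a => nrm (X a) (κ a) := by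
  unfold nrm
  rw [continuous_pi_iff]
  intro i
  exact hκ.mul (((continuous_apply i).comp hX).sub (continuous_mean.comp hX))

/-- Existence of lifts of a continuous family of configurations over a simply connected space. -/
theorem exists_lift (hk : 2 ≤ k) (hn : 0 < n) {A : Type*} [TopologicalSpace A]
    [SimplyConnectedSpace A] [LocallyPathConnectedSpace A] {X : A → Fin k → ℂ}
    (hX : Continuous X) (hinj : ∀ a, Function.Injective (X a)) (a₀ : A) {κ₀ : ℂ}
    {μ₀ : Fin n → ℂ} (h₀ : St D (X a₀) κ₀ μ₀) :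
    ∃ (κ : A → ℂ) (μ : A → Fin n → ℂ), Continuous κ ∧ Continuous μ ∧
      (∀ a, St D (X a) (κ a) (μ a)) ∧ κ a₀ = κ₀ ∧ μ a₀ = μ₀ := by
  set M := k * (k - 1) with hM
  have hM0 : M ≠ 0 := by
    have h1 : 0 < k := by omega
    have h2 : 0 < k - 1 := by omega
    exact (Nat.mul_pos h1 h2).ne'
  have hvd : ∀ a, vd (X a) ≠ 0 := fun a => vd_ne_zero_iff.mpr (hinj a)
  have hc : Continuous fun a => (vd (X a) ^ 2)⁻¹ :=
    ((continuous_vd.comp hX).pow 2).inv₀ fun a => pow_ne_zero _ (hvd a)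
  have hcov := isCoveringMapOn_npow (𝕜 := ℂ) M (by exact_mod_cast hM0)
  have he₀ : κ₀ ^ M = (⟨fun a => (vd (X a) ^ 2)⁻¹, hc⟩ : C(A, ℂ)) a₀ := by
    have := h₀.kap
    simp only [ContinuousMap.coe_mk]
    exact eq_inv_of_mul_eq_one_left this
  obtain ⟨κ, ⟨hκ0, hκ⟩, -⟩ := hcov.existsUnique_continuousMap_lifts
    (⟨fun a => (vd (X a) ^ 2)⁻¹, hc⟩ : C(A, ℂ)) he₀
    (fun a => by simpa using hvd a)
  have hκ2 : ∀ a, κ a ^ M * vd (X a) ^ 2 = 1 := by
    intro a
    have := congrFun hκ a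
    simp only [Function.comp_apply, ContinuousMap.coe_mk] at this
    rw [this, inv_mul_cancel₀ (pow_ne_zero _ (hvd a))]
  have hN : ∀ a, IsN (nrm (X a) (κ a)) := fun a => isN_nrm (by omega) (hκ2 a)
  have hP : Continuous fun a => D.G (nrm (X a) (κ a)) :=
    D.continuousOn_G.comp_continuous (continuous_nrm hX κ.continuous) hN
  have hcov2 := isCoveringMapOn_vieta hn
  have hμe : vieta μ₀ = (⟨fun a => D.G (nrm (X a) (κ a)), hP⟩ : C(A, Fin n → ℂ)) a₀ := by
    simp only [ContinuousMap.coe_mk]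
    rw [hκ0]
    exact h₀.eq
  obtain ⟨μ, ⟨hμ0, hμ⟩, -⟩ := hcov2.existsUnique_continuousMap_lifts
    (⟨fun a => D.G (nrm (X a) (κ a)), hP⟩ : C(A, Fin n → ℂ)) hμe (fun a => by
      obtain ⟨ν, hν, hν2⟩ := D.lift _ (hN a)
      exact ⟨ν, hν.injective, hν2⟩)
  have hμ2 : ∀ a, vieta (μ a) = D.G (nrm (X a) (κ a)) := fun a => congrFun hμ a
  refine ⟨κ, μ, κ.continuous, μ.continuous, fun a => ⟨hinj a, hκ2 a, ?_, hμ2 a⟩, hκ0, hμ0⟩
  obtain ⟨ν, hν, hν2⟩ := D.lift _ (hN a)
  have hinjμ : Function.Injective (μ a) :=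
    injective_of_vieta_mem_reg ⟨ν, hν.injective, by rw [hν2, hμ2]⟩
  obtain ⟨σ, hσ⟩ := exists_perm_of_vieta_eq (y := ν) hinjμ (by rw [hν2, hμ2])
  rw [hσ]
  exact hν.comp_perm σ

/-- two continuous lifts agreeing at one point agree everywhere -/
theorem lift_unique (hk : 2 ≤ k) (hn : 0 < n) {A : Type*} [TopologicalSpace A]
    [PreconnectedSpace A] {X : A → Fin k → ℂ} {κ κ' : A → ℂ} {μ μ' : A → Fin n → ℂ}
    (hκ : Continuous κ) (hκ' : Continuous κ') (hμ : Continuous μ) (hμ' : Continuous μ')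
    (h : ∀ a, St D (X a) (κ a) (μ a)) (h' : ∀ a, St D (X a) (κ' a) (μ' a)) (a₀ : A)
    (e1 : κ a₀ = κ' a₀) (e2 : μ a₀ = μ' a₀) : κ = κ' ∧ μ = μ' := by
  set M := k * (k - 1) with hM
  have hM0 : M ≠ 0 := by
    have h1 : 0 < k := by omega
    have h2 : 0 < k - 1 := by omega
    exact (Nat.mul_pos h1 h2).ne'
  have hκne : ∀ a, κ a ≠ 0 := by
    intro a h0
    have := (h a).kap
    rw [h0, zero_pow hM0, zero_mul] at this
    exact zero_ne_one this
  have hκne' : ∀ a, κ' a ≠ 0 := by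
    intro a h0
    have := (h' a).kap
    rw [h0, zero_pow hM0, zero_mul] at this
    exact zero_ne_one this
  have hcov := isCoveringMap_npow (𝕜 := ℂ) M (by exact_mod_cast hM0)
  have hκκ : κ = κ' := by
    have h1 := hcov.eq_of_comp_eq (A := A) (g₁ := fun a => ⟨κ a, hκne a⟩)
      (g₂ := fun a => ⟨κ' a, hκne' a⟩) (by fun_prop) (by fun_prop) (by
        funext a
        simp only [Function.comp_apply, Subtype.mk.injEq]
        have h3 := (h a).kap
        have h4 := (h' a).kap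
        have h5 : vd (X a) ^ 2 ≠ 0 := pow_ne_zero _ (vd_ne_zero_iff.mpr (h a).inj)
        rw [← h4] at h3
        exact mul_right_cancel₀ h5 h3) a₀ (by simpa using e1)
    funext a
    have := congrFun h1 a
    simpa using this
  refine ⟨hκκ, ?_⟩
  have hreg : ∀ a, μ a ∈ vieta ⁻¹' (Reg n) := fun a => ⟨μ a, (h a).isN.injective, rfl⟩
  have hreg' : ∀ a, μ' a ∈ vieta ⁻¹' (Reg n) := fun a => ⟨μ' a, (h' a).isN.injective, rfl⟩
  have hcov2 := (isCoveringMapOn_vieta hn).isCoveringMap_restrictPreimage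
  have h1 := hcov2.eq_of_comp_eq (A := A) (g₁ := fun a => ⟨μ a, hreg a⟩)
      (g₂ := fun a => ⟨μ' a, hreg' a⟩) (by fun_prop) (by fun_prop) (by
        funext a
        apply Subtype.ext
        simp only [Function.comp_apply, Set.restrictPreimage_coe]
        rw [(h a).eq, (h' a).eq, hκκ]) a₀ (by simpa using e2)
  funext a
  have := congrFun h1 a
  simpa using this

end lifts

end Pool.Agent.Lib.MP_7b99f3_ag
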