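import Mathlib

set_option autoImplicit false

namespace Pool.Agent.Lib.MP_7b99f3_ag

open Set Filter Topology Metric

/-- The loop `u` (on `[0,1]`) has a continuous closed logarithm. -/
def ClosedLog (u : ℝ → ℂ) : Prop :=
  ∃ h : ℝ → ℂ, Continuous h ∧ h 1 = h 0 ∧ ∀ t, Complex.exp (h t) = u t

lemma planar_exists_log {X : Type} [TopologicalSpace X] [SimplyConnectedSpace X]
    [LocallyPathConnectedSpace X] (f : X → ℂ) (hf : Continuous f) (h0 : ∀ x, f x ≠ 0) :
    ∃ g : X → ℂ, Continuous g ∧ ∀ x, Complex.exp (g x) = f x := by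
  obtain ⟨x₀⟩ : Nonempty X := inferInstance
  rcases Complex.isCoveringMapOn_exp.existsUnique_continuousMap_lifts ⟨f, hf⟩
    (Complex.exp_log (h0 x₀)) (fun x => h0 x) with ⟨F, ⟨-, hF⟩, -⟩
  exact ⟨F, F.continuous, fun x => congrFun hF x⟩

lemma planar_eq_of_exp_eq {X : Type} [TopologicalSpace X] [PreconnectedSpace X] {g₁ g₂ : X → ℂ}
    (h₁ : Continuous g₁) (h₂ : Continuous g₂)
    (he : ∀ x, Complex.exp (g₁ x) = Complex.exp (g₂ x)) (x₀ : X) (h0 : g₁ x₀ = g₂ x₀) :
    g₁ = g₂ := by
  refine Complex.isCoveringMap_exp.eq_of_comp_eq h₁ h₂ ?_ x₀ h0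
  funext x
  exact Subtype.ext (he x)

lemma closedLog_homotopy (u : ℝ × ℝ → ℂ) (hu : Continuous u) (hne : ∀ p, u p ≠ 0)
    (hper : ∀ s, u (s, 1) = u (s, 0)) {a b : ℝ} (h : ClosedLog (fun t => u (a, t))) :
    ClosedLog (fun t => u (b, t)) := by
  obtain ⟨L, hL, hLu⟩ := planar_exists_log u hu hne
  obtain ⟨h, hc, hcl, hu'⟩ := h
  have hca : Continuous (fun t : ℝ => L (a, t)) := hL.comp (by fun_prop)
  have h1 : (fun t : ℝ => L (a, t)) = fun t => h t + (L (a, 0) - h 0) := by
    refine planar_eq_of_exp_eq hca (by fun_prop) ?_ 0 (by simp)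
    intro t
    rw [Complex.exp_add, Complex.exp_sub, hu', hLu, hLu, hu', div_self (hne _), mul_one]
  have h2 : L (a, 1) = L (a, 0) := by
    have := congrFun h1 1
    rw [this, hcl]
    ring
  have h3 : (fun s : ℝ => L (s, 1)) = fun s => L (s, 0) := by
    refine planar_eq_of_exp_eq (hL.comp (by fun_prop)) (hL.comp (by fun_prop)) ?_ a h2
    intro s
    rw [hLu, hLu, hper]
  exact ⟨fun t => L (b, t), hL.comp (by fun_prop), congrFun h3 b, fun t => hLu _⟩

/-- The point of the circle. -/
noncomputable def cpt (z : ℂ) (r t : ℝ) : ℂ :=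
  z + r * Complex.exp (2 * Real.pi * Complex.I * t)

lemma cpt_cont (z : ℂ) : Continuous (fun p : ℝ × ℝ => cpt z p.1 p.2) := by
  unfold cpt
  fun_prop

lemma norm_exp_circ (t : ℝ) : ‖Complex.exp (2 * Real.pi * Complex.I * t)‖ = 1 := by
  have : (2 * Real.pi * Complex.I * t : ℂ) = ((2 * Real.pi * t : ℝ) : ℂ) * Complex.I := by
    push_cast; ring
  rw [this, Complex.norm_exp_ofReal_mul_I]

lemma dist_cpt (z : ℂ) (r t : ℝ) : dist (cpt z r t) z = |r| := by
  rw [cpt, dist_eq_norm, add_sub_cancel_left, norm_mul, norm_exp_circ, mul_one, Complex.norm_real,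
    Real.norm_eq_abs]

lemma cpt_one (z : ℂ) (r : ℝ) : cpt z r 1 = cpt z r 0 := by
  unfold cpt
  congr 2
  push_cast
  rw [mul_zero, mul_one, Complex.exp_zero, Complex.exp_two_pi_mul_I]

/-- A function continuous and nonvanishing on a closed punctured disc with a closed log on the
outer circle has one on all smaller circles. -/
lemma closedLog_shrink {φ : ℂ → ℂ} {s : ℂ} {ε : ℝ}
    (hφ : ContinuousOn φ (closedBall s ε \ {s})) (hne : ∀ z ∈ closedBall s ε \ {s}, φ z ≠ 0)
    (h : ClosedLog (fun t => φ (cpt s ε t))) {δ : ℝ} (hδ : 0 < δ) (hδε : δ ≤ ε) :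
    ClosedLog (fun t => φ (cpt s δ t)) := by
  have hmem : ∀ p : ℝ × ℝ, cpt s (max δ (min p.1 ε)) p.2 ∈ closedBall s ε \ {s} := by
    intro p
    have hpos : 0 < max δ (min p.1 ε) := lt_of_lt_of_le hδ (le_max_left _ _)
    constructor
    · rw [mem_closedBall, dist_cpt, abs_of_pos hpos]
      exact max_le hδε (min_le_right _ _)
    · intro hcon
      rw [mem_singleton_iff] at hcon
      have := dist_cpt s (max δ (min p.1 ε)) p.2
      rw [hcon, dist_self, abs_of_pos hpos] at this
      exact absurd this hpos.ne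
  have hu : Continuous (fun p : ℝ × ℝ => φ (cpt s (max δ (min p.1 ε)) p.2)) := by
    refine hφ.comp_continuous ?_ hmem
    exact (cpt_cont s).comp (f := fun p : ℝ × ℝ => (max δ (min p.1 ε), p.2)) (by fun_prop)
  have key := closedLog_homotopy (fun p : ℝ × ℝ => φ (cpt s (max δ (min p.1 ε)) p.2)) hu
    (fun p => hne _ (hmem p)) (fun r => by simp only [cpt_one]) (a := ε) (b := δ) ?_
  · simp only [min_eq_left hδε, max_self] at key
    exact key
  · simp only [min_self, max_eq_right hδε]
    exact h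

/-- A function continuous and nonvanishing on a closed disc has a closed log on the circle. -/
lemma closedLog_disc {φ : ℂ → ℂ} {c : ℂ} {R : ℝ} (hR : 0 < R)
    (hφ : ContinuousOn φ (closedBall c R)) (hne : ∀ z ∈ closedBall c R, φ z ≠ 0) :
    ClosedLog (fun t => φ (cpt c R t)) := by
  have hmem : ∀ p : ℝ × ℝ, cpt c (max 0 (min p.1 R)) p.2 ∈ closedBall c R := by
    intro p
    rw [mem_closedBall, dist_cpt, abs_of_nonneg (le_max_left _ _)]
    exact max_le hR.le (min_le_right _ _)
  have hu : Continuous (fun p : ℝ × ℝ => φ (cpt c (max 0 (min p.1 R)) p.2)) := by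
    refine hφ.comp_continuous ?_ hmem
    exact (cpt_cont c).comp (f := fun p : ℝ × ℝ => (max 0 (min p.1 R), p.2)) (by fun_prop)
  have key := closedLog_homotopy (fun p : ℝ × ℝ => φ (cpt c (max 0 (min p.1 R)) p.2)) hu
    (fun p => hne _ (hmem p)) (fun r => by simp only [cpt_one]) (a := 0) (b := R) ?_
  · simp only [min_self, max_eq_right hR.le] at key
    exact key
  · simp only [min_eq_left hR.le, max_self]
    refine ⟨fun _ => Complex.log (φ c), continuous_const, rfl, fun t => ?_⟩
    rw [Complex.exp_log (hne c (mem_closedBall_self hR.le))]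
    simp [cpt]

/-- A closed log on a circle extends to a continuous function on the plane. -/
lemma circle_log_ext {φ : ℂ → ℂ} {s : ℂ} {ε : ℝ} (hε : 0 < ε)
    (h : ClosedLog (fun t => φ (cpt s ε t))) :
    ∃ l : ℂ → ℂ, Continuous l ∧ ∀ z ∈ sphere s ε, Complex.exp (l z) = φ z := by
  obtain ⟨h, hc, hcl, hu⟩ := h
  let E : Icc (0:ℝ) 1 → sphere s ε := fun t => ⟨cpt s ε t, by
    rw [mem_sphere, dist_cpt, abs_of_pos hε]⟩
  have hE : Continuous E := by
    refine Continuous.subtype_mk ?_ _
    exact (cpt_cont s).comp (f := fun p : Icc (0:ℝ) 1 => (ε, (p : ℝ))) (by fun_prop)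
  have hsurj : ∀ z ∈ sphere s ε, ∃ t ∈ Icc (0:ℝ) 1, cpt s ε t = z := by
    intro z hz
    rw [mem_sphere, dist_eq_norm] at hz
    set θ := Complex.arg (z - s) with hθ
    have h1 : z - s = ε * Complex.exp (θ * Complex.I) := by
      rw [← hz]
      exact (Complex.norm_mul_exp_arg_mul_I (z - s)).symm
    have hpi := Real.pi_pos
    have hθ1 := Complex.neg_pi_lt_arg (z - s)
    have hθ2 := Complex.arg_le_pi (z - s)
    rw [← hθ] at hθ1 hθ2
    rcases le_or_gt 0 θ with h0 | h0
    · refine ⟨θ / (2 * Real.pi), ⟨by positivity, ?_⟩, ?_⟩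
      · rw [div_le_one (by positivity)]
        linarith
      · unfold cpt
        have h2 : (2 * Real.pi * Complex.I * ((θ / (2 * Real.pi) : ℝ) : ℂ) : ℂ) = θ * Complex.I := by
          have : (Real.pi : ℂ) ≠ 0 := by exact_mod_cast hpi.ne'
          push_cast
          field_simp
        rw [h2, ← h1]
        ring
    · refine ⟨θ / (2 * Real.pi) + 1, ⟨?_, ?_⟩, ?_⟩
      · have : -1 ≤ θ / (2 * Real.pi) := by
          rw [le_div_iff₀ (by positivity)]
          linarith
        linarith
      · have : θ / (2 * Real.pi) ≤ 0 := div_nonpos_of_nonpos_of_nonneg h0.le (by positivity)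
        linarith
      · unfold cpt
        have h2 : (2 * Real.pi * Complex.I * ((θ / (2 * Real.pi) + 1 : ℝ) : ℂ) : ℂ) =
            θ * Complex.I + 2 * Real.pi * Complex.I := by
          have : (Real.pi : ℂ) ≠ 0 := by exact_mod_cast hpi.ne'
          push_cast
          field_simp
        rw [h2, Complex.exp_add, Complex.exp_two_pi_mul_I, mul_one, ← h1]
        ring
  have hEs : Function.Surjective E := by
    rintro ⟨z, hz⟩
    obtain ⟨t, ht, htz⟩ := hsurj z hz
    exact ⟨⟨t, ht⟩, Subtype.ext htz⟩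
  let E' : C(Icc (0:ℝ) 1, sphere s ε) := ⟨E, hE⟩
  have hq : IsQuotientMap E' := hE.isClosedMap.isQuotientMap hE hEs
  let g : C(Icc (0:ℝ) 1, ℂ) := ⟨fun t => h t, hc.comp continuous_subtype_val⟩
  have hfac : Function.FactorsThrough g E' := by
    rintro ⟨t, ht⟩ ⟨t', ht'⟩ heq
    have h1 : cpt s ε t = cpt s ε t' := congrArg Subtype.val heq
    unfold cpt at h1
    have hεC : (ε : ℂ) ≠ 0 := by exact_mod_cast hε.ne'
    have h2 := mul_left_cancel₀ hεC (add_left_cancel h1)
    rw [Complex.exp_eq_exp_iff_exists_int] at h2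
    obtain ⟨n, hn⟩ := h2
    have h3 : (t : ℂ) = t' + n := by
      have h4 : (2 * Real.pi * Complex.I : ℂ) ≠ 0 := Complex.two_pi_I_ne_zero
      have h5 : (2 * Real.pi * Complex.I : ℂ) * t = (2 * Real.pi * Complex.I) * (t' + n) := by
        rw [hn]; ring
      exact mul_left_cancel₀ h4 h5
    have h3' : t = t' + n := by exact_mod_cast h3
    change h t = h t'
    have hn1 : (n : ℝ) ≤ 1 := by linarith [ht.2, ht'.1]
    have hn2 : (-1 : ℝ) ≤ n := by linarith [ht.1, ht'.2]
    have hn3 : n ≤ 1 := by exact_mod_cast hn1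
    have hn4 : -1 ≤ n := by exact_mod_cast hn2
    have hn5 : n = -1 ∨ n = 0 ∨ n = 1 := by omega
    rcases hn5 with rfl | rfl | rfl
    · have e1 : t = 0 := by push_cast at h3'; linarith [ht.1, ht'.2]
      have e2 : t' = 1 := by push_cast at h3'; linarith [ht.1, ht'.2]
      rw [e1, e2, hcl]
    · rw [h3']; simp
    · have e1 : t = 1 := by push_cast at h3'; linarith [ht.2, ht'.1]
      have e2 : t' = 0 := by push_cast at h3'; linarith [ht.2, ht'.1]
      rw [e1, e2, hcl]
  obtain ⟨l, hl⟩ := ContinuousMap.exists_restrict_eq (isClosed_sphere (x := s) (ε := ε))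
    (hq.lift g hfac)
  refine ⟨l, l.continuous, fun z hz => ?_⟩
  obtain ⟨t, ht, htz⟩ := hsurj z hz
  have h1 : l z = h t := by
    have h2 := congrArg (fun f => f ⟨z, hz⟩) hl
    have h3 : (⟨z, hz⟩ : sphere s ε) = E ⟨t, ht⟩ := Subtype.ext htz.symm
    change l z = _ at h2
    rw [h2, h3]
    have := hq.lift_comp g hfac
    exact congrArg (fun f => f ⟨t, ht⟩) this
  rw [h1, hu, ← htz]

lemma planar_aux (c : ℂ) (R : ℝ) (hR : 0 < R) (S : Finset ℂ) : ∀ φ : ℂ → ℂ,
    (∀ s ∈ S, s ∈ ball c R) → ContinuousOn φ (closedBall c R \ S) →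
    (∀ z ∈ closedBall c R \ (S : Set ℂ), φ z ≠ 0) →
    (∀ s ∈ S, ∃ ε₀ > 0, ∀ ε, 0 < ε → ε ≤ ε₀ → ClosedLog (fun t => φ (cpt s ε t))) →
    ClosedLog (fun t => φ (cpt c R t)) := by
  classical
  induction S using Finset.induction_on with
  | empty =>
    intro φ _ hφ hne _
    refine closedLog_disc hR ?_ ?_
    · simpa using hφ
    · simpa using hne
  | insert s S hsS ih =>
    intro φ hS hφ hne hlog
    obtain ⟨ε₀, hε₀, hlog₀⟩ := hlog s (Finset.mem_insert_self _ _)
    -- choose a small radius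
    have hopen : IsOpen (ball c R \ (S : Set ℂ)) :=
      isOpen_ball.sdiff S.finite_toSet.isClosed
    have hsmem : s ∈ ball c R \ (S : Set ℂ) := ⟨hS s (Finset.mem_insert_self _ _), by simpa using hsS⟩
    obtain ⟨ε₁, hε₁, hsub⟩ := Metric.isOpen_iff.mp hopen s hsmem
    set ε := min ε₀ (ε₁ / 2) with hε
    have hεpos : 0 < ε := lt_min hε₀ (by positivity)
    have hcb : closedBall s ε ⊆ ball c R \ (S : Set ℂ) := by
      refine (closedBall_subset_ball ?_).trans hsub
      exact lt_of_le_of_lt (min_le_right _ _) (by linarith)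
    obtain ⟨l, hl, hlφ⟩ := circle_log_ext hεpos (hlog₀ ε hεpos (min_le_left _ _))
    set Φ : ℂ → ℂ := fun z => if dist z s ≤ ε then Complex.exp (l z) else φ z with hΦ
    have hΦout : ∀ z, ε < dist z s → Φ z = φ z := by
      intro z hz
      simp only [hΦ]
      rw [if_neg (not_le.mpr hz)]
    have h1 : ClosedLog (fun t => Φ (cpt c R t)) := by
      refine ih Φ (fun s' hs' => hS s' (Finset.mem_insert_of_mem hs')) ?_ ?_ ?_
      · refine ContinuousOn.if ?_ ?_ ?_
        · intro a ha
          have ha2 : a ∈ sphere s ε := by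
            have : {z : ℂ | dist z s ≤ ε} = closedBall s ε := rfl
            have h2 := ha.2
            rw [this] at h2
            exact frontier_closedBall_subset_sphere h2
          exact hlφ a ha2
        · exact (Complex.continuous_exp.comp hl).continuousOn
        · refine hφ.mono ?_
          rintro z ⟨hz1, hz2⟩
          refine ⟨hz1.1, ?_⟩
          have hz3 : ε ≤ dist z s := by
            have hcl : IsClosed {z : ℂ | ε ≤ dist z s} :=
              isClosed_le continuous_const (by fun_prop)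
            have hsub2 : {z : ℂ | ¬ dist z s ≤ ε} ⊆ {z : ℂ | ε ≤ dist z s} := by
              intro w hw
              exact (not_le.mp hw).le
            exact closure_minimal hsub2 hcl hz2
          intro hcon
          rw [Finset.coe_insert, mem_insert_iff] at hcon
          rcases hcon with rfl | hcon
          · rw [dist_self] at hz3
            linarith
          · exact hz1.2 hcon
      · intro z hz
        by_cases hd : dist z s ≤ ε
        · simp only [hΦ]
          rw [if_pos hd]
          exact Complex.exp_ne_zero _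
        · rw [hΦout z (not_le.mp hd)]
          refine hne z ⟨hz.1, ?_⟩
          intro hcon
          rw [Finset.coe_insert, mem_insert_iff] at hcon
          rcases hcon with rfl | hcon
          · rw [dist_self] at hd
            exact hd hεpos.le
          · exact hz.2 hcon
      · intro s' hs'
        obtain ⟨ε₂, hε₂, hlog₂⟩ := hlog s' (Finset.mem_insert_of_mem hs')
        have hds : ε < dist s' s := by
          by_contra hcon
          exact (hcb (mem_closedBall.mpr (not_lt.mp hcon))).2 (by simpa using hs')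
        refine ⟨min ε₂ ((dist s' s - ε) / 2), lt_min hε₂ (by linarith), ?_⟩
        intro δ hδ hδ2
        have h2 := hlog₂ δ hδ (hδ2.trans (min_le_left _ _))
        have h3 : (fun t => Φ (cpt s' δ t)) = fun t => φ (cpt s' δ t) := by
          funext t
          apply hΦout
          have h4 : dist (cpt s' δ t) s' = δ := by rw [dist_cpt, abs_of_pos hδ]
          have h5 := dist_triangle s' (cpt s' δ t) s
          rw [dist_comm s' (cpt s' δ t)] at h5
          have h6 : δ ≤ (dist s' s - ε) / 2 := hδ2.trans (min_le_right _ _)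
          linarith
        rw [h3]
        exact h2
    have h2 : (fun t => Φ (cpt c R t)) = fun t => φ (cpt c R t) := by
      funext t
      apply hΦout
      by_contra hcon
      have h3 := (hcb (mem_closedBall.mpr (not_lt.mp hcon))).1
      rw [mem_ball, dist_cpt, abs_of_pos hR] at h3
      exact lt_irrefl _ h3
    rw [h2] at h1
    exact h1

theorem planar_log {S : Finset ℂ} {c : ℂ} {R : ℝ} (hR : 0 < R)
    (hS : ∀ s ∈ S, s ∈ Metric.ball c R)
    {φ : ℂ → ℂ} (hφ : ContinuousOn φ (Metric.closedBall c R \ S))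
    (hne : ∀ z ∈ Metric.closedBall c R \ (S : Set ℂ), φ z ≠ 0)
    (hz : ∀ s ∈ S, ∃ ε > 0, Metric.closedBall s ε ⊆ Metric.ball c R ∧
      (∀ s' ∈ S, s' ∈ Metric.closedBall s ε → s' = s) ∧
      ∃ h : ℝ → ℂ, Continuous h ∧ h 1 = h 0 ∧
        ∀ t, Complex.exp (h t) = φ (s + ε * Complex.exp (2 * Real.pi * Complex.I * t))) :
    ∃ h : ℝ → ℂ, Continuous h ∧ h 1 = h 0 ∧
      ∀ t, Complex.exp (h t) = φ (c + R * Complex.exp (2 * Real.pi * Complex.I * t)) := by
  refine planar_aux c R hR S φ hS hφ hne ?_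
  intro s hs
  obtain ⟨ε, hε, hsub, huniq, h⟩ := hz s hs
  refine ⟨ε, hε, fun δ hδ hδε => ?_⟩
  have hsub2 : closedBall s ε \ {s} ⊆ closedBall c R \ (S : Set ℂ) := by
    rintro z ⟨hz1, hz2⟩
    refine ⟨ball_subset_closedBall (hsub hz1), fun hcon => hz2 ?_⟩
    exact huniq z (by simpa using hcon) hz1
  exact closedLog_shrink (hφ.mono hsub2) (fun z hz => hne z (hsub2 hz)) h hδ hδε

end Pool.Agent.Lib.MP_7b99f3_ag
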