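import Pool.Agent.Lib.MP_7b99f3_ag.Conn
import Pool.Agent.Lib.MP_7b99f3_ag.Planar

/-!
Winding numbers of symmetric nonvanishing functions on configurations.
-/

namespace Pool.Agent.Lib.MP_7b99f3_ag

open Topology

theorem wind_zpow {u : ℝ → ℂ} (hu : Continuous u) (hu0 : ∀ t, u t ≠ 0) (hu1 : u 0 = u 1)
    (m : ℤ) : wind (fun t => (u t) ^ m) = m * wind u := by
  obtain ⟨l, hl, hle⟩ := exists_log hu hu0
  refine wind_eq (l := fun t => m * l t) (continuous_const.mul hl)
    (fun t => by rw [Complex.exp_int_mul, hle]) ?_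
  have h1 := wind_spec hl hle hu1
  push_cast
  linear_combination (m : ℂ) * h1

theorem wind_zero : wind (fun _ => 0) = 0 := by
  unfold wind
  rw [dif_neg]
  rintro ⟨_, l, _, h, _⟩
  exact Complex.exp_ne_zero _ (h 0)

/-- unit circle -/
noncomputable def ec (t : ℝ) : ℂ := Complex.exp (2 * Real.pi * Complex.I * t)

theorem continuous_ec : Continuous ec := by unfold ec; fun_prop

theorem norm_ec (t : ℝ) : ‖ec t‖ = 1 := by
  unfold ec
  rw [Complex.norm_exp]
  simp

theorem ec_zero : ec 0 = 1 := by simp [ec]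

theorem ec_one : ec 1 = 1 := by
  unfold ec
  rw [Complex.ofReal_one, mul_one, Complex.exp_two_pi_mul_I]

theorem ec_ne_zero (t : ℝ) : ec t ≠ 0 := Complex.exp_ne_zero _

theorem wind_circle_out {c : ℂ} {ε : ℝ} (hε : 0 ≤ ε) (h : ε < ‖c‖) :
    wind (fun t => c + ε * ec t) = 0 := by
  have hc : c ≠ 0 := norm_pos_iff.mp (hε.trans_lt h)
  have hq : ∀ t, ‖-(ε * ec t / c)‖ < 1 := by
    intro t
    rw [norm_neg, norm_div, norm_mul, norm_ec, Complex.norm_real, Real.norm_eq_abs,
      abs_of_nonneg hε, mul_one, div_lt_one (norm_pos_iff.mpr hc)]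
    exact h
  refine wind_eq (l := fun t => Complex.log c + Complex.log (1 - -(ε * ec t / c))) ?_
    (fun t => ?_) ?_
  · refine continuous_const.add (Continuous.clog ?_ fun t => one_sub_mem_slitPlane (hq t))
    have := continuous_ec
    fun_prop
  · rw [Complex.exp_add, Complex.exp_log hc,
      Complex.exp_log (Complex.slitPlane_ne_zero (one_sub_mem_slitPlane (hq t)))]
    field_simp
    ring
  · simp [ec_zero, ec_one]

theorem wind_circle_in {c : ℂ} {ε : ℝ} (h : ‖c‖ < ε) :
    wind (fun t => c + ε * ec t) = 1 := by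
  have hε : 0 < ε := (norm_nonneg _).trans_lt h
  have hεc : (ε : ℂ) ≠ 0 := by exact_mod_cast hε.ne'
  have hq : ∀ t, ‖-(c / (ε * ec t))‖ < 1 := by
    intro t
    rw [norm_neg, norm_div, norm_mul, norm_ec, Complex.norm_real, Real.norm_eq_abs,
      abs_of_pos hε, mul_one, div_lt_one hε]
    exact h
  refine wind_eq (l := fun t => Complex.log ε + 2 * Real.pi * Complex.I * t +
    Complex.log (1 - -(c / (ε * ec t)))) ?_ (fun t => ?_) ?_
  · refine Continuous.add (by fun_prop) (Continuous.clog ?_ fun t => one_sub_mem_slitPlane (hq t))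
    refine continuous_const.sub (Continuous.neg (Continuous.div continuous_const ?_ ?_))
    · have := continuous_ec
      fun_prop
    · exact fun t => mul_ne_zero hεc (ec_ne_zero t)
  · rw [Complex.exp_add, Complex.exp_add, Complex.exp_log hεc,
      Complex.exp_log (Complex.slitPlane_ne_zero (one_sub_mem_slitPlane (hq t)))]
    have h1 : Complex.exp (2 * Real.pi * Complex.I * t) = ec t := rfl
    have h2 := ec_ne_zero t
    rw [h1]
    field_simp
    ring
  · simp [ec_zero, ec_one]

/-- The winding number around a circle is the sum of the winding numbers around the punctures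
inside. -/
theorem wind_planar' {S : Finset ℂ} {c : ℂ} {R : ℝ} (hR : 0 < R)
    (hS : ∀ s ∈ S, s ∈ Metric.ball c R)
    {φ : ℂ → ℂ} (hφ : ContinuousOn φ (Metric.closedBall c R \ S))
    (hne : ∀ z ∈ Metric.closedBall c R \ (S : Set ℂ), φ z ≠ 0) (ν : ℂ → ℤ)
    (hz : ∀ s ∈ S, ∃ ε > 0, Metric.closedBall s ε ⊆ Metric.ball c R ∧
      (∀ s' ∈ S, s' ∈ Metric.closedBall s ε → s' = s) ∧
      wind (fun t => φ (s + ε * ec t)) = ν s) :
    wind (fun t => φ (c + R * ec t)) = ∑ s ∈ S, ν s := by
  set q : ℂ → ℂ := fun z => ∏ s ∈ S, (z - s) ^ (ν s) with hq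
  have hqne : ∀ z, z ∉ (S : Set ℂ) → q z ≠ 0 := by
    intro z hz
    rw [hq]
    refine Finset.prod_ne_zero_iff.mpr fun s hs => zpow_ne_zero _ (sub_ne_zero.mpr ?_)
    rintro rfl
    exact hz hs
  have hqc : ContinuousOn q (Metric.closedBall c R \ S) := by
    refine continuousOn_finsetProd _ fun s hs => ContinuousOn.zpow₀ (by fun_prop) _ ?_
    intro z hz
    left
    refine sub_ne_zero.mpr ?_
    rintro rfl
    exact hz.2 hs
  set ψ : ℂ → ℂ := fun z => φ z * (q z)⁻¹ with hψ
  have hψc : ContinuousOn ψ (Metric.closedBall c R \ S) :=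
    hφ.mul (hqc.inv₀ fun z hz => hqne z hz.2)
  have hψne : ∀ z ∈ Metric.closedBall c R \ (S : Set ℂ), ψ z ≠ 0 := fun z hz =>
    mul_ne_zero (hne z hz) (inv_ne_zero (hqne z hz.2))
  have hcirc : ∀ {s : ℂ} {ε : ℝ}, 0 < ε → Metric.closedBall s ε ⊆ Metric.closedBall c R →
      (∀ s' ∈ S, dist s' s ≠ ε) → ∀ t, s + ε * ec t ∈ Metric.closedBall c R \ (S : Set ℂ) := by
    intro s ε hε hsub hS' t
    have hd : dist (s + ε * ec t) s = ε := by
      rw [dist_eq_norm, add_sub_cancel_left, norm_mul, norm_ec, Complex.norm_real,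
        Real.norm_eq_abs, abs_of_pos hε, mul_one]
    exact ⟨hsub (by rw [Metric.mem_closedBall, hd]), fun h => hS' _ h hd⟩
  have hcont : ∀ {s : ℂ} {ε : ℝ}, Continuous fun t => s + ε * ec t := by
    intro s ε
    have := continuous_ec
    fun_prop
  -- winding of q along a circle
  have hqw : ∀ {s : ℂ} {ε : ℝ}, 0 < ε → (∀ s' ∈ S, dist s' s ≠ ε) →
      wind (fun t => q (s + ε * ec t)) = ∑ s' ∈ S, ν s' * (if dist s' s < ε then 1 else 0) := by
    intro s ε hε hS'
    have hne0 : ∀ s' ∈ S, ∀ t, s + ε * ec t - s' ≠ 0 := by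
      intro s' hs' t h0
      have : s' = s + ε * ec t := (sub_eq_zero.mp h0).symm
      apply hS' s' hs'
      rw [this, dist_eq_norm, add_sub_cancel_left, norm_mul, norm_ec, Complex.norm_real,
        Real.norm_eq_abs, abs_of_pos hε, mul_one]
    have hc1 : ∀ s' ∈ S, Continuous fun t => s + ε * ec t - s' := fun s' _ =>
      hcont.sub continuous_const
    have hcl : ∀ s' ∈ S, s + ε * ec 0 - s' = s + ε * ec 1 - s' := fun s' _ => by
      rw [ec_zero, ec_one]
    simp only [hq]
    rw [wind_prod (u := fun s' t => (s + ε * ec t - s') ^ ν s') S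
      (fun s' hs' => (hc1 s' hs').zpow₀ _ fun t => Or.inl (hne0 s' hs' t))
      (fun s' hs' t => zpow_ne_zero _ (hne0 s' hs' t))
      (fun s' hs' => by rw [hcl s' hs'])]
    refine Finset.sum_congr rfl fun s' hs' => ?_
    rw [wind_zpow (hc1 s' hs') (hne0 s' hs') (hcl s' hs')]
    congr 1
    have e : (fun t => s + ε * ec t - s') = fun t => (s - s') + ε * ec t := by
      funext t; ring
    rw [e]
    split_ifs with h
    · exact wind_circle_in (by rwa [dist_comm, dist_eq_norm] at h)
    · refine wind_circle_out hε.le ?_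
      have h1 := lt_of_le_of_ne (not_lt.mp h) (hS' s' hs').symm
      rwa [dist_comm, dist_eq_norm] at h1
  have hψw : ∀ {s : ℂ} {ε : ℝ}, 0 < ε → Metric.closedBall s ε ⊆ Metric.closedBall c R →
      (∀ s' ∈ S, dist s' s ≠ ε) → wind (fun t => ψ (s + ε * ec t)) =
        wind (fun t => φ (s + ε * ec t)) -
          ∑ s' ∈ S, ν s' * (if dist s' s < ε then 1 else 0) := by
    intro s ε hε hsub hS'
    have hm := hcirc hε hsub hS'
    have hq0 : ∀ t, q (s + ε * ec t) ≠ 0 := fun t => hqne _ (hm t).2
    have hqc' : Continuous fun t => q (s + ε * ec t) := hqc.comp_continuous hcont hm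
    have hφc' : Continuous fun t => φ (s + ε * ec t) := hφ.comp_continuous hcont hm
    simp only [hψ]
    rw [wind_mul (u := fun t => φ (s + ε * ec t)) (v := fun t => (q (s + ε * ec t))⁻¹) hφc'
      (hqc'.inv₀ hq0) (fun t => hne _ (hm t))
      (fun t => inv_ne_zero (hq0 t)) (by rw [ec_zero, ec_one]) (by rw [ec_zero, ec_one]),
      wind_inv hqc' hq0 (by rw [ec_zero, ec_one]), hqw hε hS']
    ring
  have houter : ∀ s' ∈ S, dist s' c ≠ R := fun s' hs' => (Metric.mem_ball.mp (hS s' hs')).ne
  have hlog := planar_log hR hS hψc hψne (fun s hs => by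
    obtain ⟨ε, hε, hsub, huniq, hw⟩ := hz s hs
    refine ⟨ε, hε, hsub, huniq, ?_⟩
    have hS' : ∀ s' ∈ S, dist s' s ≠ ε := by
      intro s' hs' hd
      have := huniq s' hs' (by rw [Metric.mem_closedBall, hd])
      rw [this, dist_self] at hd
      exact hε.ne hd
    have hsub' := hsub.trans Metric.ball_subset_closedBall
    have hm := hcirc hε hsub' hS'
    obtain ⟨l, hl, hle⟩ := exists_log (u := fun t => ψ (s + ε * ec t))
      (hψc.comp_continuous hcont hm) (fun t => hψne _ (hm t))
    refine ⟨l, hl, ?_, hle⟩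
    have h1 := wind_spec (u := fun t => ψ (s + ε * ec t)) hl hle (by rw [ec_zero, ec_one])
    have h2 := hψw hε hsub' hS'
    rw [hw] at h2
    have h3 : ∑ s' ∈ S, ν s' * (if dist s' s < ε then 1 else 0) = ν s := by
      rw [Finset.sum_eq_single s]
      · simp [hε]
      · intro s' hs' hne'
        rw [if_neg, mul_zero]
        intro hlt
        exact hne' (huniq s' hs' (Metric.mem_closedBall.mpr hlt.le))
      · intro h; exact absurd hs h
    rw [h3, sub_self] at h2
    rw [h2] at h1
    simpa [sub_eq_zero] using h1)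
  obtain ⟨h, hc, h1, he⟩ := hlog
  have h2 : wind (fun t => ψ (c + R * ec t)) = 0 := wind_eq hc he (by rw [h1]; simp)
  rw [hψw hR subset_rfl houter] at h2
  rw [sub_eq_zero.mp h2]
  refine Finset.sum_congr rfl fun s hs => ?_
  rw [if_pos (Metric.mem_ball.mp (hS s hs)), mul_one]

section conf

variable {j : ℕ}

/-- two configurations are joined by a path of configurations -/
theorem conf_path {x x' : Fin j → ℂ} (hx : Function.Injective x) (hx' : Function.Injective x') :
    ∃ X : ℝ → Fin j → ℂ, Continuous X ∧ (∀ t, Function.Injective (X t)) ∧ X 0 = x ∧ X 1 = x' := by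
  set B : Set ℂ := {z | ∃ t : Fin j × Fin j, t.1 ≠ t.2 ∧
    (1 - z) * (x t.1 - x t.2) + z * (x' t.1 - x' t.2) = 0} with hB
  have hBc : B.Countable := by
    have h1 : B ⊆ ⋃ t : Fin j × Fin j, {z : ℂ | t.1 ≠ t.2 ∧
        (1 - z) * (x t.1 - x t.2) + z * (x' t.1 - x' t.2) = 0} := by
      rintro s ⟨t, ht⟩
      exact Set.mem_iUnion.mpr ⟨t, ht⟩
    refine Set.Countable.mono h1 (Set.countable_iUnion fun t => Set.Subsingleton.countable ?_)
    rintro z ⟨ht, hz⟩ z' ⟨_, hz'⟩
    by_contra hne
    have h2 : (z - z') * ((x' t.1 - x' t.2) - (x t.1 - x t.2)) = 0 := by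
      linear_combination hz - hz'
    rcases mul_eq_zero.mp h2 with h3 | h3
    · exact hne (sub_eq_zero.mp h3)
    · have h4 : x t.1 - x t.2 = 0 := by linear_combination hz - z * h3
      exact ht (hx (sub_eq_zero.mp h4))
  have h0 : (0 : ℂ) ∈ Bᶜ := by
    rintro ⟨t, ht, hz⟩
    simp only [sub_zero, one_mul, zero_mul, add_zero] at hz
    exact ht (hx (sub_eq_zero.mp hz))
  have h1 : (1 : ℂ) ∈ Bᶜ := by
    rintro ⟨t, ht, hz⟩
    simp only [sub_self, one_mul, zero_mul, zero_add] at hz
    exact ht (hx' (sub_eq_zero.mp hz))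
  have hpc : IsPathConnected Bᶜ := hBc.isPathConnected_compl_of_one_lt_rank (by
    rw [Complex.rank_real_complex]; exact Nat.one_lt_ofNat)
  obtain ⟨γ, hγ⟩ := hpc.joinedIn 0 h0 1 h1
  refine ⟨fun t i => (1 - γ.extend t) * x i + γ.extend t * x' i, ?_, fun t => ?_, ?_, ?_⟩
  · have := γ.continuous_extend
    fun_prop
  · intro a b hab
    by_contra hne
    have hmem : γ.extend t ∈ Bᶜ := by
      have : γ.extend t ∈ Set.range γ := by
        rw [← γ.extend_range]; exact Set.mem_range_self t
      obtain ⟨s, hs⟩ := this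
      rw [← hs]; exact hγ s
    apply hmem
    refine ⟨(a, b), hne, ?_⟩
    simp only at hab ⊢
    linear_combination hab
  · funext i; simp [γ.extend_zero]
  · funext i; simp [γ.extend_one]

/-- a positive number smaller than all mutual distances -/
noncomputable def dl (x : Fin j → ℂ) : ℝ :=
  (1 + ∑ a, ∑ b, if a = b then 0 else ‖x a - x b‖⁻¹)⁻¹

theorem dl_pos (x : Fin j → ℂ) : 0 < dl x := by
  unfold dl
  refine inv_pos.mpr (add_pos_of_pos_of_nonneg one_pos ?_)
  refine Finset.sum_nonneg fun a _ => Finset.sum_nonneg fun b _ => ?_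
  split_ifs <;> positivity

theorem dl_lt {x : Fin j → ℂ} (hx : Function.Injective x) {a b : Fin j} (hab : a ≠ b) :
    dl x < ‖x a - x b‖ := by
  have h0 : 0 < ‖x a - x b‖ := norm_pos_iff.mpr (sub_ne_zero.mpr fun e => hab (hx e))
  unfold dl
  rw [inv_lt_comm₀ _ h0]
  · have h1 : ‖x a - x b‖⁻¹ ≤ ∑ a, ∑ b, if a = b then 0 else ‖x a - x b‖⁻¹ := by
      calc ‖x a - x b‖⁻¹ = if a = b then 0 else ‖x a - x b‖⁻¹ := by rw [if_neg hab]
        _ ≤ ∑ b, if a = b then 0 else ‖x a - x b‖⁻¹ :=
            Finset.single_le_sum (f := fun b => if a = b then 0 else ‖x a - x b‖⁻¹)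
              (fun c _ => by split_ifs <;> positivity) (Finset.mem_univ b)
        _ ≤ _ := Finset.single_le_sum
              (f := fun a => ∑ b, if a = b then 0 else ‖x a - x b‖⁻¹)
              (fun c _ => Finset.sum_nonneg fun b _ => by split_ifs <;> positivity)
              (Finset.mem_univ a)
    linarith
  · refine add_pos_of_pos_of_nonneg one_pos ?_
    refine Finset.sum_nonneg fun a _ => Finset.sum_nonneg fun b _ => ?_
    split_ifs <;> positivity

theorem continuous_dl {A : Type*} [TopologicalSpace A] {X : A → Fin j → ℂ} (hX : Continuous X)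
    (hinj : ∀ a, Function.Injective (X a)) : Continuous fun a => dl (X a) := by
  unfold dl
  refine Continuous.inv₀ ?_ fun a => ?_
  · refine continuous_const.add (continuous_finsetSum _ fun a _ => continuous_finsetSum _ fun b _ => ?_)
    by_cases hab : a = b
    · simp only [hab, if_true]; exact continuous_const
    · simp only [hab, if_false]
      refine Continuous.inv₀ (by fun_prop) fun s => ?_
      exact norm_ne_zero_iff.mpr (sub_ne_zero.mpr fun e => hab (hinj s e))
  · refine (add_pos_of_pos_of_nonneg one_pos ?_).ne'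
    refine Finset.sum_nonneg fun a _ => Finset.sum_nonneg fun b _ => ?_
    split_ifs <;> positivity

/-- hypotheses on a symmetric nonvanishing function -/
structure SymFun (U : (Fin j → ℂ) → ℂ) : Prop where
  cont : ContinuousOn U {x | Function.Injective x}
  ne : ∀ x, Function.Injective x → U x ≠ 0
  symm : ∀ x, Function.Injective x → ∀ σ : Equiv.Perm (Fin j), U (x ∘ σ) = U x

/-- the point `i` on a circle around the point `l` -/
noncomputable def pl (x : Fin j → ℂ) (i l : Fin j) (ε t : ℝ) : Fin j → ℂ :=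
  Function.update x i (x l + ε * ec t)

/-- admissible radii -/
def Val (x : Fin j → ℂ) (i l : Fin j) (ε : ℝ) : Prop :=
  0 < ε ∧ ∀ a, a ≠ i → a ≠ l → ε < ‖x a - x l‖

theorem update_injective {x : Fin j → ℂ} (hx : Function.Injective x) {i : Fin j} {z : ℂ}
    (hz : ∀ a, a ≠ i → x a ≠ z) : Function.Injective (Function.update x i z) := by
  intro a b hab
  by_cases ha : a = i <;> by_cases hb : b = i
  · rw [ha, hb]
  · subst ha
    rw [Function.update_self, Function.update_of_ne hb] at hab
    exact absurd hab.symm (hz b hb)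
  · subst hb
    rw [Function.update_self, Function.update_of_ne ha] at hab
    exact absurd hab (hz a ha)
  · rw [Function.update_of_ne ha, Function.update_of_ne hb] at hab
    exact hx hab

theorem norm_eps_ec {ε : ℝ} (hε : 0 < ε) (t : ℝ) : ‖(ε : ℂ) * ec t‖ = ε := by
  rw [norm_mul, norm_ec, Complex.norm_real, Real.norm_eq_abs, abs_of_pos hε, mul_one]

theorem pl_injective {x : Fin j → ℂ} (hx : Function.Injective x) {i l : Fin j} {ε : ℝ}
    (hv : Val x i l ε) (t : ℝ) : Function.Injective (pl x i l ε t) := by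
  refine update_injective hx fun a ha h => ?_
  by_cases hal : a = l
  · subst hal
    have h1 : (ε : ℂ) * ec t = 0 := by linear_combination -h
    have h2 := norm_eps_ec hv.1 t
    rw [h1, norm_zero] at h2
    exact hv.1.ne h2
  · have h1 : x a - x l = ε * ec t := by linear_combination h
    have h2 := hv.2 a ha hal
    rw [h1, norm_eps_ec hv.1] at h2
    exact lt_irrefl _ h2

theorem continuous_pl {A : Type*} [TopologicalSpace A] {X : A → Fin j → ℂ} {ε t : A → ℝ}
    (hX : Continuous X) (hε : Continuous ε) (ht : Continuous t) (i l : Fin j) :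
    Continuous fun a => pl (X a) i l (ε a) (t a) := by
  unfold pl
  refine Continuous.update hX i ?_
  exact ((continuous_apply l).comp hX).add
    ((Complex.continuous_ofReal.comp hε).mul (continuous_ec.comp ht))

variable {U : (Fin j → ℂ) → ℂ}

theorem pl_homotopy (hU : SymFun U) {X : ℝ → Fin j → ℂ} {ε : ℝ → ℝ} (hX : Continuous X)
    (hε : Continuous ε) (hinj : ∀ s, Function.Injective (X s)) {i l : Fin j}
    (hv : ∀ s, Val (X s) i l (ε s)) (s s' : ℝ) :
    wind (fun t => U (pl (X s) i l (ε s) t)) = wind (fun t => U (pl (X s') i l (ε s') t)) := by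
  refine wind_homotopy (A := ℝ) (u := fun s t => U (pl (X s) i l (ε s) t)) ?_ ?_ ?_ s s'
  · exact hU.cont.comp_continuous (f := fun q : ℝ × ℝ => pl (X q.1) i l (ε q.1) q.2)
      (continuous_pl (hX.comp continuous_fst) (hε.comp continuous_fst) continuous_snd i l)
      (fun q => pl_injective (hinj q.1) (hv q.1) q.2)
  · exact fun s t => hU.ne _ (pl_injective (hinj s) (hv s) t)
  · intro s
    simp only [pl, ec_zero, ec_one]

theorem pl_eps (hU : SymFun U) {x : Fin j → ℂ} (hx : Function.Injective x) {i l : Fin j}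
    {ε ε' : ℝ} (hv : Val x i l ε) (hv' : Val x i l ε') :
    wind (fun t => U (pl x i l ε t)) = wind (fun t => U (pl x i l ε' t)) := by
  have hc := continuous_clamp
  have := pl_homotopy hU (X := fun _ => x) (ε := fun s => (1 - clamp s) * ε + clamp s * ε')
    continuous_const (by fun_prop) (fun _ => hx) (i := i) (l := l) (fun s => ?_) 0 1
  · simpa [clamp_zero, clamp_one] using this
  · have h1 := clamp_nonneg s
    have h2 := clamp_le_one s
    have key : ∀ b : ℝ, (ε < b) → (ε' < b) → (1 - clamp s) * ε + clamp s * ε' < b := by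
      intro b hb hb'
      rcases h1.eq_or_lt with h3 | h3
      · rw [← h3]; simpa using hb
      · nlinarith
    refine ⟨?_, fun a hai hal => key _ (hv.2 a hai hal) (hv'.2 a hai hal)⟩
    have h3 := hv.1
    have h4 := hv'.1
    rcases h1.eq_or_lt with h5 | h5
    · rw [← h5]; simpa using h3
    · have : 0 < clamp s * ε' := by positivity
      nlinarith

theorem val_dl {x : Fin j → ℂ} (hx : Function.Injective x) (i l : Fin j) : Val x i l (dl x) :=
  ⟨dl_pos x, fun _ _ hal => dl_lt hx hal⟩

theorem pl_const (hU : SymFun U) {x x' : Fin j → ℂ} (hx : Function.Injective x)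
    (hx' : Function.Injective x') {i l : Fin j} {ε ε' : ℝ} (hv : Val x i l ε)
    (hv' : Val x' i l ε') :
    wind (fun t => U (pl x i l ε t)) = wind (fun t => U (pl x' i l ε' t)) := by
  rw [pl_eps hU hx hv (val_dl hx i l), pl_eps hU hx' hv' (val_dl hx' i l)]
  obtain ⟨X, h1, h2, rfl, rfl⟩ := conf_path hx hx'
  exact pl_homotopy hU h1 (continuous_dl h1 h2) h2 (fun s => val_dl (h2 s) i l) 0 1

theorem exists_perm_two {i l i' l' : Fin j} (h : i ≠ l) (h' : i' ≠ l') :
    ∃ σ : Equiv.Perm (Fin j), σ i = i' ∧ σ l = l' := by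
  set l₁ := Equiv.swap i i' l with hl₁
  have h1 : l₁ ≠ i' := by
    intro e
    have : Equiv.swap i i' l = Equiv.swap i i' i := by rw [← hl₁, e, Equiv.swap_apply_left]
    exact h ((Equiv.swap i i').injective this).symm
  refine ⟨(Equiv.swap i i').trans (Equiv.swap l₁ l'), ?_, ?_⟩
  · rw [Equiv.trans_apply, Equiv.swap_apply_left, Equiv.swap_apply_of_ne_of_ne h1.symm h']
  · rw [Equiv.trans_apply, ← hl₁, Equiv.swap_apply_left]

theorem pl_all (hU : SymFun U) {x x' : Fin j → ℂ} (hx : Function.Injective x)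
    (hx' : Function.Injective x') {i l i' l' : Fin j} (h : i ≠ l) (h' : i' ≠ l') {ε ε' : ℝ}
    (hv : Val x i l ε) (hv' : Val x' i' l' ε') :
    wind (fun t => U (pl x i l ε t)) = wind (fun t => U (pl x' i' l' ε' t)) := by
  obtain ⟨σ, rfl, rfl⟩ := exists_perm_two h h'
  have h1 : ∀ t, pl x' (σ i) (σ l) ε' t ∘ σ = pl (x' ∘ σ) i l ε' t := by
    intro t
    unfold pl
    rw [Function.update_comp_eq_of_injective _ σ.injective]
    rfl
  have h2 : ∀ t, U (pl x' (σ i) (σ l) ε' t) = U (pl (x' ∘ σ) i l ε' t) := by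
    intro t
    rw [← h1, hU.symm _ (pl_injective hx' hv' t)]
  simp only [h2]
  refine pl_const hU hx (hx'.comp σ.injective) hv ⟨hv'.1, fun a ha hal => ?_⟩
  exact hv'.2 (σ a) (fun e => ha (σ.injective e)) (fun e => hal (σ.injective e))

/-- the winding number when the point `i` moves along a circle -/
theorem wind_outer (hU : SymFun U) {x₀ : Fin j → ℂ} (hx₀ : Function.Injective x₀)
    {i₀ l₀ : Fin j} (hil₀ : i₀ ≠ l₀) {x : Fin j → ℂ} (hx : Function.Injective x) (i : Fin j)
    {c : ℂ} {R : ℝ} (hR : 0 < R) (hout : ∀ l, l ≠ i → ‖x l - c‖ ≠ R) :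
    wind (fun t => U (Function.update x i (c + R * ec t))) =
      wind (fun t => U (pl x₀ i₀ l₀ (dl x₀) t)) *
        ((Finset.univ.filter fun l => l ≠ i ∧ ‖x l - c‖ < R).card : ℤ) := by
  classical
  set T := Finset.univ.filter fun l => l ≠ i ∧ ‖x l - c‖ < R with hT
  set S := T.image x with hS
  set ν := wind (fun t => U (pl x₀ i₀ l₀ (dl x₀) t)) with hν
  have hinj : ∀ z ∈ Metric.closedBall c R \ (S : Set ℂ),
      Function.Injective (Function.update x i z) := by
    intro z hz
    refine update_injective hx fun a ha h => ?_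
    subst h
    have h1 : ‖x a - c‖ ≤ R := by
      rw [← dist_eq_norm]; exact Metric.mem_closedBall.mp hz.1
    have h2 := lt_of_le_of_ne h1 (hout a ha)
    apply hz.2
    rw [hS, Finset.coe_image]
    exact ⟨a, by simp [hT, ha, h2], rfl⟩
  have hcard : ∑ s ∈ S, ν = ν * (T.card : ℤ) := by
    rw [Finset.sum_const, hS, Finset.card_image_of_injective _ hx, nsmul_eq_mul, mul_comm]
  rw [← hcard]
  refine wind_planar' hR ?_ (φ := fun z => U (Function.update x i z)) ?_ ?_ (fun _ => ν) ?_
  · intro s hs
    rw [hS, Finset.mem_image] at hs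
    obtain ⟨l, hl, rfl⟩ := hs
    rw [Metric.mem_ball, dist_eq_norm]
    simp only [hT, Finset.mem_filter, Finset.mem_univ, true_and] at hl
    exact hl.2
  · refine hU.cont.comp ?_ fun z hz => hinj z hz
    exact (Continuous.update (f := fun _ : ℂ => x) continuous_const i continuous_id).continuousOn
  · exact fun z hz => hU.ne _ (hinj z hz)
  · intro s hs
    rw [hS, Finset.mem_image] at hs
    obtain ⟨l, hl, rfl⟩ := hs
    simp only [hT, Finset.mem_filter, Finset.mem_univ, true_and] at hl
    set ε := min (dl x) ((R - ‖x l - c‖) / 2) with hε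
    have hε0 : 0 < ε := lt_min (dl_pos x) (by linarith)
    have hval : Val x i l ε := ⟨hε0, fun a ha hal =>
      (min_le_left _ _).trans_lt (dl_lt hx hal)⟩
    refine ⟨ε, hε0, ?_, ?_, ?_⟩
    · intro z hz
      rw [Metric.mem_closedBall] at hz
      rw [Metric.mem_ball]
      have h1 : ε ≤ (R - ‖x l - c‖) / 2 := min_le_right _ _
      have h2 := dist_triangle z (x l) c
      rw [dist_eq_norm (x l)] at h2
      linarith
    · intro s' hs' hs''
      rw [hS, Finset.mem_image] at hs'
      obtain ⟨a, ha, rfl⟩ := hs'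
      simp only [hT, Finset.mem_filter, Finset.mem_univ, true_and] at ha
      by_contra hne
      have hal : a ≠ l := by rintro rfl; exact hne rfl
      have h1 := hval.2 a ha.1 hal
      rw [Metric.mem_closedBall, dist_eq_norm] at hs''
      linarith
    · rw [hν]
      exact pl_all hU hx hx₀ hl.1.symm hil₀ hval (val_dl hx₀ i₀ l₀)

/-- nested real configuration -/
noncomputable def xr (j : ℕ) : Fin j → ℂ := fun i => (((i : ℕ) + 1 : ℝ) : ℂ)

theorem norm_xr (i : Fin j) : ‖xr j i‖ = (i : ℕ) + 1 := by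
  unfold xr
  rw [Complex.norm_real, Real.norm_eq_abs, abs_of_pos (by positivity)]

theorem xr_injective : Function.Injective (xr j) := by
  intro a b h
  unfold xr at h
  have h1 : (((a : ℕ) : ℝ) + 1) = ((b : ℕ) : ℝ) + 1 := by exact_mod_cast h
  have h2 : ((a : ℕ) : ℝ) = (b : ℕ) := by linarith
  exact Fin.ext (by exact_mod_cast h2)

/-- torus of rotated nested configurations -/
theorem torus_injective (θ : Fin j → ℝ) : Function.Injective fun i => xr j i * ec (θ i) := by
  intro a b h
  have h1 : ‖xr j a * ec (θ a)‖ = ‖xr j b * ec (θ b)‖ := by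
    simp only at h
    rw [h]
  rw [norm_mul, norm_mul, norm_ec, norm_ec, norm_xr, norm_xr, mul_one, mul_one] at h1
  have h2 : ((a : ℕ) : ℝ) = (b : ℕ) := by linarith
  exact Fin.ext (by exact_mod_cast h2)

theorem wind_nested (hU : SymFun U) {i₀ l₀ : Fin j} (hil₀ : i₀ ≠ l₀) {m : ℕ} :
    wind (fun t : ℝ => U (rot (xr j) 0 (cl j m) (2 * Real.pi * Complex.I * t))) =
      wind (fun t => U (pl (xr j) i₀ l₀ (dl (xr j)) t)) * ∑ i ∈ cl j m, ((i : ℕ) : ℤ) := by
  set ν := wind (fun t => U (pl (xr j) i₀ l₀ (dl (xr j)) t)) with hν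
  have hc : Continuous fun θ : Fin j → ℝ => U (fun i => xr j i * ec (θ i)) := by
    refine hU.cont.comp_continuous (f := fun (θ : Fin j → ℝ) i => xr j i * ec (θ i)) ?_
      (fun θ => torus_injective θ)
    have := continuous_ec
    fun_prop
  obtain ⟨H, hH, hHe⟩ := exists_log (A := Fin j → ℝ) hc (fun θ => hU.ne _ (torus_injective θ))
  have hper : ∀ i : Fin j, ∀ θ : Fin j → ℝ,
      H (θ + Pi.single i 1) - H θ = 2 * Real.pi * Complex.I * (ν * ((i : ℕ) : ℤ) : ℤ) := by
    intro i θ
    have h1 := exp_eq_exp_const (A := Fin j → ℝ) (l := fun θ => H (θ + Pi.single i 1)) (l' := H)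
      (hH.comp (by fun_prop)) hH (fun θ => by
        rw [hHe, hHe]
        congr 1
        funext a
        by_cases ha : a = i
        · subst ha
          simp only [Pi.add_apply, Pi.single_eq_same]
          congr 1
          unfold ec
          have : (2 * Real.pi * Complex.I * ((θ a + 1 : ℝ) : ℂ)) =
            2 * Real.pi * Complex.I * θ a + 2 * Real.pi * Complex.I := by push_cast; ring
          rw [this, Complex.exp_add, Complex.exp_two_pi_mul_I, mul_one]
        · simp [Pi.single_eq_of_ne ha]) θ 0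
    simp only [zero_add] at h1
    rw [h1]
    -- along the segment
    have h2 : wind (fun t => U (Function.update (xr j) i (0 + ((i : ℕ) + 1 : ℝ) * ec t))) =
        ν * (((Finset.univ.filter fun l => l ≠ i ∧ ‖xr j l - 0‖ < ((i : ℕ) + 1 : ℝ)).card : ℤ)) :=
      wind_outer hU xr_injective hil₀ xr_injective i (by positivity) (fun l hl => by
        rw [sub_zero, norm_xr]
        intro e
        have h3 : ((l : ℕ) : ℝ) = (i : ℕ) := by linarith
        exact hl (Fin.ext (by exact_mod_cast h3)))
    have h3 : (Finset.univ.filter fun l => l ≠ i ∧ ‖xr j l - 0‖ < ((i : ℕ) + 1 : ℝ)).card =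
        (i : ℕ) := by
      have : (Finset.univ.filter fun l => l ≠ i ∧ ‖xr j l - 0‖ < ((i : ℕ) + 1 : ℝ)) =
          cl j i := by
        ext l
        rw [mem_cl]
        simp only [Finset.mem_filter, Finset.mem_univ, true_and, sub_zero, norm_xr]
        constructor
        · rintro ⟨_, h4⟩
          have : ((l : ℕ) : ℝ) < (i : ℕ) := by linarith
          exact_mod_cast this
        · intro h4
          refine ⟨fun e => ?_, ?_⟩
          · rw [e] at h4; exact lt_irrefl _ h4
          · have : ((l : ℕ) : ℝ) < (i : ℕ) := by exact_mod_cast h4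
            linarith
      rw [this, card_cl i.2.le]
    rw [h3] at h2
    have h4 := wind_spec (u := fun t => U (Function.update (xr j) i
        (0 + ((i : ℕ) + 1 : ℝ) * ec t)))
      (l := fun t => H (Pi.single i t)) (hH.comp (continuous_single (A := fun _ => ℝ) i))
      (fun t => by
        rw [hHe]
        congr 1
        funext a
        by_cases ha : a = i
        · subst ha
          simp [xr]
        · simp [Pi.single_eq_of_ne ha, Function.update_of_ne ha, ec_zero])
      (by rw [ec_zero, ec_one])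
    rw [h2] at h4
    have h5 : (Pi.single i (0 : ℝ) : Fin j → ℝ) = 0 := Pi.single_zero i
    rw [h5] at h4
    exact_mod_cast h4
  -- sum over the cluster
  have hsum : ∀ S : Finset (Fin j), H (∑ i ∈ S, Pi.single i 1) - H 0 =
      2 * Real.pi * Complex.I * ((ν * ∑ i ∈ S, ((i : ℕ) : ℤ) : ℤ) : ℂ) := by
    intro S
    classical
    induction S using Finset.induction_on with
    | empty => simp
    | insert a S ha ih =>
      rw [Finset.sum_insert ha, Finset.sum_insert ha, add_comm (Pi.single a 1)]
      have := hper a (∑ i ∈ S, Pi.single i 1)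
      push_cast at this ih ⊢
      linear_combination this + ih
  have hfin := hsum (cl j m)
  refine wind_eq (l := fun t : ℝ => H (fun i => if i ∈ cl j m then t else 0)) ?_ (fun t => ?_) ?_
  · refine hH.comp ?_
    rw [continuous_pi_iff]
    intro i
    split_ifs <;> fun_prop
  · rw [hHe]
    congr 1
    funext i
    unfold rot
    split_ifs with h
    · simp only [zero_add, sub_zero]
      unfold ec
      ring
    · simp [ec_zero]
  · have e1 : (fun i : Fin j => if i ∈ cl j m then (1 : ℝ) else 0) =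
        ∑ i ∈ cl j m, Pi.single i 1 := by
      funext a
      rw [Finset.sum_apply]
      by_cases ha : a ∈ cl j m
      · rw [if_pos ha, Finset.sum_eq_single a]
        · simp
        · intro b _ hb
          rw [Pi.single_eq_of_ne hb.symm]
        · intro h; exact absurd ha h
      · rw [if_neg ha, Finset.sum_eq_zero]
        intro b hb
        rw [Pi.single_eq_of_ne]
        rintro rfl
        exact ha hb
    have e2 : (fun i : Fin j => if i ∈ cl j m then (0 : ℝ) else 0) = 0 := by
      funext a; simp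
    rw [e1, e2]
    exact hfin

/-- Lemma U: one vanishing winding number implies that all vanish. -/
theorem lemmaU (hU : SymFun U) {m₁ m₂ : ℕ} (hm₁ : 2 ≤ m₁) (hm₁j : m₁ ≤ j)
    (h : wind (fun t : ℝ => U (rot (xr j) 0 (cl j m₁) (2 * Real.pi * Complex.I * t))) = 0) :
    wind (fun t : ℝ => U (rot (xr j) 0 (cl j m₂) (2 * Real.pi * Complex.I * t))) = 0 := by
  have hil : (⟨0, by omega⟩ : Fin j) ≠ ⟨1, by omega⟩ := by simp
  rw [wind_nested hU hil] at h ⊢
  rcases mul_eq_zero.mp h with h1 | h1
  · rw [h1, zero_mul]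
  · exfalso
    have h2 : ((1 : ℕ) : ℤ) ≤ ∑ i ∈ cl j m₁, ((i : ℕ) : ℤ) :=
      Finset.single_le_sum (f := fun i : Fin j => ((i : ℕ) : ℤ)) (fun i _ => by positivity)
        (a := (⟨1, by omega⟩ : Fin j)) (by rw [mem_cl]; simp; omega)
    rw [h1] at h2
    norm_num at h2

end conf

end Pool.Agent.Lib.MP_7b99f3_ag
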