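import Pool.Agent.Lib.MP_7b99f3_ag.State

/-!
Rotation of a cluster of points and the associated winding numbers.
-/

namespace Pool.Agent.Lib.MP_7b99f3_ag

open Topology

variable {k n : ℕ} {D : Datum k n}

/-- move the points of the cluster `I` by the similarity of ratio `exp w` and centre `p` -/
noncomputable def rot (x : Fin k → ℂ) (p : ℂ) (I : Finset (Fin k)) (w : ℂ) : Fin k → ℂ :=
  fun i => if i ∈ I then p + Complex.exp w * (x i - p) else x i

/-- the cluster `I` is separated from the other points by a circle with centre `p` -/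
def SepAt (x : Fin k → ℂ) (p : ℂ) (I : Finset (Fin k)) : Prop :=
  ∃ r : ℝ, (∀ i ∈ I, ‖x i - p‖ < r) ∧ ∀ i ∉ I, r < ‖x i - p‖

theorem rot_zero (x : Fin k → ℂ) (p : ℂ) (I : Finset (Fin k)) : rot x p I 0 = x := by
  funext i; simp [rot]

theorem rot_add (x : Fin k → ℂ) (p : ℂ) (I : Finset (Fin k)) (w w' : ℂ) :
    rot (rot x p I w) p I w' = rot x p I (w + w') := by
  funext i
  unfold rot
  by_cases h : i ∈ I
  · simp only [h, if_true]; rw [Complex.exp_add]; ring
  · simp [h]

theorem rot_two_pi (x : Fin k → ℂ) (p : ℂ) (I : Finset (Fin k)) (w : ℂ) :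
    rot x p I (w + 2 * Real.pi * Complex.I) = rot x p I w := by
  funext i
  unfold rot
  rw [Complex.exp_periodic w]

theorem rot_injective {x : Fin k → ℂ} {p : ℂ} {I : Finset (Fin k)} (hx : Function.Injective x)
    (hs : SepAt x p I) {w : ℂ} (hw : w.re ≤ 0) : Function.Injective (rot x p I w) := by
  obtain ⟨r, h1, h2⟩ := hs
  have key : ∀ i ∈ I, ∀ j ∉ I, rot x p I w i ≠ rot x p I w j := by
    intro i hi j hj he
    simp only [rot, hi, hj, if_true, if_false] at he
    have h3 : ‖x j - p‖ = ‖Complex.exp w * (x i - p)‖ := by rw [← he]; congr 1; ring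
    rw [norm_mul, Complex.norm_exp] at h3
    have h4 : Real.exp w.re * ‖x i - p‖ ≤ 1 * ‖x i - p‖ :=
      mul_le_mul_of_nonneg_right (Real.exp_le_one_iff.mpr hw) (norm_nonneg _)
    have h5 := h1 i hi
    have h6 := h2 j hj
    linarith
  intro i j hij
  by_cases hi : i ∈ I <;> by_cases hj : j ∈ I
  · simp only [rot, hi, hj, if_true] at hij
    have h3 : Complex.exp w * (x i - p) = Complex.exp w * (x j - p) := by
      linear_combination hij
    have h4 := mul_left_cancel₀ (Complex.exp_ne_zero w) h3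
    exact hx (by linear_combination h4)
  · exact absurd hij (key i hi j hj)
  · exact absurd hij.symm (key j hj i hi)
  · simp only [rot, hi, hj, if_false] at hij
    exact hx hij

theorem continuous_rot {A : Type*} [TopologicalSpace A] {x : A → Fin k → ℂ} {p : A → ℂ}
    {w : A → ℂ} (hx : Continuous x) (hp : Continuous p) (hw : Continuous w)
    (I : Finset (Fin k)) : Continuous fun a => rot (x a) (p a) I (w a) := by
  rw [continuous_pi_iff]
  intro i
  unfold rot
  by_cases hi : i ∈ I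
  · simp only [hi, if_true]
    have := (continuous_apply i).comp hx
    exact hp.add ((Complex.continuous_exp.comp hw).mul (this.sub hp))
  · simp only [hi, if_false]
    exact (continuous_apply i).comp hx

/-- `W x κ μ p I a b`: winding number of `μ_a - μ_b` when the cluster `I` makes `NN k n` turns
about `p`. -/
noncomputable def W (D : Datum k n) (x : Fin k → ℂ) (κ : ℂ) (μ : Fin n → ℂ) (p : ℂ)
    (I : Finset (Fin k)) (a b : Fin n) : ℤ := by
  classical
  exact if h : ∃ (κ' : ℝ → ℂ) (μ' : ℝ → Fin n → ℂ), Continuous κ' ∧ Continuous μ' ∧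
    (∀ t : ℝ, St D (rot x p I (2 * Real.pi * Complex.I * t)) (κ' t) (μ' t)) ∧ κ' 0 = κ ∧ μ' 0 = μ
  then wind (fun t => h.choose_spec.choose (NN k n * t) a - h.choose_spec.choose (NN k n * t) b)
  else 0

theorem W_eq (hk : 2 ≤ k) (hn : 0 < n) {x : Fin k → ℂ} {κ : ℂ} {μ : Fin n → ℂ} {p : ℂ}
    {I : Finset (Fin k)} {κ' : ℝ → ℂ} {μ' : ℝ → Fin n → ℂ} (hκ : Continuous κ')
    (hμ : Continuous μ')
    (h : ∀ t : ℝ, St D (rot x p I (2 * Real.pi * Complex.I * t)) (κ' t) (μ' t)) (h1 : κ' 0 = κ)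
    (h2 : μ' 0 = μ) (a b : Fin n) :
    W D x κ μ p I a b = wind (fun t => μ' (NN k n * t) a - μ' (NN k n * t) b) := by
  have hex : ∃ (κ' : ℝ → ℂ) (μ' : ℝ → Fin n → ℂ), Continuous κ' ∧ Continuous μ' ∧
    (∀ t : ℝ, St D (rot x p I (2 * Real.pi * Complex.I * t)) (κ' t) (μ' t)) ∧ κ' 0 = κ ∧
      μ' 0 = μ := ⟨κ', μ', hκ, hμ, h, h1, h2⟩
  unfold W
  rw [dif_pos hex]
  obtain ⟨g1, g2, g3, g4, g5⟩ := hex.choose_spec.choose_spec
  have := (lift_unique D hk hn g1 hκ g2 hμ g3 h 0 (by rw [g4, h1]) (by rw [g5, h2])).2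
  simp only [this]

/-- existence of the lift along a rotation loop -/
theorem exists_lift_rot (hk : 2 ≤ k) (hn : 0 < n) {x : Fin k → ℂ} {κ : ℂ} {μ : Fin n → ℂ}
    (h : St D x κ μ) {p : ℂ} {I : Finset (Fin k)} (hs : SepAt x p I) :
    ∃ (κ' : ℝ → ℂ) (μ' : ℝ → Fin n → ℂ), Continuous κ' ∧ Continuous μ' ∧
    (∀ t : ℝ, St D (rot x p I (2 * Real.pi * Complex.I * t)) (κ' t) (μ' t)) ∧ κ' 0 = κ ∧
      μ' 0 = μ := by
  refine exists_lift D hk hn (A := ℝ)
    (X := fun t : ℝ => rot x p I (2 * Real.pi * Complex.I * t)) ?_ ?_ 0 ?_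
  · exact continuous_rot continuous_const continuous_const (by fun_prop) I
  · intro t
    exact rot_injective h.inj hs (by simp)
  · simpa [rot_zero] using h

theorem rot_loop (x : Fin k → ℂ) (p : ℂ) (I : Finset (Fin k)) (t : ℝ) :
    rot x p I (2 * Real.pi * Complex.I * ((t + 1 : ℝ) : ℂ)) =
      rot x p I (2 * Real.pi * Complex.I * t) := by
  have : (2 * Real.pi * Complex.I * ((t + 1 : ℝ) : ℂ)) =
      2 * Real.pi * Complex.I * t + 2 * Real.pi * Complex.I := by push_cast; ring
  rw [this, rot_two_pi]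

theorem iterate_add_one (m : ℕ) (t : ℝ) : (fun s : ℝ => s + 1)^[m] t = t + m := by
  induction m generalizing t with
  | zero => simp
  | succ m ih => rw [Function.iterate_succ_apply, ih]; push_cast; ring

/-- transport of the winding numbers along a continuous family -/
theorem W_transport (hk : 2 ≤ k) (hn : 0 < n) {A : Type*} [NormedAddCommGroup A]
    [NormedSpace ℝ A] {x : A → Fin k → ℂ} {κ : A → ℂ} {μ : A → Fin n → ℂ} {p : A → ℂ}
    {I : Finset (Fin k)} (hx : Continuous x) (hκ : Continuous κ) (hμ : Continuous μ)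
    (hp : Continuous p) (h : ∀ s, St D (x s) (κ s) (μ s)) (hs : ∀ s, SepAt (x s) (p s) I)
    (s s' : A) : W D (x s) (κ s) (μ s) (p s) I = W D (x s') (κ s') (μ s') (p s') I := by
  have hX : Continuous fun q : A × ℝ => rot (x q.1) (p q.1) I (2 * Real.pi * Complex.I * q.2) :=
    continuous_rot (hx.comp continuous_fst) (hp.comp continuous_fst) (by fun_prop) I
  have hinj : ∀ q : A × ℝ, Function.Injective
      (rot (x q.1) (p q.1) I (2 * Real.pi * Complex.I * q.2)) := fun q =>
    rot_injective (h q.1).inj (hs q.1) (by simp)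
  obtain ⟨κ', μ', c1, c2, c3, c4, c5⟩ := exists_lift D hk hn (A := A × ℝ) hX hinj (s, 0)
    (κ₀ := κ s) (μ₀ := μ s) (by simpa [rot_zero] using h s)
  -- on the line t = 0
  have hline := lift_unique D hk hn (A := A) (X := x) (κ := fun r => κ' (r, 0)) (κ' := κ)
    (μ := fun r => μ' (r, 0)) (μ' := μ) (c1.comp (by fun_prop)) hκ (c2.comp (by fun_prop)) hμ
    (fun r => by simpa [rot_zero] using c3 (r, 0)) h s c4 c5
  have hW : ∀ r a b, W D (x r) (κ r) (μ r) (p r) I a b =
      wind (fun t => μ' (r, NN k n * t) a - μ' (r, NN k n * t) b) := fun r a b =>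
    W_eq hk hn (κ' := fun t => κ' (r, t)) (μ' := fun t => μ' (r, t)) (c1.comp (by fun_prop))
      (c2.comp (by fun_prop)) (fun t => c3 (r, t)) (congrFun hline.1 r) (congrFun hline.2 r) a b
  have hper : ∀ r t, μ' (r, t + NN k n) = μ' (r, t) := by
    intro r t
    have h1 := (shift_NN hk hn c1 c2 c3 (τ := fun q : A × ℝ => (q.1, q.2 + 1)) (by fun_prop)
      (fun q => rot_loop (x q.1) (p q.1) I q.2) (r, t)).2
    have h2 : ∀ m : ℕ, (fun q : A × ℝ => (q.1, q.2 + 1))^[m] (r, t) = (r, t + m) := by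
      intro m
      induction m with
      | zero => simp
      | succ m ih => rw [Function.iterate_succ_apply', ih]; push_cast; simp [add_assoc]
    rw [h2] at h1
    exact h1
  funext a b
  rw [hW, hW]
  by_cases hab : a = b
  · subst hab; simp
  refine wind_homotopy (u := fun r t => μ' (r, NN k n * t) a - μ' (r, NN k n * t) b) ?_ ?_ ?_ s s'
  · have h1 : Continuous fun q : A × ℝ => μ' (q.1, NN k n * q.2) := c2.comp (by fun_prop)
    exact ((continuous_apply a).comp h1).sub ((continuous_apply b).comp h1)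
  · intro r t
    exact (c3 (r, NN k n * t)).ne hab
  · intro r
    have := hper r 0
    simp only [mul_zero, mul_one]
    rw [← this, zero_add]

end Pool.Agent.Lib.MP_7b99f3_ag
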