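import Pool.Agent.Lib.MP_7b99f3_ag.Rot

/-!
Independence of the winding numbers of the centre, symmetries, constancy along paths.
-/

namespace Pool.Agent.Lib.MP_7b99f3_ag

open Topology

variable {k n : ℕ} {D : Datum k n}

/-- clamp to the unit interval -/
noncomputable def clamp (t : ℝ) : ℝ := max 0 (min 1 t)

theorem continuous_clamp : Continuous clamp := by unfold clamp; fun_prop
theorem clamp_nonneg (t : ℝ) : 0 ≤ clamp t := le_max_left _ _
theorem clamp_le_one (t : ℝ) : clamp t ≤ 1 := max_le zero_le_one (min_le_left _ _)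
theorem clamp_zero : clamp 0 = 0 := by simp [clamp]
theorem clamp_one : clamp 1 = 1 := by simp [clamp]
theorem clamp_eq {t : ℝ} (h0 : 0 ≤ t) (h1 : t ≤ 1) : clamp t = t := by simp [clamp, h0, h1]

theorem sepAt_iff_sq {x : Fin k → ℂ} {p : ℂ} {I : Finset (Fin k)} :
    SepAt x p I ↔ ∃ R : ℝ, (∀ i ∈ I, ‖x i - p‖ ^ 2 < R) ∧ ∀ i ∉ I, R < ‖x i - p‖ ^ 2 := by
  rcases I.eq_empty_or_nonempty with rfl | ⟨i₀, hi₀⟩
  · constructor
    · intro _
      exact ⟨-1, by simp, fun i _ => by have := sq_nonneg ‖x i - p‖; linarith⟩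
    · intro _
      exact ⟨-1, by simp, fun i _ => by have := norm_nonneg (x i - p); linarith⟩
  · constructor
    · rintro ⟨r, h1, h2⟩
      have hr : 0 < r := (norm_nonneg _).trans_lt (h1 i₀ hi₀)
      exact ⟨r ^ 2, fun i hi => pow_lt_pow_left₀ (h1 i hi) (norm_nonneg _) (by norm_num),
        fun i hi => pow_lt_pow_left₀ (h2 i hi) hr.le (by norm_num)⟩
    · rintro ⟨R, h1, h2⟩
      have hR : 0 < R := (sq_nonneg _).trans_lt (h1 i₀ hi₀)
      refine ⟨Real.sqrt R, fun i hi => ?_, fun i hi => ?_⟩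
      · exact Real.lt_sqrt_of_sq_lt (h1 i hi)
      · rw [Real.sqrt_lt' ((Real.sqrt_pos.mpr hR).trans_le ?_)]
        · exact h2 i hi
        · rw [Real.sqrt_le_left (norm_nonneg _)]
          exact (h2 i hi).le

theorem norm_segment_sq (z p p' : ℂ) (t : ℝ) :
    ‖z - ((1 - t) * p + t * p')‖ ^ 2 =
      (1 - t) * ‖z - p‖ ^ 2 + t * ‖z - p'‖ ^ 2 - t * (1 - t) * ‖p - p'‖ ^ 2 := by
  simp only [Complex.sq_norm, Complex.normSq_apply, Complex.sub_re, Complex.sub_im,
    Complex.add_re, Complex.add_im, Complex.mul_re, Complex.mul_im, Complex.one_re,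
    Complex.one_im, Complex.ofReal_re, Complex.ofReal_im]
  ring

theorem SepAt.segment {x : Fin k → ℂ} {p p' : ℂ} {I : Finset (Fin k)} (h : SepAt x p I)
    (h' : SepAt x p' I) {t : ℝ} (h0 : 0 ≤ t) (h1 : t ≤ 1) :
    SepAt x ((1 - t) * p + t * p') I := by
  rw [sepAt_iff_sq] at *
  obtain ⟨R, a1, a2⟩ := h
  obtain ⟨R', b1, b2⟩ := h'
  refine ⟨(1 - t) * R + t * R' - t * (1 - t) * ‖p - p'‖ ^ 2, fun i hi => ?_, fun i hi => ?_⟩
  · rw [norm_segment_sq]
    have e1 := a1 i hi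
    have e2 := b1 i hi
    rcases h0.eq_or_lt with h0 | h0
    · rw [← h0]; simpa using e1
    · have e3 : t * ‖x i - p'‖ ^ 2 < t * R' := mul_lt_mul_of_pos_left e2 h0
      have e4 : (1 - t) * ‖x i - p‖ ^ 2 ≤ (1 - t) * R :=
        mul_le_mul_of_nonneg_left e1.le (by linarith)
      linarith
  · rw [norm_segment_sq]
    have e1 := a2 i hi
    have e2 := b2 i hi
    rcases h0.eq_or_lt with h0 | h0
    · rw [← h0]; simpa using e1
    · have e3 : t * R' < t * ‖x i - p'‖ ^ 2 := mul_lt_mul_of_pos_left e2 h0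
      have e4 : (1 - t) * R ≤ (1 - t) * ‖x i - p‖ ^ 2 :=
        mul_le_mul_of_nonneg_left e1.le (by linarith)
      linarith

/-- the winding numbers do not depend on the centre -/
theorem W_indep (hk : 2 ≤ k) (hn : 0 < n) {x : Fin k → ℂ} {κ : ℂ} {μ : Fin n → ℂ} {p p' : ℂ}
    {I : Finset (Fin k)} (h : St D x κ μ) (hs : SepAt x p I) (hs' : SepAt x p' I) :
    W D x κ μ p I = W D x κ μ p' I := by
  have := W_transport hk hn (A := ℝ) (D := D) (x := fun _ => x) (κ := fun _ => κ)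
    (μ := fun _ => μ) (p := fun t : ℝ => (1 - clamp t) * p + clamp t * p') (I := I)
    continuous_const continuous_const continuous_const ?_ (fun _ => h)
    (fun t => hs.segment hs' (clamp_nonneg t) (clamp_le_one t)) 0 1
  · simpa [clamp_zero, clamp_one] using this
  · have := continuous_clamp
    fun_prop

/-- winding numbers of a cluster that is separated by some circle -/
noncomputable def WI (D : Datum k n) (x : Fin k → ℂ) (κ : ℂ) (μ : Fin n → ℂ)
    (I : Finset (Fin k)) : Fin n → Fin n → ℤ := by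
  classical
  exact if h : ∃ p, SepAt x p I then W D x κ μ h.choose I else 0

theorem WI_eq (hk : 2 ≤ k) (hn : 0 < n) {x : Fin k → ℂ} {κ : ℂ} {μ : Fin n → ℂ} {p : ℂ}
    {I : Finset (Fin k)} (h : St D x κ μ) (hs : SepAt x p I) :
    WI D x κ μ I = W D x κ μ p I := by
  have hex : ∃ p, SepAt x p I := ⟨p, hs⟩
  unfold WI
  rw [dif_pos hex]
  exact W_indep hk hn h hex.choose_spec hs

theorem SepAt.eventually {A : Type*} [TopologicalSpace A] {x : A → Fin k → ℂ} {p : A → ℂ}
    {I : Finset (Fin k)} {a : A} (hx : ContinuousAt x a) (hp : ContinuousAt p a)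
    (hs : SepAt (x a) (p a) I) : ∀ᶠ b in 𝓝 a, SepAt (x b) (p b) I := by
  obtain ⟨r, h1, h2⟩ := hs
  have hc : ∀ i, ContinuousAt (fun b => ‖x b i - p b‖) a := fun i =>
    (((continuous_apply i).continuousAt.comp hx).sub hp).norm
  have e1 : ∀ᶠ b in 𝓝 a, ∀ i, i ∈ I → ‖x b i - p b‖ < r := by
    rw [Filter.eventually_all]
    intro i
    by_cases hi : i ∈ I
    · filter_upwards [(hc i).eventually_lt continuousAt_const (h1 i hi)] with b hb _ using hb
    · exact Filter.Eventually.of_forall fun b h => absurd h hi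
  have e2 : ∀ᶠ b in 𝓝 a, ∀ i, i ∉ I → r < ‖x b i - p b‖ := by
    rw [Filter.eventually_all]
    intro i
    by_cases hi : i ∉ I
    · filter_upwards [continuousAt_const.eventually_lt (hc i) (h2 i hi)] with b hb _ using hb
    · exact Filter.Eventually.of_forall fun b h => absurd h hi
  filter_upwards [e1, e2] with b h1 h2 using ⟨r, h1, h2⟩

/-- constancy of the winding numbers along a path of states -/
theorem WI_path (hk : 2 ≤ k) (hn : 0 < n) {x : ℝ → Fin k → ℂ} {κ : ℝ → ℂ} {μ : ℝ → Fin n → ℂ}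
    {I : Finset (Fin k)} (hx : Continuous x) (hκ : Continuous κ) (hμ : Continuous μ)
    (h : ∀ s, St D (x s) (κ s) (μ s)) (hs : ∀ s, ∃ p, SepAt (x s) p I) (s s' : ℝ) :
    WI D (x s) (κ s) (μ s) I = WI D (x s') (κ s') (μ s') I := by
  have hloc : IsLocallyConstant fun t => WI D (x t) (κ t) (μ t) I := by
    rw [IsLocallyConstant.iff_eventually_eq]
    intro t₀
    obtain ⟨p, hp⟩ := hs t₀
    have h1 := SepAt.eventually (x := x) (p := fun _ => p) hx.continuousAt continuousAt_const hp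
    obtain ⟨δ, hδ, h2⟩ := Metric.eventually_nhds_iff.mp h1
    refine Metric.eventually_nhds_iff.mpr ⟨δ, hδ, fun t ht => ?_⟩
    have h3 : ∀ u : ℝ, SepAt (x (t₀ + clamp u * (t - t₀))) p I := by
      intro u
      apply h2
      rw [Real.dist_eq] at *
      have : t₀ + clamp u * (t - t₀) - t₀ = clamp u * (t - t₀) := by ring
      rw [this, abs_mul, abs_of_nonneg (clamp_nonneg u)]
      calc clamp u * |t - t₀| ≤ 1 * |t - t₀| :=
            mul_le_mul_of_nonneg_right (clamp_le_one u) (abs_nonneg _)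
        _ < δ := by rwa [one_mul]
    have hcl : Continuous fun u : ℝ => t₀ + clamp u * (t - t₀) := by
      have := continuous_clamp
      fun_prop
    have h4 := W_transport hk hn (A := ℝ) (D := D) (x := fun u => x (t₀ + clamp u * (t - t₀)))
      (κ := fun u => κ (t₀ + clamp u * (t - t₀))) (μ := fun u => μ (t₀ + clamp u * (t - t₀)))
      (p := fun _ => p) (I := I) (hx.comp hcl) (hκ.comp hcl) (hμ.comp hcl) continuous_const
      (fun u => h _) h3 0 1
    simp only [clamp_zero, clamp_one, zero_mul, add_zero, one_mul, add_sub_cancel] at h4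
    rw [WI_eq hk hn (h t₀) hp, h4, WI_eq hk hn (h t)]
    have := h3 1
    simpa [clamp_one] using this
  exact hloc.apply_eq_of_preconnectedSpace s s'

/-- relabelling the points -/
theorem mem_map_perm {I : Finset (Fin k)} {σ : Equiv.Perm (Fin k)} {i : Fin k} :
    σ i ∈ I.map σ.toEmbedding ↔ i ∈ I := by simp

theorem rot_comp_perm (x : Fin k → ℂ) (p : ℂ) (I : Finset (Fin k)) (w : ℂ)
    (σ : Equiv.Perm (Fin k)) : rot (x ∘ σ) p I w = rot x p (I.map σ.toEmbedding) w ∘ σ := by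
  funext i
  simp only [rot, Function.comp_apply, mem_map_perm]

theorem SepAt.comp_perm {x : Fin k → ℂ} {p : ℂ} {I : Finset (Fin k)} {σ : Equiv.Perm (Fin k)} :
    SepAt (x ∘ σ) p I ↔ SepAt x p (I.map σ.toEmbedding) := by
  constructor
  · rintro ⟨r, h1, h2⟩
    refine ⟨r, fun i hi => ?_, fun i hi => ?_⟩
    · have := h1 (σ.symm i) (by
        rw [← mem_map_perm (σ := σ)]; simpa using hi)
      simpa using this
    · have := h2 (σ.symm i) (by
        rw [← mem_map_perm (σ := σ)]; simpa using hi)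
      simpa using this
  · rintro ⟨r, h1, h2⟩
    exact ⟨r, fun i hi => h1 (σ i) (mem_map_perm.mpr hi),
      fun i hi => h2 (σ i) (fun h => hi (mem_map_perm.mp h))⟩

theorem WI_perm (hk : 2 ≤ k) (hn : 0 < n) {x : Fin k → ℂ} {κ : ℂ} {μ : Fin n → ℂ}
    {I : Finset (Fin k)} (h : St D x κ μ) (σ : Equiv.Perm (Fin k)) {p : ℂ}
    (hs : SepAt (x ∘ σ) p I) :
    WI D (x ∘ σ) κ μ I = WI D x κ μ (I.map σ.toEmbedding) := by
  have hs' := SepAt.comp_perm.mp hs
  rw [WI_eq hk hn (h.comp_perm (by omega) σ) hs, WI_eq hk hn h hs']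
  obtain ⟨κ', μ', c1, c2, c3, c4, c5⟩ := exists_lift_rot hk hn h hs'
  funext a b
  rw [W_eq hk hn c1 c2 c3 c4 c5 a b]
  refine W_eq hk hn c1 c2 (fun t => ?_) c4 c5 a b
  rw [rot_comp_perm]
  exact (c3 t).comp_perm (by omega) σ

/-- relabelling the roots -/
theorem WI_label (hk : 2 ≤ k) (hn : 0 < n) {x : Fin k → ℂ} {κ : ℂ} {μ : Fin n → ℂ}
    {I : Finset (Fin k)} (h : St D x κ μ) (τ : Equiv.Perm (Fin n)) {p : ℂ}
    (hs : SepAt x p I) (a b : Fin n) :
    WI D x κ (μ ∘ τ) I a b = WI D x κ μ I (τ a) (τ b) := by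
  rw [WI_eq hk hn (h.label τ) hs, WI_eq hk hn h hs]
  obtain ⟨κ', μ', c1, c2, c3, c4, c5⟩ := exists_lift_rot hk hn h hs
  rw [W_eq hk hn c1 c2 c3 c4 c5 (τ a) (τ b)]
  refine W_eq hk hn (μ' := fun t => μ' t ∘ τ) c1 ?_ (fun t => (c3 t).label τ) c4
    (by rw [c5]) a b
  rw [continuous_pi_iff]
  intro i
  exact (continuous_apply (τ i)).comp c2

theorem rot_affine (x : Fin k → ℂ) (p : ℂ) (I : Finset (Fin k)) (w l c : ℂ) :
    rot (fun i => l * x i + c) (l * p + c) I w = fun i => l * rot x p I w i + c := by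
  funext i
  unfold rot
  split_ifs
  · ring
  · rfl

theorem SepAt.affine {x : Fin k → ℂ} {p : ℂ} {I : Finset (Fin k)} (h : SepAt x p I) {l : ℂ}
    (hl : l ≠ 0) (c : ℂ) : SepAt (fun i => l * x i + c) (l * p + c) I := by
  obtain ⟨r, h1, h2⟩ := h
  have h0 : 0 < ‖l‖ := norm_pos_iff.mpr hl
  have e : ∀ i, ‖l * x i + c - (l * p + c)‖ = ‖l‖ * ‖x i - p‖ := by
    intro i
    rw [← norm_mul]; congr 1; ring
  refine ⟨‖l‖ * r, fun i hi => ?_, fun i hi => ?_⟩
  · rw [e]; exact mul_lt_mul_of_pos_left (h1 i hi) h0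
  · rw [e]; exact mul_lt_mul_of_pos_left (h2 i hi) h0

/-- similarities -/
theorem WI_affine (hk : 2 ≤ k) (hn : 0 < n) {x : Fin k → ℂ} {κ : ℂ} {μ : Fin n → ℂ}
    {I : Finset (Fin k)} (h : St D x κ μ) {l : ℂ} (hl : l ≠ 0) (c : ℂ) {p : ℂ}
    (hs : SepAt x p I) :
    WI D (fun i => l * x i + c) (κ / l) μ I = WI D x κ μ I := by
  rw [WI_eq hk hn (h.affine (by omega) hl c) (hs.affine hl c), WI_eq hk hn h hs]
  obtain ⟨κ', μ', c1, c2, c3, c4, c5⟩ := exists_lift_rot hk hn h hs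
  funext a b
  rw [W_eq hk hn c1 c2 c3 c4 c5 a b]
  refine W_eq hk hn (κ' := fun t => κ' t / l) (c1.div_const l) c2 (fun t => ?_) (by rw [c4]) c5
    a b
  rw [rot_affine]
  exact (c3 t).affine (by omega) hl c

end Pool.Agent.Lib.MP_7b99f3_ag
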