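import Mathlib

/-!
Winding numbers of nonvanishing continuous functions on `[0,1]`.
-/

namespace Pool.Agent.Lib.MP_7b99f3_ag

open Topology

theorem exists_log {A : Type*} [TopologicalSpace A] [SimplyConnectedSpace A]
    [LocallyPathConnectedSpace A] {u : A → ℂ} (hu : Continuous u) (hne : ∀ a, u a ≠ 0) :
    ∃ l : A → ℂ, Continuous l ∧ ∀ a, Complex.exp (l a) = u a := by
  obtain ⟨a₀⟩ : Nonempty A := inferInstance
  obtain ⟨l, ⟨-, hl⟩, -⟩ := Complex.isCoveringMapOn_exp.existsUnique_continuousMap_lifts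
    (⟨u, hu⟩ : C(A, ℂ)) (a₀ := a₀) (e₀ := Complex.log (u a₀))
    (by simpa using Complex.exp_log (hne a₀)) (fun a => by simpa using hne a)
  exact ⟨l, l.continuous, fun a => congrFun hl a⟩

theorem exp_eq_exp_const {A : Type*} [TopologicalSpace A] [PreconnectedSpace A] {l l' : A → ℂ}
    (hl : Continuous l) (hl' : Continuous l') (h : ∀ a, Complex.exp (l a) = Complex.exp (l' a))
    (a b : A) : l a - l' a = l b - l' b := by
  have h1 : ∀ c, ∃ n : ℤ, l c - l' c = n * (2 * Real.pi * Complex.I) := by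
    intro c
    obtain ⟨n, hn⟩ := Complex.exp_eq_exp_iff_exists_int.mp (h c)
    exact ⟨n, by rw [hn]; ring⟩
  have h2 : Continuous fun c => ((l c - l' c) / (2 * Real.pi * Complex.I)).re := by fun_prop
  have h3 : ∀ c, ∃ n : ℤ, ((l c - l' c) / (2 * Real.pi * Complex.I)).re = n := by
    intro c
    obtain ⟨n, hn⟩ := h1 c
    refine ⟨n, ?_⟩
    rw [hn, mul_div_assoc, div_self Complex.two_pi_I_ne_zero]
    simp
  choose f hf using h3
  have h4 : Continuous f := by
    rw [Int.isClosedEmbedding_coe_real.isEmbedding.continuous_iff]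
    exact h2.congr fun c => hf c
  have h5 : f a = f b := PreconnectedSpace.constant inferInstance h4
  obtain ⟨n, hn⟩ := h1 a
  obtain ⟨m, hm⟩ := h1 b
  have h6 : (n : ℝ) = f a := by
    rw [← hf a, hn, mul_div_assoc, div_self Complex.two_pi_I_ne_zero]
    simp
  have h7 : (m : ℝ) = f b := by
    rw [← hf b, hm, mul_div_assoc, div_self Complex.two_pi_I_ne_zero]
    simp
  have h8 : n = m := by
    have : (n : ℝ) = m := by rw [h6, h7, h5]
    exact_mod_cast this
  rw [hn, hm, h8]

/-- winding number over `[0,1]` -/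
noncomputable def wind (u : ℝ → ℂ) : ℤ := by
  classical
  exact if h : ∃ n : ℤ, ∃ l : ℝ → ℂ, Continuous l ∧ (∀ t, Complex.exp (l t) = u t) ∧
    l 1 - l 0 = 2 * Real.pi * Complex.I * n then h.choose else 0

theorem wind_eq {u l : ℝ → ℂ} {n : ℤ} (hl : Continuous l) (he : ∀ t, Complex.exp (l t) = u t)
    (hn : l 1 - l 0 = 2 * Real.pi * Complex.I * n) : wind u = n := by
  have h : ∃ n : ℤ, ∃ l : ℝ → ℂ, Continuous l ∧ (∀ t, Complex.exp (l t) = u t) ∧
    l 1 - l 0 = 2 * Real.pi * Complex.I * n := ⟨n, l, hl, he, hn⟩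
  unfold wind
  rw [dif_pos h]
  obtain ⟨l', hl', he', hn'⟩ := h.choose_spec
  have h1 := exp_eq_exp_const hl hl' (fun t => by rw [he, he']) 1 0
  have h2 : l 1 - l 0 = l' 1 - l' 0 := by linear_combination h1
  rw [hn, hn'] at h2
  have h3 := mul_left_cancel₀ Complex.two_pi_I_ne_zero h2
  exact_mod_cast h3.symm

theorem wind_spec {u l : ℝ → ℂ} (hl : Continuous l) (he : ∀ t, Complex.exp (l t) = u t)
    (h01 : u 0 = u 1) : l 1 - l 0 = 2 * Real.pi * Complex.I * wind u := by
  have h1 : Complex.exp (l 1) = Complex.exp (l 0) := by rw [he, he, h01]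
  obtain ⟨n, hn⟩ := Complex.exp_eq_exp_iff_exists_int.mp h1
  have h2 : l 1 - l 0 = 2 * Real.pi * Complex.I * n := by rw [hn]; ring
  rw [wind_eq hl he h2, h2]

theorem wind_mul {u v : ℝ → ℂ} (hu : Continuous u) (hv : Continuous v) (hu0 : ∀ t, u t ≠ 0)
    (hv0 : ∀ t, v t ≠ 0) (hu1 : u 0 = u 1) (hv1 : v 0 = v 1) :
    wind (fun t => u t * v t) = wind u + wind v := by
  obtain ⟨l, hl, hle⟩ := exists_log hu hu0
  obtain ⟨l', hl', hle'⟩ := exists_log hv hv0
  refine wind_eq (l := fun t => l t + l' t) (hl.add hl')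
    (fun t => by rw [Complex.exp_add, hle, hle']) ?_
  have h1 := wind_spec hl hle hu1
  have h2 := wind_spec hl' hle' hv1
  push_cast
  linear_combination h1 + h2

theorem wind_const {c : ℂ} (hc : c ≠ 0) : wind (fun _ => c) = 0 := by
  refine wind_eq (l := fun _ => Complex.log c) continuous_const (fun t => Complex.exp_log hc) ?_
  simp

theorem wind_prod {ι : Type*} (s : Finset ι) {u : ι → ℝ → ℂ} (hu : ∀ i ∈ s, Continuous (u i))
    (hu0 : ∀ i ∈ s, ∀ t, u i t ≠ 0) (hu1 : ∀ i ∈ s, u i 0 = u i 1) :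
    wind (fun t => ∏ i ∈ s, u i t) = ∑ i ∈ s, wind (u i) := by
  classical
  induction s using Finset.induction_on with
  | empty => simpa using wind_const one_ne_zero
  | insert a s ha ih =>
    simp only [Finset.prod_insert ha, Finset.sum_insert ha]
    rw [wind_mul (hu a (by simp)) (continuous_finsetProd _ fun i hi => hu i (by simp [hi]))
      (hu0 a (by simp)) (fun t => Finset.prod_ne_zero_iff.mpr fun i hi => hu0 i (by simp [hi]) t)
      (hu1 a (by simp)) (Finset.prod_congr rfl fun i hi => hu1 i (by simp [hi])),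
      ih (fun i hi => hu i (by simp [hi])) (fun i hi => hu0 i (by simp [hi]))
        (fun i hi => hu1 i (by simp [hi]))]

theorem wind_inv {u : ℝ → ℂ} (hu : Continuous u) (hu0 : ∀ t, u t ≠ 0) (hu1 : u 0 = u 1) :
    wind (fun t => (u t)⁻¹) = - wind u := by
  obtain ⟨l, hl, hle⟩ := exists_log hu hu0
  refine wind_eq (l := fun t => - l t) hl.neg (fun t => by rw [Complex.exp_neg, hle]) ?_
  have h1 := wind_spec hl hle hu1
  push_cast
  linear_combination -h1

theorem wind_pow {u : ℝ → ℂ} (hu : Continuous u) (hu0 : ∀ t, u t ≠ 0) (hu1 : u 0 = u 1) (m : ℕ) :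
    wind (fun t => (u t) ^ m) = m * wind u := by
  obtain ⟨l, hl, hle⟩ := exists_log hu hu0
  refine wind_eq (l := fun t => m * l t) (continuous_const.mul hl)
    (fun t => by rw [Complex.exp_nat_mul, hle]) ?_
  have h1 := wind_spec hl hle hu1
  push_cast
  linear_combination (m : ℂ) * h1

/-- homotopy invariance -/
theorem wind_homotopy {A : Type*} [NormedAddCommGroup A] [NormedSpace ℝ A] {u : A → ℝ → ℂ} (hu : Continuous (Function.uncurry u))
    (hne : ∀ a t, u a t ≠ 0) (h01 : ∀ a, u a 0 = u a 1) (a b : A) : wind (u a) = wind (u b) := by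
  obtain ⟨l, hl, hle⟩ := exists_log (A := A × ℝ) hu (fun p => hne p.1 p.2)
  have h1 : ∀ c, l (c, 1) - l (c, 0) = 2 * Real.pi * Complex.I * wind (u c) := fun c =>
    wind_spec (l := fun t => l (c, t)) (hl.comp (by fun_prop)) (fun t => hle (c, t)) (h01 c)
  have h2 := exp_eq_exp_const (A := A) (l := fun c => l (c, 1)) (l' := fun c => l (c, 0))
    (hl.comp (by fun_prop)) (hl.comp (by fun_prop)) (fun c => by
      rw [hle, hle]; exact (h01 c).symm) a b
  simp only [h1] at h2
  have h3 := mul_left_cancel₀ Complex.two_pi_I_ne_zero h2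
  exact_mod_cast h3

/-- the `N`-fold loop -/
theorem wind_nfold {u : ℝ → ℂ} (hu : Continuous u) (hu0 : ∀ t, u t ≠ 0)
    (hp : ∀ t, u (t + 1) = u t) (N : ℕ) : wind (fun t => u (N * t)) = N * wind u := by
  obtain ⟨l, hl, hle⟩ := exists_log hu hu0
  have h01 : u 0 = u 1 := by simpa using (hp 0).symm
  have h1 := wind_spec hl hle h01
  have h2 : ∀ t, l (t + 1) - l t = 2 * Real.pi * Complex.I * wind u := by
    intro t
    have h3 := exp_eq_exp_const (A := ℝ) (l := fun t => l (t + 1)) (l' := l)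
      (hl.comp (by fun_prop)) hl (fun t => by rw [hle, hle, hp]) t 0
    simp only [zero_add] at h3
    rw [h3, h1]
  have h4 : ∀ m : ℕ, l m - l 0 = m * (2 * Real.pi * Complex.I * wind u) := by
    intro m
    induction m with
    | zero => simp
    | succ m ih =>
      have := h2 m
      push_cast
      linear_combination ih + this
  refine wind_eq (l := fun t => l (N * t)) (hl.comp (by fun_prop)) (fun t => hle _) ?_
  have h5 := h4 N
  simp only [mul_one, mul_zero]
  push_cast
  rw [h5]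
  ring

end Pool.Agent.Lib.MP_7b99f3_ag
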