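import Pool.Agent.Lib.MP_7b99f3_ag.Lift
import Pool.Agent.Lib.MP_7b99f3_ag.WindB

/-!
States, their symmetries and the winding numbers of root differences along rotation loops.
-/

namespace Pool.Agent.Lib.MP_7b99f3_ag

open Topology

variable {k n : ℕ} {D : Datum k n}

theorem St.comp_perm (hk : 0 < k) {x : Fin k → ℂ} {κ : ℂ} {μ : Fin n → ℂ} (h : St D x κ μ)
    (σ : Equiv.Perm (Fin k)) : St D (x ∘ σ) κ μ where
  inj := h.inj.comp σ.injective
  kap := by rw [vd_comp_perm_sq]; exact h.kap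
  isN := h.isN
  eq := by rw [nrm_comp_perm, D.symm _ σ (isN_nrm hk h.kap)]; exact h.eq

theorem St.label {x : Fin k → ℂ} {κ : ℂ} {μ : Fin n → ℂ} (h : St D x κ μ)
    (τ : Equiv.Perm (Fin n)) : St D x κ (μ ∘ τ) where
  inj := h.inj
  kap := h.kap
  isN := h.isN.comp_perm τ
  eq := by rw [vieta_comp_perm]; exact h.eq

theorem mean_affine (hk : 0 < k) (x : Fin k → ℂ) (l c : ℂ) :
    mean (fun i => l * x i + c) = l * mean x + c := by
  unfold mean
  have : (k : ℂ) ≠ 0 := by exact_mod_cast hk.ne'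
  rw [Finset.sum_add_distrib, ← Finset.mul_sum]
  simp
  field_simp

theorem nrm_affine (hk : 0 < k) (x : Fin k → ℂ) {l : ℂ} (hl : l ≠ 0) (c κ : ℂ) :
    nrm (fun i => l * x i + c) (κ / l) = nrm x κ := by
  funext i
  unfold nrm
  rw [mean_affine hk]
  field_simp
  ring

theorem vd_affine' (x : Fin k → ℂ) (l c : ℂ) :
    vd (fun i => l * x i + c) ^ 2 = l ^ (k * (k - 1)) * vd x ^ 2 := by
  have h1 : vd (fun i => l * x i + c) = vd (fun i => l * (x i - 0)) := by
    unfold vd
    refine Finset.prod_congr rfl fun i _ => Finset.prod_congr rfl fun j _ => ?_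
    ring
  rw [h1, vd_affine, mul_pow, ← pow_mul, two_mul_half]

theorem St.affine (hk : 0 < k) {x : Fin k → ℂ} {κ : ℂ} {μ : Fin n → ℂ} (h : St D x κ μ) {l : ℂ}
    (hl : l ≠ 0) (c : ℂ) : St D (fun i => l * x i + c) (κ / l) μ where
  inj := by
    intro i j hij
    apply h.inj
    simpa [hl] using hij
  kap := by
    rw [vd_affine', div_pow, ← h.kap]
    field_simp
  isN := h.isN
  eq := by rw [nrm_affine hk x hl]; exact h.eq

theorem St.eq_perm {x : Fin k → ℂ} {κ : ℂ} {μ μ' : Fin n → ℂ} (h : St D x κ μ)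
    (h' : St D x κ μ') : ∃ τ : Equiv.Perm (Fin n), μ' = μ ∘ τ :=
  exists_perm_of_vieta_eq h'.isN.injective (by rw [h.eq, h'.eq])

theorem St.ne {x : Fin k → ℂ} {κ : ℂ} {μ : Fin n → ℂ} (h : St D x κ μ) {a b : Fin n}
    (hab : a ≠ b) : μ a - μ b ≠ 0 := by
  rw [sub_ne_zero]
  exact fun e => hab (h.isN.injective e)

theorem kap_unique (hk : 2 ≤ k) {A : Type*} [TopologicalSpace A] [PreconnectedSpace A]
    {X : A → Fin k → ℂ} {κ κ' : A → ℂ} (hκ : Continuous κ) (hκ' : Continuous κ')
    (h : ∀ a, κ a ^ (k * (k - 1)) * vd (X a) ^ 2 = 1)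
    (h' : ∀ a, κ' a ^ (k * (k - 1)) * vd (X a) ^ 2 = 1) (a₀ : A) (e : κ a₀ = κ' a₀) :
    κ = κ' := by
  have hM0 : k * (k - 1) ≠ 0 := by
    have h1 : 0 < k := by omega
    have h2 : 0 < k - 1 := by omega
    exact (Nat.mul_pos h1 h2).ne'
  set M := k * (k - 1) with hM
  have hκne : ∀ a, κ a ≠ 0 := by
    intro a h0
    have := h a
    rw [h0, zero_pow hM0, zero_mul] at this
    exact zero_ne_one this
  have hκne' : ∀ a, κ' a ≠ 0 := by
    intro a h0
    have := h' a
    rw [h0, zero_pow hM0, zero_mul] at this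
    exact zero_ne_one this
  have hcov := isCoveringMap_npow (𝕜 := ℂ) M (by exact_mod_cast hM0)
  have h1 := hcov.eq_of_comp_eq (A := A) (g₁ := fun a => ⟨κ a, hκne a⟩)
      (g₂ := fun a => ⟨κ' a, hκne' a⟩) (by fun_prop) (by fun_prop) (by
        funext a
        simp only [Function.comp_apply, Subtype.mk.injEq]
        have h3 := h a
        have h4 := h' a
        have h5 : vd (X a) ^ 2 ≠ 0 := by
          intro h6
          rw [h6, mul_zero] at h3
          exact zero_ne_one h3
        rw [← h4] at h3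
        exact mul_right_cancel₀ h5 h3) a₀ (by simpa using e)
  funext a
  have := congrFun h1 a
  simpa using this

theorem mu_unique (hn : 0 < n) {A : Type*} [TopologicalSpace A] [PreconnectedSpace A]
    {μ μ' : A → Fin n → ℂ} (hμ : Continuous μ) (hμ' : Continuous μ') (h : ∀ a, IsN (μ a))
    (h' : ∀ a, IsN (μ' a)) (hv : ∀ a, vieta (μ a) = vieta (μ' a)) (a₀ : A)
    (e : μ a₀ = μ' a₀) : μ = μ' := by
  have hreg : ∀ a, μ a ∈ vieta ⁻¹' (Reg n) := fun a => ⟨μ a, (h a).injective, rfl⟩
  have hreg' : ∀ a, μ' a ∈ vieta ⁻¹' (Reg n) := fun a => ⟨μ' a, (h' a).injective, rfl⟩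
  have hcov2 := (isCoveringMapOn_vieta hn).isCoveringMap_restrictPreimage
  have h1 := hcov2.eq_of_comp_eq (A := A) (g₁ := fun a => ⟨μ a, hreg a⟩)
      (g₂ := fun a => ⟨μ' a, hreg' a⟩) (by fun_prop) (by fun_prop) (by
        funext a
        apply Subtype.ext
        simp only [Function.comp_apply, Set.restrictPreimage_coe]
        exact hv a) a₀ (by simpa using e)
  funext a
  have := congrFun h1 a
  simpa using this

/-- If the configuration returns up to relabelling and the scale returns, the labels return up to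
a fixed permutation. -/
theorem shift_label (hk : 2 ≤ k) (hn : 0 < n) {A : Type*} [TopologicalSpace A]
    [PreconnectedSpace A] {X : A → Fin k → ℂ} {κ : A → ℂ} {μ : A → Fin n → ℂ}
    (hμ : Continuous μ) (h : ∀ a, St D (X a) (κ a) (μ a)) {τ : A → A} (hτ : Continuous τ)
    (σ : Equiv.Perm (Fin k)) (hX : ∀ a, X (τ a) = X a ∘ σ) (hκτ : ∀ a, κ (τ a) = κ a) (a₀ : A) :
    ∃ π : Equiv.Perm (Fin n), ∀ a, μ (τ a) = μ a ∘ π := by
  have h1 : ∀ a, St D (X a ∘ σ) (κ a) (μ (τ a)) := by
    intro a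
    have := h (τ a)
    rwa [hX, hκτ] at this
  obtain ⟨π, hπ⟩ := ((h a₀).comp_perm (by omega) σ).eq_perm (h1 a₀)
  refine ⟨π, fun a => ?_⟩
  have h2 := mu_unique hn (μ := fun a => μ (τ a)) (μ' := fun a => μ a ∘ π) (hμ.comp hτ)
    (by
      rw [continuous_pi_iff]
      intro i
      exact (continuous_apply (π i)).comp hμ) (fun a => (h (τ a)).isN)
    (fun a => (h a).isN.comp_perm π) (fun a => by
      rw [vieta_comp_perm, (h1 a).eq, ((h a).comp_perm (by omega) σ).eq]) a₀ hπ
  exact congrFun h2 a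

/-- the universal number of turns after which everything returns -/
def NN (k n : ℕ) : ℕ := k * (k - 1) * n.factorial

theorem NN_pos (hk : 2 ≤ k) : 0 < NN k n := by
  have h1 : 0 < k := by omega
  have h2 : 0 < k - 1 := by omega
  exact Nat.mul_pos (Nat.mul_pos h1 h2) n.factorial_pos

/-- if the configuration is invariant under a shift, then after `NN k n` shifts the lift returns -/
theorem shift_NN (hk : 2 ≤ k) (hn : 0 < n) {A : Type*} [TopologicalSpace A]
    [PreconnectedSpace A] {X : A → Fin k → ℂ} {κ : A → ℂ} {μ : A → Fin n → ℂ}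
    (hκ : Continuous κ) (hμ : Continuous μ) (h : ∀ a, St D (X a) (κ a) (μ a)) {τ : A → A}
    (hτ : Continuous τ) (hX : ∀ a, X (τ a) = X a) (a : A) :
    κ (τ^[NN k n] a) = κ a ∧ μ (τ^[NN k n] a) = μ a := by
  have hM0 : k * (k - 1) ≠ 0 := by
    have h1 : 0 < k := by omega
    have h2 : 0 < k - 1 := by omega
    exact (Nat.mul_pos h1 h2).ne'
  have hκne : ∀ a, κ a ≠ 0 := by
    intro a h0
    have := (h a).kap
    rw [h0, zero_pow hM0, zero_mul] at this
    exact zero_ne_one this
  have hXj : ∀ j a, X (τ^[j] a) = X a := by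
    intro j
    induction j with
    | zero => intro a; rfl
    | succ j ih => intro a; rw [Function.iterate_succ_apply', hX, ih]
  -- the scale
  set ζ := κ (τ a) / κ a with hζ
  have h1 : ζ ^ (k * (k - 1)) = 1 := by
    rw [hζ, div_pow, div_eq_one_iff_eq (pow_ne_zero _ (hκne a))]
    have h3 := (h a).kap
    have h4 := (h (τ a)).kap
    rw [hX] at h4
    have h5 : vd (X a) ^ 2 ≠ 0 := pow_ne_zero _ (vd_ne_zero_iff.mpr (h a).inj)
    rw [← h3] at h4
    exact mul_right_cancel₀ h5 h4
  have h2 : (fun b => κ (τ b)) = fun b => ζ * κ b := by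
    refine kap_unique hk (X := X) (hκ.comp hτ) (continuous_const.mul hκ) (fun b => ?_)
      (fun b => ?_) a ?_
    · have := (h (τ b)).kap
      rwa [hX] at this
    · rw [mul_pow, h1, one_mul]; exact (h b).kap
    · rw [hζ]; field_simp [hκne a]
  have h3 : ∀ j b, κ (τ^[j] b) = ζ ^ j * κ b := by
    intro j
    induction j with
    | zero => intro b; simp
    | succ j ih =>
      intro b
      rw [Function.iterate_succ_apply', congrFun h2 (τ^[j] b), ih, pow_succ']
      ring
  have h4 : ∀ b, κ (τ^[k * (k - 1)] b) = κ b := by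
    intro b
    rw [h3, h1, one_mul]
  obtain ⟨π, hπ⟩ := shift_label hk hn hμ h (hτ.iterate (k * (k - 1))) 1
    (fun b => by rw [hXj]; rfl) h4 a
  have h5 : ∀ j b, κ ((τ^[k * (k - 1)])^[j] b) = κ b ∧
      μ ((τ^[k * (k - 1)])^[j] b) = μ b ∘ ⇑(π ^ j) := by
    intro j
    induction j with
    | zero => intro b; exact ⟨rfl, by funext i; rfl⟩
    | succ j ih =>
      intro b
      rw [Function.iterate_succ_apply']
      refine ⟨by rw [h4, (ih b).1], ?_⟩
      rw [hπ, (ih b).2]
      funext i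
      simp [pow_succ]
  have h6 := h5 n.factorial a
  rw [← Function.iterate_mul] at h6
  have h7 : π ^ n.factorial = 1 := by
    have : n.factorial = Fintype.card (Equiv.Perm (Fin n)) := by
      rw [Fintype.card_perm, Fintype.card_fin]
    rw [this]
    exact pow_card_eq_one
  rw [h7] at h6
  exact ⟨h6.1, by
    have := h6.2
    simpa [NN] using this⟩

end Pool.Agent.Lib.MP_7b99f3_ag
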