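import Pool.Agent.Lib.MP_7b99f3_ag.Hol
import Pool.Agent.Lib.MP_7b99f3_ag.StepC
import Pool.Agent.Lib.MP_7b99f3_ag.DetPeriods

/-!
The linear relation between the winding numbers of nested clusters forced by a small rank.
-/

namespace Pool.Agent.Lib.MP_7b99f3_ag

open Topology

variable {k n m : ℕ} {D : Datum k n}

/-- The rank condition: holomorphic families with `k - 2` parameters have a degenerate image. -/
def Datum.Rk (D : Datum k n) : Prop :=
  ∀ (Y : (Fin (k - 2) → ℂ) → (Fin k → ℂ)) (w : Fin (k - 2) → ℂ), DifferentiableAt ℂ Y w →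
    (∀ᶠ w' in 𝓝 w, IsN (Y w')) → ∃ v, v ≠ 0 ∧ fderiv ℂ (fun w' => D.G (Y w')) w v = 0

/-- if all maximal minors vanish then the columns are dependent -/
theorem exists_relation {ι : Type*} (A : ι → Fin m → ℂ)
    (h : ∀ r : Fin m → ι, Matrix.det (Matrix.of fun i j => A (r i) j) = 0) :
    ∃ ξ : Fin m → ℂ, ξ ≠ 0 ∧ ∀ i, ∑ j, ξ j * A i j = 0 := by
  by_cases hS : Submodule.span ℂ (Set.range A) = ⊤
  · exfalso
    obtain ⟨b, hb, hspan, hli⟩ := exists_linearIndependent ℂ (Set.range A)
    rw [hS] at hspan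
    have hfin : Finite b := hli.finite
    have : Fintype b := Fintype.ofFinite b
    have hbasis : Module.finrank ℂ (Fin m → ℂ) = Fintype.card b := by
      refine Module.finrank_eq_card_basis (Module.Basis.mk hli ?_)
      rw [Subtype.range_coe_subtype, Set.ofPred_mem_eq, hspan]
    rw [Module.finrank_fintype_fun_eq_card, Fintype.card_fin] at hbasis
    set e : Fin m ≃ b := Fintype.equivOfCardEq ((Fintype.card_fin m).trans hbasis) with he
    have hr : ∀ i : Fin m, ∃ l : ι, A l = (e i : Fin m → ℂ) := fun i => hb (e i).2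
    choose r hr using hr
    have h1 := h r
    have h2 : LinearIndependent ℂ (Matrix.of fun i j => A (r i) j).row := by
      have h3 : (Matrix.of fun i j => A (r i) j).row = fun i : Fin m => ((e i : b) : Fin m → ℂ) := by
        funext i
        have := hr i
        funext j
        simp [Matrix.row, this]
      rw [h3]
      exact hli.comp e e.injective
    rw [Matrix.linearIndependent_rows_iff_isUnit, Matrix.isUnit_iff_isUnit_det, h1] at h2
    exact not_isUnit_zero h2
  · obtain ⟨f, hf, hle⟩ := Submodule.exists_le_ker_of_lt_top _ (lt_top_iff_ne_top.mpr hS)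
    refine ⟨fun j => f (Pi.single j 1), fun h0 => hf ?_, fun i => ?_⟩
    · refine LinearMap.pi_ext' fun j => ?_
      ext
      exact congrFun h0 j
    · have h1 : f (A i) = 0 := hle (Submodule.subset_span ⟨i, rfl⟩)
      have h2 : A i = ∑ j, A i j • Pi.single j (1 : ℂ) := by
        funext l
        simp [Finset.sum_apply, Pi.single_apply]
      rw [h2, map_sum] at h1
      rw [← h1]
      refine Finset.sum_congr rfl fun j _ => ?_
      rw [map_smul, smul_eq_mul, mul_comm]

theorem inc_of_step {a : ℕ → ℂ} (h : ∀ i, 1 ≤ i → i + 1 < k → (a i).re < (a (i + 1)).re) :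
    Inc k a := by
  intro i j hi hij hj
  induction j with
  | zero => omega
  | succ j ih =>
    rcases Nat.lt_or_ge i j with h1 | h1
    · exact (ih h1 (by omega)).trans (h j (by omega) hj)
    · have : i = j := by omega
      subst this
      exact h i hi hj

/-- logarithmic coordinates of the chart -/
noncomputable def aw (k : ℕ) (w : Fin (k - 2) → ℂ) (i : ℕ) : ℂ :=
  i + ∑ j : Fin (k - 2), if i ≤ (j : ℕ) + 1 then w j else 0

theorem aw_zero (k : ℕ) : aw k 0 = fun i : ℕ => (i : ℂ) := by
  funext i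
  simp [aw]

theorem aw_inc {w : Fin (k - 2) → ℂ} (hw : ∀ j, (w j).re < 1) : Inc k (aw k w) := by
  refine inc_of_step fun i hi hik => ?_
  have h1 : ∑ j : Fin (k - 2), (if i ≤ (j : ℕ) + 1 then w j else 0) =
      w ⟨i - 1, by omega⟩ + ∑ j : Fin (k - 2), (if i + 1 ≤ (j : ℕ) + 1 then w j else 0) := by
    rw [← Finset.add_sum_erase Finset.univ _ (Finset.mem_univ (⟨i - 1, by omega⟩ : Fin (k - 2))),
      ← Finset.add_sum_erase Finset.univ (fun j : Fin (k - 2) =>
        if i + 1 ≤ (j : ℕ) + 1 then w j else 0) (Finset.mem_univ (⟨i - 1, by omega⟩ : Fin (k - 2)))]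
    rw [if_pos (by simp; omega), if_neg (by simp; omega), zero_add]
    congr 1
    refine Finset.sum_congr rfl fun j hj => ?_
    have hj2 := Finset.ne_of_mem_erase hj
    have hj3 : (j : ℕ) ≠ i - 1 := fun e => hj2 (Fin.ext e)
    by_cases h : i ≤ (j : ℕ) + 1
    · rw [if_pos h, if_pos (by omega)]
    · rw [if_neg h, if_neg (by omega)]
  have h2 := hw ⟨i - 1, by omega⟩
  unfold aw
  rw [h1]
  simp only [Complex.add_re, Complex.natCast_re]
  push_cast
  linarith

theorem aw_add (w : Fin (k - 2) → ℂ) (j : Fin (k - 2)) (s : ℂ) (i : ℕ) :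
    aw k (w + Pi.single j s) i = aw k w i + if i ≤ (j : ℕ) + 1 then s else 0 := by
  unfold aw
  have h1 : ∀ l : Fin (k - 2), (if i ≤ (l : ℕ) + 1 then (w + Pi.single j s : Fin (k - 2) → ℂ) l else 0) =
      (if i ≤ (l : ℕ) + 1 then w l else 0) + if l = j then (if i ≤ (j : ℕ) + 1 then s else 0)
        else 0 := by
    intro l
    by_cases hl : l = j
    · subst hl
      simp only [Pi.add_apply, Pi.single_eq_same, if_true]
      split_ifs <;> simp
    · simp only [Pi.add_apply, Pi.single_eq_of_ne hl, add_zero, if_neg hl]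
  simp_rw [h1]
  rw [Finset.sum_add_distrib]
  simp
  ring

/-- the chart -/
noncomputable def Xw (k : ℕ) (w : Fin (k - 2) → ℂ) : Fin k → ℂ := fconf k 0 (aw k w)

theorem Xw_zero (k : ℕ) : Xw k 0 = xs k := by
  unfold Xw xs
  rw [aw_zero]

theorem Xw_add (w : Fin (k - 2) → ℂ) (j : Fin (k - 2)) (s : ℂ) :
    Xw k (w + Pi.single j s) = rot (Xw k w) 0 (cl k (j + 2)) s := by
  funext i
  unfold Xw rot fconf
  simp only [mem_cl, zero_add, sub_zero, aw_add]
  by_cases h0 : (i : ℕ) = 0
  · have h1 : (i : ℕ) < j + 2 := by omega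
    have h2 : 1 ≤ (j : ℕ) + 1 := by omega
    simp only [h0, if_true, h2]
    rw [if_pos (by omega), Complex.exp_add]
    ring
  · simp only [h0, if_false]
    by_cases h1 : (i : ℕ) < j + 2
    · rw [if_pos h1, if_pos (by omega), Complex.exp_add]
      ring
    · rw [if_neg h1, if_neg (by omega), add_zero]

theorem contDiff_aw (k : ℕ) (i : ℕ) : ContDiff ℂ 2 fun w : Fin (k - 2) → ℂ => aw k w i := by
  unfold aw
  refine contDiff_const.add (ContDiff.sum fun j _ => ?_)
  split_ifs
  · exact contDiff_apply ℂ ℂ j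
  · exact contDiff_const

theorem contDiff_Xw (k : ℕ) : ContDiff ℂ 2 (Xw k) := by
  unfold Xw fconf
  rw [contDiff_pi]
  intro i
  split_ifs
  · exact contDiff_const.sub (Complex.contDiff_exp.comp (contDiff_aw k 1))
  · exact contDiff_const.add (Complex.contDiff_exp.comp (contDiff_aw k i))

/-- the domain of the chart -/
def Vw (k : ℕ) : Set (Fin (k - 2) → ℂ) := {w | ∀ j, (w j).re < 1}

theorem isOpen_Vw (k : ℕ) : IsOpen (Vw k) := by
  have : Vw k = ⋂ j, {w : Fin (k - 2) → ℂ | (w j).re < 1} := by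
    ext w; simp [Vw]
  rw [this]
  refine isOpen_iInter_of_finite fun j => ?_
  exact isOpen_lt (Complex.continuous_re.comp (continuous_apply j)) continuous_const

theorem convex_Vw (k : ℕ) : Convex ℝ (Vw k) := by
  intro x hx y hy a b ha hb hab j
  have h1 := hx j
  have h2 := hy j
  simp only [Pi.add_apply, Pi.smul_apply, Complex.add_re, Complex.real_smul,
    Complex.re_ofReal_mul]
  rcases ha.eq_or_lt with h3 | h3
  · rw [← h3] at hab ⊢
    rw [zero_add] at hab
    rw [hab]; simpa using h2
  · nlinarith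

/-- the real torus in the chart -/
noncomputable def tor (k : ℕ) (c : ℂ) (θ : Fin (k - 2) → ℝ) : Fin (k - 2) → ℂ := fun j => c * θ j

theorem tor_mem {c : ℂ} (hc : c.re = 0) (θ : Fin (k - 2) → ℝ) : tor k c θ ∈ Vw k := by
  intro j
  simp [tor, hc]

theorem tor_add (c : ℂ) (θ : Fin (k - 2) → ℝ) (j : Fin (k - 2)) (s : ℝ) :
    tor k c (θ + Pi.single j s) = tor k c θ + Pi.single j (c * s) := by
  funext l
  by_cases h : l = j
  · subst h; simp [tor, mul_add]
  · simp [tor, Pi.single_eq_of_ne h]

/-- Step B: the relation at the standard configuration -/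
theorem stepB (hk : 3 ≤ k) (hn : 0 < n) (hRk : D.Rk) {κ₀ : ℂ} {μ₀ : Fin n → ℂ}
    (h₀ : St D (xs k) κ₀ μ₀) : ∃ ξ : Fin (k - 2) → ℂ, ξ ≠ 0 ∧ ∀ a b : Fin n,
      ∑ j : Fin (k - 2), ξ j * (WI D (xs k) κ₀ μ₀ (cl k (j + 2)) a b : ℂ) = 0 := by
  have hk2 : 2 ≤ k := by omega
  have hNpos : 0 < NN k n := NN_pos hk2
  set c : ℂ := 2 * Real.pi * Complex.I with hc
  have hc0 : c ≠ 0 := Complex.two_pi_I_ne_zero
  have hcre : c.re = 0 := by simp [hc]
  have h0V : (0 : Fin (k - 2) → ℂ) ∈ Vw k := by intro j; simp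
  obtain ⟨κ, μ, c1, c2, c3, c4, c5⟩ := exists_lift_on (D := D) hk2 hn (isOpen_Vw k) (convex_Vw k)
    (X := Xw k) (contDiff_Xw k).continuous.continuousOn
    (fun w hw => fconf_injective (aw_inc hw)) h0V (by rw [Xw_zero]; exact h₀)
  -- smoothness
  have hμd : ∀ w ∈ Vw k, ContDiffAt ℂ 2 μ w := fun w hw =>
    contDiffAt_mu hk2 (isOpen_Vw k) c1 c2 c3 hw (contDiff_Xw k).contDiffAt
  have hκd : ∀ w ∈ Vw k, ContDiffAt ℂ 2 κ w := fun w hw =>
    contDiffAt_kap hk2 (isOpen_Vw k) c1 (fun b hb => (c3 b hb).kap) hw (contDiff_Xw k).contDiffAt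
  -- degenerate direction
  have hdeg : ∀ w ∈ Vw k, ∃ v, v ≠ 0 ∧ fderiv ℂ μ w v = 0 := by
    intro w hw
    obtain ⟨v, hv0, hv⟩ := hRk (fun w => nrm (Xw k w) (κ w)) w
      ((contDiffAt_nrm (contDiff_Xw k).contDiffAt (hκd w hw)).differentiableAt (by norm_num)) (by
        filter_upwards [(isOpen_Vw k).mem_nhds hw] with w' hw'
        exact isN_nrm (by omega) (c3 w' hw').kap)
    exact ⟨v, hv0, fderiv_mu_eq_zero (isOpen_Vw k) c3 hw
      ((hμd w hw).differentiableAt (by norm_num)) hv⟩
  -- logarithms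
  have hlog : ∀ q : {q : Fin n × Fin n // q.1 ≠ q.2}, ∃ l : (Fin (k - 2) → ℂ) → ℂ,
      ContinuousOn l (Vw k) ∧ ∀ w ∈ Vw k, Complex.exp (l w) = μ w q.1.1 - μ w q.1.2 := by
    intro q
    refine exists_log_on (isOpen_Vw k) (convex_Vw k) ⟨0, h0V⟩ ?_
      (fun w hw => (c3 w hw).ne q.2)
    exact ((continuous_apply q.1.1).comp_continuousOn c2).sub
      ((continuous_apply q.1.2).comp_continuousOn c2)
  choose l hlc hle using hlog
  have hud : ∀ q : {q : Fin n × Fin n // q.1 ≠ q.2}, ∀ w ∈ Vw k,
      ContDiffAt ℂ 2 (fun w => μ w q.1.1 - μ w q.1.2) w := fun q w hw =>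
    (contDiffAt_pi.mp (hμd w hw) q.1.1).sub (contDiffAt_pi.mp (hμd w hw) q.1.2)
  have hld : ∀ q, ∀ w ∈ Vw k, ContDiffAt ℂ 2 (l q) w := fun q w hw =>
    contDiffAt_log (isOpen_Vw k) (hlc q) (hle q) hw (hud q w hw)
  have hldeg : ∀ w ∈ Vw k, ∃ v, v ≠ 0 ∧ ∀ q, fderiv ℂ (l q) w v = 0 := by
    intro w hw
    obtain ⟨v, hv0, hv⟩ := hdeg w hw
    refine ⟨v, hv0, fun q => fderiv_log_eq_zero (isOpen_Vw k) (hle q) hw
      ((hld q w hw).differentiableAt (by norm_num)) ?_⟩
    have hd : DifferentiableAt ℂ μ w := (hμd w hw).differentiableAt (by norm_num)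
    have h1 : HasFDerivAt (fun w => μ w q.1.1 - μ w q.1.2)
        ((ContinuousLinearMap.proj q.1.1).comp (fderiv ℂ μ w) -
          (ContinuousLinearMap.proj q.1.2).comp (fderiv ℂ μ w)) w :=
      ((ContinuousLinearMap.proj (R := ℂ) (φ := fun _ : Fin n => ℂ) q.1.1).hasFDerivAt.comp w
        hd.hasFDerivAt).sub
      ((ContinuousLinearMap.proj (R := ℂ) (φ := fun _ : Fin n => ℂ) q.1.2).hasFDerivAt.comp w
        hd.hasFDerivAt)
    rw [h1.fderiv]
    simp [hv]
  -- continuity on the torus
  have htorc : ∀ e : ℂ, Continuous (tor k e) := by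
    intro e; unfold tor; fun_prop
  -- periodicity
  have hXper : ∀ j θ, Xw k (tor k c (θ + Pi.single j 1)) = Xw k (tor k c θ) := by
    intro j θ
    rw [tor_add, Complex.ofReal_one, mul_one, Xw_add]
    have := rot_two_pi (Xw k (tor k c θ)) 0 (cl k (j + 2)) 0
    rw [zero_add, rot_zero] at this
    exact this
  have hμper : ∀ j θ, μ (tor k c (θ + Pi.single j (NN k n : ℝ))) = μ (tor k c θ) := by
    intro j θ
    have h1 := (shift_NN hk2 hn (A := Fin (k - 2) → ℝ) (X := fun θ => Xw k (tor k c θ))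
      (κ := fun θ => κ (tor k c θ)) (μ := fun θ => μ (tor k c θ))
      (c1.comp_continuous (htorc c) (tor_mem hcre)) (c2.comp_continuous (htorc c) (tor_mem hcre))
      (fun θ => c3 _ (tor_mem hcre θ)) (τ := fun θ => θ + Pi.single j 1) (by fun_prop)
      (hXper j) θ).2
    have h2 : ∀ p : ℕ, (fun θ : Fin (k - 2) → ℝ => θ + Pi.single j 1)^[p] θ =
        θ + Pi.single j (p : ℝ) := by
      intro p
      induction p with
      | zero => simp
      | succ p ih =>
        rw [Function.iterate_succ_apply', ih]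
        push_cast
        rw [add_assoc, ← Pi.single_add]
    rw [h2] at h1
    exact h1
  set cN : ℂ := c * NN k n with hcN
  have hcNre : cN.re = 0 := by
    rw [hcN, Complex.mul_re, hcre]; simp
  have htorN : ∀ θ : Fin (k - 2) → ℝ, tor k cN θ = tor k c (fun j => NN k n * θ j) := by
    intro θ; funext j; simp [tor, hcN]; ring
  -- the quasi-periods
  have hquasi : ∀ (q : {q : Fin n × Fin n // q.1 ≠ q.2}) (j : Fin (k - 2))
      (θ : Fin (k - 2) → ℝ), l q (tor k cN (θ + Pi.single j 1)) = l q (tor k cN θ) +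
      c * (WI D (xs k) κ₀ μ₀ (cl k (j + 2)) q.1.1 q.1.2 : ℤ) := by
    intro q j θ
    have hcont : ∀ e : ℂ, e.re = 0 → Continuous fun θ : Fin (k - 2) → ℝ => l q (tor k e θ) :=
      fun e he => (hlc q).comp_continuous (htorc e) (tor_mem he)
    have h1 := exp_eq_exp_const (A := Fin (k - 2) → ℝ)
      (l := fun θ => l q (tor k cN (θ + Pi.single j 1))) (l' := fun θ => l q (tor k cN θ))
      ((hcont cN hcNre).comp (by fun_prop)) (hcont cN hcNre) (fun θ => by
        rw [hle q _ (tor_mem hcNre _), hle q _ (tor_mem hcNre _)]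
        have : tor k cN (θ + Pi.single j 1) =
            tor k c ((fun j => NN k n * θ j : Fin (k - 2) → ℝ) + Pi.single j (NN k n : ℝ)) := by
          rw [htorN]
          congr 1
          funext l
          by_cases hl : l = j
          · subst hl; simp [mul_add]
          · simp [Pi.single_eq_of_ne hl]
        rw [this, hμper, htorN]) θ 0
    simp only [zero_add] at h1
    have h2 : l q (tor k cN (Pi.single j 1)) - l q (tor k cN 0) =
        c * (WI D (xs k) κ₀ μ₀ (cl k (j + 2)) q.1.1 q.1.2 : ℤ) := by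
      have hsep : SepAt (xs k) 0 (cl k (j + 2)) :=
        fconf_sepAt inc_xs (by omega) (by have := j.2; omega)
      rw [WI_eq hk2 hn h₀ hsep]
      have hpath : ∀ t : ℝ, tor k c (Pi.single j t) = 0 + Pi.single j (c * t) := by
        intro t
        have := tor_add c (0 : Fin (k - 2) → ℝ) j t
        rw [zero_add] at this
        rw [this]
        congr 1
        funext l
        simp [tor]
      have hmem : ∀ t : ℝ, tor k c (Pi.single j t) ∈ Vw k := fun t => tor_mem hcre _
      have hpc : Continuous fun t : ℝ => tor k c (Pi.single j t) :=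
        (htorc c).comp (continuous_single (A := fun _ => ℝ) j)
      have hW := W_eq hk2 hn (D := D) (x := xs k) (κ := κ₀) (μ := μ₀) (p := 0)
        (I := cl k (j + 2)) (κ' := fun t => κ (tor k c (Pi.single j t)))
        (μ' := fun t => μ (tor k c (Pi.single j t))) (c1.comp_continuous hpc hmem)
        (c2.comp_continuous hpc hmem) (fun t => by
          have h3 := c3 _ (hmem t)
          have h4 : Xw k (tor k c (Pi.single j t)) =
              rot (xs k) 0 (cl k (j + 2)) (2 * Real.pi * Complex.I * t) := by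
            rw [hpath, Xw_add, Xw_zero]
          rw [h4] at h3
          exact h3)
        (by rw [hpath]; simp [c4]) (by rw [hpath]; simp [c5]) q.1.1 q.1.2
      rw [hW]
      have hsc : ∀ t : ℝ, tor k cN (Pi.single j t) = tor k c (Pi.single j (NN k n * t)) := by
        intro t
        rw [htorN]
        congr 1
        funext l
        by_cases hl : l = j
        · subst hl; simp
        · simp [Pi.single_eq_of_ne hl]
      have hspec := wind_spec (u := fun t => μ (tor k c (Pi.single j (NN k n * t))) q.1.1 -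
          μ (tor k c (Pi.single j (NN k n * t))) q.1.2)
        (l := fun t => l q (tor k cN (Pi.single j t)))
        ((hcont cN hcNre).comp (continuous_single (A := fun _ => ℝ) j))
        (fun t => by
          rw [hle q _ (tor_mem hcNre _), hsc]) (by
          simp only [mul_zero, mul_one]
          have h5 := hμper j 0
          rw [zero_add] at h5
          rw [h5, Pi.single_zero])
      rw [Pi.single_zero] at hspec
      rw [hspec]
    rw [h2] at h1
    linear_combination h1
  -- minors
  set A : {q : Fin n × Fin n // q.1 ≠ q.2} → Fin (k - 2) → ℂ := fun q j =>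
    (WI D (xs k) κ₀ μ₀ (cl k (j + 2)) q.1.1 q.1.2 : ℂ) with hA
  have hminor : ∀ r : Fin (k - 2) → {q : Fin n × Fin n // q.1 ≠ q.2},
      Matrix.det (Matrix.of fun i j => A (r i) j) = 0 := by
    intro r
    set F : (Fin (k - 2) → ℝ) → (Fin (k - 2) → ℂ) := fun θ i => l (r i) (tor k cN θ) with hF
    -- smoothness of F
    have htorlin : ∀ θ, HasFDerivAt (tor k cN)
        (ContinuousLinearMap.pi fun j => (cN • (Complex.ofRealCLM.comp
          (ContinuousLinearMap.proj (R := ℝ) (φ := fun _ : Fin (k - 2) => ℝ) j)) :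
            (Fin (k - 2) → ℝ) →L[ℝ] ℂ)) θ := by
      intro θ
      rw [hasFDerivAt_pi]
      intro j
      unfold tor
      exact (((Complex.ofRealCLM.comp
          (ContinuousLinearMap.proj (R := ℝ) (φ := fun _ : Fin (k - 2) => ℝ) j)).hasFDerivAt
            (x := θ)).const_smul cN)
    have htorcd : ContDiff ℝ 2 (tor k cN) := by
      rw [contDiff_pi]
      intro j
      unfold tor
      exact contDiff_const.mul (Complex.ofRealCLM.contDiff.comp (contDiff_apply ℝ ℝ j))
    have hFd : ContDiff ℝ 2 F := by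
      rw [contDiff_pi]
      intro i
      rw [contDiff_iff_contDiffAt]
      intro θ
      exact ContDiffAt.comp θ ((hld (r i) _ (tor_mem hcNre θ)).restrict_scalars ℝ)
        htorcd.contDiffAt
    have hper := integral_jacobian_eq_det F hFd (Matrix.of fun i j => c * A (r i) j)
      (fun θ j i => by
        simp only [hF, Matrix.of_apply, hA]
        rw [hquasi])
    have hderiv : ∀ θ j i, fderiv ℝ F θ (Pi.single j 1) i =
        fderiv ℂ (l (r i)) (tor k cN θ) (Pi.single j cN) := by
      intro θ j i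
      have h1 : HasFDerivAt (fun θ => l (r i) (tor k cN θ))
          (((fderiv ℂ (l (r i)) (tor k cN θ)).restrictScalars ℝ).comp
          (ContinuousLinearMap.pi fun j => (cN • (Complex.ofRealCLM.comp
          (ContinuousLinearMap.proj (R := ℝ) (φ := fun _ : Fin (k - 2) => ℝ) j)) :
            (Fin (k - 2) → ℝ) →L[ℝ] ℂ))) θ :=
        (((hld (r i) _ (tor_mem hcNre θ)).differentiableAt
          (by norm_num)).hasFDerivAt.restrictScalars ℝ).comp θ (htorlin θ)
      have h2 : fderiv ℝ F θ (Pi.single j 1) i =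
          fderiv ℝ (fun θ => F θ i) θ (Pi.single j 1) := by
        rw [fderiv_pi fun i => (contDiff_pi.mp hFd i).differentiable (by norm_num) θ]
        rfl
      rw [h2]
      have h3 : fderiv ℝ (fun θ => F θ i) θ = _ := h1.fderiv
      rw [h3, ContinuousLinearMap.comp_apply, ContinuousLinearMap.coe_restrictScalars']
      congr 1
      funext l
      by_cases hl : l = j
      · subst hl; simp
      · simp [Pi.single_eq_of_ne hl]
    have hdet0 : ∀ θ, Matrix.det (Matrix.of fun i j => fderiv ℝ F θ (Pi.single j 1) i) = 0 := by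
      intro θ
      obtain ⟨v, hv0, hv⟩ := hldeg _ (tor_mem hcNre θ)
      rw [← Matrix.exists_mulVec_eq_zero_iff]
      refine ⟨v, hv0, ?_⟩
      funext i
      simp only [Matrix.mulVec, dotProduct, Matrix.of_apply, Pi.zero_apply, hderiv]
      have h1 := hv (r i)
      have h2 : v = ∑ j, v j • Pi.single j (1 : ℂ) := by
        funext l
        simp [Finset.sum_apply, Pi.single_apply]
      rw [h2, map_sum] at h1
      have h3 : ∀ j, fderiv ℂ (l (r i)) (tor k cN θ) (Pi.single j cN) =
          cN * fderiv ℂ (l (r i)) (tor k cN θ) (Pi.single j 1) := by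
        intro j
        rw [← smul_eq_mul, ← map_smul]
        congr 1
        rw [← Pi.single_smul, smul_eq_mul, mul_one]
      simp_rw [h3]
      have h4 : ∑ j, cN * fderiv ℂ (l (r i)) (tor k cN θ) (Pi.single j 1) * v j =
          cN * ∑ j, fderiv ℂ (l (r i)) (tor k cN θ) (v j • Pi.single j (1 : ℂ)) := by
        rw [Finset.mul_sum]
        refine Finset.sum_congr rfl fun j _ => ?_
        rw [map_smul, smul_eq_mul]; ring
      rw [h4, h1, mul_zero]
    rw [MeasureTheory.setIntegral_congr_fun measurableSet_Icc (g := fun _ => (0 : ℂ))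
      (fun θ _ => hdet0 θ), MeasureTheory.integral_zero] at hper
    have hsm : (Matrix.of fun i j => c * A (r i) j) = c • Matrix.of fun i j => A (r i) j := by
      ext i j; simp
    rw [hsm, Matrix.det_smul] at hper
    exact (mul_eq_zero.mp hper.symm).resolve_left (pow_ne_zero _ hc0)
  obtain ⟨ξ, hξ0, hξ⟩ := exists_relation A hminor
  refine ⟨ξ, hξ0, fun a b => ?_⟩
  by_cases hab : a = b
  · subst hab
    simp [WI_self]
  · exact hξ ⟨(a, b), hab⟩

/-- Steps B and C: some size has vanishing winding numbers, and so has the size `k - 1`. -/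
theorem stepBC (hk : 3 ≤ k) (hn : 0 < n) (hRk : D.Rk) :
    ∃ m, 2 ≤ m ∧ m < k ∧ Van D m := by
  have hk2 : 2 ≤ k := by omega
  obtain ⟨κ₀, hκ₀⟩ := Lev.exists_kap hk2 (xs_injective (k := k))
  obtain ⟨μ₀, h₀⟩ := Lev.exists_state (D := D) hk2 xs_injective hκ₀
  obtain ⟨ξ, hξ0, hξ⟩ := stepB hk hn hRk h₀
  have hrel : FlagRel D ξ (xs k) κ₀ := by
    intro μ hμ a b
    obtain ⟨τ, rfl⟩ := h₀.eq_perm hμ
    rw [← hξ (τ a) (τ b)]
    refine Finset.sum_congr rfl fun j _ => ?_
    have hj := j.2
    rw [WI_label hk2 hn h₀ τ (fconf_sepAt inc_xs (by omega) (by omega) :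
      SepAt (xs k) 0 (cl k (j + 2)))]
  have hall := flagRel_all hk hn hκ₀ hrel
  obtain ⟨m, hm⟩ := Function.ne_iff.mp hξ0
  have hmk := m.2
  refine ⟨m + 2, by omega, by omega, ?_⟩
  exact van_of_con hk2 hn (by omega) (con_of_tie (by omega) (by omega)
    (tie_of_flag hk hn hall hm))

end Pool.Agent.Lib.MP_7b99f3_ag
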