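import Pool.Agent.Lib.MP_7b99f3_ag.ExtState

/-!
From the vanishing for clusters of size `k - 1` to the vanishing for pairs.
-/

namespace Pool.Agent.Lib.MP_7b99f3_ag

open Topology Filter

variable {k n : ℕ} {D : Datum k n}

theorem eq_transport (hk : 2 ≤ k) (hn : 0 < n) {X : ℝ → Fin k → ℂ} (hX : Continuous X)
    (hinj : ∀ t, Function.Injective (X t)) {J J' : Finset (Fin k)}
    (hJ : ∀ t, ∃ p, SepAt (X t) p J) (hJ' : ∀ t, ∃ p, SepAt (X t) p J')
    (h : ∀ κ μ, St D (X 1) κ μ → WI D (X 1) κ μ J = WI D (X 1) κ μ J') (κ : ℂ)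
    (μ : Fin n → ℂ) (hs : St D (X 0) κ μ) : WI D (X 0) κ μ J = WI D (X 0) κ μ J' := by
  obtain ⟨κ', μ', c1, c2, c3, c4, c5⟩ := exists_lift D hk hn (A := ℝ) hX hinj 0 hs
  have h1 := WI_path hk hn hX c1 c2 c3 hJ 0 1
  have h2 := WI_path hk hn hX c1 c2 c3 hJ' 0 1
  rw [c4, c5] at h1 h2
  rw [h1, h2]
  exact h _ _ (c3 1)

/-- a triple at the place `P` and other points -/
noncomputable def tri (k : ℕ) (c u P : ℂ) (ε : ℝ) (z : Fin k → ℂ) : Fin k → ℂ := fun i =>
  if (i : ℕ) = 0 then P + ε * c else if (i : ℕ) = 1 then P + ε else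
    if (i : ℕ) = 3 then P + ε * u else z i

/-- admissible parameters -/
structure TriOK (k : ℕ) (c u P : ℂ) (ε : ℝ) (z : Fin k → ℂ) : Prop where
  hc : ‖c‖ < 1
  hu : ‖u‖ = 1
  hu1 : u ≠ 1
  hε : 0 < ε
  hz : ∀ i : Fin k, (i : ℕ) ≠ 0 → (i : ℕ) ≠ 1 → (i : ℕ) ≠ 3 → ε < ‖z i - P‖
  inj : Function.Injective z

section
variable {c u P : ℂ} {ε : ℝ} {z : Fin k → ℂ}

theorem TriOK.tie (hk : 5 ≤ k) (h : TriOK k c u P ε z) :
    TieAt (tri k c u P ε z) P ε {(⟨0, by omega⟩ : Fin k)} ⟨1, by omega⟩ ⟨3, by omega⟩ := by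
  have hn : ∀ v : ℂ, ‖P + ε * v - P‖ = ε * ‖v‖ := by
    intro v
    rw [add_sub_cancel_left, norm_mul, Complex.norm_real, Real.norm_eq_abs, abs_of_pos h.hε]
  refine ⟨by simp, by simp, by simp, ?_, ?_, ?_, ?_⟩
  · intro j hj
    rw [Finset.mem_singleton] at hj
    subst hj
    simp only [tri, if_true]
    rw [hn]
    have := h.hε
    have := h.hc
    nlinarith
  · simp only [tri, one_ne_zero, if_false, if_true]
    have := hn 1
    rw [mul_one, norm_one, mul_one] at this
    exact this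
  · simp only [tri]
    rw [if_neg (by norm_num), if_neg (by norm_num), if_pos trivial, hn, h.hu, mul_one]
  · intro j hj hja hjb
    rw [Finset.mem_singleton] at hj
    have h0 : (j : ℕ) ≠ 0 := fun e => hj (Fin.ext e)
    have h1 : (j : ℕ) ≠ 1 := fun e => hja (Fin.ext e)
    have h3 : (j : ℕ) ≠ 3 := fun e => hjb (Fin.ext e)
    simp only [tri, h0, h1, h3, if_false]
    exact h.hz j h0 h1 h3

theorem TriOK.injective (h : TriOK k c u P ε z) : Function.Injective (tri k c u P ε z) := by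
  have hεc : (ε : ℂ) ≠ 0 := by exact_mod_cast h.hε.ne'
  have hin : ∀ i : Fin k, ((i : ℕ) = 0 ∨ (i : ℕ) = 1 ∨ (i : ℕ) = 3) →
      ‖tri k c u P ε z i - P‖ ≤ ε := by
    have hn : ∀ v : ℂ, ‖P + ε * v - P‖ = ε * ‖v‖ := by
      intro v
      rw [add_sub_cancel_left, norm_mul, Complex.norm_real, Real.norm_eq_abs, abs_of_pos h.hε]
    intro i hi
    have hε := h.hε
    rcases hi with hi | hi | hi
    · simp only [tri, hi, if_true]
      rw [hn]
      have := h.hc
      nlinarith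
    · simp only [tri, hi, one_ne_zero, if_false, if_true]
      have := hn 1
      rw [mul_one, norm_one, mul_one] at this
      rw [this]
    · simp only [tri, hi]
      rw [if_neg (by norm_num), if_neg (by norm_num), if_pos trivial, hn, h.hu, mul_one]
  have hout : ∀ i : Fin k, ¬ ((i : ℕ) = 0 ∨ (i : ℕ) = 1 ∨ (i : ℕ) = 3) →
      ε < ‖tri k c u P ε z i - P‖ := by
    intro i hi
    rw [not_or, not_or] at hi
    simp only [tri, hi.1, hi.2.1, hi.2.2, if_false]
    exact h.hz i hi.1 hi.2.1 hi.2.2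
  intro i j hij
  by_cases hi : (i : ℕ) = 0 ∨ (i : ℕ) = 1 ∨ (i : ℕ) = 3 <;>
    by_cases hj : (j : ℕ) = 0 ∨ (j : ℕ) = 1 ∨ (j : ℕ) = 3
  · by_contra hne
    have hne' : (i : ℕ) ≠ j := fun e => hne (Fin.ext e)
    have hval : ∀ l : Fin k, ((l : ℕ) = 0 → tri k c u P ε z l = P + ε * c) ∧
        ((l : ℕ) = 1 → tri k c u P ε z l = P + ε * 1) ∧
        ((l : ℕ) = 3 → tri k c u P ε z l = P + ε * u) := by
      intro l
      refine ⟨fun e => by simp [tri, e], fun e => by simp [tri, e], fun e => by simp [tri, e]⟩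
    have hcan : ∀ v v' : ℂ, P + ε * v = P + ε * v' → v = v' := fun v v' e =>
      mul_left_cancel₀ hεc (add_left_cancel e)
    have hc1 : c ≠ 1 := fun e => by have := h.hc; rw [e, norm_one] at this; exact lt_irrefl _ this
    have hcu : c ≠ u := fun e => by
      have := h.hc
      rw [e, h.hu] at this
      exact lt_irrefl _ this
    rcases hi with hi | hi | hi <;> rcases hj with hj | hj | hj
    · exact hne' (hi.trans hj.symm)
    · rw [(hval i).1 hi, (hval j).2.1 hj] at hij; exact hc1 (hcan _ _ hij)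
    · rw [(hval i).1 hi, (hval j).2.2 hj] at hij; exact hcu (hcan _ _ hij)
    · rw [(hval i).2.1 hi, (hval j).1 hj] at hij; exact hc1 (hcan _ _ hij).symm
    · exact hne' (hi.trans hj.symm)
    · rw [(hval i).2.1 hi, (hval j).2.2 hj] at hij; exact h.hu1 (hcan _ _ hij).symm
    · rw [(hval i).2.2 hi, (hval j).1 hj] at hij; exact hcu (hcan _ _ hij).symm
    · rw [(hval i).2.2 hi, (hval j).2.1 hj] at hij; exact h.hu1 (hcan _ _ hij)
    · exact hne' (hi.trans hj.symm)
  · have h1 := hin i hi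
    have h2 := hout j hj
    rw [hij] at h1
    linarith
  · have h1 := hin j hj
    have h2 := hout i hi
    rw [hij] at h2
    linarith
  · rw [not_or, not_or] at hi hj
    simp only [tri, hi.1, hi.2.1, hi.2.2, hj.1, hj.2.1, hj.2.2, if_false] at hij
    exact h.inj hij

end

/-- the property to be transported -/
def EqP (D : Datum k n) (hk : 5 ≤ k) (x : Fin k → ℂ) : Prop := ∀ κ μ, St D x κ μ →
  WI D x κ μ (insert (⟨1, by omega⟩ : Fin k) {(⟨0, by omega⟩ : Fin k)}) =
    WI D x κ μ (insert (⟨3, by omega⟩ : Fin k) {(⟨0, by omega⟩ : Fin k)})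

theorem EqP.tri (hk : 5 ≤ k) (hn : 0 < n) {c u P : ℝ → ℂ} {ε : ℝ → ℝ} {z : ℝ → Fin k → ℂ}
    (hc : Continuous c) (hu : Continuous u) (hP : Continuous P) (hε : Continuous ε)
    (hz : Continuous z) (hok : ∀ t, TriOK k (c t) (u t) (P t) (ε t) (z t))
    (h : EqP D hk (tri k (c 1) (u 1) (P 1) (ε 1) (z 1))) :
    EqP D hk (MP_7b99f3_ag.tri k (c 0) (u 0) (P 0) (ε 0) (z 0)) := by
  refine eq_transport (by omega) hn (X := fun t => MP_7b99f3_ag.tri k (c t) (u t) (P t) (ε t) (z t))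
    ?_ (fun t => (hok t).injective) (fun t => ((hok t).tie hk).sep (hok t).injective)
    (fun t => ((hok t).tie hk).symm.sep (hok t).injective) h
  rw [continuous_pi_iff]
  intro i
  unfold MP_7b99f3_ag.tri
  split_ifs <;> fun_prop

/-- primitive root for the polygon -/
noncomputable def zt (k : ℕ) : ℂ := Complex.exp (2 * Real.pi * Complex.I / ((k - 2 : ℕ) : ℂ))

theorem zt_prim (hk : 5 ≤ k) : IsPrimitiveRoot (zt k) (k - 2) :=
  Complex.isPrimitiveRoot_exp _ (by omega)

theorem norm_zt (hk : 5 ≤ k) : ‖zt k‖ = 1 := (zt_prim hk).norm'_eq_one (by omega)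

/-- the polygon configuration with some vertices pushed out -/
noncomputable def pg (k : ℕ) (u : ℝ) : Fin k → ℂ := fun i =>
  if (i : ℕ) = 0 then 0 else if (i : ℕ) = k - 1 then 2 else
    ((1 + if (i : ℕ) = 1 ∨ (i : ℕ) = 3 then 0 else u : ℝ) : ℂ) * zt k ^ ((i : ℕ) - 1)

theorem pg_vertex {u : ℝ} {i : Fin k} (h0 : (i : ℕ) ≠ 0) (h1 : (i : ℕ) ≠ k - 1) :
    pg k u i = ((1 + if (i : ℕ) = 1 ∨ (i : ℕ) = 3 then 0 else u : ℝ) : ℂ) *
      zt k ^ ((i : ℕ) - 1) := by
  simp [pg, h0, h1]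

theorem pg_zero {u : ℝ} {i : Fin k} (h0 : (i : ℕ) = 0) : pg k u i = 0 := by simp [pg, h0]

theorem pg_last (hk : 5 ≤ k) {u : ℝ} {i : Fin k} (h1 : (i : ℕ) = k - 1) : pg k u i = 2 := by
  have h0 : (i : ℕ) ≠ 0 := by omega
  unfold pg
  rw [if_neg h0, if_pos h1]

theorem norm_pg_vertex (hk : 5 ≤ k) {u : ℝ} (hu : 0 ≤ u) {i : Fin k} (h0 : (i : ℕ) ≠ 0)
    (h1 : (i : ℕ) ≠ k - 1) :
    ‖pg k u i‖ = 1 + if (i : ℕ) = 1 ∨ (i : ℕ) = 3 then 0 else u := by
  rw [pg_vertex h0 h1, norm_mul, norm_pow, norm_zt hk, one_pow, mul_one, Complex.norm_real,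
    Real.norm_eq_abs, abs_of_nonneg]
  split_ifs <;> linarith

theorem pg_injective (hk : 5 ≤ k) {u : ℝ} (hu : 0 ≤ u) : Function.Injective (pg k u) := by
  have hv0 : ∀ i : Fin k, (i : ℕ) ≠ 0 → pg k u i ≠ 0 := by
    intro i h0
    by_cases h1 : (i : ℕ) = k - 1
    · rw [pg_last hk h1]; exact two_ne_zero
    · rw [← norm_pos_iff, norm_pg_vertex hk hu h0 h1]
      split_ifs <;> linarith
  have hpw : ∀ a b : ℕ, a < k - 2 → b < k - 2 → zt k ^ a = zt k ^ b → a = b := fun a b ha hb h =>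
    (zt_prim hk).pow_inj ha hb h
  have hv2 : ∀ i : Fin k, (i : ℕ) ≠ 0 → (i : ℕ) ≠ k - 1 → pg k u i ≠ 2 := by
    intro i h0 h1 he
    have h2 := norm_pg_vertex hk hu h0 h1
    rw [he, Complex.norm_ofNat] at h2
    have h3 : ((i : ℕ) = 1 ∨ (i : ℕ) = 3) → False := by
      intro h; rw [if_pos h] at h2; norm_num at h2
    have hi2 := i.2
    have h4 := pg_vertex (u := u) h0 h1
    rw [if_neg h3] at h4 h2
    rw [he] at h4
    have h5 : ((1 + u : ℝ) : ℂ) = 2 := by rw [← h2]; norm_num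
    rw [h5] at h4
    have h6 : zt k ^ ((i : ℕ) - 1) = zt k ^ 0 := by
      rw [pow_zero]
      have h7 : (2 : ℂ) * (zt k ^ ((i : ℕ) - 1) - 1) = 0 := by linear_combination -h4
      have h8 := (mul_eq_zero.mp h7).resolve_left two_ne_zero
      exact sub_eq_zero.mp h8
    have h9 := hpw _ _ (by omega) (by omega) h6
    exact h3 (Or.inl (by omega))
  intro i j hij
  by_cases hi0 : (i : ℕ) = 0
  · by_cases hj0 : (j : ℕ) = 0
    · exact Fin.ext (by omega)
    · rw [pg_zero hi0] at hij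
      exact absurd hij.symm (hv0 j hj0)
  · by_cases hj0 : (j : ℕ) = 0
    · rw [pg_zero hj0] at hij
      exact absurd hij (hv0 i hi0)
    · by_cases hi1 : (i : ℕ) = k - 1
      · by_cases hj1 : (j : ℕ) = k - 1
        · exact Fin.ext (by omega)
        · rw [pg_last hk hi1] at hij
          exact absurd hij.symm (hv2 j hj0 hj1)
      · by_cases hj1 : (j : ℕ) = k - 1
        · rw [pg_last hk hj1] at hij
          exact absurd hij (hv2 i hi0 hi1)
        · have h1 := norm_pg_vertex hk hu hi0 hi1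
          have h2 := norm_pg_vertex hk hu hj0 hj1
          rw [hij, h2] at h1
          rw [pg_vertex hi0 hi1, pg_vertex hj0 hj1, h1] at hij
          have h3 : ((1 + if (i : ℕ) = 1 ∨ (i : ℕ) = 3 then 0 else u : ℝ) : ℂ) ≠ 0 := by
            have : (1 + if (i : ℕ) = 1 ∨ (i : ℕ) = 3 then 0 else u : ℝ) ≠ 0 := by
              split_ifs <;> positivity
            exact_mod_cast this
          have h4 := mul_left_cancel₀ h3 hij
          have hi2 := i.2
          have hj2 := j.2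
          have h5 := hpw _ _ (by omega) (by omega) h4
          exact Fin.ext (by omega)

/-- distance from a point outside the open unit disc to half of a unit vector -/
theorem half_lt {v w : ℂ} {ρ : ℝ} (hρ : 1 ≤ ρ) (hv : ‖v‖ = 1) (hw : ‖w‖ = 1) (hne : w ≠ v) :
    1 / 2 < ‖ρ * w - v / 2‖ := by
  have h1 : (1 / 2 : ℝ) ^ 2 < ‖(ρ : ℂ) * w - v / 2‖ ^ 2 := by
    have hv2 : v.re * v.re + v.im * v.im = 1 := by
      rw [← Complex.normSq_apply, ← Complex.sq_norm, hv]; norm_num
    have hw2 : w.re * w.re + w.im * w.im = 1 := by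
      rw [← Complex.normSq_apply, ← Complex.sq_norm, hw]; norm_num
    have hdiff : 0 < (w.re - v.re) ^ 2 + (w.im - v.im) ^ 2 := by
      by_contra hcon
      have h3 : (w.re - v.re) ^ 2 = 0 := by nlinarith [sq_nonneg (w.re - v.re), sq_nonneg (w.im - v.im)]
      have h4 : (w.im - v.im) ^ 2 = 0 := by nlinarith [sq_nonneg (w.re - v.re), sq_nonneg (w.im - v.im)]
      apply hne
      apply Complex.ext
      · have := pow_eq_zero_iff (two_ne_zero) |>.mp h3; linarith
      · have := pow_eq_zero_iff (two_ne_zero) |>.mp h4; linarith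
    rw [Complex.sq_norm, Complex.normSq_apply]
    simp only [Complex.sub_re, Complex.mul_re, Complex.ofReal_re, Complex.ofReal_im, zero_mul,
      sub_zero, Complex.div_ofNat_re, Complex.sub_im, Complex.mul_im, add_zero,
      Complex.div_ofNat_im]
    have hdot : w.re * v.re + w.im * v.im < 1 := by nlinarith
    have h5 : 0 < ρ * (ρ - (w.re * v.re + w.im * v.im)) := mul_pos (by linarith) (by linarith)
    have e : (ρ * w.re - v.re / 2) * (ρ * w.re - v.re / 2) +
        (ρ * w.im - v.im / 2) * (ρ * w.im - v.im / 2) =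
        ρ ^ 2 * (w.re * w.re + w.im * w.im) - ρ * (w.re * v.re + w.im * v.im) +
        (v.re * v.re + v.im * v.im) / 4 := by ring
    rw [e, hv2, hw2]
    nlinarith
  exact lt_of_pow_lt_pow_left₀ 2 (norm_nonneg _) h1

theorem pg_sep (hk : 5 ≤ k) {u : ℝ} (hu : 0 ≤ u) {a : Fin k} (ha : (a : ℕ) = 1 ∨ (a : ℕ) = 3) :
    SepAt (pg k u) (zt k ^ ((a : ℕ) - 1) / 2) (insert a {(⟨0, by omega⟩ : Fin k)}) := by
  have ha0 : (a : ℕ) ≠ 0 := by omega
  have ha1 : (a : ℕ) ≠ k - 1 := by omega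
  have hpow : ∀ m : ℕ, ‖zt k ^ m‖ = 1 := fun m => by rw [norm_pow, norm_zt hk, one_pow]
  have hval : pg k u a = zt k ^ ((a : ℕ) - 1) := by
    rw [pg_vertex ha0 ha1, if_pos ha]; simp
  refine sepAt_of_lt fun i hi j hj => ?_
  have hi' : ‖pg k u i - zt k ^ ((a : ℕ) - 1) / 2‖ = 1 / 2 := by
    rcases Finset.mem_insert.mp hi with rfl | hi
    · rw [hval, sub_half, norm_div, hpow]; norm_num
    · rw [Finset.mem_singleton] at hi
      rw [hi, pg_zero rfl, zero_sub, norm_neg, norm_div, hpow]; norm_num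
  rw [hi']
  rw [Finset.mem_insert, Finset.mem_singleton, not_or] at hj
  have hj0 : (j : ℕ) ≠ 0 := fun e => hj.2 (Fin.ext e)
  have hja : (j : ℕ) ≠ a := fun e => hj.1 (Fin.ext e)
  by_cases hj1 : (j : ℕ) = k - 1
  · rw [pg_last hk hj1]
    have h1 : ‖(2 : ℂ)‖ - ‖zt k ^ ((a : ℕ) - 1) / 2‖ ≤ ‖2 - zt k ^ ((a : ℕ) - 1) / 2‖ :=
      norm_sub_norm_le _ _
    rw [norm_div, hpow, Complex.norm_ofNat] at h1
    linarith
  · rw [pg_vertex hj0 hj1]
    refine half_lt ?_ (hpow _) (hpow _) ?_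
    · split_ifs <;> linarith
    · intro e
      have hj2 := j.2
      have := (zt_prim hk).pow_inj (by omega) (by omega) e
      omega

/-- the cyclic permutation of the vertices by two steps -/
def cyc (hk : 5 ≤ k) : Equiv.Perm (Fin k) where
  toFun := fun i => if h : (i : ℕ) = 0 ∨ (i : ℕ) = k - 1 then i else
    if h' : (i : ℕ) + 2 ≤ k - 2 then ⟨i + 2, by omega⟩ else ⟨i + 4 - k, by omega⟩
  invFun := fun i => if h : (i : ℕ) = 0 ∨ (i : ℕ) = k - 1 then i else
    if h' : 3 ≤ (i : ℕ) then ⟨i - 2, by omega⟩ else ⟨i + k - 4, by omega⟩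
  left_inv := by
    intro i
    have hi := i.2
    apply Fin.ext
    by_cases h : (i : ℕ) = 0 ∨ (i : ℕ) = k - 1
    · simp [h]
    · by_cases h' : (i : ℕ) + 2 ≤ k - 2
      · have e1 : ¬ ((i : ℕ) + 2 = 0 ∨ (i : ℕ) + 2 = k - 1) := by omega
        have e2 : 3 ≤ (i : ℕ) + 2 := by omega
        simp only [h, h', dif_neg, dif_pos, not_false_iff, e1, e2]
        omega
      · have e1 : ¬ ((i : ℕ) + 4 - k = 0 ∨ (i : ℕ) + 4 - k = k - 1) := by omega
        have e2 : ¬ 3 ≤ (i : ℕ) + 4 - k := by omega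
        simp only [h, h', dif_neg, not_false_iff, e1, e2]
        omega
  right_inv := by
    intro i
    have hi := i.2
    apply Fin.ext
    by_cases h : (i : ℕ) = 0 ∨ (i : ℕ) = k - 1
    · simp [h]
    · by_cases h' : 3 ≤ (i : ℕ)
      · have e1 : ¬ ((i : ℕ) - 2 = 0 ∨ (i : ℕ) - 2 = k - 1) := by omega
        have e2 : (i : ℕ) - 2 + 2 ≤ k - 2 := by omega
        simp only [h, h', dif_neg, dif_pos, not_false_iff, e1, e2]
        omega
      · have e1 : ¬ ((i : ℕ) + k - 4 = 0 ∨ (i : ℕ) + k - 4 = k - 1) := by omega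
        have e2 : ¬ (i : ℕ) + k - 4 + 2 ≤ k - 2 := by omega
        simp only [h, h', dif_neg, not_false_iff, e1, e2]
        omega

theorem exp_shift :
    Complex.exp (2 * Real.pi * Complex.I * k / ((k - 2 : ℕ) : ℂ)) = zt k ^ k := by
  unfold zt
  rw [← Complex.exp_nat_mul]
  congr 1
  ring

theorem rot_pg (hk : 5 ≤ k) :
    rot (pg k 0) 0 (cl k (k - 1)) (2 * Real.pi * Complex.I * k / ((k - 2 : ℕ) : ℂ)) =
      pg k 0 ∘ cyc hk := by
  have hz : zt k ^ (k - 2) = 1 := (zt_prim hk).pow_eq_one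
  have hzk : zt k ^ k = zt k ^ 2 := by
    calc zt k ^ k = zt k ^ ((k - 2) + 2) := by congr 1; omega
      _ = zt k ^ 2 := by rw [pow_add, hz, one_mul]
  funext i
  have hi := i.2
  simp only [rot, Function.comp_apply, zero_add, sub_zero, exp_shift, mem_cl]
  by_cases h0 : (i : ℕ) = 0
  · have h1 : cyc hk i = i := by simp [cyc, h0]
    rw [h1, pg_zero h0]; simp
  · by_cases hl : (i : ℕ) = k - 1
    · have h1 : cyc hk i = i := by simp [cyc, hl]
      rw [h1, if_neg (by omega)]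
    · rw [if_pos (by omega), pg_vertex h0 hl]
      have h : ¬ ((i : ℕ) = 0 ∨ (i : ℕ) = k - 1) := by omega
      by_cases h' : (i : ℕ) + 2 ≤ k - 2
      · have h1 : cyc hk i = ⟨i + 2, by omega⟩ := by
          simp only [cyc, Equiv.coe_fn_mk, h, h', dif_neg, dif_pos, not_false_iff]
        rw [h1, pg_vertex (by simp) (by simp; omega)]
        simp only [ite_self, add_zero, Complex.ofReal_one, one_mul]
        rw [hzk, ← pow_add]
        congr 1
        omega
      · have h1 : cyc hk i = ⟨i + 4 - k, by omega⟩ := by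
          simp only [cyc, Equiv.coe_fn_mk, h, h', dif_neg, not_false_iff]
        rw [h1, pg_vertex (by simp; omega) (by simp; omega)]
        simp only [ite_self, add_zero, Complex.ofReal_one, one_mul]
        rw [hzk, ← pow_add]
        have h2 : 2 + ((i : ℕ) - 1) = (k - 2) + ((i : ℕ) + 4 - k - 1) := by omega
        rw [h2, pow_add, hz, one_mul]

theorem cl_map_cyc (hk : 5 ≤ k) :
    (cl k (k - 1)).map (cyc hk).toEmbedding = cl k (k - 1) := by
  ext i
  have h1 : i = cyc hk ((cyc hk).symm i) := by simp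
  rw [h1, mem_map_perm, mem_cl, mem_cl]
  set l := (cyc hk).symm i
  have hl := l.2
  by_cases h : (l : ℕ) = 0 ∨ (l : ℕ) = k - 1
  · have h2 : cyc hk l = l := by simp [cyc, h]
    rw [h2]
  · by_cases h' : (l : ℕ) + 2 ≤ k - 2
    · have h1 : cyc hk l = ⟨l + 2, by omega⟩ := by
        simp only [cyc, Equiv.coe_fn_mk, h, h', dif_neg, dif_pos, not_false_iff]
      rw [h1]
      constructor <;> intro _ <;> first | omega | (simp; omega)
    · have h1 : cyc hk l = ⟨l + 4 - k, by omega⟩ := by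
        simp only [cyc, Equiv.coe_fn_mk, h, h', dif_neg, not_false_iff]
      rw [h1]
      constructor <;> intro _ <;> first | omega | (simp; omega)

theorem pg_sep_big (hk : 5 ≤ k) : SepAt (pg k 0) 0 (cl k (k - 1)) := by
  refine sepAt_of_lt fun i hi j hj => ?_
  rw [mem_cl] at hi hj
  have hj2 := j.2
  rw [sub_zero, sub_zero, pg_last hk (by omega : (j : ℕ) = k - 1), Complex.norm_ofNat]
  by_cases h0 : (i : ℕ) = 0
  · rw [pg_zero h0]; simp
  · rw [norm_pg_vertex hk le_rfl h0 (by omega)]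
    simp

/-- the relation at the polygon configuration -/
theorem eqP_pg (hk : 5 ≤ k) (hn : 2 ≤ n) (hV : Van D (k - 1)) : EqP D hk (pg k 0) := by
  intro κ μ h
  have hk2 : 2 ≤ k := by omega
  have hn0 : 0 < n := by omega
  set s : ℂ := 2 * Real.pi * Complex.I * k / ((k - 2 : ℕ) : ℂ) with hs
  have hsre : s.re = 0 := by
    rw [hs, show (2 * Real.pi * Complex.I * k / ((k - 2 : ℕ) : ℂ) : ℂ) =
      ((2 * Real.pi * k / ((k - 2 : ℕ) : ℝ) : ℝ) : ℂ) * Complex.I by push_cast; ring]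
    simp
  set I := cl k (k - 1) with hI
  have hsep := pg_sep_big hk
  obtain ⟨δ, hδ, κ', μ', c1, c2, c3, c4, c5, μi, hμi, hlim⟩ := ext_state hk2 hn h hsep
    (hV _ _ _ h I (card_cl (by omega)) 0 hsep)
  -- the closed half-plane
  set A : Set ℂ := {w | w.re ≤ 0} with hA
  have hAc : Convex ℝ A := convex_halfSpace_re_le 0
  have hApc : PreconnectedSpace A := isPreconnected_iff_preconnectedSpace.mp hAc.isPreconnected
  have hAHP : ∀ w ∈ A, w ∈ HP δ := fun w hw => lt_of_le_of_lt hw hδ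
  have hAs : ∀ w ∈ A, w + s ∈ A := by
    intro w hw
    simp only [hA, Set.mem_ofPred_eq, Complex.add_re, hsre, add_zero] at hw ⊢
    exact hw
  have hκ : ∀ w ∈ A, κ' (w + s) = κ' w := by
    intro w hw
    have h1 := kap_rot hk2 (A := A) hsep (w := fun a => a.1) continuous_subtype_val
      (fun a => a.2) (κ := fun a => κ' a.1)
      (c1.comp_continuous continuous_subtype_val fun a => hAHP a.1 a.2)
      (fun a => (c3 a.1 (hAHP a.1 a.2)).kap) ⟨w, hw⟩ ⟨w + s, hAs w hw⟩
    simp only at h1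
    rw [h1, lam_shift (pg_injective hk le_rfl) (rot_pg hk)]
    have h2 : -(lam (pg k 0) 0 (cl k (k - 1)) w + ((cl k (k - 1)).card : ℂ) *
        (((cl k (k - 1)).card : ℂ) - 1) * s - lam (pg k 0) 0 (cl k (k - 1)) w) /
        ((k : ℂ) * (k - 1)) = -(2 * Real.pi * Complex.I) := by
      rw [card_cl (by omega), hs]
      have e1 : ((k - 2 : ℕ) : ℂ) = (k : ℂ) - 2 := by
        rw [Nat.cast_sub (by omega)]; norm_num
      have e2 : ((k - 1 : ℕ) : ℂ) = (k : ℂ) - 1 := by
        rw [Nat.cast_sub (by omega)]; norm_num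
      have e3 : (k : ℂ) - 2 ≠ 0 := by
        rw [← e1]; exact_mod_cast (by omega : k - 2 ≠ 0)
      have e4 : (k : ℂ) - 1 ≠ 0 := by
        rw [← e2]; exact_mod_cast (by omega : k - 1 ≠ 0)
      have e5 : (k : ℂ) ≠ 0 := by exact_mod_cast (by omega : k ≠ 0)
      rw [e1, e2]
      field_simp
      ring
    rw [h2, Complex.exp_neg, Complex.exp_two_pi_mul_I]
    simp
  have hrot : ∀ w, rot (pg k 0) 0 I (w + s) = rot (pg k 0) 0 I w ∘ cyc hk := by
    intro w
    rw [add_comm, ← rot_add, rot_pg hk, rot_comp_perm, cl_map_cyc]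
  obtain ⟨π, hπ⟩ := shift_label hk2 hn0 (A := A) (X := fun a => rot (pg k 0) 0 I a.1)
    (κ := fun a => κ' a.1) (μ := fun a => μ' a.1)
    (c2.comp_continuous continuous_subtype_val fun a => hAHP a.1 a.2)
    (fun a => c3 a.1 (hAHP a.1 a.2)) (τ := fun a => ⟨a.1 + s, hAs a.1 a.2⟩)
    (Continuous.subtype_mk (by fun_prop) _) (cyc hk) (fun a => hrot a.1)
    (fun a => hκ a.1 a.2) ⟨0, by simp [hA]⟩
  -- the permutation is trivial
  have hπ1 : ∀ a, π a = a := by
    intro a
    apply hμi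
    have h1 : Tendsto (fun w => μ' (w + s) a) LE (𝓝 (μi a)) := by
      have h2 : Tendsto (fun w : ℂ => w + s) LE LE := by
        unfold LE
        rw [tendsto_comap_iff]
        have h3 : (Complex.re ∘ fun w : ℂ => w + s) = Complex.re := by
          funext w; simp [hsre]
        rw [h3]
        exact tendsto_comap
      exact ((tendsto_pi_nhds.mp hlim) a).comp h2
    have h2 : Tendsto (fun w => μ' w (π a)) LE (𝓝 (μi (π a))) := (tendsto_pi_nhds.mp hlim) (π a)
    have h3 : Tendsto (fun w => μ' (w + s) a) LE (𝓝 (μi (π a))) := by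
      refine h2.congr' ?_
      filter_upwards [HP_mem_LE 0] with w hw
      have := congrFun (hπ ⟨w, (show w ∈ A from le_of_lt (show w.re < 0 from hw))⟩) a
      simpa using this.symm
    have hne : LE.NeBot := by
      unfold LE
      rw [comap_neBot_iff]
      intro t ht
      obtain ⟨b, hb⟩ := mem_atBot_sets.mp ht
      exact ⟨(b : ℂ), by simpa using hb b le_rfl⟩
    exact tendsto_nhds_unique h3 h1
  have hμs : μ' s = μ := by
    have h1 := hπ ⟨0, by simp [hA]⟩
    simp only [zero_add] at h1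
    rw [h1, c5]
    funext a
    simp [hπ1]
  have hκs : κ' s = κ := by
    have := hκ 0 (by simp [hA])
    rw [zero_add] at this
    rw [this, c4]
  -- the path
  have hmem : ∀ t : ℝ, (clamp t : ℂ) * s ∈ HP δ := by
    intro t
    simp only [HP, Set.mem_ofPred_eq, Complex.re_ofReal_mul, hsre, mul_zero]
    exact hδ
  have hclc := continuous_clamp
  have hpath : Continuous fun t : ℝ => (clamp t : ℂ) * s := by fun_prop
  set J : Finset (Fin k) := insert (⟨1, by omega⟩ : Fin k) {(⟨0, by omega⟩ : Fin k)} with hJ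
  have hsepJ : ∀ t : ℝ, SepAt (rot (pg k 0) 0 I ((clamp t : ℂ) * s))
      (Complex.exp ((clamp t : ℂ) * s) * (1 / 2)) J := by
    intro t
    have h1 := pg_sep hk (le_refl (0 : ℝ)) (a := ⟨1, by omega⟩) (Or.inl rfl)
    simp only [tsub_self, pow_zero] at h1
    have hn1 : ‖Complex.exp ((clamp t : ℂ) * s)‖ = 1 := by
      rw [Complex.norm_exp, Complex.re_ofReal_mul, hsre, mul_zero, Real.exp_zero]
    refine sepAt_of_lt fun i hi j hj => ?_
    have hin : ∀ l ∈ I, ‖rot (pg k 0) 0 I ((clamp t : ℂ) * s) l -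
        Complex.exp ((clamp t : ℂ) * s) * (1 / 2)‖ = ‖pg k 0 l - 1 / 2‖ := by
      intro l hl
      simp only [rot, hl, if_true, zero_add, sub_zero]
      rw [← mul_sub, norm_mul, hn1, one_mul]
    have hiI : i ∈ I := by
      rw [hI, mem_cl]
      rcases Finset.mem_insert.mp hi with rfl | hi
      · simp; omega
      · rw [Finset.mem_singleton] at hi; subst hi; simp; omega
    rw [hin i hiI]
    by_cases hjI : j ∈ I
    · rw [hin j hjI]
      exact h1.lt hi hj
    · have hi1 : ‖pg k 0 i - 1 / 2‖ = 1 / 2 := by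
        rcases Finset.mem_insert.mp hi with rfl | hi
        · rw [pg_vertex (by simp) (by simp; omega)]
          simp only [true_or, if_true, add_zero, Complex.ofReal_one, tsub_self, pow_zero, one_mul]
          norm_num
        · rw [Finset.mem_singleton] at hi
          subst hi
          rw [pg_zero rfl]; norm_num
      rw [hi1]
      have hj' : rot (pg k 0) 0 I ((clamp t : ℂ) * s) j = 2 := by
        have hj2 := j.2
        rw [hI, mem_cl] at hjI
        have h3 : (j : ℕ) = k - 1 := by omega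
        simp only [rot]
        rw [if_neg (by rw [hI, mem_cl]; omega), pg_last hk h3]
      rw [hj']
      have h2 : ‖(2 : ℂ)‖ - ‖Complex.exp ((clamp t : ℂ) * s) * (1 / 2)‖ ≤
          ‖2 - Complex.exp ((clamp t : ℂ) * s) * (1 / 2)‖ := norm_sub_norm_le _ _
      rw [norm_mul, hn1, Complex.norm_ofNat] at h2
      norm_num at h2
      linarith
  have hWI := WI_path hk2 hn0
    (x := fun t : ℝ => rot (pg k 0) 0 I ((clamp t : ℂ) * s))
    (κ := fun t : ℝ => κ' ((clamp t : ℂ) * s)) (μ := fun t : ℝ => μ' ((clamp t : ℂ) * s)) (I := J)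
    (continuous_rot continuous_const continuous_const hpath I)
    (c1.comp_continuous hpath hmem) (c2.comp_continuous hpath hmem) (fun t => c3 _ (hmem t))
    (fun t => ⟨_, hsepJ t⟩) 0 1
  have hs1 := hsepJ 1
  simp only [clamp_zero, clamp_one, Complex.ofReal_zero, Complex.ofReal_one, zero_mul, one_mul,
    c4, c5, hμs, hκs, rot_zero] at hWI hs1
  rw [hs, hI, rot_pg hk] at hWI hs1
  rw [hWI, WI_perm hk2 hn0 h (cyc hk) hs1]
  congr 1
  rw [hJ]
  ext l
  rw [Finset.map_insert, Finset.map_singleton]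
  have e1 : (cyc hk).toEmbedding (⟨1, by omega⟩ : Fin k) = ⟨3, by omega⟩ := by
    apply Fin.ext
    have h1 : ¬ ((1 : ℕ) = 0 ∨ (1 : ℕ) = k - 1) := by omega
    have h2 : (1 : ℕ) + 2 ≤ k - 2 := by omega
    simp only [cyc, Equiv.toEmbedding_apply, Equiv.coe_fn_mk, h1, h2, dif_neg, dif_pos,
      not_false_iff]
  have e2 : (cyc hk).toEmbedding (⟨0, by omega⟩ : Fin k) = ⟨0, by omega⟩ := by
    simp [cyc]
  rw [e1, e2]

end Pool.Agent.Lib.MP_7b99f3_ag
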