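import Pool.Agent.Lib.MP_7b99f3_ag.StepD

/-!
The tie lemma for pairs.
-/

namespace Pool.Agent.Lib.MP_7b99f3_ag

open Topology Filter

variable {k n : ℕ} {D : Datum k n}

theorem exists_angle {u : ℂ} (hu : ‖u‖ = 1) (hu1 : u ≠ 1) :
    ∃ β : ℝ, 0 < β ∧ β < 2 * Real.pi ∧ Complex.exp (β * Complex.I) = u := by
  have h1 : Complex.exp (Complex.arg u * Complex.I) = u := by
    have := Complex.norm_mul_exp_arg_mul_I u
    rwa [hu, Complex.ofReal_one, one_mul] at this
  have h2 := Complex.neg_pi_lt_arg u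
  have h3 := Complex.arg_le_pi u
  have hpi := Real.pi_pos
  rcases lt_trichotomy (Complex.arg u) 0 with h | h | h
  · refine ⟨Complex.arg u + 2 * Real.pi, by linarith, by linarith, ?_⟩
    have : ((Complex.arg u + 2 * Real.pi : ℝ) : ℂ) * Complex.I =
        Complex.arg u * Complex.I + 2 * Real.pi * Complex.I := by push_cast; ring
    rw [this, Complex.exp_add, h1, Complex.exp_two_pi_mul_I, mul_one]
  · exfalso
    rw [h] at h1
    simp at h1
    exact hu1 h1.symm
  · exact ⟨Complex.arg u, h, by linarith, h1⟩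

theorem exp_angle_ne_one {β : ℝ} (h0 : 0 < β) (h1 : β < 2 * Real.pi) :
    Complex.exp (β * Complex.I) ≠ 1 := by
  intro h
  rw [Complex.exp_eq_one_iff] at h
  obtain ⟨m, hm⟩ := h
  have h2 : (β : ℂ) = ((m * (2 * Real.pi) : ℝ) : ℂ) := by
    have h3 : (β : ℂ) * Complex.I = (((m : ℝ) * (2 * Real.pi) : ℝ) : ℂ) * Complex.I := by
      rw [hm]; push_cast; ring
    exact mul_right_cancel₀ Complex.I_ne_zero h3
  have h3 : β = m * (2 * Real.pi) := by exact_mod_cast h2
  have hpi := Real.pi_pos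
  have h4 : (0 : ℝ) < m := by
    by_contra hcon
    have : (m : ℝ) ≤ 0 := not_lt.mp hcon
    nlinarith
  have h5 : (m : ℝ) < 1 := by
    by_contra hcon
    have : (1 : ℝ) ≤ m := not_lt.mp hcon
    nlinarith
  have h6 : (0 : ℤ) < m := by exact_mod_cast h4
  have h7 : m < 1 := by exact_mod_cast h5
  omega

/-- pushing the other vertices outwards -/
theorem eqP_pg_one (hk : 5 ≤ k) (hn : 0 < n) (h : EqP D hk (pg k 0)) : EqP D hk (pg k 1) := by
  have hcl := continuous_clamp
  have hnn : ∀ t, 0 ≤ 1 - clamp t := fun t => by have := clamp_le_one t; linarith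
  have := eq_transport (D := D) (by omega : 2 ≤ k) hn (X := fun t => pg k (1 - clamp t))
    (J := insert (⟨1, by omega⟩ : Fin k) {(⟨0, by omega⟩ : Fin k)})
    (J' := insert (⟨3, by omega⟩ : Fin k) {(⟨0, by omega⟩ : Fin k)})
    ?_ (fun t => pg_injective hk (hnn t))
    (fun t => ⟨_, pg_sep hk (hnn t) (a := ⟨1, by omega⟩) (Or.inl rfl)⟩)
    (fun t => ⟨_, pg_sep hk (hnn t) (a := ⟨3, by omega⟩) (Or.inr rfl)⟩) ?_
  · simpa [EqP, clamp_zero] using this
  · rw [continuous_pi_iff]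
    intro i
    unfold pg
    by_cases h1 : (i : ℕ) = 0
    · simp only [h1, if_true]; exact continuous_const
    · by_cases h2 : (i : ℕ) = k - 1
      · simp only [h2, if_true]; split_ifs <;> exact continuous_const
      · by_cases h3 : (i : ℕ) = 1 ∨ (i : ℕ) = 3
        · simp only [h1, h2, h3, if_true, if_false]; exact continuous_const
        · simp only [h1, h2, h3, if_false]; fun_prop
  · simpa [EqP, clamp_one] using h

theorem norm_pg_one (hk : 5 ≤ k) {i : Fin k} (h0 : (i : ℕ) ≠ 0) (h1 : (i : ℕ) ≠ 1)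
    (h3 : (i : ℕ) ≠ 3) : ‖pg k 1 i‖ = 2 := by
  by_cases hl : (i : ℕ) = k - 1
  · rw [pg_last hk hl, Complex.norm_ofNat]
  · rw [norm_pg_vertex hk zero_le_one h0 hl, if_neg (by omega)]
    norm_num

theorem zt_sq :
    zt k ^ 2 = Complex.exp ((4 * Real.pi / ((k - 2 : ℕ) : ℝ) : ℝ) * Complex.I) := by
  unfold zt
  rw [← Complex.exp_nat_mul]
  congr 1
  push_cast
  ring

theorem tri_pg (hk : 5 ≤ k) : tri k 0 (zt k ^ 2) 0 1 (pg k 1) = pg k 1 := by
  funext i
  unfold tri
  by_cases h0 : (i : ℕ) = 0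
  · rw [if_pos h0, pg_zero h0]; simp
  · by_cases h1 : (i : ℕ) = 1
    · rw [if_neg h0, if_pos h1, pg_vertex h0 (by omega), if_pos (Or.inl h1), h1]; simp
    · by_cases h3 : (i : ℕ) = 3
      · rw [if_neg h0, if_neg h1, if_pos h3, pg_vertex h0 (by omega), if_pos (Or.inr h3), h3]
        simp
      · rw [if_neg h0, if_neg h1, if_neg h3]

/-- deforming the shape of the triple -/
theorem eqP_shape (hk : 5 ≤ k) (hn : 0 < n) (h : EqP D hk (pg k 1)) {c u : ℂ} (hc : ‖c‖ < 1)
    (hu : ‖u‖ = 1) (hu1 : u ≠ 1) : EqP D hk (tri k c u 0 1 (pg k 1)) := by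
  obtain ⟨β, hβ0, hβ1, hβ⟩ := exists_angle hu hu1
  set β₀ : ℝ := 4 * Real.pi / ((k - 2 : ℕ) : ℝ) with hβ₀
  have hq : (3 : ℝ) ≤ ((k - 2 : ℕ) : ℝ) := by exact_mod_cast (by omega : 3 ≤ k - 2)
  have hpi := Real.pi_pos
  have hβ₀0 : 0 < β₀ := by rw [hβ₀]; positivity
  have hβ₀1 : β₀ < 2 * Real.pi := by
    rw [hβ₀, div_lt_iff₀ (by linarith)]
    nlinarith
  have hcl := continuous_clamp
  set γ : ℝ → ℝ := fun t => (1 - clamp t) * β + clamp t * β₀ with hγ
  have hγ0 : ∀ t, 0 < γ t ∧ γ t < 2 * Real.pi := by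
    intro t
    have h1 := clamp_nonneg t
    have h2 := clamp_le_one t
    simp only [hγ]
    constructor
    · rcases h1.eq_or_lt with h3 | h3
      · rw [← h3]; simpa using hβ0
      · have : 0 < clamp t * β₀ := by positivity
        nlinarith
    · rcases h1.eq_or_lt with h3 | h3
      · rw [← h3]; simpa using hβ1
      · nlinarith
  have key := EqP.tri (D := D) hk hn (c := fun t => (1 - clamp t : ℝ) * c)
    (u := fun t => Complex.exp (γ t * Complex.I)) (P := fun _ => 0) (ε := fun _ => 1)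
    (z := fun _ => pg k 1) (by fun_prop) (by fun_prop) continuous_const continuous_const
    continuous_const (fun t => ?_) ?_
  · simpa [clamp_zero, hγ, hβ] using key
  · refine ⟨?_, Complex.norm_exp_ofReal_mul_I _, exp_angle_ne_one (hγ0 t).1 (hγ0 t).2, one_pos,
      fun i h0 h1 h3 => ?_, pg_injective hk zero_le_one⟩
    · have h1 := clamp_nonneg t
      have h2 := clamp_le_one t
      rw [norm_mul, Complex.norm_real, Real.norm_eq_abs, abs_of_nonneg (by linarith)]
      have := norm_nonneg c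
      nlinarith
    · rw [sub_zero, norm_pg_one hk h0 h1 h3]; norm_num
  · have h1 : tri k ((1 - clamp 1 : ℝ) * c) (Complex.exp (γ 1 * Complex.I)) 0 1 (pg k 1) =
        pg k 1 := by
      have h2 : ((1 - clamp 1 : ℝ) : ℂ) * c = 0 := by simp [clamp_one]
      have h3 : Complex.exp (γ 1 * Complex.I) = zt k ^ 2 := by
        rw [zt_sq]
        congr 2
        simp [hγ, clamp_one, hβ₀]
      rw [h2, h3, tri_pg hk]
    have h4 : EqP D hk (tri k ((1 - clamp 1 : ℝ) * c) (Complex.exp (γ 1 * Complex.I)) 0 1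
        (pg k 1)) := by rw [h1]; exact h
    exact h4

/-- changing the scale of the triple -/
theorem eqP_scale (hk : 5 ≤ k) (hn : 0 < n) {c u P : ℂ} (hc : ‖c‖ < 1)
    (hu : ‖u‖ = 1) (hu1 : u ≠ 1) {z : Fin k → ℂ} (hz : Function.Injective z) {ε ε' : ℝ}
    (hε : 0 < ε) (hε' : 0 < ε')
    (h1 : ∀ i : Fin k, (i : ℕ) ≠ 0 → (i : ℕ) ≠ 1 → (i : ℕ) ≠ 3 → ε < ‖z i - P‖)
    (h2 : ∀ i : Fin k, (i : ℕ) ≠ 0 → (i : ℕ) ≠ 1 → (i : ℕ) ≠ 3 → ε' < ‖z i - P‖)
    (h : EqP D hk (tri k c u P ε' z)) : EqP D hk (tri k c u P ε z) := by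
  have hcl := continuous_clamp
  have key := EqP.tri (D := D) hk hn (c := fun _ => c) (u := fun _ => u) (P := fun _ => P)
    (ε := fun t => (1 - clamp t) * ε + clamp t * ε') (z := fun _ => z) continuous_const
    continuous_const continuous_const (by fun_prop) continuous_const (fun t => ?_) ?_
  · simpa [clamp_zero] using key
  · have h3 := clamp_nonneg t
    have h4 := clamp_le_one t
    refine ⟨hc, hu, hu1, ?_, fun i e0 e1 e3 => ?_, hz⟩
    · rcases h3.eq_or_lt with h5 | h5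
      · rw [← h5]; simpa using hε
      · have : 0 < clamp t * ε' := by positivity
        nlinarith
    · have e4 := h1 i e0 e1 e3
      have e5 := h2 i e0 e1 e3
      rcases h3.eq_or_lt with h5 | h5
      · rw [← h5]; simpa using e4
      · nlinarith
  · simpa [clamp_one] using h

/-- moving the triple and the other points -/
theorem eqP_move (hk : 5 ≤ k) (hn : 0 < n) {c u : ℂ} (hc : ‖c‖ < 1)
    (hu : ‖u‖ = 1) (hu1 : u ≠ 1) {z z' : Fin k → ℂ} (hz : Function.Injective z)
    (hz' : Function.Injective z')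
    (h : EqP D hk (tri k c u (z' ⟨0, by omega⟩) (dl z') z')) :
    EqP D hk (tri k c u (z ⟨0, by omega⟩) (dl z) z) := by
  obtain ⟨Y, hY, hYi, rfl, rfl⟩ := conf_path hz hz'
  have key := EqP.tri (D := D) hk hn (c := fun _ => c) (u := fun _ => u)
    (P := fun t => Y t ⟨0, by omega⟩) (ε := fun t => dl (Y t)) (z := Y) continuous_const
    continuous_const ((continuous_apply (⟨0, by omega⟩ : Fin k)).comp hY)
    (continuous_dl hY hYi) hY
    (fun t => ⟨hc, hu, hu1, dl_pos _, fun i e0 _ _ => ?_, hYi t⟩) h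
  · exact key
  · exact dl_lt (hYi t) (fun e => e0 (by rw [e]))

/-- the relation for a normalised tie -/
theorem eqP_norm (hk : 5 ≤ k) (hn : 0 < n) (h : EqP D hk (pg k 0)) {y : Fin k → ℂ}
    (hy : Function.Injective y)
    (ht : TieAt y 0 1 {(⟨0, by omega⟩ : Fin k)} ⟨1, by omega⟩ ⟨3, by omega⟩)
    (hy1 : y ⟨1, by omega⟩ = 1) : EqP D hk y := by
  have hc : ‖y ⟨0, by omega⟩‖ < 1 := by simpa using ht.ins _ (Finset.mem_singleton_self _)
  have hu : ‖y ⟨3, by omega⟩‖ = 1 := by simpa using ht.eb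
  have hu1 : y ⟨3, by omega⟩ ≠ 1 := by
    intro e
    rw [← hy1] at e
    exact ht.ne (hy e).symm
  have hout : ∀ i : Fin k, (i : ℕ) ≠ 0 → (i : ℕ) ≠ 1 → (i : ℕ) ≠ 3 → 1 < ‖y i‖ := by
    intro i h0 h1 h3
    have := ht.out i (by simpa using fun e => h0 (by rw [e])) (fun e => h1 (by rw [e]))
      (fun e => h3 (by rw [e]))
    simpa using this
  have hnz : ∀ i : Fin k, i ≠ ⟨0, by omega⟩ → y i ≠ 0 := by
    intro i h0
    have h0' : (i : ℕ) ≠ 0 := fun e => h0 (Fin.ext e)
    by_cases h1 : (i : ℕ) = 1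
    · have : i = ⟨1, by omega⟩ := Fin.ext h1
      rw [this, hy1]; exact one_ne_zero
    · by_cases h3 : (i : ℕ) = 3
      · have : i = ⟨3, by omega⟩ := Fin.ext h3
        rw [this]
        intro e
        rw [e, norm_zero] at hu
        exact zero_ne_one hu
      · have := hout i h0' h1 h3
        exact norm_pos_iff.mp (by linarith)
  set z := Function.update y ⟨0, by omega⟩ 0 with hz
  have hzi : Function.Injective z := update_injective hy hnz
  have hz0 : z ⟨0, by omega⟩ = 0 := by rw [hz, Function.update_self]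
  have hzne : ∀ i : Fin k, (i : ℕ) ≠ 0 → z i = y i := by
    intro i h0
    rw [hz, Function.update_of_ne]
    intro e
    exact h0 (by rw [e])
  have heq : y = tri k (y ⟨0, by omega⟩) (y ⟨3, by omega⟩) 0 1 z := by
    funext i
    unfold tri
    by_cases h0 : (i : ℕ) = 0
    · have : i = ⟨0, by omega⟩ := Fin.ext h0
      rw [if_pos h0, this]; simp
    · by_cases h1 : (i : ℕ) = 1
      · have : i = ⟨1, by omega⟩ := Fin.ext h1
        rw [if_neg h0, if_pos h1, this, hy1]; simp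
      · by_cases h3 : (i : ℕ) = 3
        · have : i = ⟨3, by omega⟩ := Fin.ext h3
          rw [if_neg h0, if_neg h1, if_pos h3, this]; simp
        · rw [if_neg h0, if_neg h1, if_neg h3, hzne i h0]
  have hpi : Function.Injective (pg k 1) := pg_injective hk zero_le_one
  have s1 := eqP_shape hk hn (eqP_pg_one hk hn h) hc hu hu1
  have s2 : EqP D hk (tri k (y ⟨0, by omega⟩) (y ⟨3, by omega⟩) (pg k 1 ⟨0, by omega⟩)
      (dl (pg k 1)) (pg k 1)) := by
    rw [pg_zero rfl]
    refine eqP_scale hk hn hc hu hu1 hpi (dl_pos _) one_pos (fun i h0 _ _ => ?_)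
      (fun i h0 h1 h3 => ?_) s1
    · have := dl_lt hpi (a := i) (b := ⟨0, by omega⟩) (fun e => h0 (by rw [e]))
      rwa [pg_zero (i := (⟨0, by omega⟩ : Fin k)) rfl] at this
    · rw [sub_zero, norm_pg_one hk h0 h1 h3]; norm_num
  have s3 := eqP_move hk hn hc hu hu1 hzi hpi s2
  rw [hz0] at s3
  rw [heq]
  refine eqP_scale hk hn hc hu hu1 hzi one_pos (dl_pos z) (fun i h0 h1 h3 => ?_)
      (fun i h0 _ _ => ?_) s3
  · rw [sub_zero, hzne i h0]; exact hout i h0 h1 h3
  · have := dl_lt hzi (a := i) (b := ⟨0, by omega⟩) (fun e => h0 (by rw [e]))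
    rwa [hz0] at this

theorem exists_perm_three {i l m i' l' m' : Fin k} (h1 : i ≠ l) (h2 : i ≠ m) (h3 : l ≠ m)
    (h1' : i' ≠ l') (h2' : i' ≠ m') (h3' : l' ≠ m') :
    ∃ σ : Equiv.Perm (Fin k), σ i = i' ∧ σ l = l' ∧ σ m = m' := by
  obtain ⟨σ, rfl, rfl⟩ := exists_perm_two h1 h1'
  refine ⟨σ.trans (Equiv.swap (σ m) m'), ?_, ?_, ?_⟩
  · rw [Equiv.trans_apply, Equiv.swap_apply_of_ne_of_ne (fun e => h2 (σ.injective e)) h2']
  · rw [Equiv.trans_apply, Equiv.swap_apply_of_ne_of_ne (fun e => h3 (σ.injective e)) h3']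
  · rw [Equiv.trans_apply, Equiv.swap_apply_left]

/-- the tie lemma for pairs -/
theorem tie_two (hk : 5 ≤ k) (hn : 0 < n) (h : EqP D hk (pg k 0)) : Tie D 2 := by
  intro x κ μ hst p₀ r J a b ht hJ
  have hk2 : 2 ≤ k := by omega
  obtain ⟨c, rfl⟩ := Finset.card_eq_one.mp (by omega : J.card = 1)
  have hca : c ≠ a := fun e => ht.ha (by rw [e]; exact Finset.mem_singleton_self _)
  have hcb : c ≠ b := fun e => ht.hb (by rw [e]; exact Finset.mem_singleton_self _)
  obtain ⟨σ, hσ0, hσ1, hσ3⟩ := exists_perm_three (k := k) (i := ⟨0, by omega⟩)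
    (l := ⟨1, by omega⟩) (m := ⟨3, by omega⟩) (by simp) (by simp) (by simp) hca hcb ht.ne
  have hr : 0 < r := (norm_nonneg _).trans_lt (ht.ins c (Finset.mem_singleton_self _))
  have hxa : x a - p₀ ≠ 0 := by
    intro e
    have := ht.ea
    rw [e, norm_zero] at this
    exact hr.ne this
  set l : ℂ := (x a - p₀)⁻¹ with hl
  have hl0 : l ≠ 0 := inv_ne_zero hxa
  have hln : ‖l‖ = r⁻¹ := by rw [hl, norm_inv, ht.ea]
  set y : Fin k → ℂ := fun i => l * (x ∘ σ) i + (-(l * p₀)) with hy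
  have hyi : Function.Injective y := by
    intro i j hij
    simp only [hy] at hij
    have h1 := mul_left_cancel₀ hl0 (add_right_cancel hij)
    exact σ.injective (hst.inj h1)
  have hnorm : ∀ i, ‖y i - 0‖ = r⁻¹ * ‖x (σ i) - p₀‖ := by
    intro i
    rw [← hln, ← norm_mul, sub_zero]
    congr 1
    simp only [hy, Function.comp_apply]; ring
  have hrc : r⁻¹ * r = 1 := inv_mul_cancel₀ hr.ne'
  have hri : 0 < r⁻¹ := inv_pos.mpr hr
  have hty : TieAt y 0 1 {(⟨0, by omega⟩ : Fin k)} ⟨1, by omega⟩ ⟨3, by omega⟩ := by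
    refine ⟨by simp, by simp, by simp, ?_, ?_, ?_, ?_⟩
    · intro j hj
      rw [Finset.mem_singleton] at hj
      subst hj
      rw [hnorm, hσ0, ← hrc]
      exact mul_lt_mul_of_pos_left (ht.ins c (Finset.mem_singleton_self _)) hri
    · rw [hnorm, hσ1, ht.ea, hrc]
    · rw [hnorm, hσ3, ht.eb, hrc]
    · intro j hj hja hjb
      rw [Finset.mem_singleton] at hj
      rw [hnorm, ← hrc]
      refine mul_lt_mul_of_pos_left (ht.out (σ j) ?_ ?_ ?_) hri
      · rw [Finset.mem_singleton, ← hσ0]; exact fun e => hj (σ.injective e)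
      · rw [← hσ1]; exact fun e => hja (σ.injective e)
      · rw [← hσ3]; exact fun e => hjb (σ.injective e)
  have hy1 : y ⟨1, by omega⟩ = 1 := by
    simp only [hy, Function.comp_apply, hσ1, hl]
    field_simp
    ring
  have hP := eqP_norm hk hn h hyi hty hy1
  have hst2 := hst.comp_perm (by omega) σ
  have hst3 := hst2.affine (by omega) hl0 (-(l * p₀))
  have hfin := hP _ _ hst3
  -- transfer back
  have hback : ∀ (j : Fin k) (e : Fin k), σ j = e →
      (∃ p, SepAt x p (insert e {c})) →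
      WI D y (κ / l) μ (insert j {(⟨0, by omega⟩ : Fin k)}) = WI D x κ μ (insert e {c}) := by
    rintro j e rfl ⟨p, hp⟩
    have hm : (insert j {(⟨0, by omega⟩ : Fin k)} : Finset (Fin k)).map σ.toEmbedding =
        insert (σ j) {c} := by
      rw [Finset.map_insert, Finset.map_singleton]
      simp [hσ0]
    have hsp : SepAt (x ∘ σ) p (insert j {(⟨0, by omega⟩ : Fin k)}) := by
      rw [SepAt.comp_perm, hm]; exact hp
    rw [← hm, ← WI_perm hk2 hn hst σ hsp, ← WI_affine hk2 hn hst2 hl0 (-(l * p₀)) hsp]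
  rw [hback _ a hσ1 (ht.sep hst.inj), hback _ b hσ3 (ht.symm.sep hst.inj)] at hfin
  exact hfin

/-- Step D: clusters of two points have no winding. -/
theorem van_two (hk : 5 ≤ k) (hn : 2 ≤ n) (hV : Van D (k - 1)) : Van D 2 :=
  van_of_con (by omega) (by omega) (by omega)
    (con_of_tie (by omega) (by omega) (tie_two hk (by omega) (eqP_pg hk hn hV)))

end Pool.Agent.Lib.MP_7b99f3_ag
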