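import Pool.Agent.Lib.MP_7b99f3_ag.StepDb
import Pool.Agent.Lib.MP_7b99f3_ag.StepB

/-!
Constancy from the vanishing of the winding numbers, by Liouville's theorem.
-/

namespace Pool.Agent.Lib.MP_7b99f3_ag

open Topology Filter

variable {k n : ℕ} {D : Datum k n}

/-- Liouville's theorem with finitely many removable points -/
theorem liouville_punctured {Z : Set ℂ} (hZ : Z.Finite) {R : ℂ → ℂ}
    (hd : ∀ ξ, ξ ∉ Z → DifferentiableAt ℂ R ξ)
    (hb : ∀ z ∈ Z, ∃ ε > 0, ∃ C : ℝ, ∀ ξ, ξ ≠ z → ‖ξ - z‖ < ε → ‖R ξ‖ ≤ C)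
    (hinf : ∃ r C : ℝ, ∀ ξ, r < ‖ξ‖ → ‖R ξ‖ ≤ C) {ξ ξ' : ℂ} (hξ : ξ ∉ Z) (hξ' : ξ' ∉ Z) :
    R ξ = R ξ' := by
  classical
  set F : ℂ → ℂ := fun ξ => if ξ ∈ Z then limUnder (𝓝[≠] ξ) R else R ξ with hF
  have hZc : IsClosed Z := hZ.isClosed
  have hev : ∀ ξ, ∀ᶠ η in 𝓝[≠] ξ, η ∉ Z := by
    intro ξ
    have h1 : IsClosed (Z \ {ξ}) := (hZ.subset Set.sdiff_subset).isClosed
    have h2 : (Z \ {ξ})ᶜ ∈ 𝓝 ξ := h1.isOpen_compl.mem_nhds (by simp)
    filter_upwards [nhdsWithin_le_nhds h2, self_mem_nhdsWithin] with η h3 h4 h5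
    exact h3 ⟨h5, h4⟩
  have hFR : ∀ ξ, ∀ᶠ η in 𝓝[≠] ξ, F η = R η := by
    intro ξ
    filter_upwards [hev ξ] with η hη
    simp only [hF, hη, if_false]
  have hdiff : Differentiable ℂ F := by
    intro ξ
    by_cases h : ξ ∈ Z
    · have hd1 : ∀ᶠ η in 𝓝[≠] ξ, DifferentiableAt ℂ R η := by
        filter_upwards [hev ξ] with η hη using hd η hη
      have hd2 : ∀ᶠ η in 𝓝[≠] ξ, DifferentiableAt ℂ F η := by
        filter_upwards [hev ξ] with η hη
        refine (hd η hη).congr_of_eventuallyEq ?_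
        filter_upwards [hZc.isOpen_compl.mem_nhds hη] with ζ hζ
        have : ζ ∉ Z := hζ
        simp only [hF, this, if_false]
      obtain ⟨ε, hε, C, hC⟩ := hb ξ h
      have hbd : IsBoundedUnder (· ≤ ·) (𝓝[≠] ξ) fun z => ‖R z - R ξ‖ := by
        refine isBoundedUnder_of_eventually_le (a := C + ‖R ξ‖) ?_
        filter_upwards [nhdsWithin_le_nhds (Metric.ball_mem_nhds ξ hε), self_mem_nhdsWithin]
          with η h1 h2
        refine (norm_sub_le _ _).trans ?_
        have := hC η h2 (by rwa [← dist_eq_norm])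
        linarith
      have hlim := Complex.tendsto_limUnder_of_differentiable_on_punctured_nhds_of_bounded_under
        hd1 hbd
      have hcont : ContinuousAt F ξ := by
        rw [continuousAt_iff_punctured_nhds]
        have h3 : F ξ = limUnder (𝓝[≠] ξ) R := by simp only [hF, h, if_true]
        rw [h3]
        exact hlim.congr' (EventuallyEq.symm (hFR ξ))
      exact (Complex.analyticAt_of_differentiable_on_punctured_nhds_of_continuousAt hd2
        hcont).differentiableAt
    · refine (hd ξ h).congr_of_eventuallyEq ?_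
      filter_upwards [hZc.isOpen_compl.mem_nhds h] with η hη
      have : η ∉ Z := hη
      simp only [hF, this, if_false]
  have hbound : Bornology.IsBounded (Set.range F) := by
    obtain ⟨r, C, hC⟩ := hinf
    obtain ⟨r', hr'⟩ := hZ.isBounded.exists_norm_le
    set r₁ := max r r' with hr₁
    have hcomp : IsCompact (F '' Metric.closedBall 0 r₁) :=
      (isCompact_closedBall 0 r₁).image hdiff.continuous
    obtain ⟨C', hC'⟩ := hcomp.isBounded.exists_norm_le
    rw [isBounded_iff_forall_norm_le]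
    refine ⟨max C C', ?_⟩
    rintro _ ⟨η, rfl⟩
    rcases le_or_gt ‖η‖ r₁ with h | h
    · exact (hC' _ ⟨η, by simpa using h, rfl⟩).trans (le_max_right _ _)
    · have h1 : η ∉ Z := fun h2 => by
        have := hr' η h2
        have := le_max_right r r'
        linarith
      have h2 : F η = R η := by simp only [hF, h1, if_false]
      rw [h2]
      exact (hC η ((le_max_left _ _).trans_lt h)).trans (le_max_left _ _)
  have := hdiff.apply_eq_apply_of_bounded hbound ξ ξ'
  simpa only [hF, hξ, hξ', if_false] using this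

/-- the characteristic product of a coordinate over all scale factors -/
noncomputable def RT (D : Datum k n) (T : ℂ) (c : Fin n) (x : Fin k → ℂ) : ℂ :=
  ((Polynomial.nthRoots (k * (k - 1)) ((vd x ^ 2)⁻¹)).map fun κ => T - D.G (nrm x κ) c).prod

/-- primitive root of order `k (k-1)` -/
noncomputable def zM (k : ℕ) : ℂ := Complex.exp (2 * Real.pi * Complex.I / ((k * (k - 1) : ℕ) : ℂ))

theorem M_ne (hk : 2 ≤ k) : k * (k - 1) ≠ 0 := by
  have h1 : 0 < k := by omega
  have h2 : 0 < k - 1 := by omega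
  exact (Nat.mul_pos h1 h2).ne'

theorem zM_prim (hk : 2 ≤ k) : IsPrimitiveRoot (zM k) (k * (k - 1)) :=
  Complex.isPrimitiveRoot_exp _ (M_ne hk)

theorem zM_kap (hk : 2 ≤ k) {x : Fin k → ℂ} {κ : ℂ} (h : κ ^ (k * (k - 1)) * vd x ^ 2 = 1)
    (i : ℕ) : (zM k ^ i * κ) ^ (k * (k - 1)) * vd x ^ 2 = 1 := by
  rw [mul_pow, ← pow_mul, mul_comm i, pow_mul, (zM_prim hk).pow_eq_one, one_pow, one_mul]
  exact h

theorem RT_eq (hk : 2 ≤ k) (T : ℂ) (c : Fin n) {x : Fin k → ℂ} {κ : ℂ}
    (h : κ ^ (k * (k - 1)) * vd x ^ 2 = 1) :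
    RT D T c x = ∏ i ∈ Finset.range (k * (k - 1)), (T - D.G (nrm x (zM k ^ i * κ)) c) := by
  unfold RT
  rw [(zM_prim hk).nthRoots_eq (eq_inv_of_mul_eq_one_left h), Multiset.map_map]
  rfl

theorem RT_affine (hk : 2 ≤ k) (T : ℂ) (c : Fin n) {x : Fin k → ℂ} (hx : Function.Injective x)
    {l : ℂ} (hl : l ≠ 0) (b : ℂ) : RT D T c (fun i => l * x i + b) = RT D T c x := by
  obtain ⟨κ, hκ⟩ := Lev.exists_kap hk hx
  have hκ' : (κ / l) ^ (k * (k - 1)) * vd (fun i => l * x i + b) ^ 2 = 1 := by
    rw [vd_affine', div_pow, ← hκ]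
    field_simp
  rw [RT_eq hk T c hκ, RT_eq hk T c hκ']
  refine Finset.prod_congr rfl fun i _ => ?_
  rw [← mul_div_assoc, nrm_affine (by omega) x hl]

theorem RT_of_lifts (hk : 2 ≤ k) (T : ℂ) (c : Fin n) {A : Type*} [TopologicalSpace A]
    [PreconnectedSpace A] {X : A → Fin k → ℂ} {κ : ℕ → A → ℂ} {μ : ℕ → A → Fin n → ℂ}
    (hκ : ∀ i, Continuous (κ i)) (h : ∀ i a, St D (X a) (κ i a) (μ i a)) (a₀ : A) {κ₀ : ℂ}
    (h₀ : ∀ i, κ i a₀ = zM k ^ i * κ₀) (a : A) :
    RT D T c (X a) = ∏ i ∈ Finset.range (k * (k - 1)), (T - vieta (μ i a) c) := by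
  have hκi : ∀ i, κ i = fun a => zM k ^ i * κ 0 a := by
    intro i
    refine kap_unique hk (X := X) (hκ i) (continuous_const.mul (hκ 0))
      (fun a => (h i a).kap) (fun a => zM_kap hk (h 0 a).kap i) a₀ ?_
    rw [h₀, h₀]; simp
  rw [RT_eq hk T c (h 0 a).kap]
  refine Finset.prod_congr rfl fun i _ => ?_
  have h1 : zM k ^ i * κ 0 a = κ i a := (congrFun (hκi i) a).symm
  rw [h1, ← (h i a).eq]

theorem exists_base_states (hk : 2 ≤ k) {x : Fin k → ℂ} (hx : Function.Injective x) :
    ∃ (κ₀ : ℂ) (μ : ℕ → Fin n → ℂ), ∀ i, St D x (zM k ^ i * κ₀) (μ i) := by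
  obtain ⟨κ₀, hκ₀⟩ := Lev.exists_kap hk hx
  choose μ hμ using fun i : ℕ => Lev.exists_state (D := D) hk hx (zM_kap hk hκ₀ i)
  exact ⟨κ₀, μ, hμ⟩

/-- holomorphy in one point -/
theorem RT_diff (hk : 2 ≤ k) (hn : 0 < n) (T : ℂ) (c : Fin n) {x : Fin k → ℂ}
    {l : Fin k} {ξ₀ : ℂ} (hx : Function.Injective (Function.update x l ξ₀)) :
    DifferentiableAt ℂ (fun ξ => RT D T c (Function.update x l ξ)) ξ₀ := by
  have hXc : Continuous fun ξ : ℂ => Function.update x l ξ :=
    Continuous.update (f := fun _ : ℂ => x) continuous_const l continuous_id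
  have hXd : ContDiff ℂ 2 fun ξ : ℂ => Function.update x l ξ := by
    rw [contDiff_pi]
    intro i
    by_cases h : i = l
    · subst h; simp only [Function.update_self]; exact contDiff_id
    · simp only [Function.update_of_ne h]; exact contDiff_const
  have hopen : IsOpen {ξ : ℂ | Function.Injective (Function.update x l ξ)} := by
    have : {ξ : ℂ | Function.Injective (Function.update x l ξ)} =
        {ξ | vd (Function.update x l ξ) ≠ 0} := by
      ext x; exact vd_ne_zero_iff.symm
    rw [this]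
    exact isOpen_ne_fun (continuous_vd.comp hXc) continuous_const
  obtain ⟨ε, hε, hball⟩ := Metric.isOpen_iff.mp hopen ξ₀ hx
  obtain ⟨κ₀, μ₀, hst⟩ := exists_base_states (D := D) hk hx
  choose κ μ c1 c2 c3 c4 c5 using fun i : ℕ => exists_lift_on (D := D) hk hn
    (Metric.isOpen_ball (x := ξ₀) (ε := ε)) (convex_ball ξ₀ ε)
    (X := fun ξ : ℂ => Function.update x l ξ) hXc.continuousOn (fun a ha => hball ha)
    (Metric.mem_ball_self hε) (hst i)
  have hpc : PreconnectedSpace (Metric.ball ξ₀ ε) :=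
    isPreconnected_iff_preconnectedSpace.mp (convex_ball ξ₀ ε).isPreconnected
  have hRT : ∀ ξ ∈ Metric.ball ξ₀ ε, RT D T c (Function.update x l ξ) =
      ∏ i ∈ Finset.range (k * (k - 1)), (T - vieta (μ i ξ) c) := by
    intro ξ hξ
    exact RT_of_lifts hk T c (A := Metric.ball ξ₀ ε) (X := fun a => Function.update x l a.1)
      (κ := fun i a => κ i a.1) (μ := fun i a => μ i a.1)
      (fun i => continuousOn_iff_continuous_domRestrict.mp (c1 i))
      (fun i a => c3 i a.1 a.2) ⟨ξ₀, Metric.mem_ball_self hε⟩ (κ₀ := κ₀) (fun i => c4 i) ⟨ξ, hξ⟩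
  have hd : DifferentiableAt ℂ (fun ξ => ∏ i ∈ Finset.range (k * (k - 1)),
      (T - vieta (μ i ξ) c)) ξ₀ := by
    refine DifferentiableAt.fun_finsetProd fun i _ => ?_
    have h1 : ContDiffAt ℂ 2 (μ i) ξ₀ := contDiffAt_mu hk Metric.isOpen_ball (c1 i) (c2 i) (c3 i)
      (Metric.mem_ball_self hε) hXd.contDiffAt
    have h2 : DifferentiableAt ℂ (fun ξ => vieta (μ i ξ)) ξ₀ :=
      (contDiff_vieta.contDiffAt.differentiableAt (by simp)).comp ξ₀
        (h1.differentiableAt (by norm_num))
    exact (differentiableAt_const _).sub (differentiableAt_pi.mp h2 c)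
  refine hd.congr_of_eventuallyEq ?_
  filter_upwards [Metric.ball_mem_nhds ξ₀ hε] with ξ hξ using hRT ξ hξ

/-- boundedness when a cluster without winding collapses -/
theorem RT_bdd (hk : 2 ≤ k) (hn : 2 ≤ n) (T : ℂ) (c : Fin n) {y : Fin k → ℂ}
    (hy : Function.Injective y) {p : ℂ} {J : Finset (Fin k)} (hs : SepAt y p J)
    (hV : Van D J.card) : ∃ C t₀ : ℝ, ∀ w : ℂ, w.re < t₀ → ‖RT D T c (rot y p J w)‖ ≤ C := by
  obtain ⟨κ₀, μ₀, hst⟩ := exists_base_states (D := D) hk hy
  choose δ hδ κ μ c1 c2 c3 c4 c5 μi hμi hlim using fun i : ℕ => ext_state hk hn (hst i) hs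
    (hV _ _ _ (hst i) J rfl p hs)
  set A : Set ℂ := {w | w.re ≤ 0} with hA
  have hAc : Convex ℝ A := convex_halfSpace_re_le 0
  have hApc : PreconnectedSpace A := isPreconnected_iff_preconnectedSpace.mp hAc.isPreconnected
  have hAHP : ∀ i, ∀ w ∈ A, w ∈ HP (δ i) := fun i w hw => lt_of_le_of_lt hw (hδ i)
  have hRT : ∀ w ∈ A, RT D T c (rot y p J w) =
      ∏ i ∈ Finset.range (k * (k - 1)), (T - vieta (μ i w) c) := by
    intro w hw
    exact RT_of_lifts hk T c (A := A) (X := fun a => rot y p J a.1)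
      (κ := fun i a => κ i a.1) (μ := fun i a => μ i a.1)
      (fun i => (c1 i).comp_continuous continuous_subtype_val fun a => hAHP i a.1 a.2)
      (fun i a => c3 i a.1 (hAHP i a.1 a.2)) ⟨0, by simp [hA]⟩ (κ₀ := κ₀) (fun i => c4 i) ⟨w, hw⟩
  have hlim2 : Tendsto (fun w => ∏ i ∈ Finset.range (k * (k - 1)), (T - vieta (μ i w) c)) LE
      (𝓝 (∏ i ∈ Finset.range (k * (k - 1)), (T - vieta (μi i) c))) := by
    refine tendsto_finsetProd _ fun i _ => tendsto_const_nhds.sub ?_
    have h1 : Tendsto (fun w => vieta (μ i w)) LE (𝓝 (vieta (μi i))) :=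
      (continuous_vieta.tendsto _).comp (hlim i)
    exact (tendsto_pi_nhds.mp h1) c
  have hlim3 : ∀ᶠ w in LE, ‖∏ i ∈ Finset.range (k * (k - 1)), (T - vieta (μ i w) c)‖ <
      ‖∏ i ∈ Finset.range (k * (k - 1)), (T - vieta (μi i) c)‖ + 1 :=
    hlim2.norm.eventually_lt_const (by linarith)
  unfold LE at hlim3
  rw [eventually_comap] at hlim3
  obtain ⟨b, hb⟩ := eventually_atBot.mp hlim3
  refine ⟨‖∏ i ∈ Finset.range (k * (k - 1)), (T - vieta (μi i) c)‖ + 1, min b 0,
    fun w hw => ?_⟩
  have h1 : w.re ≤ b := hw.le.trans (min_le_left _ _)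
  have h2 : w ∈ A := hw.le.trans (min_le_right _ _)
  rw [hRT w h2]
  exact (hb w.re h1 w rfl).le

/-- Independence of the position of one point. -/
theorem RT_move (hk : 3 ≤ k) (hn : 2 ≤ n) (hV2 : Van D 2) (hVk : Van D (k - 1)) (T : ℂ)
    (c : Fin n) {x : Fin k → ℂ} (hx : Function.Injective x) (l : Fin k) {ξ : ℂ}
    (hξ : ∀ a, a ≠ l → x a ≠ ξ) : RT D T c (Function.update x l ξ) = RT D T c x := by
  have hk2 : 2 ≤ k := by omega
  set Z : Set ℂ := x '' {a | a ≠ l} with hZ
  have hZf : Z.Finite := (Set.toFinite _).image x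
  have hinj : ∀ η, η ∉ Z → Function.Injective (Function.update x l η) := by
    intro η hη
    refine update_injective hx fun a ha e => hη ⟨a, ha, e⟩
  have hxl : x l ∉ Z := by
    rintro ⟨a, ha, e⟩
    exact ha (hx e)
  have hξZ : ξ ∉ Z := by
    rintro ⟨a, ha, e⟩
    exact hξ a ha e
  have key := liouville_punctured hZf (R := fun η => RT D T c (Function.update x l η))
    (fun η hη => RT_diff hk2 (by omega) T c (hinj η hη)) ?_ ?_ hξZ hxl
  · simpa [Function.update_eq_self] using key
  · -- near another point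
    rintro z ⟨i, hi, rfl⟩
    have hi' : i ≠ l := hi
    set d := dl x with hd
    have hd0 : 0 < d := dl_pos x
    have hdc : (d : ℂ) ≠ 0 := by exact_mod_cast hd0.ne'
    set y := Function.update x l (x i + d) with hy
    have hyi : Function.Injective y := by
      refine update_injective hx fun a ha e => ?_
      by_cases hai : a = i
      · subst hai
        have : (d : ℂ) = 0 := by linear_combination -e
        exact hdc this
      · have h1 := dl_lt hx hai
        rw [e, add_sub_cancel_left, Complex.norm_real, Real.norm_eq_abs, abs_of_pos hd0] at h1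
        exact lt_irrefl _ h1
    have hyl : y l = x i + d := by rw [hy, Function.update_self]
    have hyne : ∀ a, a ≠ l → y a = x a := fun a ha => by rw [hy, Function.update_of_ne ha]
    have hsep : SepAt y (x i) {i, l} := by
      refine sepAt_of_lt fun a ha b hb => ?_
      rw [Finset.mem_insert, Finset.mem_singleton, not_or] at hb
      rw [hyne b hb.2]
      have h1 : d < ‖x b - x i‖ := dl_lt hx hb.1
      rcases Finset.mem_insert.mp ha with rfl | ha
      · rw [hyne a hi', sub_self, norm_zero]; exact hd0.trans h1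
      · rw [Finset.mem_singleton] at ha
        rw [ha, hyl, add_sub_cancel_left, Complex.norm_real, Real.norm_eq_abs, abs_of_pos hd0]
        exact h1
    obtain ⟨C, t₀, hC⟩ := RT_bdd hk2 hn T c hyi hsep (by rw [Finset.card_pair hi']; exact hV2)
    refine ⟨d * Real.exp t₀, by positivity, C, fun η hη hηd => ?_⟩
    have h0 : (η - x i) / d ≠ 0 := div_ne_zero (sub_ne_zero.mpr hη) hdc
    set w := Complex.log ((η - x i) / d) with hw
    have hre : w.re < t₀ := by
      rw [hw, Complex.log_re, norm_div, Complex.norm_real, Real.norm_eq_abs, abs_of_pos hd0,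
        Real.log_lt_iff_lt_exp (by
          have := norm_pos_iff.mpr (sub_ne_zero.mpr hη)
          positivity), div_lt_iff₀ hd0]
      linarith
    have h1 : rot y (x i) {i, l} w = Function.update x l η := by
      funext a
      unfold rot
      by_cases hal : a = l
      · subst hal
        rw [if_pos (by simp), hyl, hw, Complex.exp_log h0, Function.update_self]
        field_simp
        ring
      · rw [Function.update_of_ne hal]
        split_ifs with h
        · rw [Finset.mem_insert, Finset.mem_singleton] at h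
          have : a = i := h.resolve_right hal
          rw [hyne a hal, this]; ring
        · exact hyne a hal
    rw [← h1]
    exact hC w hre
  · -- near infinity
    set B : ℝ := 1 + ∑ a, ‖x a‖ with hB
    have hs0 : 0 ≤ ∑ a, ‖x a‖ := Finset.sum_nonneg fun _ _ => norm_nonneg _
    have hB0 : 0 < B := by rw [hB]; linarith
    have hBc : (B : ℂ) ≠ 0 := by exact_mod_cast hB0.ne'
    have hBn : ‖(B : ℂ)‖ = B := by rw [Complex.norm_real, Real.norm_eq_abs, abs_of_pos hB0]
    have hlt : ∀ a, ‖x a‖ < B := by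
      intro a
      have := Finset.single_le_sum (f := fun a => ‖x a‖) (fun _ _ => norm_nonneg _)
        (Finset.mem_univ a)
      rw [hB]; linarith
    set y := Function.update x l (B : ℂ) with hy
    have hyi : Function.Injective y := by
      refine update_injective hx fun a ha e => ?_
      have := hlt a
      rw [e, hBn] at this
      exact lt_irrefl _ this
    have hyl : y l = B := by rw [hy, Function.update_self]
    have hyne : ∀ a, a ≠ l → y a = x a := fun a ha => by rw [hy, Function.update_of_ne ha]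
    have hsep : SepAt y 0 (Finset.univ.erase l) := by
      refine sepAt_of_lt fun a ha b hb => ?_
      have ha' := Finset.ne_of_mem_erase ha
      have hb' : b = l := by
        by_contra h
        exact hb (Finset.mem_erase.mpr ⟨h, Finset.mem_univ b⟩)
      rw [hyne a ha', hb', hyl, sub_zero, sub_zero, hBn]
      exact hlt a
    obtain ⟨C, t₀, hC⟩ := RT_bdd hk2 hn T c hyi hsep (by
      rw [Finset.card_erase_of_mem (Finset.mem_univ l), Finset.card_univ, Fintype.card_fin]
      exact hVk)
    refine ⟨max B (B * Real.exp (-t₀)), C, fun η hη' => ?_⟩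
    have hηB : B < ‖η‖ := (le_max_left _ _).trans_lt hη'
    have hη : B * Real.exp (-t₀) < ‖η‖ := (le_max_right _ _).trans_lt hη'
    have hη0 : η ≠ 0 := by
      rw [← norm_pos_iff]
      linarith
    have h0 : (B : ℂ) / η ≠ 0 := div_ne_zero hBc hη0
    set w := Complex.log ((B : ℂ) / η) with hw
    have hηn : 0 < ‖η‖ := norm_pos_iff.mpr hη0
    have hre : w.re < t₀ := by
      rw [hw, Complex.log_re, norm_div, hBn, Real.log_lt_iff_lt_exp (by positivity),
        div_lt_iff₀ hηn]
      rw [Real.exp_neg] at hη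
      have he := Real.exp_pos t₀
      rw [← div_eq_mul_inv, div_lt_iff₀ he] at hη
      linarith
    have hηZ : Function.Injective (Function.update x l η) := by
      refine hinj η ?_
      rintro ⟨a, ha, e⟩
      have h3 := hlt a
      rw [e] at h3
      exact lt_asymm h3 hηB
    have h1 : rot y 0 (Finset.univ.erase l) w =
        fun i => Complex.exp w * (Function.update x l η) i + 0 := by
      funext a
      unfold rot
      by_cases hal : a = l
      · subst hal
        rw [if_neg (by simp), hyl, hw, Complex.exp_log h0, Function.update_self]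
        field_simp
        ring
      · rw [Function.update_of_ne hal, if_pos (Finset.mem_erase.mpr ⟨hal, Finset.mem_univ a⟩),
          hyne a hal]
        ring
    have h2 := RT_affine (D := D) hk2 T c hηZ (Complex.exp_ne_zero w) 0
    rw [← h2, ← h1]
    exact hC w hre

end Pool.Agent.Lib.MP_7b99f3_ag
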