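import Pool.Agent.Lib.MP_7b99f3_ag.Flag

/-!
The tie lemma: two clusters which differ by exchanging two equidistant points have the same
winding numbers.
-/

namespace Pool.Agent.Lib.MP_7b99f3_ag

open Topology

variable {k n : ℕ} {D : Datum k n}

theorem sepAt_of_lt {x : Fin k → ℂ} {p : ℂ} {I : Finset (Fin k)}
    (h : ∀ i ∈ I, ∀ j ∉ I, ‖x i - p‖ < ‖x j - p‖) : SepAt x p I := by
  rcases I.eq_empty_or_nonempty with rfl | hI
  · exact ⟨-1, by simp, fun i _ => by have := norm_nonneg (x i - p); linarith⟩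
  · obtain ⟨i, hi, himax⟩ := Finset.exists_max_image I (fun i => ‖x i - p‖) hI
    rcases Iᶜ.eq_empty_or_nonempty with h2 | h2
    · refine ⟨‖x i - p‖ + 1, fun l hl => (himax l hl).trans_lt (by linarith), fun l hl => ?_⟩
      have : l ∈ Iᶜ := Finset.mem_compl.mpr hl
      rw [h2] at this
      exact absurd this (Finset.notMem_empty l)
    · obtain ⟨j, hj, hjmin⟩ := Finset.exists_min_image Iᶜ (fun i => ‖x i - p‖) h2
      have h3 := h i hi j (Finset.mem_compl.mp hj)
      refine ⟨(‖x i - p‖ + ‖x j - p‖) / 2, fun l hl => ?_, fun l hl => ?_⟩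
      · have := himax l hl
        linarith
      · have := hjmin l (Finset.mem_compl.mpr hl)
        linarith

theorem SepAt.lt {x : Fin k → ℂ} {p : ℂ} {I : Finset (Fin k)} (h : SepAt x p I) {i j : Fin k}
    (hi : i ∈ I) (hj : j ∉ I) : ‖x i - p‖ < ‖x j - p‖ := by
  obtain ⟨r, h1, h2⟩ := h
  exact (h1 i hi).trans (h2 j hj)

/-- `J` inside a circle, exactly `a` and `b` on it, the other points outside -/
structure TieAt (x : Fin k → ℂ) (p₀ : ℂ) (r : ℝ) (J : Finset (Fin k)) (a b : Fin k) : Prop where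
  ha : a ∉ J
  hb : b ∉ J
  ne : a ≠ b
  ins : ∀ j ∈ J, ‖x j - p₀‖ < r
  ea : ‖x a - p₀‖ = r
  eb : ‖x b - p₀‖ = r
  out : ∀ j ∉ J, j ≠ a → j ≠ b → r < ‖x j - p₀‖

theorem TieAt.symm {x : Fin k → ℂ} {p₀ : ℂ} {r : ℝ} {J : Finset (Fin k)} {a b : Fin k}
    (h : TieAt x p₀ r J a b) : TieAt x p₀ r J b a :=
  ⟨h.hb, h.ha, h.ne.symm, h.ins, h.eb, h.ea, fun j h1 h2 h3 => h.out j h1 h3 h2⟩

/-- the centre moved towards `x a` -/
noncomputable def mc (x : Fin k → ℂ) (p₀ : ℂ) (a : Fin k) (ε : ℝ) : ℂ :=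
  (1 - ε) * p₀ + ε * x a

theorem mc_lt {x : Fin k → ℂ} (hx : Function.Injective x) {p₀ : ℂ} {r : ℝ} {a b : Fin k}
    (hne : a ≠ b) (ha : ‖x a - p₀‖ = r) (hb : ‖x b - p₀‖ = r) {ε : ℝ} (h0 : 0 < ε)
    (h1 : ε < 1) : ‖x a - mc x p₀ a ε‖ < ‖x b - mc x p₀ a ε‖ := by
  have e1 := norm_segment_sq (x a) p₀ (x a) ε
  have e2 := norm_segment_sq (x b) p₀ (x a) ε
  rw [sub_self, norm_zero, ha, norm_sub_rev p₀, ha] at e1
  rw [hb, norm_sub_rev p₀, ha] at e2
  have h3 : 0 < ‖x b - x a‖ := norm_pos_iff.mpr (sub_ne_zero.mpr fun e => hne (hx e).symm)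
  have h4 : ‖x a - mc x p₀ a ε‖ ^ 2 < ‖x b - mc x p₀ a ε‖ ^ 2 := by
    unfold mc
    rw [e1, e2]
    have : 0 < ε * ‖x b - x a‖ ^ 2 := by positivity
    nlinarith
  exact lt_of_pow_lt_pow_left₀ 2 (norm_nonneg _) h4

theorem mc_eventually (x : Fin k → ℂ) (p₀ : ℂ) (a : Fin k) :
    ∀ᶠ ε : ℝ in 𝓝 0, ∀ u v, ‖x u - p₀‖ < ‖x v - p₀‖ →
      ‖x u - mc x p₀ a ε‖ < ‖x v - mc x p₀ a ε‖ := by
  rw [Filter.eventually_all]
  intro u
  rw [Filter.eventually_all]
  intro v
  by_cases h : ‖x u - p₀‖ < ‖x v - p₀‖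
  · have hc : ∀ w, ContinuousAt (fun ε : ℝ => ‖x w - mc x p₀ a ε‖) 0 := by
      intro w
      unfold mc
      fun_prop
    have h2 := (hc u).eventually_lt (hc v) (by simpa [mc] using h)
    filter_upwards [h2] with ε hε _ using hε
  · exact Filter.Eventually.of_forall fun ε h' => absurd h' h

theorem exists_small {P : ℝ → Prop} (h : ∀ᶠ ε : ℝ in 𝓝 0, P ε) : ∃ ε, 0 < ε ∧ ε < 1 ∧ P ε := by
  obtain ⟨δ, hδ, h1⟩ := Metric.eventually_nhds_iff.mp h
  refine ⟨min (δ / 2) (1 / 2), by positivity, ?_, h1 ?_⟩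
  · exact (min_le_right _ _).trans_lt (by norm_num)
  · rw [Real.dist_eq, sub_zero, abs_of_pos (by positivity)]
    exact (min_le_left _ _).trans_lt (by linarith)

theorem TieAt.sep {x : Fin k → ℂ} (hx : Function.Injective x) {p₀ : ℂ} {r : ℝ}
    {J : Finset (Fin k)} {a b : Fin k} (h : TieAt x p₀ r J a b) :
    ∃ p, SepAt x p (insert a J) := by
  obtain ⟨ε, h0, h1, h2⟩ := exists_small (mc_eventually x p₀ a)
  refine ⟨mc x p₀ a ε, sepAt_of_lt fun i hi j hj => ?_⟩
  have hja : j ≠ a := fun e => hj (by simp [e])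
  have hjJ : j ∉ J := fun e => hj (by simp [e])
  rcases Finset.mem_insert.mp hi with rfl | hi
  · by_cases hjb : j = b
    · subst hjb
      exact mc_lt hx h.ne h.ea h.eb h0 h1
    · exact h2 _ _ (by rw [h.ea]; exact h.out j hjJ hja hjb)
  · apply h2
    by_cases hjb : j = b
    · subst hjb
      rw [h.eb]; exact h.ins i hi
    · exact (h.ins i hi).trans (h.out j hjJ hja hjb)

theorem mem_map_swap {a b u : Fin k} {S : Finset (Fin k)} :
    u ∈ S.map (Equiv.swap a b).toEmbedding ↔ Equiv.swap a b u ∈ S := by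
  rw [Finset.mem_map_equiv, Equiv.symm_swap]

/-- the tie lemma at a configuration without other ties -/
theorem tie_generic (hk : 3 ≤ k) (hn : 0 < n) {ξ : Fin (k - 2) → ℂ}
    (hrel : ∀ κ, FlagRel D ξ (xs k) κ) {m : Fin (k - 2)} (hm : ξ m ≠ 0) {x : Fin k → ℂ} {κ : ℂ}
    {μ : Fin n → ℂ} (h : St D x κ μ) {p₀ : ℂ} {r : ℝ} {J : Finset (Fin k)} {a b : Fin k}
    (ht : TieAt x p₀ r J a b) (hJ : J.card = m + 1)
    (hgen : ∀ i j, i ≠ j → ‖x i - p₀‖ = ‖x j - p₀‖ → (i = a ∧ j = b) ∨ (i = b ∧ j = a)) :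
    WI D x κ μ (insert a J) = WI D x κ μ (insert b J) := by
  obtain ⟨ε, h0, h1, h2, h3⟩ := exists_small ((mc_eventually x p₀ a).and (mc_eventually x p₀ b))
  set La : Fin k → Fin k → Prop := fun u v => ‖x u - p₀‖ < ‖x v - p₀‖ ∨ (u = a ∧ v = b) with hLa
  set Lb : Fin k → Fin k → Prop := fun u v => ‖x u - p₀‖ < ‖x v - p₀‖ ∨ (u = b ∧ v = a) with hLb
  have hA : ∀ u v, La u v → ‖x u - mc x p₀ a ε‖ < ‖x v - mc x p₀ a ε‖ := by
    rintro u v (h4 | ⟨rfl, rfl⟩)
    · exact h2 u v h4
    · exact mc_lt h.inj ht.ne ht.ea ht.eb h0 h1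
  have hB : ∀ u v, Lb u v → ‖x u - mc x p₀ b ε‖ < ‖x v - mc x p₀ b ε‖ := by
    rintro u v (h4 | ⟨rfl, rfl⟩)
    · exact h3 u v h4
    · exact mc_lt h.inj ht.ne.symm ht.eb ht.ea h0 h1
  have htri : ∀ u v, u ≠ v → La u v ∨ La v u := by
    intro u v huv
    rcases lt_trichotomy ‖x u - p₀‖ ‖x v - p₀‖ with h4 | h4 | h4
    · exact Or.inl (Or.inl h4)
    · rcases hgen u v huv h4 with h5 | h5
      · exact Or.inl (Or.inr h5)
      · exact Or.inr (Or.inr h5.symm)
    · exact Or.inr (Or.inl h4)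
  set s := Equiv.swap a b with hs
  have hsn : ∀ u, ‖x (s u) - p₀‖ = ‖x u - p₀‖ := by
    intro u
    by_cases hua : u = a
    · rw [hua, hs, Equiv.swap_apply_left, ht.ea, ht.eb]
    · by_cases hub : u = b
      · rw [hub, hs, Equiv.swap_apply_right, ht.ea, ht.eb]
      · rw [hs, Equiv.swap_apply_of_ne_of_ne hua hub]
  set σ := Tuple.sort (fun i => ‖x i - mc x p₀ a ε‖) with hσ
  have hmono := Tuple.monotone_sort (fun i => ‖x i - mc x p₀ a ε‖)
  rw [← hσ] at hmono
  have hσlt : ∀ i j, i < j → La (σ i) (σ j) := by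
    intro i j hij
    rcases htri (σ i) (σ j) (fun e => hij.ne (σ.injective e)) with h4 | h4
    · exact h4
    · have h5 := hA _ _ h4
      have h6 := hmono hij.le
      simp only [Function.comp_apply] at h6
      exact absurd h5 (not_lt.mpr h6)
  have hsub : ∀ i j, i < j → Lb (s (σ i)) (s (σ j)) := by
    intro i j hij
    rcases hσlt i j hij with h4 | ⟨h4, h5⟩
    · left; rw [hsn, hsn]; exact h4
    · right
      rw [h4, h5, hs, Equiv.swap_apply_left, Equiv.swap_apply_right]
      exact ⟨rfl, rfl⟩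
  have hlow : ∀ j : ℕ, ∀ u v, v ∈ (cl k j).map σ.toEmbedding → La u v →
      u ∈ (cl k j).map σ.toEmbedding := by
    intro j u v hv huv
    rw [Finset.mem_map_equiv, mem_cl] at hv ⊢
    rcases lt_or_ge (σ.symm u) (σ.symm v) with h4 | h4
    · have : (σ.symm u : ℕ) < σ.symm v := h4
      omega
    · exfalso
      have h5 := hA u v huv
      have h6 := hmono h4
      simp only [Function.comp_apply, Equiv.apply_symm_apply] at h6
      linarith
  have hJmem : ∀ u, ‖x u - p₀‖ < r → u ∈ J := by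
    intro u hu
    by_contra hcon
    by_cases hua : u = a
    · rw [hua, ht.ea] at hu; exact lt_irrefl _ hu
    · by_cases hub : u = b
      · rw [hub, ht.eb] at hu; exact lt_irrefl _ hu
      · exact lt_asymm hu (ht.out u hcon hua hub)
  have hcard : ∀ j : ℕ, j ≤ k → ((cl k j).map σ.toEmbedding).card = j := by
    intro j hj
    rw [Finset.card_map, card_cl hj]
  have hcl1 : ∀ j : ℕ, a ∈ (cl k j).map σ.toEmbedding → b ∉ (cl k j).map σ.toEmbedding →
      (cl k j).map σ.toEmbedding = insert a J := by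
    intro j ha hb
    ext u
    constructor
    · intro hu
      by_cases hua : u = a
      · simp [hua]
      · have hub : u ≠ b := by rintro rfl; exact hb hu
        rcases htri u b hub with h4 | h4
        · rcases h4 with h4 | h4
          · rw [ht.eb] at h4
            exact Finset.mem_insert_of_mem (hJmem u h4)
          · exact absurd h4.1 hua
        · exact absurd (hlow j b u hu h4) hb
    · intro hu
      rcases Finset.mem_insert.mp hu with rfl | hu
      · exact ha
      · exact hlow j u a ha (Or.inl (by rw [ht.ea]; exact ht.ins u hu))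
  have hcl2 : ∀ j : ℕ, b ∈ (cl k j).map σ.toEmbedding → a ∈ (cl k j).map σ.toEmbedding :=
    fun j hb => hlow j a b hb (Or.inr ⟨rfl, rfl⟩)
  have hcardJ : (insert a J).card = m + 2 := by
    rw [Finset.card_insert_of_notMem ht.ha, hJ]
  have hmk := m.2
  -- the clusters of size different from m + 2 are the same
  have hne : ∀ j : Fin (k - 2), j ≠ m →
      ((cl k (j + 2)).map σ.toEmbedding).map s.toEmbedding =
        (cl k (j + 2)).map σ.toEmbedding := by
    intro j hj
    have hjk := j.2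
    ext u
    rw [hs, mem_map_swap]
    by_cases ha : a ∈ (cl k (j + 2)).map σ.toEmbedding
    · by_cases hb : b ∈ (cl k (j + 2)).map σ.toEmbedding
      · by_cases hua : u = a
        · rw [hua, Equiv.swap_apply_left]; exact iff_of_true hb ha
        · by_cases hub : u = b
          · rw [hub, Equiv.swap_apply_right]; exact iff_of_true ha hb
          · rw [Equiv.swap_apply_of_ne_of_ne hua hub]
      · exfalso
        have h4 := hcl1 _ ha hb
        have h5 := hcard (j + 2) (by omega)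
        rw [h4, hcardJ] at h5
        exact hj (Fin.ext (by omega))
    · have hb : b ∉ (cl k (j + 2)).map σ.toEmbedding := fun e => ha (hcl2 _ e)
      by_cases hua : u = a
      · rw [hua, Equiv.swap_apply_left]; exact iff_of_false hb ha
      · by_cases hub : u = b
        · rw [hub, Equiv.swap_apply_right]; exact iff_of_false ha hb
        · rw [Equiv.swap_apply_of_ne_of_ne hua hub]
  have hCm : (cl k (m + 2)).map σ.toEmbedding = insert a J := by
    have h5 := hcard (m + 2) (by omega)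
    by_cases ha : a ∈ (cl k (m + 2)).map σ.toEmbedding
    · by_cases hb : b ∈ (cl k (m + 2)).map σ.toEmbedding
      · exfalso
        have h6 : insert b (insert a J) ⊆ (cl k (m + 2)).map σ.toEmbedding := by
          intro u hu
          rcases Finset.mem_insert.mp hu with rfl | hu
          · exact hb
          · rcases Finset.mem_insert.mp hu with rfl | hu
            · exact ha
            · exact hlow _ u a ha (Or.inl (by rw [ht.ea]; exact ht.ins u hu))
        have h7 := Finset.card_le_card h6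
        rw [Finset.card_insert_of_notMem, hcardJ, h5] at h7
        · omega
        · rw [Finset.mem_insert, not_or]
          exact ⟨ht.ne.symm, ht.hb⟩
      · exact hcl1 _ ha hb
    · exfalso
      have h6 : (cl k (m + 2)).map σ.toEmbedding ⊆ J := by
        intro u hu
        have hua : u ≠ a := by rintro rfl; exact ha hu
        rcases htri u a hua with h4 | h4
        · rcases h4 with h4 | h4
          · rw [ht.ea] at h4; exact hJmem u h4
          · exact absurd h4.1 hua
        · exact absurd (hlow _ a u hu h4) ha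
      have h7 := Finset.card_le_card h6
      rw [hJ, h5] at h7
      omega
  have hCm2 : ((cl k (m + 2)).map σ.toEmbedding).map s.toEmbedding = insert b J := by
    rw [hCm]
    ext u
    rw [hs, mem_map_swap, Finset.mem_insert, Finset.mem_insert]
    by_cases hua : u = a
    · rw [hua, Equiv.swap_apply_left]
      exact iff_of_false (by rintro (e | e); exacts [ht.ne e.symm, ht.hb e])
        (by rintro (e | e); exacts [ht.ne e, ht.ha e])
    · by_cases hub : u = b
      · rw [hub, Equiv.swap_apply_right]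
        exact iff_of_true (Or.inl rfl) (Or.inl rfl)
      · rw [Equiv.swap_apply_of_ne_of_ne hua hub]
        constructor
        · rintro (e | e)
          · exact absurd e hua
          · exact Or.inr e
        · rintro (e | e)
          · exact absurd e hub
          · exact Or.inr e
  funext c d
  have r1 := flag_rel hk hn hrel h σ (fun i j hij => hA _ _ (hσlt i j hij)) c d
  have r2 := flag_rel hk hn hrel h (σ.trans s) (fun i j hij => hB _ _ (hsub i j hij)) c d
  have hmap : ∀ j : Fin (k - 2), (cl k (j + 2)).map (σ.trans s).toEmbedding =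
      ((cl k (j + 2)).map σ.toEmbedding).map s.toEmbedding := by
    intro j
    rw [Finset.map_map]
    rfl
  simp only [hmap] at r2
  rw [← Finset.add_sum_erase _ _ (Finset.mem_univ m)] at r1 r2
  rw [Finset.sum_congr rfl (fun j hj => by rw [hne j (Finset.ne_of_mem_erase hj)]), hCm2] at r2
  rw [hCm] at r1
  have r3 : ξ m * ((WI D x κ μ (insert a J) c d : ℂ) - (WI D x κ μ (insert b J) c d : ℂ)) = 0 := by
    linear_combination r1 - r2
  have r4 := (mul_eq_zero.mp r3).resolve_left hm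
  exact_mod_cast sub_eq_zero.mp r4

/-- radial perturbation -/
noncomputable def pert (x : Fin k → ℂ) (p₀ : ℂ) (a b : Fin k) (ε : ℝ) : Fin k → ℂ := fun i =>
  p₀ + (1 + ε * (if i = a ∨ i = b then 0 else ((i : ℕ) : ℝ) + 1 : ℝ) : ℝ) * (x i - p₀)

theorem norm_pert (x : Fin k → ℂ) (p₀ : ℂ) (a b : Fin k) {ε : ℝ} (hε : 0 ≤ ε) (i : Fin k) :
    ‖pert x p₀ a b ε i - p₀‖ =
      (1 + ε * (if i = a ∨ i = b then 0 else ((i : ℕ) : ℝ) + 1)) * ‖x i - p₀‖ := by
  unfold pert
  rw [add_sub_cancel_left, norm_mul, Complex.norm_real, Real.norm_eq_abs, abs_of_nonneg]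
  split_ifs <;> positivity

/-- the property of exchanging two equidistant points -/
def Tie (D : Datum k n) (m : ℕ) : Prop := ∀ (x : Fin k → ℂ) (κ : ℂ) (μ : Fin n → ℂ),
  St D x κ μ → ∀ (p₀ : ℂ) (r : ℝ) (J : Finset (Fin k)) (a b : Fin k), TieAt x p₀ r J a b →
    J.card + 1 = m → WI D x κ μ (insert a J) = WI D x κ μ (insert b J)

theorem tie_of_flag (hk : 3 ≤ k) (hn : 0 < n) {ξ : Fin (k - 2) → ℂ}
    (hrel : ∀ κ, FlagRel D ξ (xs k) κ) {m : Fin (k - 2)} (hm : ξ m ≠ 0) : Tie D (m + 2) := by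
  intro x κ μ h p₀ r J a b ht hJ
  set δ : Fin k → ℝ := fun i => if i = a ∨ i = b then 0 else ((i : ℕ) : ℝ) + 1 with hδ
  have hδ0 : ∀ i, 0 ≤ δ i := by
    intro i; simp only [hδ]; split_ifs <;> positivity
  have e1 : ∀ᶠ ε : ℝ in 𝓝 0, ∀ i, ‖x i - p₀‖ < r → (1 + ε * δ i) * ‖x i - p₀‖ < r := by
    rw [Filter.eventually_all]
    intro i
    by_cases hi : ‖x i - p₀‖ < r
    · have hc : ContinuousAt (fun ε : ℝ => (1 + ε * δ i) * ‖x i - p₀‖) 0 := by fun_prop
      have h2 := hc.eventually_lt (g := fun _ => r) continuousAt_const (by simpa using hi)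
      filter_upwards [h2] with ε hε _ using hε
    · exact Filter.Eventually.of_forall fun ε h' => absurd h' hi
  have e2 : ∀ᶠ ε : ℝ in 𝓝 0, ∀ i j, i ≠ j → ¬ ((i = a ∧ j = b) ∨ (i = b ∧ j = a)) → ε ≠ 0 →
      (1 + ε * δ i) * ‖x i - p₀‖ ≠ (1 + ε * δ j) * ‖x j - p₀‖ := by
    rw [Filter.eventually_all]
    intro i
    rw [Filter.eventually_all]
    intro j
    by_cases hd : ‖x i - p₀‖ = ‖x j - p₀‖
    · refine Filter.Eventually.of_forall fun ε hij hnt hε he => ?_
      rw [hd] at he
      have h0 : ‖x j - p₀‖ ≠ 0 := by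
        intro h0
        rw [h0] at hd
        rw [norm_eq_zero, sub_eq_zero] at h0 hd
        exact hij (h.inj (hd.trans h0.symm))
      have h1 := mul_right_cancel₀ h0 he
      have h2 : ε * δ i = ε * δ j := by linarith
      have h3 := mul_left_cancel₀ hε h2
      simp only [hδ] at h3
      by_cases hi : i = a ∨ i = b <;> by_cases hj : j = a ∨ j = b
      · rcases hi with hi | hi <;> rcases hj with hj | hj
        · exact hij (hi.trans hj.symm)
        · exact hnt (Or.inl ⟨hi, hj⟩)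
        · exact hnt (Or.inr ⟨hi, hj⟩)
        · exact hij (hi.trans hj.symm)
      · rw [if_pos hi, if_neg hj] at h3
        have : (0 : ℝ) ≤ (j : ℕ) := Nat.cast_nonneg _
        linarith
      · rw [if_neg hi, if_pos hj] at h3
        have : (0 : ℝ) ≤ (i : ℕ) := Nat.cast_nonneg _
        linarith
      · rw [if_neg hi, if_neg hj] at h3
        have h4 : ((i : ℕ) : ℝ) = (j : ℕ) := by linarith
        exact hij (Fin.ext (by exact_mod_cast h4))
    · have hc : ∀ l, ContinuousAt (fun ε : ℝ => (1 + ε * δ l) * ‖x l - p₀‖) 0 := by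
        intro l; fun_prop
      have h3 : ∀ᶠ ε : ℝ in 𝓝 0, (1 + ε * δ i) * ‖x i - p₀‖ ≠ (1 + ε * δ j) * ‖x j - p₀‖ := by
        have hc2 : ContinuousAt (fun ε : ℝ => (1 + ε * δ i) * ‖x i - p₀‖ -
            (1 + ε * δ j) * ‖x j - p₀‖) 0 := (hc i).sub (hc j)
        have h4 := hc2.eventually_ne (y := 0) (by simpa [sub_eq_zero] using hd)
        filter_upwards [h4] with ε hε
        exact sub_ne_zero.mp hε
      filter_upwards [h3] with ε hε _ _ _ using hε
  obtain ⟨ε₁, hε₁, hboth⟩ := Metric.eventually_nhds_iff.mp (e1.and e2)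
  -- facts along the path
  set X : ℝ → Fin k → ℂ := fun t => pert x p₀ a b (clamp t * (ε₁ / 2)) with hX
  have hdist : ∀ t, dist (clamp t * (ε₁ / 2)) 0 < ε₁ := by
    intro t
    have h1 := clamp_nonneg t
    have h2 := clamp_le_one t
    rw [Real.dist_eq, sub_zero, abs_of_nonneg (by positivity)]
    nlinarith
  have hnn : ∀ t, 0 ≤ clamp t * (ε₁ / 2) := fun t => by
    have h1 := clamp_nonneg t
    positivity
  have hX0 : X 0 = x := by
    funext i
    simp [hX, clamp_zero, pert]
  have hnorm : ∀ t i, ‖X t i - p₀‖ = (1 + clamp t * (ε₁ / 2) * δ i) * ‖x i - p₀‖ := fun t i =>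
    norm_pert x p₀ a b (hnn t) i
  have hXa : ∀ t, X t a = x a := by intro t; simp [hX, pert]
  have hXb : ∀ t, X t b = x b := by intro t; simp [hX, pert]
  have hdistinct : ∀ t, clamp t ≠ 0 → ∀ i j, i ≠ j → ‖X t i - p₀‖ = ‖X t j - p₀‖ →
      (i = a ∧ j = b) ∨ (i = b ∧ j = a) := by
    intro t ht0 i j hij he
    by_contra hcon
    rw [hnorm, hnorm] at he
    refine (hboth (hdist t)).2 i j hij hcon ?_ he
    have := hε₁.ne'
    exact mul_ne_zero ht0 (by positivity)
  have hinj : ∀ t, Function.Injective (X t) := by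
    intro t i j hij
    by_contra hne
    by_cases ht0 : clamp t = 0
    · have : X t = x := by
        funext i
        simp [hX, ht0, pert]
      rw [this] at hij
      exact hne (h.inj hij)
    · rcases hdistinct t ht0 i j hne (by rw [hij]) with ⟨rfl, rfl⟩ | ⟨rfl, rfl⟩
      · rw [hXa, hXb] at hij; exact hne (h.inj hij)
      · rw [hXa, hXb] at hij; exact hne (h.inj hij)
  have htie : ∀ t, TieAt (X t) p₀ r J a b := by
    intro t
    refine ⟨ht.ha, ht.hb, ht.ne, fun j hj => ?_, by rw [hXa]; exact ht.ea,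
      by rw [hXb]; exact ht.eb, fun j hj hja hjb => ?_⟩
    · rw [hnorm]
      exact (hboth (hdist t)).1 j (ht.ins j hj)
    · rw [hnorm]
      have h1 := ht.out j hj hja hjb
      have h2 : 0 ≤ clamp t * (ε₁ / 2) * δ j := mul_nonneg (hnn t) (hδ0 j)
      have h3 := norm_nonneg (x j - p₀)
      nlinarith
  have hXc : Continuous X := by
    have := continuous_clamp
    rw [continuous_pi_iff]
    intro i
    simp only [hX, pert]
    fun_prop
  obtain ⟨κ', μ', c1, c2, c3, c4, c5⟩ := exists_lift D (by omega) hn (A := ℝ) hXc hinj 0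
    (κ₀ := κ) (μ₀ := μ) (by rw [hX0]; exact h)
  have ha := WI_path (by omega) hn hXc c1 c2 c3 (I := insert a J) (fun t => (htie t).sep (hinj t))
    0 1
  have hb := WI_path (by omega) hn hXc c1 c2 c3 (I := insert b J)
    (fun t => (htie t).symm.sep (hinj t)) 0 1
  rw [hX0, c4, c5] at ha hb
  rw [ha, hb]
  refine tie_generic hk hn hrel hm (c3 1) (htie 1) (by omega) (hdistinct 1 ?_)
  rw [clamp_one]; exact one_ne_zero

end Pool.Agent.Lib.MP_7b99f3_ag
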