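import Mathlib

/-!
Vieta map: roots of a monic polynomial to its coefficients.  It is a closed map, a local
homeomorphism at points with distinct coordinates, hence a covering map over its regular values.
-/

namespace Pool.Agent.Lib.MP_7b99f3_ag

open Polynomial Topology

/-- `p_z(X) = X^n + z_1 X^(n-1) + ⋯ + z_n`; the coordinate `z i`, `i : Fin n`, is `z_{i+1}`. -/
noncomputable def monicPoly (n : ℕ) (z : Fin n → ℂ) : ℂ[X] :=
  X ^ n + ∑ i : Fin n, C (z i) * X ^ (n - 1 - (i : ℕ))

/-- Vieta map, from roots to coefficients. -/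
noncomputable def vieta {n : ℕ} (y : Fin n → ℂ) : Fin n → ℂ := fun i =>
  (-1) ^ ((i : ℕ) + 1) *
    ∑ t ∈ (Finset.univ : Finset (Fin n)).powersetCard ((i : ℕ) + 1), ∏ j ∈ t, y j

theorem monicPoly_coeff_lt {n : ℕ} (z : Fin n → ℂ) (i : Fin n) :
    (monicPoly n z).coeff (n - 1 - (i : ℕ)) = z i := by
  unfold monicPoly
  have hi := i.2
  rw [coeff_add, coeff_X_pow, if_neg (by omega), zero_add, finsetSum_coeff,
    Finset.sum_eq_single i]
  · simp
  · intro j _ hj
    have hj2 := j.2
    rw [coeff_C_mul_X_pow, if_neg]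
    intro h
    apply hj
    ext
    omega
  · simp

theorem monicPoly_coeff_n {n : ℕ} (z : Fin n → ℂ) : (monicPoly n z).coeff n = 1 := by
  unfold monicPoly
  rw [coeff_add, coeff_X_pow, if_pos rfl, finsetSum_coeff, Finset.sum_eq_zero]
  · simp
  · intro j _
    have hj2 := j.2
    rw [coeff_C_mul_X_pow, if_neg (by omega)]

theorem monicPoly_natDegree_le {n : ℕ} (z : Fin n → ℂ) : (monicPoly n z).natDegree ≤ n := by
  unfold monicPoly
  refine (natDegree_add_le _ _).trans (max_le (by simp) ?_)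
  refine natDegree_sum_le_of_forall_le _ _ fun i _ => ?_
  refine (natDegree_C_mul_X_pow_le _ _).trans ?_
  omega

theorem monicPoly_vieta {n : ℕ} (y : Fin n → ℂ) :
    monicPoly n (vieta y) = ∏ j, (X - C (y j)) := by
  ext m
  rcases lt_trichotomy m n with h | h | h
  · have hm : n - 1 - (n - 1 - m) = m := by omega
    have h1 := monicPoly_coeff_lt (vieta y) ⟨n - 1 - m, by omega⟩
    simp only [hm] at h1
    rw [h1]
    have h2 := Finset.prod_X_add_C_coeff (Finset.univ : Finset (Fin n)) (fun j => - y j)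
      (k := m) (by simpa using h.le)
    have h3 : (∏ j : Fin n, (X - C (y j))) = ∏ j : Fin n, (X + C (- y j)) := by
      simp [sub_eq_add_neg]
    rw [h3, h2]
    have hc : n - 1 - m + 1 = n - m := by omega
    simp only [vieta, Finset.card_univ, Fintype.card_fin, hc, Finset.mul_sum]
    refine Finset.sum_congr rfl fun t ht => ?_
    rw [Finset.mem_powersetCard] at ht
    rw [Finset.prod_neg, ht.2]
  · subst h
    rw [monicPoly_coeff_n]
    have hmon : (∏ j : Fin m, (X - C (y j))).Monic := monic_prod_X_sub_C y Finset.univ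
    have hd : (∏ j : Fin m, (X - C (y j))).natDegree = m := by
      rw [natDegree_finsetProd_X_sub_C_eq_card]; simp
    have := hmon.coeff_natDegree
    rw [hd] at this
    exact this.symm
  · rw [coeff_eq_zero_of_natDegree_lt ((monicPoly_natDegree_le _).trans_lt h)]
    have hd : (∏ j : Fin n, (X - C (y j))).natDegree = n := by
      rw [natDegree_finsetProd_X_sub_C_eq_card]; simp
    rw [coeff_eq_zero_of_natDegree_lt (by rw [hd]; exact h)]


theorem monicPoly_injective (n : ℕ) : Function.Injective (monicPoly n) := by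
  intro z z' h
  ext i
  rw [← monicPoly_coeff_lt z i, h, monicPoly_coeff_lt z' i]

theorem vieta_comp_perm {n : ℕ} (y : Fin n → ℂ) (σ : Equiv.Perm (Fin n)) :
    vieta (y ∘ σ) = vieta y := by
  apply monicPoly_injective
  rw [monicPoly_vieta, monicPoly_vieta]
  exact Equiv.prod_comp σ (fun j => X - C (y j))

theorem exists_perm_of_vieta_eq {n : ℕ} {y y' : Fin n → ℂ} (hy' : Function.Injective y')
    (h : vieta y' = vieta y) : ∃ σ : Equiv.Perm (Fin n), y' = y ∘ σ := by
  have h1 : ∏ j, (X - C (y' j)) = ∏ j, (X - C (y j)) := by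
    rw [← monicPoly_vieta, ← monicPoly_vieta, h]
  have h2 : ∀ j, ∃ i, y' j = y i := by
    intro j
    have h3 : (∏ i, (X - C (y i))).eval (y' j) = 0 := by
      rw [← h1, eval_prod]
      exact Finset.prod_eq_zero (Finset.mem_univ j) (by simp)
    rw [eval_prod, Finset.prod_eq_zero_iff] at h3
    obtain ⟨i, _, hi⟩ := h3
    refine ⟨i, ?_⟩
    simpa [sub_eq_zero] using hi
  choose f hf using h2
  have hinj : Function.Injective f := by
    intro a b hab
    apply hy'
    rw [hf a, hf b, hab]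
  refine ⟨Equiv.ofBijective f (Finite.injective_iff_bijective.mp hinj), ?_⟩
  funext j
  simp [hf j]

/-- Vandermonde product `∏_{i<j} (x_j - x_i)`. -/
noncomputable def vd {k : ℕ} (x : Fin k → ℂ) : ℂ := ∏ i, ∏ j ∈ Finset.Ioi i, (x j - x i)

theorem vd_eq_det {k : ℕ} (x : Fin k → ℂ) : vd x = (Matrix.vandermonde x).det := by
  rw [Matrix.det_vandermonde]; rfl

theorem vd_ne_zero_iff {k : ℕ} {x : Fin k → ℂ} : vd x ≠ 0 ↔ Function.Injective x := by
  rw [vd_eq_det, Matrix.det_vandermonde_ne_zero_iff]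

theorem prod_prod_ne_eq {n : ℕ} (y : Fin n → ℂ) :
    ∏ j, ∏ i ∈ Finset.univ.erase j, (y j - y i) = (-1) ^ (n * (n - 1) / 2) * vd y ^ 2 := by
  have h1 : ∀ j : Fin n, ∏ i ∈ Finset.univ.erase j, (y j - y i) =
      (∏ i ∈ Finset.Iio j, (y j - y i)) * ∏ i ∈ Finset.Ioi j, (y j - y i) := by
    intro j
    rw [← Finset.prod_union]
    · congr 1
      ext i
      simp only [Finset.mem_erase, Finset.mem_univ, and_true, Finset.mem_union, Finset.mem_Iio,
        Finset.mem_Ioi]
      exact ⟨fun h => lt_or_gt_of_ne h, fun h => h.elim ne_of_lt ne_of_gt⟩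
    · rw [Finset.disjoint_left]
      intro i hi hi'
      simp only [Finset.mem_Iio, Finset.mem_Ioi] at hi hi'
      exact lt_asymm hi hi'
  simp_rw [h1]
  rw [Finset.prod_mul_distrib]
  have h2 : ∏ j : Fin n, ∏ i ∈ Finset.Iio j, (y j - y i) = vd y := by
    unfold vd
    rw [Finset.prod_sigma', Finset.prod_sigma']
    refine Finset.prod_bij' (fun a _ => ⟨a.2, a.1⟩) (fun a _ => ⟨a.2, a.1⟩) ?_ ?_ ?_ ?_ ?_ <;>
      simp
  have h3 : ∏ j : Fin n, ∏ i ∈ Finset.Ioi j, (y j - y i) = (-1) ^ (n * (n - 1) / 2) * vd y := by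
    have h4 : ∀ j : Fin n, ∏ i ∈ Finset.Ioi j, (y j - y i) =
        (-1) ^ (n - 1 - (j : ℕ)) * ∏ i ∈ Finset.Ioi j, (y i - y j) := by
      intro j
      have : ∀ i, y j - y i = -(y i - y j) := by intro i; ring
      simp_rw [this]
      rw [Finset.prod_neg]
      simp
    simp_rw [h4]
    rw [Finset.prod_mul_distrib, Finset.prod_pow_eq_pow_sum]
    congr 2
    have h5 : ∑ i : Fin n, (n - 1 - (i : ℕ)) = ∑ i ∈ Finset.range n, (n - 1 - i) :=
      Finset.sum_range (fun i => n - 1 - i) |>.symm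
    rw [h5, Finset.sum_range_reflect (fun i => i) n, Finset.sum_range_id]
  rw [h2, h3]
  ring

theorem discr_prod {n : ℕ} (hn : 0 < n) (y : Fin n → ℂ) :
    (∏ j, (X - C (y j))).discr = vd y ^ 2 := by
  set f : ℂ[X] := ∏ j, (X - C (y j)) with hf
  have hd : f.natDegree = n := by
    rw [hf, natDegree_finsetProd_X_sub_C_eq_card]; simp
  have hmon : f.Monic := monic_prod_X_sub_C y Finset.univ
  have hdeg : 0 < f.degree := by
    rw [← natDegree_pos_iff_degree_pos, hd]; exact hn
  have h1 := resultant_deriv hdeg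
  rw [hmon.leadingCoeff, mul_one] at h1
  have h2 : resultant f (derivative f) f.natDegree (f.natDegree - 1) =
      ∏ j, (derivative f).eval (y j) := by
    have h3 := resultant_prod_left (Finset.univ : Finset (Fin n)) (fun j => X - C (y j))
      (derivative f) (f.natDegree - 1) (by simp) (natDegree_derivative_le f)
    rw [← hf] at h3
    rw [h3]
    refine Finset.prod_congr rfl fun j _ => ?_
    rw [natDegree_X_sub_C]
    exact resultant_X_sub_C_left _ _ _ (natDegree_derivative_le f)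
  have h4 : ∀ j, (derivative f).eval (y j) = ∏ i ∈ Finset.univ.erase j, (y j - y i) := by
    intro j
    rw [hf, derivative_prod_finset, eval_finsetSum, Finset.sum_eq_single j]
    · simp [eval_prod]
    · intro b _ hb
      rw [eval_mul, eval_prod, Finset.prod_eq_zero (i := j)]
      · simp
      · simp [Ne.symm hb]
      · simp
    · simp
  rw [h2] at h1
  simp_rw [h4] at h1
  rw [prod_prod_ne_eq, hd] at h1
  exact (mul_left_cancel₀ (pow_ne_zero _ (by norm_num)) h1).symm

theorem discr_monicPoly_vieta {n : ℕ} (hn : 0 < n) (y : Fin n → ℂ) :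
    (monicPoly n (vieta y)).discr = vd y ^ 2 := by
  rw [monicPoly_vieta, discr_prod hn]


theorem contDiff_vieta {n : ℕ} : ContDiff ℂ ⊤ (vieta (n := n)) := by
  rw [contDiff_pi]
  intro i
  unfold vieta
  refine contDiff_const.mul (ContDiff.sum fun t _ => ?_)
  exact contDiff_prod fun j _ => contDiff_apply ℂ ℂ j

theorem continuous_vieta {n : ℕ} : Continuous (vieta (n := n)) := contDiff_vieta.continuous

theorem eval_monicPoly {n : ℕ} (z : Fin n → ℂ) (l : ℂ) :
    (monicPoly n z).eval l = l ^ n + ∑ i, z i * l ^ (n - 1 - (i : ℕ)) := by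
  simp [monicPoly, eval_finsetSum]

theorem eval_vieta {n : ℕ} (y : Fin n → ℂ) (l : ℂ) :
    l ^ n + ∑ i, vieta y i * l ^ (n - 1 - (i : ℕ)) = ∏ j, (l - y j) := by
  rw [← eval_monicPoly, monicPoly_vieta, eval_prod]
  simp

theorem norm_le_of_vieta {n : ℕ} (y : Fin n → ℂ) : ‖y‖ ≤ 1 + n * ‖vieta y‖ := by
  have h0 : (0 : ℝ) ≤ 1 + n * ‖vieta y‖ := by positivity
  rw [pi_norm_le_iff_of_nonneg h0]
  intro j
  by_contra hcon
  push Not at hcon
  have h1 := eval_vieta y (y j)
  rw [Finset.prod_eq_zero (Finset.mem_univ j) (sub_self _)] at h1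
  have h2 : y j ^ n = - ∑ i, vieta y i * y j ^ (n - 1 - (i : ℕ)) := by
    linear_combination h1
  have hge : 1 ≤ ‖y j‖ := by
    have : (0:ℝ) ≤ n * ‖vieta y‖ := by positivity
    linarith
  have hn : 0 < n := Nat.pos_of_ne_zero (by rintro rfl; exact j.elim0)
  have h3 : ‖y j‖ ^ n ≤ (n * ‖vieta y‖) * ‖y j‖ ^ (n - 1) := by
    calc ‖y j‖ ^ n = ‖y j ^ n‖ := (norm_pow _ _).symm
      _ = ‖∑ i, vieta y i * y j ^ (n - 1 - (i : ℕ))‖ := by rw [h2, norm_neg]
      _ ≤ ∑ i : Fin n, ‖vieta y i * y j ^ (n - 1 - (i : ℕ))‖ := norm_sum_le _ _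
      _ ≤ ∑ i : Fin n, ‖vieta y‖ * ‖y j‖ ^ (n - 1) := by
          refine Finset.sum_le_sum fun i _ => ?_
          rw [norm_mul, norm_pow]
          exact mul_le_mul (norm_le_pi_norm _ i)
            (pow_le_pow_right₀ hge (by omega)) (by positivity) (by positivity)
      _ = (n * ‖vieta y‖) * ‖y j‖ ^ (n - 1) := by
          simp; ring
  have h4 : ‖y j‖ ^ n = ‖y j‖ * ‖y j‖ ^ (n - 1) := by
    rw [← pow_succ']; congr 1; omega
  rw [h4] at h3
  have h5 : ‖y j‖ ≤ n * ‖vieta y‖ := le_of_mul_le_mul_right h3 (by positivity)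
  linarith

theorem isProperMap_vieta {n : ℕ} (hn : 0 < n) : IsProperMap (vieta (n := n)) := by
  rw [isProperMap_iff_tendsto_cocompact]
  refine ⟨continuous_vieta, ?_⟩
  rw [← Metric.cobounded_eq_cocompact, ← tendsto_norm_atTop_iff_cobounded]
  have h1 : Filter.Tendsto (fun y : Fin n → ℂ => 1 + n * ‖vieta y‖) (Bornology.cobounded _)
      Filter.atTop :=
    Filter.tendsto_atTop_mono norm_le_of_vieta tendsto_norm_cobounded_atTop
  rw [Filter.tendsto_atTop] at h1 ⊢
  intro b
  have h2 := h1 (1 + n * (|b| + 1))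
  filter_upwards [h2] with y hy
  have hn : (0:ℝ) < n := by exact_mod_cast hn
  have : |b| + 1 ≤ ‖vieta y‖ := by
    have := (add_le_add_iff_left 1).mp hy
    exact le_of_mul_le_mul_left this hn
  linarith [le_abs_self b]

theorem hasStrictFDerivAt_vieta {n : ℕ} (y : Fin n → ℂ) :
    HasStrictFDerivAt (vieta (n := n)) (fderiv ℂ vieta y) y :=
  contDiff_vieta.contDiffAt.hasStrictFDerivAt (by simp)

theorem fderiv_vieta_injective {n : ℕ} {y : Fin n → ℂ} (hy : Function.Injective y) :
    Function.Injective (fderiv ℂ (vieta (n := n)) y) := by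
  rw [injective_iff_map_eq_zero]
  intro v hv
  have hline : HasDerivAt (fun t : ℂ => vieta (y + t • v)) (fderiv ℂ vieta y v) 0 := by
    have h1 : HasFDerivAt (vieta (n := n)) (fderiv ℂ vieta y) (y + (0 : ℂ) • v) := by
      simpa using (hasStrictFDerivAt_vieta y).hasFDerivAt
    have h2 : HasDerivAt (fun t : ℂ => y + t • v) v 0 := by
      simpa using ((hasDerivAt_id (0 : ℂ)).smul_const v).const_add y
    exact h1.comp_hasDerivAt (0 : ℂ) h2
  rw [hv] at hline
  funext i
  have h3 : HasDerivAt (fun t : ℂ => y i ^ n +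
      ∑ j, vieta (y + t • v) j * y i ^ (n - 1 - (j : ℕ))) (0 + ∑ j : Fin n, (0 : ℂ)) 0 := by
    refine (hasDerivAt_const _ _).add ?_
    refine HasDerivAt.fun_sum fun j _ => ?_
    have := (hasDerivAt_pi.mp hline j).mul_const (y i ^ (n - 1 - (j : ℕ)))
    simpa using this
  simp only [eval_vieta] at h3
  have h4 : HasDerivAt (fun t : ℂ => ∏ j, (y i - (y + t • v) j))
      (∑ j, (∏ l ∈ Finset.univ.erase j, (y i - (y + (0 : ℂ) • v) l)) • (- v j)) 0 := by
    refine HasDerivAt.fun_finsetProd fun j _ => ?_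
    have : HasDerivAt (fun t : ℂ => y i - (y j + t * v j)) (-(1 * v j)) 0 :=
      (((hasDerivAt_id (0 : ℂ)).mul_const (v j)).const_add (y j)).const_sub (y i)
    simpa using this
  have h5 := h3.unique h4
  have h7 : (∑ j, (∏ l ∈ Finset.univ.erase j, (y i - (y + (0 : ℂ) • v) l)) • (- v j)) =
      (∏ l ∈ Finset.univ.erase i, (y i - y l)) * (- v i) := by
    rw [Finset.sum_eq_single i]
    · simp
    · intro j _ hj
      rw [Finset.prod_eq_zero (i := i)]
      · simp
      · simp [Ne.symm hj]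
      · simp
    · simp
  rw [h7] at h5
  have h6 : ∏ l ∈ Finset.univ.erase i, (y i - y l) ≠ 0 := by
    rw [Finset.prod_ne_zero_iff]
    intro l hl
    rw [Finset.mem_erase] at hl
    exact sub_ne_zero.mpr (fun h => hl.1 (hy h).symm)
  have h8 : (0 : ℂ) = (∏ l ∈ Finset.univ.erase i, (y i - y l)) * (- v i) := by
    rw [← h5]; simp
  have h9 := (mul_eq_zero.mp h8.symm).resolve_left h6
  simpa using h9

/-- derivative of Vieta map as a continuous linear equivalence -/
noncomputable def vietaEquiv {n : ℕ} {y : Fin n → ℂ} (hy : Function.Injective y) :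
    (Fin n → ℂ) ≃L[ℂ] (Fin n → ℂ) :=
  (LinearEquiv.ofInjectiveEndo (fderiv ℂ (vieta (n := n)) y : (Fin n → ℂ) →ₗ[ℂ] (Fin n → ℂ))
    (fderiv_vieta_injective hy)).toContinuousLinearEquiv

theorem vietaEquiv_coe {n : ℕ} {y : Fin n → ℂ} (hy : Function.Injective y) :
    ((vietaEquiv hy : (Fin n → ℂ) ≃L[ℂ] (Fin n → ℂ)) : (Fin n → ℂ) →L[ℂ] (Fin n → ℂ)) =
      fderiv ℂ (vieta (n := n)) y := by
  ext v
  rfl

theorem hasStrictFDerivAt_vieta' {n : ℕ} {y : Fin n → ℂ} (hy : Function.Injective y) :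
    HasStrictFDerivAt (vieta (n := n)) (vietaEquiv hy : (Fin n → ℂ) →L[ℂ] (Fin n → ℂ)) y := by
  rw [vietaEquiv_coe]
  exact hasStrictFDerivAt_vieta y

/-- coefficient vectors of monic polynomials with distinct roots -/
def Reg (n : ℕ) : Set (Fin n → ℂ) := {z | ∃ y : Fin n → ℂ, Function.Injective y ∧ vieta y = z}

theorem injective_of_vieta_mem_reg {n : ℕ} {y : Fin n → ℂ} (h : vieta y ∈ Reg n) :
    Function.Injective y := by
  obtain ⟨y', hy', h'⟩ := h
  rcases Nat.eq_zero_or_pos n with h0 | h0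
  · subst h0; exact fun a => a.elim0
  · have h1 := discr_monicPoly_vieta h0 y
    rw [← h', discr_monicPoly_vieta h0 y'] at h1
    rw [← vd_ne_zero_iff] at hy' ⊢
    intro h2
    rw [h2] at h1
    simp at h1
    exact hy' h1

theorem isCoveringMapOn_vieta {n : ℕ} (hn : 0 < n) : IsCoveringMapOn (vieta (n := n)) (Reg n) := by
  refine (isProperMap_vieta hn).isClosedMap.isCoveringMapOn_of_isLocalHomeomorphOn ?_ ?_
  · rintro z ⟨y', hy', rfl⟩
    refine Set.Finite.subset (Set.finite_range fun σ : Equiv.Perm (Fin n) => y' ∘ σ) ?_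
    intro y hy
    have hy2 : vieta y = vieta y' := hy
    have hinj : Function.Injective y := injective_of_vieta_mem_reg ⟨y', hy', hy2.symm⟩
    obtain ⟨σ, hσ⟩ := exists_perm_of_vieta_eq hinj hy2
    exact ⟨σ, hσ.symm⟩
  · intro y hy
    have hinj : Function.Injective y := injective_of_vieta_mem_reg hy
    exact ⟨(hasStrictFDerivAt_vieta' hinj).toOpenPartialHomeomorph _,
      (hasStrictFDerivAt_vieta' hinj).mem_toOpenPartialHomeomorph_source, by simp⟩

end Pool.Agent.Lib.MP_7b99f3_ag
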