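import Pool.Agent.Lib.MP_7b99f3_ag.Planar

set_option autoImplicit false

namespace Pool.Agent.Lib.MP_7b99f3_ag

open Set Filter Topology Metric

/-- A continuous nowhere zero `u : ℝ → ℂ` has a continuous logarithm. -/
lemma exists_log_real {u : ℝ → ℂ} (hu : Continuous u) (h0 : ∀ t, u t ≠ 0) :
    ∃ h : ℝ → ℂ, Continuous h ∧ ∀ t, Complex.exp (h t) = u t :=
  planar_exists_log u hu h0

open Classical in
/-- The winding number of a loop `u : ℝ → ℂ` (only `[0,1]` matters for a continuous `u` without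
zeros and with `u 0 = u 1`); it is `0` for all other `u`. -/
noncomputable def wind (u : ℝ → ℂ) : ℤ :=
  if h : ∃ n : ℤ, ∃ h : ℝ → ℂ, Continuous h ∧ (∀ t, Complex.exp (h t) = u t) ∧
    h 1 - h 0 = 2 * Real.pi * Complex.I * n then h.choose else 0

lemma exists_int_of_exp_eq {a b : ℂ} (h : Complex.exp a = Complex.exp b) :
    ∃ n : ℤ, a - b = 2 * Real.pi * Complex.I * n := by
  rw [Complex.exp_eq_exp_iff_exists_int] at h
  obtain ⟨n, hn⟩ := h
  exact ⟨n, by rw [hn]; ring⟩

lemma two_pi_I_mul_int_inj {m n : ℤ}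
    (h : (2 * Real.pi * Complex.I * m : ℂ) = 2 * Real.pi * Complex.I * n) : m = n := by
  have := mul_left_cancel₀ Complex.two_pi_I_ne_zero h
  exact_mod_cast this

lemma log_diff_eq {u : ℝ → ℂ} {g h : ℝ → ℂ} (hg : Continuous g) (hh : Continuous h)
    (hgu : ∀ t, Complex.exp (g t) = u t) (hhu : ∀ t, Complex.exp (h t) = u t) :
    g 1 - g 0 = h 1 - h 0 := by
  have h1 : g = fun t => h t + (g 0 - h 0) := by
    refine planar_eq_of_exp_eq hg (by fun_prop) ?_ 0 (by simp)
    intro t
    have hne : u 0 ≠ 0 := by rw [← hgu 0]; exact Complex.exp_ne_zero _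
    rw [Complex.exp_add, Complex.exp_sub, hgu, hhu, hgu, hhu, div_self hne, mul_one]
  have h2 := congrFun h1 1
  rw [h2]
  ring

/-- The defining property of the winding number. -/
theorem wind_spec {u h : ℝ → ℂ} (hh : Continuous h) (hu : ∀ t, Complex.exp (h t) = u t)
    (hcl : u 0 = u 1) : h 1 - h 0 = 2 * Real.pi * Complex.I * wind u := by
  obtain ⟨n, hn⟩ := exists_int_of_exp_eq (a := h 1) (b := h 0) (by rw [hu, hu, hcl])
  have hex : ∃ n : ℤ, ∃ h : ℝ → ℂ, Continuous h ∧ (∀ t, Complex.exp (h t) = u t) ∧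
    h 1 - h 0 = 2 * Real.pi * Complex.I * n := ⟨n, h, hh, hu, hn⟩
  have hw : wind u = hex.choose := by
    unfold wind
    rw [dif_pos hex]
  obtain ⟨g, hg, hgu, hgn⟩ := hex.choose_spec
  rw [hw, ← hgn]
  exact (log_diff_eq hg hh hgu hu).symm

theorem wind_eq_of_log {u h : ℝ → ℂ} {n : ℤ} (hh : Continuous h)
    (hu : ∀ t, Complex.exp (h t) = u t) (hn : h 1 - h 0 = 2 * Real.pi * Complex.I * n) :
    wind u = n := by
  have hcl : u 0 = u 1 := by
    rw [← hu, ← hu]
    have : h 1 = h 0 + n * (2 * Real.pi * Complex.I) := by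
      rw [← sub_eq_iff_eq_add', hn]; ring
    rw [this, Complex.exp_add, Complex.exp_int_mul_two_pi_mul_I, mul_one]
  have := wind_spec hh hu hcl
  rw [hn] at this
  exact (two_pi_I_mul_int_inj this).symm

theorem wind_eq_zero_iff {u : ℝ → ℂ} (hu : Continuous u) (h0 : ∀ t, u t ≠ 0) (hcl : u 0 = u 1) :
    wind u = 0 ↔ ClosedLog u := by
  constructor
  · intro hw
    obtain ⟨h, hh, hhu⟩ := exists_log_real hu h0
    have := wind_spec hh hhu hcl
    rw [hw] at this
    refine ⟨h, hh, ?_, hhu⟩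
    simpa [sub_eq_zero] using this
  · rintro ⟨h, hh, h1, hhu⟩
    exact wind_eq_of_log hh hhu (by rw [h1]; simp)

theorem wind_const (c : ℂ) (hc : c ≠ 0) : wind (fun _ => c) = 0 :=
  wind_eq_of_log (h := fun _ => Complex.log c) continuous_const (fun _ => Complex.exp_log hc)
    (by simp)

theorem wind_mul {u v : ℝ → ℂ} (hu : Continuous u) (hu0 : ∀ t, u t ≠ 0) (hcu : u 0 = u 1)
    (hv : Continuous v) (hv0 : ∀ t, v t ≠ 0) (hcv : v 0 = v 1) :
    wind (fun t => u t * v t) = wind u + wind v := by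
  obtain ⟨g, hg, hgu⟩ := exists_log_real hu hu0
  obtain ⟨h, hh, hhv⟩ := exists_log_real hv hv0
  refine wind_eq_of_log (h := fun t => g t + h t) (by fun_prop) ?_ ?_
  · intro t
    rw [Complex.exp_add, hgu, hhv]
  · have h1 := wind_spec hg hgu hcu
    have h2 := wind_spec hh hhv hcv
    push_cast
    linear_combination h1 + h2

theorem wind_inv {u : ℝ → ℂ} (hu : Continuous u) (hu0 : ∀ t, u t ≠ 0) (hcu : u 0 = u 1) :
    wind (fun t => (u t)⁻¹) = - wind u := by
  obtain ⟨g, hg, hgu⟩ := exists_log_real hu hu0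
  refine wind_eq_of_log (h := fun t => - g t) (by fun_prop) ?_ ?_
  · intro t
    rw [Complex.exp_neg, hgu]
  · have h1 := wind_spec hg hgu hcu
    push_cast
    linear_combination - h1

theorem wind_pow {u : ℝ → ℂ} (hu : Continuous u) (hu0 : ∀ t, u t ≠ 0) (hcu : u 0 = u 1) (n : ℕ) :
    wind (fun t => (u t) ^ n) = n * wind u := by
  obtain ⟨g, hg, hgu⟩ := exists_log_real hu hu0
  refine wind_eq_of_log (h := fun t => n * g t) (by fun_prop) ?_ ?_
  · intro t
    rw [Complex.exp_nat_mul, hgu]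
  · have h1 := wind_spec hg hgu hcu
    push_cast
    linear_combination (n : ℂ) * h1

theorem wind_prod {ι : Type*} (s : Finset ι) {u : ι → ℝ → ℂ} (hu : ∀ i ∈ s, Continuous (u i))
    (hu0 : ∀ i ∈ s, ∀ t, u i t ≠ 0) (hcu : ∀ i ∈ s, u i 0 = u i 1) :
    wind (fun t => ∏ i ∈ s, u i t) = ∑ i ∈ s, wind (u i) := by
  classical
  induction s using Finset.induction_on with
  | empty => simpa using wind_const 1 one_ne_zero
  | insert i s his ih =>
    have hs : ∀ j ∈ s, j ∈ insert i s := fun j hj => Finset.mem_insert_of_mem hj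
    simp_rw [Finset.prod_insert his, Finset.sum_insert his]
    rw [wind_mul (hu i (Finset.mem_insert_self _ _)) (hu0 i (Finset.mem_insert_self _ _))
      (hcu i (Finset.mem_insert_self _ _))
      (continuous_finsetProd _ fun j hj => hu j (hs j hj))
      (fun t => Finset.prod_ne_zero_iff.mpr fun j hj => hu0 j (hs j hj) t)
      (Finset.prod_congr rfl fun j hj => hcu j (hs j hj)),
      ih (fun j hj => hu j (hs j hj)) (fun j hj => hu0 j (hs j hj)) (fun j hj => hcu j (hs j hj))]

/-- Homotopy invariance of the winding number. -/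
theorem wind_homotopy {u : ℝ × ℝ → ℂ} (hu : Continuous u) (hne : ∀ p, u p ≠ 0)
    (hper : ∀ s, u (s, 0) = u (s, 1)) (a b : ℝ) :
    wind (fun t => u (a, t)) = wind (fun t => u (b, t)) := by
  obtain ⟨L, hL, hLu⟩ := planar_exists_log u hu hne
  have h3 : (fun s : ℝ => L (s, 1) - L (s, 0)) = fun _ => L (a, 1) - L (a, 0) := by
    refine planar_eq_of_exp_eq (by fun_prop) (by fun_prop) ?_ a rfl
    intro s
    rw [Complex.exp_sub, Complex.exp_sub, hLu, hLu, hLu, hLu, hper, hper, div_self (hne _),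
      div_self (hne _)]
  have ha := wind_spec (h := fun t => L (a, t)) (u := fun t => u (a, t)) (by fun_prop)
    (fun t => hLu _) (hper a)
  refine (wind_eq_of_log (h := fun t => L (b, t)) (by fun_prop) (fun t => hLu _) ?_).symm
  rw [← ha]
  exact congrFun h3 b

/-- The winding number is determined by the values on `[0,1]`. -/
theorem wind_congr {u v : ℝ → ℂ} (hu : Continuous u) (hu0 : ∀ t, u t ≠ 0) (hcu : u 0 = u 1)
    (hv : Continuous v) (hv0 : ∀ t, v t ≠ 0) (h : ∀ t ∈ Icc (0:ℝ) 1, u t = v t) :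
    wind u = wind v := by
  obtain ⟨g, hg, hgu⟩ := exists_log_real hu hu0
  obtain ⟨k, hk, hkv⟩ := exists_log_real hv hv0
  have h0 : u 0 = v 0 := h 0 (by simp)
  have h1 : u 1 = v 1 := h 1 (by simp)
  have hcl : v 0 = v 1 := by rw [← h0, ← h1, hcu]
  have hg1 := wind_spec hg hgu hcu
  have hk1 := wind_spec hk hkv hcl
  let p : ℝ → ℝ := fun t => max 0 (min t 1)
  have hp : ∀ t, p t ∈ Icc (0:ℝ) 1 := fun t => ⟨le_max_left _ _, max_le zero_le_one (min_le_right _ _)⟩
  have hpc : Continuous p := by fun_prop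
  have key : (fun t => g (p t)) = fun t => k (p t) + (g 0 - k 0) := by
    refine planar_eq_of_exp_eq (hg.comp hpc) ((hk.comp hpc).add continuous_const) ?_ 0 ?_
    · intro t
      have h2 : u 0 ≠ 0 := hu0 0
      rw [Complex.exp_add, Complex.exp_sub, hgu, hkv, hgu, hkv, ← h0, div_self h2, mul_one]
      exact h _ (hp t)
    · simp [p]
  have h2 := congrFun key 1
  have hp1 : p 1 = 1 := by simp [p]
  simp only [hp1] at h2
  have h3 : g 1 - g 0 = k 1 - k 0 := by rw [h2]; ring
  rw [h3, hk1] at hg1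
  exact (two_pi_I_mul_int_inj hg1).symm

/-- Planar lemma with winding numbers. -/
theorem wind_planar {S : Finset ℂ} {c : ℂ} {R : ℝ} (hR : 0 < R)
    (hS : ∀ s ∈ S, s ∈ Metric.ball c R)
    {φ : ℂ → ℂ} (hφ : ContinuousOn φ (Metric.closedBall c R \ S))
    (hne : ∀ z ∈ Metric.closedBall c R \ (S : Set ℂ), φ z ≠ 0)
    (hz : ∀ s ∈ S, ∃ ε > 0, Metric.closedBall s ε ⊆ Metric.ball c R ∧
      (∀ s' ∈ S, s' ∈ Metric.closedBall s ε → s' = s) ∧
      wind (fun t => φ (s + ε * Complex.exp (2 * Real.pi * Complex.I * t))) = 0) :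
    wind (fun t => φ (c + R * Complex.exp (2 * Real.pi * Complex.I * t))) = 0 := by
  have hcl : ∀ (s : ℂ) (ε : ℝ), φ (s + ε * Complex.exp (2 * Real.pi * Complex.I * ((0:ℝ):ℂ))) =
      φ (s + ε * Complex.exp (2 * Real.pi * Complex.I * ((1:ℝ):ℂ))) := by
    intro s ε
    have := cpt_one s ε
    unfold cpt at this
    rw [this]
  have hmem : ∀ t : ℝ, c + R * Complex.exp (2 * Real.pi * Complex.I * t) ∈
      closedBall c R \ (S : Set ℂ) := by
    intro t
    have hd := dist_cpt c R t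
    rw [abs_of_pos hR] at hd
    unfold cpt at hd
    refine ⟨by rw [mem_closedBall, hd], fun hcon => ?_⟩
    have h2 := hS _ (by simpa using hcon)
    rw [mem_ball, hd] at h2
    exact lt_irrefl _ h2
  have hcont : Continuous fun t : ℝ => φ (c + R * Complex.exp (2 * Real.pi * Complex.I * t)) :=
    hφ.comp_continuous (by fun_prop) hmem
  rw [wind_eq_zero_iff hcont (fun t => hne _ (hmem t)) (hcl c R)]
  refine planar_log hR hS hφ hne ?_
  intro s hs
  obtain ⟨ε, hε, hsub, huniq, hw⟩ := hz s hs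
  refine ⟨ε, hε, hsub, huniq, ?_⟩
  have hmem2 : ∀ t : ℝ, s + ε * Complex.exp (2 * Real.pi * Complex.I * t) ∈
      closedBall c R \ (S : Set ℂ) := by
    intro t
    have hd := dist_cpt s ε t
    rw [abs_of_pos hε] at hd
    unfold cpt at hd
    have hin : s + ε * Complex.exp (2 * Real.pi * Complex.I * t) ∈ closedBall s ε := by
      rw [mem_closedBall, hd]
    refine ⟨ball_subset_closedBall (hsub hin), fun hcon => ?_⟩
    have h2 := huniq _ (by simpa using hcon) hin
    rw [h2, dist_self] at hd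
    exact absurd hd hε.ne
  have hcont2 : Continuous fun t : ℝ => φ (s + ε * Complex.exp (2 * Real.pi * Complex.I * t)) :=
    hφ.comp_continuous (by fun_prop) hmem2
  exact (wind_eq_zero_iff hcont2 (fun t => hne _ (hmem2 t)) (hcl s ε)).mp hw

end Pool.Agent.Lib.MP_7b99f3_ag
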